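import Pool.Agent.Q73.PW.Defs
import Pool.Agent.H66R2.RZ_Par

/-!
# Project PW, job J2: calculus and smoothness of `fA`, `fB`
-/

set_option autoImplicit false
open MeasureTheory Filter Topology Real
open scoped ContDiff

namespace Pool.Agent.Q73.PW

namespace J2

open Pool.Agent.H66R2.RZPar

/-- smoothness of a primitive with a parameter -/
theorem smooth_prim (g : ℝ × ℝ → ℝ) (hg : ContDiff ℝ ∞ g) :
    ContDiff ℝ ∞ (fun p : ℝ × ℝ => ∫ t in (0 : ℝ)..p.2, g (p.1, t)) := by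
  have h1 : ContDiff ℝ ∞ (fun q : (ℝ × ℝ) × ℝ => g (q.1.1, q.1.2 * q.2)) := by
    apply hg.comp
    fun_prop
  have h2 := contDiff_int 0 1 (ℝ × ℝ) ℝ _ h1
  have h3 : ContDiff ℝ ∞ (fun p : ℝ × ℝ => p.2 * ∫ u in (0 : ℝ)..1, g (p.1, p.2 * u)) :=
    contDiff_snd.mul h2
  have e : (fun p : ℝ × ℝ => ∫ t in (0 : ℝ)..p.2, g (p.1, t)) =
      fun p : ℝ × ℝ => p.2 * ∫ u in (0 : ℝ)..1, g (p.1, p.2 * u) := by
    funext p
    have := intervalIntegral.mul_integral_comp_mul_left (a := 0) (b := 1)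
      (f := fun t => g (p.1, t)) p.2
    rw [this]
    simp
  rw [e]
  exact h3

/-- differentiation under the integral -/
theorem deriv_int (g : ℝ × ℝ → ℝ) (hg : ContDiff ℝ ∞ g) (r a b : ℝ) (g' : ℝ → ℝ)
    (hd : ∀ t, HasDerivAt (fun x => g (x, t)) (g' t) r) :
    HasDerivAt (fun x => ∫ t in a..b, g (x, t)) (∫ t in a..b, g' t) r := by
  have hc : Continuous (fun p : ℝ × ℝ => fderiv ℝ g p (1, 0)) := by
    have h1 : ContDiff ℝ ∞ (fderiv ℝ g) := hg.fderiv_right (m := ∞) (by simp)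
    exact h1.continuous.clm_apply continuous_const
  have hD : ∀ x t, HasDerivAt (fun z => g (z, t)) (fderiv ℝ g (x, t) (1, 0)) x := by
    intro x t
    have h1 : HasFDerivAt g (fderiv ℝ g (x, t)) (x, t) :=
      ((hg.differentiable (by simp)) (x, t)).hasFDerivAt
    have h2 : HasDerivAt (fun z : ℝ => (z, t)) ((1 : ℝ), (0 : ℝ)) x :=
      (hasDerivAt_id x).prodMk (hasDerivAt_const x t)
    exact h1.comp_hasDerivAt x h2
  have h := hasDerivAt_int a b g (fun p => fderiv ℝ g p (1, 0)) hg.continuous hc hD r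
  have e : (fun t => fderiv ℝ g (r, t) (1, 0)) = g' := by
    funext t
    exact (hD r t).unique (hd t)
  have e2 : (∫ t in a..b, fderiv ℝ g (r, t) (1, 0)) = ∫ t in a..b, g' t := by
    rw [← e]
  rw [← e2]
  exact h

theorem scd_smooth {Φ : ℝ → ℝ} (h : ContDiff ℝ ∞ Φ) : ContDiff ℝ ∞ (scd Φ) := by
  have h1 : ContDiff ℝ ∞ (deriv Φ) := h.deriv'
  exact contDiff_id.mul h1

theorem comp_smooth {Φ : ℝ → ℝ} (h : ContDiff ℝ ∞ Φ) :
    ContDiff ℝ ∞ (fun p : ℝ × ℝ => Φ (p.1 * cos p.2)) := by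
  apply h.comp
  exact contDiff_fst.mul (contDiff_cos.comp contDiff_snd)

theorem mn_smooth {Φ : ℝ → ℝ} (h : ContDiff ℝ ∞ Φ) : ContDiff ℝ ∞ (fun r => mn Φ r) := by
  unfold mn
  exact (contDiff_int 0 π ℝ ℝ _ (comp_smooth h)).div_const _

theorem int_smooth {Φ : ℝ → ℝ} (h : ContDiff ℝ ∞ Φ) :
    ContDiff ℝ ∞ (fun p : ℝ × ℝ => Φ (p.1 * cos p.2) - mn Φ p.1) :=
  (comp_smooth h).sub ((mn_smooth h).comp contDiff_fst)

theorem fA_smooth {Φ : ℝ → ℝ} (h : ContDiff ℝ ∞ Φ) :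
    ContDiff ℝ ∞ (fun p : ℝ × ℝ => fA Φ p.1 p.2) :=
  smooth_prim _ (int_smooth h)

theorem be_smooth {Φ : ℝ → ℝ} (h : ContDiff ℝ ∞ Φ) :
    ContDiff ℝ ∞ (fun p : ℝ × ℝ => be Φ p.1 p.2) := by
  have h1 := fA_smooth h
  have h2 := fA_smooth (scd_smooth h)
  have h3 := int_smooth h
  have h4 : ContDiff ℝ ∞ (fun p : ℝ × ℝ => sin p.2) := contDiff_sin.comp contDiff_snd
  have h5 : ContDiff ℝ ∞ (fun p : ℝ × ℝ => cos p.2) := contDiff_cos.comp contDiff_snd
  exact (((h4.pow 2).mul h2).add ((h4.mul h5).mul h3)).sub h1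

theorem fB_smooth {Φ : ℝ → ℝ} (h : ContDiff ℝ ∞ Φ) :
    ContDiff ℝ ∞ (fun p : ℝ × ℝ => fB Φ p.1 p.2) := by
  unfold fB
  exact (smooth_prim (fun p => be Φ p.1 p.2) (be_smooth h)).div_const _

theorem d_comp {Φ : ℝ → ℝ} (h : ContDiff ℝ ∞ Φ) {r : ℝ} (hr : r ≠ 0) (t : ℝ) :
    HasDerivAt (fun x => Φ (x * cos t)) (scd Φ (r * cos t) / r) r := by
  have h1 : HasDerivAt Φ (deriv Φ (r * cos t)) (r * cos t) :=
    (h.differentiable (by simp) _).hasDerivAt
  have h2 : HasDerivAt (fun x : ℝ => x * cos t) (1 * cos t) r := (hasDerivAt_id r).mul_const _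
  have h3 := h1.comp r h2
  have e : deriv Φ (r * cos t) * (1 * cos t) = scd Φ (r * cos t) / r := by
    unfold scd
    field_simp
  rw [← e]
  exact h3

theorem d_mn {Φ : ℝ → ℝ} (h : ContDiff ℝ ∞ Φ) {r : ℝ} (hr : r ≠ 0) :
    HasDerivAt (fun x => mn Φ x) (mn (scd Φ) r / r) r := by
  have h1 := deriv_int _ (comp_smooth h) r 0 π (fun t => scd Φ (r * cos t) / r)
    (fun t => d_comp h hr t)
  have h2 := h1.div_const π
  have e : (∫ t in (0 : ℝ)..π, scd Φ (r * cos t) / r) / π = mn (scd Φ) r / r := by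
    unfold mn
    rw [intervalIntegral.integral_div]
    field_simp
  rw [← e]
  exact h2

theorem d_fA {Φ : ℝ → ℝ} (h : ContDiff ℝ ∞ Φ) {r : ℝ} (hr : r ≠ 0) (θ : ℝ) :
    HasDerivAt (fun x => fA Φ x θ) (fA (scd Φ) r θ / r) r := by
  have h1 := deriv_int _ (int_smooth h) r 0 θ
    (fun t => (scd Φ (r * cos t) - mn (scd Φ) r) / r) (fun t => by
      have := (d_comp h hr t).sub (d_mn h hr)
      have e : (scd Φ (r * cos t) - mn (scd Φ) r) / r =
        scd Φ (r * cos t) / r - mn (scd Φ) r / r := sub_div _ _ _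
      rw [e]
      exact this)
  have e : (∫ t in (0 : ℝ)..θ, (scd Φ (r * cos t) - mn (scd Φ) r) / r) = fA (scd Φ) r θ / r := by
    unfold fA
    rw [intervalIntegral.integral_div]
  rw [← e]
  exact h1

theorem d_be {Φ : ℝ → ℝ} (h : ContDiff ℝ ∞ Φ) {r : ℝ} (hr : r ≠ 0) (θ : ℝ) :
    HasDerivAt (fun x => be Φ x θ) (be (scd Φ) r θ / r) r := by
  have h1 := (d_fA (scd_smooth h) hr θ).const_mul (sin θ ^ 2)
  have h2 := ((d_comp h hr θ).sub (d_mn h hr)).const_mul (sin θ * cos θ)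
  have h3 := d_fA h hr θ
  have h4 := (h1.add h2).sub h3
  have e : be (scd Φ) r θ / r = sin θ ^ 2 * (fA (scd (scd Φ)) r θ / r) +
      sin θ * cos θ * (scd Φ (r * cos θ) / r - mn (scd Φ) r / r) - fA (scd Φ) r θ / r := by
    unfold be
    ring
  rw [e]
  exact h4

theorem d_fB {Φ : ℝ → ℝ} (h : ContDiff ℝ ∞ Φ) {r : ℝ} (hr : r ≠ 0) (θ : ℝ) :
    HasDerivAt (fun x => fB Φ x θ) (fB (scd Φ) r θ / r) r := by
  have h1 := deriv_int (fun p => be Φ p.1 p.2) (be_smooth h) r 0 θ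
    (fun t => be (scd Φ) r t / r) (fun t => d_be h hr t)
  have h2 := h1.div_const 2
  have e : (∫ t in (0 : ℝ)..θ, be (scd Φ) r t / r) / 2 = fB (scd Φ) r θ / r := by
    unfold fB
    rw [intervalIntegral.integral_div]
    ring
  rw [← e]
  exact h2

theorem t_fA {Φ : ℝ → ℝ} (h : ContDiff ℝ ∞ Φ) (r θ : ℝ) :
    HasDerivAt (fun x => fA Φ r x) (Φ (r * cos θ) - mn Φ r) θ := by
  have hc : Continuous (fun t => Φ (r * cos t) - mn Φ r) :=
    (int_smooth h).continuous.comp (Continuous.prodMk_right r)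
  exact intervalIntegral.integral_hasDerivAt_right (hc.intervalIntegrable _ _)
    hc.aestronglyMeasurable.stronglyMeasurableAtFilter hc.continuousAt

theorem c_be {Φ : ℝ → ℝ} (h : ContDiff ℝ ∞ Φ) (r : ℝ) :
    Continuous (fun t => be Φ r t) :=
  Continuous.comp (g := fun p : ℝ × ℝ => be Φ p.1 p.2) (f := fun t => (r, t))
    (be_smooth h).continuous (Continuous.prodMk_right r)

theorem t_fB {Φ : ℝ → ℝ} (h : ContDiff ℝ ∞ Φ) (r θ : ℝ) :
    HasDerivAt (fun x => fB Φ r x) (be Φ r θ / 2) θ := by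
  have hc : Continuous (fun t => be Φ r t) := c_be h r
  exact (intervalIntegral.integral_hasDerivAt_right (hc.intervalIntegrable _ _)
    hc.aestronglyMeasurable.stronglyMeasurableAtFilter hc.continuousAt).div_const 2

theorem c_comp {Φ : ℝ → ℝ} (h : ContDiff ℝ ∞ Φ) (r : ℝ) : Continuous (fun t => Φ (r * cos t)) :=
  (comp_smooth h).continuous.comp (Continuous.prodMk_right r)

theorem lin_mn {Φ Ψ : ℝ → ℝ} (h : ContDiff ℝ ∞ Φ) (h' : ContDiff ℝ ∞ Ψ) (c r : ℝ) :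
    mn (fun x => Φ x - c * Ψ x) r = mn Φ r - c * mn Ψ r := by
  unfold mn
  rw [intervalIntegral.integral_sub ((c_comp h r).intervalIntegrable _ _)
    (((c_comp h' r).const_mul c).intervalIntegrable _ _), intervalIntegral.integral_const_mul]
  ring

theorem lin_scd {Φ Ψ : ℝ → ℝ} (h : ContDiff ℝ ∞ Φ) (h' : ContDiff ℝ ∞ Ψ) (c : ℝ) :
    scd (fun x => Φ x - c * Ψ x) = fun x => scd Φ x - c * scd Ψ x := by
  funext x
  unfold scd
  have h1 : HasDerivAt Φ (deriv Φ x) x := (h.differentiable (by simp) _).hasDerivAt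
  have h2 : HasDerivAt Ψ (deriv Ψ x) x := (h'.differentiable (by simp) _).hasDerivAt
  have h3 : deriv (fun x => Φ x - c * Ψ x) x = deriv Φ x - c * deriv Ψ x :=
    (h1.sub (h2.const_mul c)).deriv
  rw [h3]
  ring

theorem c_int {Φ : ℝ → ℝ} (h : ContDiff ℝ ∞ Φ) (r : ℝ) :
    Continuous (fun t => Φ (r * cos t) - mn Φ r) :=
  (int_smooth h).continuous.comp (Continuous.prodMk_right r)

theorem lin_fA {Φ Ψ : ℝ → ℝ} (h : ContDiff ℝ ∞ Φ) (h' : ContDiff ℝ ∞ Ψ) (c r θ : ℝ) :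
    fA (fun x => Φ x - c * Ψ x) r θ = fA Φ r θ - c * fA Ψ r θ := by
  have e : (fun t => (Φ (r * cos t) - c * Ψ (r * cos t)) - mn (fun x => Φ x - c * Ψ x) r) =
      fun t => (Φ (r * cos t) - mn Φ r) - c * (Ψ (r * cos t) - mn Ψ r) := by
    funext t
    rw [lin_mn h h']
    ring
  have : fA (fun x => Φ x - c * Ψ x) r θ =
      ∫ t in (0 : ℝ)..θ, ((Φ (r * cos t) - mn Φ r) - c * (Ψ (r * cos t) - mn Ψ r)) := by
    show (∫ t in (0 : ℝ)..θ, ((Φ (r * cos t) - c * Ψ (r * cos t)) -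
      mn (fun x => Φ x - c * Ψ x) r)) = _
    rw [e]
  rw [this, intervalIntegral.integral_sub ((c_int h r).intervalIntegrable _ _)
    (((c_int h' r).const_mul c).intervalIntegrable _ _), intervalIntegral.integral_const_mul]
  rfl

theorem lin_be {Φ Ψ : ℝ → ℝ} (h : ContDiff ℝ ∞ Φ) (h' : ContDiff ℝ ∞ Ψ) (c r θ : ℝ) :
    be (fun x => Φ x - c * Ψ x) r θ = be Φ r θ - c * be Ψ r θ := by
  unfold be
  rw [lin_scd h h', lin_fA (scd_smooth h) (scd_smooth h'), lin_fA h h', lin_mn h h']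
  ring

theorem lin_fB {Φ Ψ : ℝ → ℝ} (h : ContDiff ℝ ∞ Φ) (h' : ContDiff ℝ ∞ Ψ) (c r θ : ℝ) :
    fB (fun x => Φ x - c * Ψ x) r θ = fB Φ r θ - c * fB Ψ r θ := by
  unfold fB
  have e : (fun t => be (fun x => Φ x - c * Ψ x) r t) = fun t => be Φ r t - c * be Ψ r t := by
    funext t
    exact lin_be h h' c r t
  rw [e, intervalIntegral.integral_sub ((c_be h r).intervalIntegrable _ _)
    (((c_be h' r).const_mul c).intervalIntegrable _ _), intervalIntegral.integral_const_mul]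
  ring

end J2

theorem j2 : J2 := by
  intro Φ h
  exact ⟨J2.mn_smooth h, J2.fA_smooth h, J2.be_smooth h, J2.fB_smooth h,
    fun r hr => J2.d_mn h hr, fun r θ => J2.t_fA h r θ, fun r θ hr => J2.d_fA h hr θ,
    fun r θ => J2.t_fB h r θ, fun r θ hr => J2.d_fB h hr θ,
    fun Ψ h' c r θ => J2.lin_fB h h' c r θ⟩

end Pool.Agent.Q73.PW
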