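import Pool.Agent.Q73.PW.Stm2
import Pool.Agent.Q73.PW.J2

/-!
# Project PW, jobs J10 and J11: the inequality for sequences, the energy identity
-/

set_option autoImplicit false
open MeasureTheory Filter Topology Real
open scoped ContDiff ENNReal

namespace Pool.Agent.Q73.PW

open Pool.Agent.Results.MP_a52643_an.AbsoluteContinuity (lapl LocL2 Test)

namespace J10

theorem test_zero {Ω : Set ℂ} {χ : ℂ → ℝ} (h : Test Ω χ) {z : ℂ} (hz : z ∉ Ω) : χ z = 0 := by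
  by_contra hne
  exact hz (h.2.2.1 (subset_tsupport χ hne))

theorem cont_mul {Ω : Set ℂ} {χ F : ℂ → ℝ} (hΩ : IsOpen Ω) (h : Test Ω χ)
    (hF : ContinuousOn F Ω) : Continuous (fun z => χ z * F z) := by
  rw [continuous_iff_continuousAt]
  intro z
  by_cases hz : z ∈ Ω
  · exact h.1.continuous.continuousAt.mul (hF.continuousAt (hΩ.mem_nhds hz))
  · have h1 : z ∉ tsupport χ := fun h' => hz (h.2.2.1 h')
    have h2 : (fun z => χ z * F z) =ᶠ[𝓝 z] fun _ => 0 := by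
      have := notMem_tsupport_iff_eventuallyEq.mp h1
      filter_upwards [this] with w hw
      rw [hw]
      simp
    exact (continuousAt_const.congr h2.symm)

theorem integ_mul {Ω : Set ℂ} {χ F : ℂ → ℝ} (hΩ : IsOpen Ω) (h : Test Ω χ)
    (hF : ContinuousOn F Ω) : Integrable (fun z => χ z * F z) :=
  (cont_mul hΩ h hF).integrable_of_hasCompactSupport (h.2.1.mul_right)

theorem integ_mul2 {Ω : Set ℂ} {χ ρ F : ℂ → ℝ} (hΩ : IsOpen Ω) (h : Test Ω χ)
    (hρ : ContinuousOn ρ Ω) (hF : ContinuousOn F Ω) : Integrable (fun z => χ z * ρ z * F z) := by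
  have := integ_mul hΩ h (hρ.mul hF)
  refine this.congr (Eventually.of_forall fun z => ?_)
  show χ z * (ρ z * F z) = χ z * ρ z * F z
  ring

theorem U1_cont {Ω : Set ℂ} {u : ℂ → ℝ} (hΩ : IsOpen Ω) (hu : ContDiffOn ℝ ∞ u Ω) :
    ContinuousOn (U1 u) Ω := by
  have h1 := hu.continuousOn_fderiv_of_isOpen hΩ (by simp)
  exact h1.clm_apply continuousOn_const

theorem U2_cont {Ω : Set ℂ} {u : ℂ → ℝ} (hΩ : IsOpen Ω) (hu : ContDiffOn ℝ ∞ u Ω) :
    ContinuousOn (U2 u) Ω := by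
  have h1 := hu.continuousOn_fderiv_of_isOpen hΩ (by simp)
  exact h1.clm_apply continuousOn_const

theorem Pf_cont {Ω : Set ℂ} {ρ u : ℂ → ℝ} {lam : ℝ} (hl : 0 < lam) (hΩ : IsOpen Ω)
    (hρ : ContinuousOn ρ Ω) (hρ0 : ∀ z ∈ Ω, 0 < ρ z) (hu : ContDiffOn ℝ ∞ u Ω) :
    ContinuousOn (Pf lam ρ u) Ω := by
  unfold Pf
  refine (hu.continuousOn.pow 2).add ((((U1_cont hΩ hu).pow 2).add
    ((U2_cont hΩ hu).pow 2)).div (continuousOn_const.mul hρ) ?_)
  intro z hz
  exact (mul_pos hl (hρ0 z hz)).ne'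

theorem Pf_nonneg {Ω : Set ℂ} {ρ u : ℂ → ℝ} {lam : ℝ} (hl : 0 < lam)
    (hρ0 : ∀ z ∈ Ω, 0 < ρ z) {z : ℂ} (hz : z ∈ Ω) : 0 ≤ Pf lam ρ u z := by
  unfold Pf
  have := hρ0 z hz
  positivity

theorem mn_cont {Φ : ℝ → ℝ} (h : ContDiff ℝ ∞ Φ) : Continuous (mn Φ) :=
  (J2.mn_smooth h).continuous

end J10

open J10 in
theorem j10 : J5 → J8 → J9 → A2 → J10 := by
  intro h5 h8 h9 hA2 Ω ρ lam u hS χ hχ Φ L hC h0 h1
  obtain ⟨C5, hF⟩ := (h5 Φ L hC).1 h0 h1
  obtain ⟨K, hK⟩ := h9 Ω ρ χ Φ _ _ C5 hS.hΩ hS.hρ hS.hρ0 hχ hC.sm hF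
  obtain ⟨C8, hC8⟩ := h8 Ω ρ lam u hS (tsupport χ) hχ.2.1 hχ.2.2.1
  have hlip := (hA2 Φ L hC).1
  set m : ℝ := ∫ z, χ z * ρ z with hm
  have hρc := hS.hρ.continuousOn
  have hmi : Integrable (fun z => χ z * ρ z) := integ_mul hS.hΩ hχ hρc
  refine ⟨L / 2 * m + |K| * 2 * C8, ?_⟩
  filter_upwards [hC8, hS.hlam.eventually_ge_atTop 1] with n hn hn1
  obtain ⟨hn0, hn⟩ := hn
  set l := lam n with hl
  set h : ℝ := 1 / √l with hh
  have hsl : 0 < √l := sqrt_pos.mpr hn0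
  have hh0 : 0 < h := by positivity
  have hh1 : h ≤ 1 := by
    rw [hh, div_le_one hsl]
    rw [show (1 : ℝ) = √1 from sqrt_one.symm]
    exact sqrt_le_sqrt hn1
  have hh2 : h ^ 2 * l = 1 := by
    rw [hh, div_pow, sq_sqrt hn0.le]
    field_simp
  set ε : ℝ := √h with hε
  have hε0 : 0 < ε := sqrt_pos.mpr hh0
  have hε1 : ε ≤ 1 := by
    rw [hε, show (1 : ℝ) = √1 from sqrt_one.symm]
    exact sqrt_le_sqrt hh1
  have hε2 : ε ^ 2 = h := sq_sqrt hh0.le
  have hu := hS.hu n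
  have heq : ∀ z ∈ Ω, h ^ 2 * lapl (u n) z = -(ρ z * u n z) := by
    intro z hz
    have e1 := hS.he n z hz
    have e2 : lapl (u n) z = -(l * (ρ z * u n z)) := by linarith
    rw [e2]
    linear_combination (-(ρ z * u n z)) * hh2
  have hk := hK h ε (u n) hh0 hh1 hε0 hε1 hu heq
  rw [hε2] at hk
  have eP : ∀ z, u n z ^ 2 + h ^ 2 * (U1 (u n) z ^ 2 + U2 (u n) z ^ 2) / ρ z + h =
      Pf l ρ (u n) z + h := by
    intro z
    unfold Pf
    have e3 : h ^ 2 = 1 / l := by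
      field_simp
      exact hh2
    rw [e3]
    congr 2
    rw [div_mul_eq_mul_div, one_mul, div_div]
  have hk2 : ∫ z, χ z * ρ z * (mn Φ √(Pf l ρ (u n) z + h) - Φ (u n z)) ≤
      K * (h + h) * ∫ z in tsupport χ, En h (u n) z := by
    refine le_trans (le_of_eq ?_) hk
    congr 1
    funext z
    rw [eP z]
  have hEn0 : 0 ≤ ∫ z in tsupport χ, En h (u n) z := by
    apply integral_nonneg
    intro z
    show 0 ≤ En h (u n) z
    unfold En
    positivity
  have hk3 : K * (h + h) * ∫ z in tsupport χ, En h (u n) z ≤ |K| * 2 * C8 * h := by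
    have e4 : K * (h + h) * ∫ z in tsupport χ, En h (u n) z ≤
        |K| * (h + h) * ∫ z in tsupport χ, En h (u n) z := by
      apply mul_le_mul_of_nonneg_right _ hEn0
      exact mul_le_mul_of_nonneg_right (le_abs_self K) (by linarith)
    have e5 : |K| * (h + h) * ∫ z in tsupport χ, En h (u n) z ≤ |K| * (h + h) * C8 :=
      mul_le_mul_of_nonneg_left hn (mul_nonneg (abs_nonneg K) (by linarith))
    calc _ ≤ _ := e4
      _ ≤ _ := e5
      _ = _ := by ring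
  have hPc := Pf_cont hn0 hS.hΩ hρc hS.hρ0 hu
  have hG1 : ContinuousOn (fun z => mn Φ √(Pf l ρ (u n) z)) Ω :=
    (mn_cont hC.sm).comp_continuousOn (continuous_sqrt.comp_continuousOn hPc)
  have hG2 : ContinuousOn (fun z => mn Φ √(Pf l ρ (u n) z + h)) Ω :=
    (mn_cont hC.sm).comp_continuousOn
      (continuous_sqrt.comp_continuousOn (hPc.add continuousOn_const))
  have hG3 : ContinuousOn (fun z => Φ (u n z)) Ω :=
    hC.sm.continuous.comp_continuousOn hu.continuousOn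
  have i1 := integ_mul2 hS.hΩ hχ hρc hG1
  have i2 : Integrable (fun z => χ z * ρ z * (mn Φ √(Pf l ρ (u n) z + h) - Φ (u n z))) :=
    integ_mul2 hS.hΩ hχ hρc (hG2.sub hG3)
  have i3 := integ_mul2 hS.hΩ hχ hρc hG3
  have hmain : ∫ z, χ z * ρ z * mn Φ √(Pf l ρ (u n) z) ≤
      ∫ z, (χ z * ρ z * (mn Φ √(Pf l ρ (u n) z + h) - Φ (u n z)) + χ z * ρ z * Φ (u n z) +
        L / 2 * h * (χ z * ρ z)) := by
    apply integral_mono i1 ((i2.add i3).add (hmi.const_mul _))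
    intro z
    show χ z * ρ z * mn Φ √(Pf l ρ (u n) z) ≤
      χ z * ρ z * (mn Φ √(Pf l ρ (u n) z + h) - Φ (u n z)) + χ z * ρ z * Φ (u n z) +
        L / 2 * h * (χ z * ρ z)
    by_cases hz : z ∈ Ω
    · have hP0 : 0 ≤ Pf l ρ (u n) z := Pf_nonneg hn0 hS.hρ0 hz
      have h6 := hlip (Pf l ρ (u n) z) (Pf l ρ (u n) z + h) hP0 (by linarith)
      have h7 := (abs_le.mp h6).1
      have h8' : 0 ≤ χ z * ρ z := mul_nonneg (hχ.2.2.2 z) (hS.hρ0 z hz).le
      have h9' : mn Φ √(Pf l ρ (u n) z) ≤ mn Φ √(Pf l ρ (u n) z + h) + L / 2 * h := by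
        have e6 : Pf l ρ (u n) z + h - Pf l ρ (u n) z = h := by ring
        rw [e6] at h7
        linarith
      have h10 := mul_le_mul_of_nonneg_left h9' h8'
      linarith
    · rw [test_zero hχ hz]
      simp
  have e8 : (∫ z, (χ z * ρ z * (mn Φ √(Pf l ρ (u n) z + h) - Φ (u n z)) +
      χ z * ρ z * Φ (u n z) + L / 2 * h * (χ z * ρ z))) =
      (∫ z, χ z * ρ z * (mn Φ √(Pf l ρ (u n) z + h) - Φ (u n z))) +
      (∫ z, χ z * ρ z * Φ (u n z)) + L / 2 * h * m := by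
    have a1 := integral_add (i2.add i3) (hmi.const_mul (L / 2 * h))
    have a2 := integral_add i2 i3
    have a3 : (∫ z, L / 2 * h * (χ z * ρ z)) = L / 2 * h * m := integral_const_mul _ _
    simp only [Pi.add_apply] at a1
    rw [a1, a2, a3]
  rw [e8] at hmain
  have e7 : (L / 2 * m + |K| * 2 * C8) / √l = L / 2 * h * m + |K| * 2 * C8 * h := by
    rw [hh]
    ring
  rw [e7]
  linarith

namespace J10

theorem mn_sq (c r : ℝ) : mn (fun x => c * x ^ 2) r = c * r ^ 2 / 2 := by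
  unfold mn
  have e : (fun t => c * (r * cos t) ^ 2) = fun t => c * r ^ 2 * cos t ^ 2 := by
    funext t
    ring
  rw [e, intervalIntegral.integral_const_mul, integral_cos_sq]
  simp
  field_simp

theorem deriv_sq (c : ℝ) : deriv (fun x : ℝ => c * x ^ 2) = fun x => 2 * c * x := by
  funext x
  have := ((hasDerivAt_id x).pow 2).const_mul c
  have h2 : HasDerivAt (fun x : ℝ => c * x ^ 2) (2 * c * x) x := by
    refine this.congr_deriv ?_
    simp
    ring
  exact h2.deriv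

theorem cls_sq (c : ℝ) : Cls (fun x => c * x ^ 2) |2 * c| := by
  refine ⟨contDiff_const.mul (contDiff_id.pow 2), fun x => by rw [neg_sq], fun x => ?_⟩
  rw [deriv_sq]
  have : deriv (fun x : ℝ => 2 * c * x) x = 2 * c := by
    have := ((hasDerivAt_id x).const_mul (2 * c))
    have h2 : HasDerivAt (fun x : ℝ => 2 * c * x) (2 * c) x := by
      refine this.congr_deriv ?_
      simp
    exact h2.deriv
  rw [this]

theorem m0_sq (c : ℝ) : M0 (fun x => c * x ^ 2) := by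
  intro x y hx hxy
  rw [deriv_sq]
  have hy : 0 < y := lt_of_lt_of_le hx hxy
  simp only
  rw [mul_div_assoc, mul_div_assoc, div_self hx.ne', div_self hy.ne']

theorem m1_sq (c : ℝ) : M1 (fun x => c * x ^ 2) := by
  unfold M1
  have : scd (fun x : ℝ => c * x ^ 2) = fun x => 2 * c * x ^ 2 := by
    funext x
    unfold scd
    rw [deriv_sq]
    ring
  rw [this]
  exact m0_sq _

end J10

open J10 in
theorem j11 : J10 → J11 := by
  intro h10 Ω ρ lam u hS χ hχ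
  obtain ⟨C1, hC1⟩ := h10 Ω ρ lam u hS χ hχ _ _ (cls_sq 1) (m0_sq 1) (m1_sq 1)
  obtain ⟨C2, hC2⟩ := h10 Ω ρ lam u hS χ hχ _ _ (cls_sq (-1)) (m0_sq (-1)) (m1_sq (-1))
  refine ⟨2 * |C1| + 2 * |C2|, ?_⟩
  filter_upwards [hC1, hC2, hS.hlam.eventually_ge_atTop 1] with n h1 h2 hn1
  have hn0 : 0 < lam n := by linarith
  have hsl : 0 < √(lam n) := sqrt_pos.mpr hn0
  have e1 : ∀ c : ℝ, (∫ z, χ z * ρ z * mn (fun x => c * x ^ 2) √(Pf (lam n) ρ (u n) z)) =
      c / 2 * ∫ z, χ z * ρ z * Pf (lam n) ρ (u n) z := by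
    intro c
    rw [← integral_const_mul]
    congr 1
    funext z
    rw [mn_sq]
    by_cases hz : z ∈ Ω
    · rw [sq_sqrt (Pf_nonneg hn0 hS.hρ0 hz)]
      ring
    · rw [test_zero hχ hz]
      simp
  have e2 : ∀ c : ℝ, (∫ z, χ z * ρ z * (c * u n z ^ 2)) = c * ∫ z, χ z * ρ z * u n z ^ 2 := by
    intro c
    rw [← integral_const_mul]
    congr 1
    funext z
    ring
  rw [e1, e2] at h1 h2
  set A := ∫ z, χ z * ρ z * Pf (lam n) ρ (u n) z
  set B := ∫ z, χ z * ρ z * u n z ^ 2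
  have h3 : C1 / √(lam n) ≤ |C1| / √(lam n) :=
    div_le_div_of_nonneg_right (le_abs_self C1) hsl.le
  have h4 : C2 / √(lam n) ≤ |C2| / √(lam n) :=
    div_le_div_of_nonneg_right (le_abs_self C2) hsl.le
  have h5 : 0 ≤ |C1| / √(lam n) := by positivity
  have h6 : 0 ≤ |C2| / √(lam n) := by positivity
  have e3 : (2 * |C1| + 2 * |C2|) / √(lam n) = 2 * (|C1| / √(lam n)) + 2 * (|C2| / √(lam n)) := by
    ring
  rw [e3, abs_le]
  constructor <;> linarith

end Pool.Agent.Q73.PW
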