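import Pool.Agent.Q73.PW.Defs

/-!
# Project PW, job J3: symmetry and signs
-/

set_option autoImplicit false
open MeasureTheory Filter Topology Real
open scoped ContDiff

namespace Pool.Agent.Q73.PW

namespace J3f

theorem smooth_deriv {Φ : ℝ → ℝ} (h : ContDiff ℝ ∞ Φ) : ContDiff ℝ ∞ (deriv Φ) :=
  (contDiff_infty_iff_deriv.1 h).2

theorem smooth_scd {Φ : ℝ → ℝ} (h : ContDiff ℝ ∞ Φ) : ContDiff ℝ ∞ (scd Φ) :=
  contDiff_id.mul (smooth_deriv h)

theorem deriv_odd {Φ : ℝ → ℝ} (ev : ∀ x, Φ (-x) = Φ x) (x : ℝ) : deriv Φ (-x) = - deriv Φ x := by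
  have h1 : (fun x => Φ (-x)) = Φ := funext ev
  have h2 := deriv_comp_neg Φ x
  rw [h1] at h2
  linarith

theorem scd_even {Φ : ℝ → ℝ} (ev : ∀ x, Φ (-x) = Φ x) (x : ℝ) : scd Φ (-x) = scd Φ x := by
  unfold scd
  rw [deriv_odd ev]
  ring

theorem fA_symm {Φ : ℝ → ℝ} (hc : Continuous Φ) (ev : ∀ x, Φ (-x) = Φ x) (r θ : ℝ) :
    fA Φ r (π - θ) = - fA Φ r θ := by
  have hcont : Continuous (fun t => Φ (r * cos t) - mn Φ r) :=
    (hc.comp (continuous_const.mul continuous_cos)).sub continuous_const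
  have hcont' : Continuous (fun t => Φ (r * cos t)) := hc.comp (continuous_const.mul continuous_cos)
  have h0 : ∫ t in (0 : ℝ)..π, (Φ (r * cos t) - mn Φ r) = 0 := by
    rw [intervalIntegral.integral_sub (hcont'.intervalIntegrable _ _) (continuous_const.intervalIntegrable _ _),
      intervalIntegral.integral_const]
    unfold mn
    rw [smul_eq_mul, sub_zero]
    field_simp
    ring
  have h1 : ∫ t in (π - θ)..π, (Φ (r * cos t) - mn Φ r) = ∫ t in (0 : ℝ)..θ, (Φ (r * cos t) - mn Φ r) := by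
    have h := intervalIntegral.integral_comp_sub_left (a := 0) (b := θ) (fun t => Φ (r * cos t) - mn Φ r) π
    rw [sub_zero] at h
    rw [← h]
    simp only [cos_pi_sub, mul_neg, ev]
  have h2 := intervalIntegral.integral_add_adjacent_intervals (hcont.intervalIntegrable (μ := volume) 0 (π - θ))
    (hcont.intervalIntegrable (μ := volume) (π - θ) π)
  unfold fA
  linarith

theorem be_symm {Φ : ℝ → ℝ} (hs : ContDiff ℝ ∞ Φ) (ev : ∀ x, Φ (-x) = Φ x) (r θ : ℝ) :
    be Φ r (π - θ) = - be Φ r θ := by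
  unfold be
  rw [fA_symm hs.continuous ev, fA_symm (smooth_scd hs).continuous (scd_even ev), sin_pi_sub, cos_pi_sub,
    show r * -cos θ = -(r * cos θ) by ring, ev]
  ring

theorem int_be {Φ : ℝ → ℝ} (hs : ContDiff ℝ ∞ Φ) (ev : ∀ x, Φ (-x) = Φ x) (r : ℝ)
    (hb : Continuous (fun θ => be Φ r θ)) (θ : ℝ) :
    ∫ t in (0 : ℝ)..(π - θ), be Φ r t = ∫ t in (0 : ℝ)..θ, be Φ r t := by
  have h1 : ∀ θ, ∫ t in (π - θ)..π, be Φ r t = - ∫ t in (0 : ℝ)..θ, be Φ r t := by
    intro θ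
    have h := intervalIntegral.integral_comp_sub_left (a := 0) (b := θ) (fun t => be Φ r t) π
    rw [sub_zero] at h
    rw [← h]
    simp only [be_symm hs ev]
    rw [intervalIntegral.integral_neg]
  have h0 : ∫ t in (0 : ℝ)..π, be Φ r t = 0 := by
    have h := h1 π
    rw [sub_self] at h
    linarith
  have h2 := intervalIntegral.integral_add_adjacent_intervals (hb.intervalIntegrable (μ := volume) 0 (π - θ))
    (hb.intervalIntegrable (μ := volume) (π - θ) π)
  have h3 := h1 θ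
  linarith

theorem deriv_eq {Φ : ℝ → ℝ} (hs : ContDiff ℝ ∞ Φ) (ev : ∀ x, Φ (-x) = Φ x) (x : ℝ) (hx : 0 < x) :
    deriv Φ x / x = ∫ u in (0 : ℝ)..1, deriv (deriv Φ) (x * u) := by
  have h0 : deriv Φ 0 = 0 := by
    have := deriv_odd ev 0
    rw [neg_zero] at this
    linarith
  have hd := smooth_deriv hs
  have hd2 := smooth_deriv hd
  have h1 : ∫ u in (0 : ℝ)..x, deriv (deriv Φ) u = deriv Φ x - deriv Φ 0 :=
    intervalIntegral.integral_deriv_eq_sub (fun y _ => (hd.differentiable (by simp)).differentiableAt)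
      (hd2.continuous.intervalIntegrable _ _)
  have h2 := intervalIntegral.integral_comp_mul_left (a := 0) (b := 1) (fun u => deriv (deriv Φ) u) hx.ne'
  rw [mul_zero, mul_one, h1, h0, sub_zero, smul_eq_mul] at h2
  rw [h2]
  field_simp

theorem m2_m0 {Φ : ℝ → ℝ} (hs : ContDiff ℝ ∞ Φ) (ev : ∀ x, Φ (-x) = Φ x) (h : M2 Φ) : M0 Φ := by
  intro x y hx hxy
  rw [deriv_eq hs ev x hx, deriv_eq hs ev y (lt_of_lt_of_le hx hxy)]
  have hd2 := (smooth_deriv (smooth_deriv hs)).continuous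
  apply intervalIntegral.integral_mono_on_of_le_Ioo (by norm_num)
    ((hd2.comp (continuous_const.mul continuous_id)).intervalIntegrable _ _)
    ((hd2.comp (continuous_const.mul continuous_id)).intervalIntegrable _ _)
  intro u hu
  exact h _ _ (mul_pos hx hu.1) (mul_le_mul_of_nonneg_right hxy hu.1.le)

theorem deriv_scd {Φ : ℝ → ℝ} (hs : ContDiff ℝ ∞ Φ) (x : ℝ) :
    deriv (scd Φ) x = deriv Φ x + x * deriv (deriv Φ) x := by
  have hd := smooth_deriv hs
  have h1 : HasDerivAt (deriv Φ) (deriv (deriv Φ) x) x :=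
    ((hd.differentiable (by simp)) x).hasDerivAt
  have h2 := (hasDerivAt_id x).mul h1
  have h3 : scd Φ = id * deriv Φ := rfl
  rw [h3, h2.deriv]
  simp

theorem m2_m1 {Φ : ℝ → ℝ} (hs : ContDiff ℝ ∞ Φ) (ev : ∀ x, Φ (-x) = Φ x) (h : M2 Φ) : M1 Φ := by
  intro x y hx hxy
  have hy := lt_of_lt_of_le hx hxy
  rw [deriv_scd hs, deriv_scd hs, add_div, add_div, mul_div_cancel_left₀ _ hx.ne', mul_div_cancel_left₀ _ hy.ne']
  exact add_le_add (m2_m0 hs ev h x y hx hxy) (h x y hx hxy)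

end J3f

open J3f

theorem j3 : J1 → J2 → J3 := by
  intro hJ1 hJ2 Φ hs ev
  have hbc : ∀ {Ψ : ℝ → ℝ}, ContDiff ℝ ∞ Ψ → ∀ r, Continuous (fun θ => be Ψ r θ) := by
    intro Ψ hΨ r
    obtain ⟨-, -, h3, -⟩ := hJ2 Ψ hΨ
    have h4 : Continuous (fun p : ℝ × ℝ => be Ψ p.1 p.2) := h3.continuous
    have h5 : Continuous (fun θ : ℝ => ((r, θ) : ℝ × ℝ)) := by fun_prop
    have h6 := h4.comp h5
    simp only [Function.comp_def] at h6
    exact h6
  have hBs : ∀ {Ψ : ℝ → ℝ}, ContDiff ℝ ∞ Ψ → (∀ x, Ψ (-x) = Ψ x) → ∀ r θ, fB Ψ r (π - θ) = fB Ψ r θ := by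
    intro Ψ hΨ hev r θ
    unfold fB
    rw [int_be hΨ hev r (hbc hΨ r)]
  have hB0 : ∀ {Ψ : ℝ → ℝ}, ContDiff ℝ ∞ Ψ → (∀ x, Ψ (-x) = Ψ x) → M0 Ψ → ∀ r θ, 0 < r → 0 ≤ θ → θ ≤ π →
      0 ≤ fB Ψ r θ := by
    intro Ψ hΨ hev hM r θ hr h0 hp
    have key : ∀ θ, 0 ≤ θ → θ ≤ π / 2 → 0 ≤ fB Ψ r θ := by
      intro θ h0 hp
      unfold fB
      have : 0 ≤ ∫ t in (0 : ℝ)..θ, be Ψ r t := by
        apply intervalIntegral.integral_nonneg h0
        intro t ht
        exact (hJ1 Ψ hΨ hev hM r t hr ht.1 (le_trans ht.2 hp)).1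
      linarith
    rcases le_total θ (π / 2) with h | h
    · exact key θ h0 h
    · rw [← hBs hΨ hev]
      exact key (π - θ) (by linarith) (by linarith)
  have hsc := smooth_scd hs
  have hscev := scd_even ev
  have hbpos : M0 Φ → ∀ r θ, 0 < r → 0 ≤ θ → θ ≤ π → 0 ≤ cos θ * be Φ r θ := by
    intro hM r θ hr h0 hp
    rcases le_total θ (π / 2) with h | h
    · exact mul_nonneg (cos_nonneg_of_neg_pi_div_two_le_of_le (by linarith [pi_pos]) h) (hJ1 Φ hs ev hM r θ hr h0 h).1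
    · have h1 := (hJ1 Φ hs ev hM r (π - θ) hr (by linarith) (by linarith)).1
      rw [be_symm hs ev] at h1
      have h2 := cos_nonpos_of_pi_div_two_le_of_le h (by linarith [pi_pos])
      nlinarith
  refine ⟨fA_symm hs.continuous ev, be_symm hs ev, hBs hs ev, hB0 hs ev, ?_, fun h => ⟨m2_m0 hs ev h, m2_m1 hs ev h⟩, ?_⟩
  · intro hM hM1 r θ hr h0 hp
    have h1 := hB0 hsc hscev hM1 r θ hr h0 hp
    have h2 := sin_nonneg_of_nonneg_of_le_pi h0 hp
    have h3 := hbpos hM r θ hr h0 hp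
    have h4 := mul_nonneg h2 h1
    linarith
  · intro hM2 r
    have hM := m2_m0 hs ev hM2
    have key : ∀ θ, 0 < r → 0 ≤ θ → θ ≤ π / 2 →
        0 ≤ sin θ ^ 2 * fB (scd Φ) r θ + sin θ * cos θ * be Φ r θ / 2 - fB Φ r θ := by
      intro θ hr h0 hp
      have h1 := (hJ1 Φ hs ev hM r θ hr h0 hp).2
      have hdiff : 0 ≤ fB (scd Φ) r θ - 1 * fB Φ r θ := by
        obtain ⟨-, -, -, -, -, -, -, -, -, hlin⟩ := hJ2 (scd Φ) hsc
        rw [← hlin Φ hs 1 r θ]
        refine hB0 (hsc.sub (contDiff_const.mul hs)) (fun x => ?_) ?_ r θ hr h0 (by linarith [pi_pos])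
        · rw [hscev, ev]
        · intro x y hx hxy
          have hder : ∀ z : ℝ, deriv (fun x => scd Φ x - 1 * Φ x) z = z * deriv (deriv Φ) z := by
            intro z
            have e1 : HasDerivAt (scd Φ) (deriv (scd Φ) z) z := ((hsc.differentiable (by simp)) z).hasDerivAt
            have e2 : HasDerivAt Φ (deriv Φ z) z := ((hs.differentiable (by simp)) z).hasDerivAt
            have e3 := e1.sub (e2.const_mul 1)
            have e4 : (fun x => scd Φ x - 1 * Φ x) = (scd Φ - fun x => 1 * Φ x) := rfl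
            rw [e4, e3.deriv, deriv_scd hs]
            ring
          rw [hder, hder, mul_div_cancel_left₀ _ hx.ne', mul_div_cancel_left₀ _ (lt_of_lt_of_le hx hxy).ne']
          exact hM2 x y hx hxy
      have h2 : ∫ t in (0 : ℝ)..θ, be Φ r t = 2 * fB Φ r θ := by
        unfold fB
        ring
      rw [h2] at h1
      have h3 := cos_nonneg_of_neg_pi_div_two_le_of_le (by linarith [pi_pos] : -(π / 2) ≤ θ) hp
      have h4 : 0 ≤ cos θ * (sin θ * be Φ r θ - cos θ * (2 * fB Φ r θ)) := mul_nonneg h3 (by linarith)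
      have h5 : 0 ≤ sin θ ^ 2 * (fB (scd Φ) r θ - 1 * fB Φ r θ) := mul_nonneg (sq_nonneg _) hdiff
      have h6 : sin θ ^ 2 * fB (scd Φ) r θ + sin θ * cos θ * be Φ r θ / 2 - fB Φ r θ =
          sin θ ^ 2 * (fB (scd Φ) r θ - 1 * fB Φ r θ) +
          cos θ * (sin θ * be Φ r θ - cos θ * (2 * fB Φ r θ)) / 2 +
          (sin θ ^ 2 + cos θ ^ 2 - 1) * fB Φ r θ := by ring
      rw [h6, sin_sq_add_cos_sq, sub_self, zero_mul, add_zero]
      linarith
    intro θ hr h0 hp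
    rcases le_total θ (π / 2) with h | h
    · exact key θ hr h0 h
    · have h1 := key (π - θ) hr (by linarith) (by linarith)
      rw [hBs hs ev, hBs hsc hscev, be_symm hs ev, sin_pi_sub, cos_pi_sub] at h1
      linarith

end Pool.Agent.Q73.PW
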