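import Pool.Agent.Q73.PW.J10
import Pool.Agent.Q73.PW.J3

/-!
# Project PW, job J13: the norms in a chart
-/

set_option autoImplicit false
open MeasureTheory Filter Topology Real
open scoped ContDiff ENNReal NNReal

namespace Pool.Agent.Q73.PW

open Pool.Agent.Results.MP_a52643_an.AbsoluteContinuity (lapl LocL2 Test)

namespace J13

/-- Jensen's inequality with a weight -/
theorem jensen {w P : ℂ → ℝ} {G : ℝ → ℝ} (hwm : Measurable w) (hw0 : ∀ z, 0 ≤ w z)
    (hwi : Integrable w) (hM : 0 < ∫ z, w z) (hG : ConvexOn ℝ (Set.Ici 0) G)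
    (hGc : ContinuousOn G (Set.Ici 0)) (hP : ∀ z, w z ≠ 0 → 0 ≤ P z)
    (hPi : Integrable (fun z => w z * P z)) (hGi : Integrable (fun z => w z * G (P z))) :
    (∫ z, w z) * G ((∫ z, w z * P z) / ∫ z, w z) ≤ ∫ z, w z * G (P z) := by
  set f : ℂ → ℝ≥0 := fun z => Real.toNNReal (w z) with hf
  have hfm : Measurable f := hwm.real_toNNReal
  have hfc : ∀ z, ((f z : ℝ≥0) : ℝ) = w z := fun z => Real.coe_toNNReal _ (hw0 z)
  set μ : Measure ℂ := volume.withDensity (fun z => (f z : ℝ≥0∞)) with hμ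
  have hint : ∀ F : ℂ → ℝ, ∫ z, F z ∂μ = ∫ z, w z * F z := by
    intro F
    rw [hμ, integral_withDensity_eq_integral_smul hfm]
    congr 1
    funext z
    show ((f z : ℝ≥0) : ℝ) * F z = _
    rw [hfc]
  have hinti : ∀ F : ℂ → ℝ, Integrable (fun z => w z * F z) → Integrable F μ := by
    intro F hF
    rw [hμ, integrable_withDensity_iff_integrable_smul hfm]
    refine hF.congr (Eventually.of_forall fun z => ?_)
    show w z * F z = ((f z : ℝ≥0) : ℝ) * F z
    rw [hfc]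
  have hfin : IsFiniteMeasure μ := by
    have h1 : Integrable (fun _ : ℂ => (1 : ℝ)) μ := hinti _ (by simpa using hwi)
    exact (integrable_const_iff_isFiniteMeasure one_ne_zero).mp h1
  have huniv : μ.real Set.univ = ∫ z, w z := by
    have h1 := hint (fun _ => 1)
    rw [integral_const] at h1
    simpa using h1
  have hne : NeZero μ := by
    refine ⟨fun h => ?_⟩
    rw [h] at huniv
    simp at huniv
    linarith
  have hae : ∀ᵐ z ∂μ, P z ∈ Set.Ici (0 : ℝ) := by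
    rw [hμ, ae_withDensity_iff hfm.coe_nnreal_ennreal]
    refine Eventually.of_forall fun z hz => ?_
    apply hP
    intro h
    apply hz
    simp [hf, h]
  have hJ := hG.map_average_le hGc isClosed_Ici hae (hinti _ hPi) (hinti (G ∘ P) hGi)
  rw [average_eq, average_eq, huniv, hint, hint, smul_eq_mul, smul_eq_mul] at hJ
  have e1 : (∫ z, w z)⁻¹ * ∫ z, w z * P z = (∫ z, w z * P z) / ∫ z, w z := by
    rw [div_eq_inv_mul]
  rw [e1] at hJ
  have h2 := mul_le_mul_of_nonneg_left hJ hM.le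
  rw [← mul_assoc, mul_inv_cancel₀ hM.ne', one_mul] at h2
  exact h2

theorem w_nonneg {Ω : Set ℂ} {χ ρ : ℂ → ℝ} (h : Test Ω χ) (hρ : ∀ z ∈ Ω, 0 < ρ z) (z : ℂ) :
    0 ≤ χ z * ρ z := by
  by_cases hz : z ∈ Ω
  · exact mul_nonneg (h.2.2.2 z) (hρ z hz).le
  · rw [J10.test_zero h hz, zero_mul]

theorem w_dom {Ω : Set ℂ} {χ ρ : ℂ → ℝ} (h : Test Ω χ) {z : ℂ} (hz : χ z * ρ z ≠ 0) : z ∈ Ω := by
  by_contra h'
  exact hz (by rw [J10.test_zero h h', zero_mul])

theorem all_zero {w : ℂ → ℝ} (hw0 : ∀ z, 0 ≤ w z) (hwi : Integrable w) (hM : ∫ z, w z = 0)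
    (F : ℂ → ℝ) : ∫ z, w z * F z = 0 := by
  have h1 : w =ᵐ[volume] 0 := (integral_eq_zero_iff_of_nonneg hw0 hwi).mp hM
  have h2 : (fun z => w z * F z) =ᵐ[volume] fun _ => 0 := by
    filter_upwards [h1] with z hz
    rw [hz]
    simp
  rw [integral_congr_ae h2]
  simp

theorem inv_lim {lam : ℕ → ℝ} (h : Tendsto lam atTop atTop) (C : ℝ) :
    Tendsto (fun n => C / √(lam n)) atTop (𝓝 0) :=
  (tendsto_sqrt_atTop.comp h).const_div_atTop C

section

variable {Ω : Set ℂ} {χ ρ : ℂ → ℝ} {lam : ℕ → ℝ} {u : ℕ → ℂ → ℝ}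

/-- the general inequality, `0 < M` -/
theorem gen (h10 : J10) (h11 : J11) (hA2 : A2) (hS : Seq Ω ρ lam u) (hχ : Test Ω χ)
    {η : ℝ} (hη : 0 < η) (hM : 0 < ∫ z, χ z * ρ z) {Φ : ℝ → ℝ} {L : ℝ} (hC : Cls Φ L)
    (h0 : M0 Φ) (h1 : M1 Φ) : ∀ᶠ n in atTop,
    (∫ z, χ z * ρ z) * mn Φ √((2 * ∫ z, χ z * ρ z * u n z ^ 2) / ∫ z, χ z * ρ z) ≤
      (∫ z, χ z * ρ z * Φ (u n z)) + η := by
  obtain ⟨C, hc⟩ := h10 Ω ρ lam u hS χ hχ Φ L hC h0 h1
  obtain ⟨C', hc'⟩ := h11 Ω ρ lam u hS χ hχ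
  obtain ⟨hlip, -, hconv, -⟩ := hA2 Φ L hC
  have hL0 : 0 ≤ L := (abs_nonneg _).trans (hC.bd 0)
  have hρc := hS.hρ.continuousOn
  have hwc : Continuous (fun z => χ z * ρ z) := J10.cont_mul hS.hΩ hχ hρc
  have hwi : Integrable (fun z => χ z * ρ z) := J10.integ_mul hS.hΩ hχ hρc
  have hw0 := w_nonneg hχ hS.hρ0
  have e1 := (inv_lim hS.hlam C).eventually (gt_mem_nhds (show (0 : ℝ) < η / 2 by linarith))
  have e2 := (inv_lim hS.hlam (L / 2 * C')).eventually
    (gt_mem_nhds (show (0 : ℝ) < η / 2 by linarith))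
  filter_upwards [hc, hc', e1, e2, hS.hlam.eventually_ge_atTop 1] with n g1 g2 g3 g4 g5
  have hl0 : 0 < lam n := by linarith
  set M := ∫ z, χ z * ρ z with hMdef
  set G : ℝ → ℝ := fun p => mn Φ √p with hG
  have hGc : Continuous G := (J10.mn_cont hC.sm).comp continuous_sqrt
  have hPc := J10.Pf_cont hl0 hS.hΩ hρc hS.hρ0 (hS.hu n)
  have hJ := jensen (G := G) hwc.measurable hw0 hwi hM (hconv h0) hGc.continuousOn
    (P := Pf (lam n) ρ (u n)) (fun z hz => J10.Pf_nonneg hl0 hS.hρ0 (w_dom hχ hz))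
    (J10.integ_mul2 hS.hΩ hχ hρc hPc)
    (J10.integ_mul2 hS.hΩ hχ hρc (hGc.comp_continuousOn hPc))
  rw [← hMdef] at hJ
  set S' := ∫ z, χ z * ρ z * Pf (lam n) ρ (u n) z with hS'
  set S := 2 * ∫ z, χ z * ρ z * u n z ^ 2 with hSdef
  have hS0 : 0 ≤ S := by
    rw [hSdef]
    have : 0 ≤ ∫ z, χ z * ρ z * u n z ^ 2 :=
      integral_nonneg (fun z => mul_nonneg (hw0 z) (sq_nonneg _))
    linarith
  have hS'0 : 0 ≤ S' := by
    apply integral_nonneg
    intro z
    show 0 ≤ χ z * ρ z * Pf (lam n) ρ (u n) z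
    by_cases hz : χ z * ρ z = 0
    · rw [hz, zero_mul]
    · exact mul_nonneg (hw0 z) (J10.Pf_nonneg hl0 hS.hρ0 (w_dom hχ hz))
  have hdiff : G (S / M) ≤ G (S' / M) + L / 2 * (C' / √(lam n)) / M := by
    have hlip2 : |G (S' / M) - G (S / M)| ≤ L / 2 * (|S' - S| / M) := by
      rcases le_total (S / M) (S' / M) with h | h
      · have := hlip (S / M) (S' / M) (by positivity) h
        refine this.trans (mul_le_mul_of_nonneg_left ?_ (by positivity))
        rw [← sub_div]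
        exact div_le_div_of_nonneg_right (le_abs_self _) hM.le
      · have := hlip (S' / M) (S / M) (by positivity) h
        rw [abs_sub_comm]
        refine this.trans (mul_le_mul_of_nonneg_left ?_ (by positivity))
        rw [← sub_div, abs_sub_comm]
        exact div_le_div_of_nonneg_right (le_abs_self _) hM.le
    have h3 : L / 2 * (|S' - S| / M) ≤ L / 2 * (C' / √(lam n)) / M := by
      rw [mul_div_assoc]
      exact mul_le_mul_of_nonneg_left (div_le_div_of_nonneg_right g2 hM.le) (by positivity)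
    have h4 := (abs_le.mp hlip2).1
    linarith
  have h5 := mul_le_mul_of_nonneg_left hdiff hM.le
  have e3 : M * (G (S' / M) + L / 2 * (C' / √(lam n)) / M) =
      M * G (S' / M) + L / 2 * (C' / √(lam n)) := by
    field_simp
  rw [e3] at h5
  have e4 : L / 2 * (C' / √(lam n)) = L / 2 * C' / √(lam n) := by ring
  rw [e4] at h5
  have g1' : ∫ z, χ z * ρ z * G (Pf (lam n) ρ (u n) z) ≤
    (∫ z, χ z * ρ z * Φ (u n z)) + C / √(lam n) := g1
  show M * G (S / M) ≤ _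
  linarith

/-- `0 < q < 2`, `0 < M` -/
theorem low (h10 : J10) (h11 : J11) (hP1 : P1) (hA1 : A1) (hS : Seq Ω ρ lam u) (hχ : Test Ω χ)
    {η : ℝ} (hη : 0 < η) (hM : 0 < ∫ z, χ z * ρ z) {q : ℝ} (hq : 0 < q) (hq2 : q < 2) :
    ∀ᶠ n in atTop, ∫ z, χ z * ρ z * |u n z| ^ q ≤
    kap q * (∫ z, χ z * ρ z) ^ (1 - q / 2) * (2 * ∫ z, χ z * ρ z * u n z ^ 2) ^ (q / 2) + η := by
  set M := ∫ z, χ z * ρ z with hMdef
  set δ : ℝ := (η / (3 * M)) ^ (2 / q) with hδ
  have hδ0 : 0 < δ := by positivity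
  have hδM : δ ^ (q / 2) * M = η / 3 := by
    rw [hδ, ← rpow_mul (by positivity)]
    have : 2 / q * (q / 2) = 1 := by field_simp
    rw [this, rpow_one]
    field_simp
  obtain ⟨⟨L, hC⟩, h0, h1, -⟩ := hP1 q δ hq hq2 hδ0
  obtain ⟨-, hk, hmn, -⟩ := hA1
  have hkq := hk q hq
  obtain ⟨C, hc⟩ := h10 Ω ρ lam u hS χ hχ _ L hC h0 h1
  obtain ⟨C', hc'⟩ := h11 Ω ρ lam u hS χ hχ
  have hρc := hS.hρ.continuousOn
  have hwc : Continuous (fun z => χ z * ρ z) := J10.cont_mul hS.hΩ hχ hρc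
  have hwi : Integrable (fun z => χ z * ρ z) := J10.integ_mul hS.hΩ hχ hρc
  have hw0 := w_nonneg hχ hS.hρ0
  have e1 := (inv_lim hS.hlam C).eventually (gt_mem_nhds (show (0 : ℝ) < η / 3 by linarith))
  have e2 : ∀ᶠ n in atTop, kap q * M ^ (1 - q / 2) * (C' / √(lam n)) ^ (q / 2) < η / 3 := by
    have h3 : Tendsto (fun n => kap q * M ^ (1 - q / 2) * (C' / √(lam n)) ^ (q / 2)) atTop
        (𝓝 (kap q * M ^ (1 - q / 2) * 0 ^ (q / 2))) :=
      ((inv_lim hS.hlam C').rpow_const (Or.inr (by positivity))).const_mul _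
    rw [zero_rpow (by positivity), mul_zero] at h3
    exact h3.eventually (gt_mem_nhds (by linarith))
  filter_upwards [hc, hc', e1, e2, hS.hlam.eventually_ge_atTop 1] with n g1 g2 g3 g4 g5
  have hl0 : 0 < lam n := by linarith
  have hPc := J10.Pf_cont hl0 hS.hΩ hρc hS.hρ0 (hS.hu n)
  have huc := (hS.hu n).continuousOn
  set S' := ∫ z, χ z * ρ z * Pf (lam n) ρ (u n) z with hS'
  set S := 2 * ∫ z, χ z * ρ z * u n z ^ 2 with hSdef
  have hS0 : 0 ≤ S := by
    rw [hSdef]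
    have : 0 ≤ ∫ z, χ z * ρ z * u n z ^ 2 :=
      integral_nonneg (fun z => mul_nonneg (hw0 z) (sq_nonneg _))
    linarith
  have hS'0 : 0 ≤ S' := by
    apply integral_nonneg
    intro z
    show 0 ≤ χ z * ρ z * Pf (lam n) ρ (u n) z
    by_cases hz : χ z * ρ z = 0
    · rw [hz, zero_mul]
    · exact mul_nonneg (hw0 z) (J10.Pf_nonneg hl0 hS.hρ0 (w_dom hχ hz))
  -- Hölder
  have hq3 : 0 ≤ q / 2 := by positivity
  have hq4 : q / 2 ≤ 1 := by linarith
  have hGc : Continuous (fun p : ℝ => -(p ^ (q / 2))) :=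
    (continuous_id.rpow_const (fun x => Or.inr hq3)).neg
  have hJ := jensen (G := fun p => -(p ^ (q / 2))) hwc.measurable hw0 hwi hM
    (Real.concaveOn_rpow hq3 hq4).neg hGc.continuousOn
    (P := Pf (lam n) ρ (u n)) (fun z hz => J10.Pf_nonneg hl0 hS.hρ0 (w_dom hχ hz))
    (J10.integ_mul2 hS.hΩ hχ hρc hPc)
    (J10.integ_mul2 hS.hΩ hχ hρc (hGc.comp_continuousOn hPc))
  rw [← hMdef, ← hS'] at hJ
  have hJ2 : ∫ z, χ z * ρ z * Pf (lam n) ρ (u n) z ^ (q / 2) ≤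
      M ^ (1 - q / 2) * S' ^ (q / 2) := by
    have e3 : (∫ z, χ z * ρ z * -(Pf (lam n) ρ (u n) z ^ (q / 2))) =
        -∫ z, χ z * ρ z * Pf (lam n) ρ (u n) z ^ (q / 2) := by
      rw [← integral_neg]
      congr 1
      funext z
      ring
    rw [e3] at hJ
    have e4 : M * (S' / M) ^ (q / 2) = M ^ (1 - q / 2) * S' ^ (q / 2) := by
      rw [div_rpow hS'0 hM.le, rpow_sub hM, rpow_one]
      ring
    linarith
  -- the energy identity
  have ht0 : 0 ≤ C' / √(lam n) := (abs_nonneg _).trans g2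
  have hSS : S' ≤ S + C' / √(lam n) := by
    have := (abs_le.mp g2).2
    linarith
  have hJ3 : S' ^ (q / 2) ≤ S ^ (q / 2) + (C' / √(lam n)) ^ (q / 2) :=
    (rpow_le_rpow hS'0 hSS hq3).trans (Real.rpow_add_le_add_rpow hS0 ht0 hq3 hq4)
  -- the inequality of J10
  have hpd : ∀ z, 0 < u n z ^ 2 + δ := fun z => by positivity
  have c1 : ContinuousOn (fun z => |u n z| ^ q) Ω :=
    huc.abs.rpow_const (fun z _ => Or.inr hq.le)
  have c2 : ContinuousOn (fun z => (u n z ^ 2 + δ) ^ (q / 2)) Ω :=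
    ((huc.pow 2).add continuousOn_const).rpow_const (fun z _ => Or.inr hq3)
  have c3 : ContinuousOn (fun z => kap q * Pf (lam n) ρ (u n) z ^ (q / 2) + δ ^ (q / 2)) Ω :=
    (continuousOn_const.mul (hPc.rpow_const (fun z _ => Or.inr hq3))).add continuousOn_const
  have s1 : ∫ z, χ z * ρ z * |u n z| ^ q ≤ ∫ z, χ z * ρ z * (u n z ^ 2 + δ) ^ (q / 2) := by
    apply integral_mono (J10.integ_mul2 hS.hΩ hχ hρc c1) (J10.integ_mul2 hS.hΩ hχ hρc c2)
    intro z
    apply mul_le_mul_of_nonneg_left _ (hw0 z)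
    have e5 : |u n z| ^ q = (u n z ^ 2) ^ (q / 2) := by
      rw [← sq_abs, ← rpow_two, ← rpow_mul (abs_nonneg _)]
      congr 1
      ring
    rw [e5]
    exact rpow_le_rpow (by positivity) (by linarith) hq3
  have s2 : (∫ z, χ z * ρ z * mn (fun x => -(x ^ 2 + δ) ^ (q / 2)) √(Pf (lam n) ρ (u n) z)) =
      -∫ z, χ z * ρ z * mn (fun x => (x ^ 2 + δ) ^ (q / 2)) √(Pf (lam n) ρ (u n) z) := by
    rw [← integral_neg]
    congr 1
    funext z
    have : mn (fun x => -(x ^ 2 + δ) ^ (q / 2)) √(Pf (lam n) ρ (u n) z) =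
        -mn (fun x => (x ^ 2 + δ) ^ (q / 2)) √(Pf (lam n) ρ (u n) z) := by
      unfold mn
      rw [intervalIntegral.integral_neg, neg_div]
    rw [this]
    ring
  have s3 : (∫ z, χ z * ρ z * -(u n z ^ 2 + δ) ^ (q / 2)) =
      -∫ z, χ z * ρ z * (u n z ^ 2 + δ) ^ (q / 2) := by
    rw [← integral_neg]
    congr 1
    funext z
    ring
  have s4 : ∫ z, χ z * ρ z * mn (fun x => (x ^ 2 + δ) ^ (q / 2)) √(Pf (lam n) ρ (u n) z) ≤
      ∫ z, χ z * ρ z * (kap q * Pf (lam n) ρ (u n) z ^ (q / 2) + δ ^ (q / 2)) := by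
    apply integral_mono_of_nonneg _ (J10.integ_mul2 hS.hΩ hχ hρc c3)
    · refine Eventually.of_forall fun z => ?_
      by_cases hz : χ z * ρ z = 0
      · show χ z * ρ z * _ ≤ χ z * ρ z * _
        rw [hz, zero_mul, zero_mul]
      · apply mul_le_mul_of_nonneg_left _ (hw0 z)
        have hP0 := J10.Pf_nonneg (u := u n) hl0 hS.hρ0 (w_dom hχ hz)
        have := hmn q δ √(Pf (lam n) ρ (u n) z) hq hq2 hδ0 (sqrt_nonneg _)
        have e6 : √(Pf (lam n) ρ (u n) z) ^ q = Pf (lam n) ρ (u n) z ^ (q / 2) := by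
          rw [sqrt_eq_rpow, ← rpow_mul hP0]
          congr 1
          ring
        rw [e6] at this
        exact this
    · refine Eventually.of_forall fun z => mul_nonneg (hw0 z) ?_
      unfold mn
      apply div_nonneg _ pi_pos.le
      apply intervalIntegral.integral_nonneg pi_pos.le
      intro t _
      positivity
  have s5 : (∫ z, χ z * ρ z * (kap q * Pf (lam n) ρ (u n) z ^ (q / 2) + δ ^ (q / 2))) =
      kap q * (∫ z, χ z * ρ z * Pf (lam n) ρ (u n) z ^ (q / 2)) + δ ^ (q / 2) * M := by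
    have i1 : Integrable (fun z => χ z * ρ z * Pf (lam n) ρ (u n) z ^ (q / 2)) :=
      J10.integ_mul2 hS.hΩ hχ hρc (hPc.rpow_const (fun z _ => Or.inr hq3))
    rw [hMdef, ← integral_const_mul, ← integral_const_mul,
      ← integral_add (i1.const_mul _) (hwi.const_mul _)]
    congr 1
    funext z
    ring
  have g1' : (∫ z, χ z * ρ z * mn (fun x => -(x ^ 2 + δ) ^ (q / 2)) √(Pf (lam n) ρ (u n) z)) ≤
    (∫ z, χ z * ρ z * -(u n z ^ 2 + δ) ^ (q / 2)) + C / √(lam n) := g1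
  rw [s2, s3] at g1'
  have f1 : kap q * (∫ z, χ z * ρ z * Pf (lam n) ρ (u n) z ^ (q / 2)) ≤
      kap q * (M ^ (1 - q / 2) * (S ^ (q / 2) + (C' / √(lam n)) ^ (q / 2))) := by
    apply mul_le_mul_of_nonneg_left _ hkq.le
    exact hJ2.trans (mul_le_mul_of_nonneg_left hJ3 (by positivity))
  have f2 : kap q * (M ^ (1 - q / 2) * (S ^ (q / 2) + (C' / √(lam n)) ^ (q / 2))) =
      kap q * M ^ (1 - q / 2) * S ^ (q / 2) +
        kap q * M ^ (1 - q / 2) * (C' / √(lam n)) ^ (q / 2) := by ring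
  linarith

/-- `2 < q`, `0 < M` -/
theorem high (h10 : J10) (h11 : J11) (hP2 : P2) (hA2 : A2) (hS : Seq Ω ρ lam u)
    (hχ : Test Ω χ) {η : ℝ} (hη : 0 < η) (hM : 0 < ∫ z, χ z * ρ z) {q : ℝ} (hq : 2 < q) :
    ∀ᶠ n in atTop, kap q * (2 * ∫ z, χ z * ρ z * u n z ^ 2) ^ (q / 2) ≤
      (∫ z, χ z * ρ z) ^ (q / 2 - 1) * (∫ z, χ z * ρ z * |u n z| ^ q) + η := by
  set M := ∫ z, χ z * ρ z with hMdef
  have hρc := hS.hρ.continuousOn
  have hwc : Continuous (fun z => χ z * ρ z) := J10.cont_mul hS.hΩ hχ hρc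
  have hwi : Integrable (fun z => χ z * ρ z) := J10.integ_mul hS.hΩ hχ hρc
  have hw0 := w_nonneg hχ hS.hρ0
  obtain ⟨B0, hB0⟩ := hS.hL (tsupport χ) hχ.2.1 hχ.2.2.1
  have hcs : HasCompactSupport (fun z => χ z * ρ z) := hχ.2.1.mul_right
  obtain ⟨b, hb⟩ := hcs.exists_bound_of_continuous hwc
  have hb0 : 0 ≤ b := (norm_nonneg _).trans (hb 0)
  have hbd : ∀ᶠ n in atTop, 2 * ∫ z, χ z * ρ z * u n z ^ 2 ≤ 2 * (b * |B0|) + 1 := by
    filter_upwards [hB0] with n hn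
    have hK : IsCompact (tsupport χ) := hχ.2.1
    have huK : IntegrableOn (fun z => u n z ^ 2) (tsupport χ) :=
      (((hS.hu n).continuousOn.mono hχ.2.2.1).pow 2).integrableOn_compact hK
    have e1 : (∫ z, χ z * ρ z * u n z ^ 2) = ∫ z in tsupport χ, χ z * ρ z * u n z ^ 2 := by
      symm
      apply setIntegral_eq_integral_of_forall_compl_eq_zero
      intro z hz
      rw [image_eq_zero_of_notMem_tsupport hz]
      simp
    have e2 : (∫ z in tsupport χ, χ z * ρ z * u n z ^ 2) ≤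
        ∫ z in tsupport χ, b * u n z ^ 2 := by
      apply integral_mono
      · exact (J10.integ_mul2 hS.hΩ hχ hρc ((hS.hu n).continuousOn.pow 2)).integrableOn
      · exact huK.const_mul _
      · intro z
        apply mul_le_mul_of_nonneg_right _ (sq_nonneg _)
        exact (le_abs_self _).trans (hb z)
    rw [integral_const_mul] at e2
    have e3 : b * (∫ z in tsupport χ, u n z ^ 2) ≤ b * |B0| :=
      mul_le_mul_of_nonneg_left (hn.trans (le_abs_self _)) hb0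
    linarith
  set B := 2 * (b * |B0|) + 1 with hB
  have hBpos : 0 < B := by positivity
  have hR : 0 < √(B / M) := sqrt_pos.mpr (by positivity)
  have hη1 : 0 < η / (2 * M ^ (q / 2)) := by positivity
  have hη2 : 0 < η / (2 * M ^ (q / 2 - 1)) := by positivity
  obtain ⟨Φ, L, hC, hM2, hΦ0, hΦle, hΦmn⟩ := hP2 q √(B / M) _ hq hR hη1
  have h0 : M0 Φ := J3f.m2_m0 hC.sm hC.ev hM2
  have h1 : M1 Φ := J3f.m2_m1 hC.sm hC.ev hM2
  have hg := gen h10 h11 hA2 hS hχ hη2 hM hC h0 h1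
  filter_upwards [hbd, hg] with n g1 g2
  rw [← hMdef] at g2
  set S := 2 * ∫ z, χ z * ρ z * u n z ^ 2 with hSdef
  have hS0 : 0 ≤ S := by
    rw [hSdef]
    have : 0 ≤ ∫ z, χ z * ρ z * u n z ^ 2 :=
      integral_nonneg (fun z => mul_nonneg (hw0 z) (sq_nonneg _))
    linarith
  have h3 := hΦmn √(S / M) (sqrt_nonneg _) (sqrt_le_sqrt (div_le_div_of_nonneg_right g1 hM.le))
  have e4 : √(S / M) ^ q = S ^ (q / 2) / M ^ (q / 2) := by
    rw [sqrt_eq_rpow, ← rpow_mul (by positivity), ← div_rpow hS0 hM.le]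
    congr 1
    ring
  rw [e4] at h3
  have h4 : ∫ z, χ z * ρ z * Φ (u n z) ≤ ∫ z, χ z * ρ z * |u n z| ^ q := by
    have huc := (hS.hu n).continuousOn
    apply integral_mono
      (J10.integ_mul2 hS.hΩ hχ hρc (hC.sm.continuous.comp_continuousOn huc))
      (J10.integ_mul2 hS.hΩ hχ hρc (huc.abs.rpow_const (fun z _ => Or.inr (by linarith))))
    intro z
    exact mul_le_mul_of_nonneg_left (hΦle _) (hw0 z)
  have hm1 : 0 < M ^ (q / 2 - 1) := by positivity
  have hm2 : 0 < M ^ (q / 2) := by positivity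
  have em : M ^ (q / 2 - 1) * M = M ^ (q / 2) := by
    rw [rpow_sub_one hM.ne']
    field_simp
  have h5 : M * (kap q * (S ^ (q / 2) / M ^ (q / 2)) - η / (2 * M ^ (q / 2))) ≤
      (∫ z, χ z * ρ z * |u n z| ^ q) + η / (2 * M ^ (q / 2 - 1)) := by
    have := mul_le_mul_of_nonneg_left h3 hM.le
    linarith
  have h6 := mul_le_mul_of_nonneg_left h5 hm1.le
  have e5 : M ^ (q / 2 - 1) * (M * (kap q * (S ^ (q / 2) / M ^ (q / 2)) -
      η / (2 * M ^ (q / 2)))) = kap q * S ^ (q / 2) - η / 2 := by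
    rw [← mul_assoc, em]
    field_simp
  have e6 : M ^ (q / 2 - 1) * ((∫ z, χ z * ρ z * |u n z| ^ q) + η / (2 * M ^ (q / 2 - 1))) =
      M ^ (q / 2 - 1) * (∫ z, χ z * ρ z * |u n z| ^ q) + η / 2 := by
    field_simp
  rw [e5, e6] at h6
  linarith

end

end J13

open J13 in
theorem j13 : J8 → J10 → J11 → P1 → P2 → A1 → A2 → J13 := by
  intro _ h10 h11 hP1 hP2 hA1 hA2 Ω ρ lam u hS χ hχ η hη
  have hρc := hS.hρ.continuousOn
  have hwi : Integrable (fun z => χ z * ρ z) := J10.integ_mul hS.hΩ hχ hρc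
  have hw0 := w_nonneg hχ hS.hρ0
  have hM0 : 0 ≤ ∫ z, χ z * ρ z := integral_nonneg hw0
  rcases hM0.eq_or_lt with hM | hM
  · have hz := all_zero hw0 hwi hM.symm
    refine ⟨fun q hq hq2 => ?_, fun q hq => ?_, fun Φ L _ _ _ => ?_⟩
    · refine Eventually.of_forall fun n => ?_
      rw [hz, hz, ← hM, mul_zero, zero_rpow (show q / 2 ≠ 0 by positivity)]
      linarith
    · refine Eventually.of_forall fun n => ?_
      rw [hz, hz, ← hM, mul_zero, zero_rpow (show q / 2 ≠ 0 by positivity)]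
      linarith
    · refine Eventually.of_forall fun n => ?_
      rw [hz, hz, ← hM]
      linarith
  · exact ⟨fun q hq hq2 => low h10 h11 hP1 hA1 hS hχ hη hM hq hq2,
      fun q hq => high h10 h11 hP2 hA2 hS hχ hη hM hq,
      fun Φ L hC h0 h1 => gen h10 h11 hA2 hS hχ hη hM hC h0 h1⟩

end Pool.Agent.Q73.PW
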