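import Pool.Agent.Q73.PW.Stm3
import Pool.Agent.Q73.NL.F4

/-!
# Project PW, jobs J15 and J16: cutting an open subset of a surface, the sequence in a chart
-/

set_option autoImplicit false
open MeasureTheory Filter Topology Real
open scoped ContDiff ENNReal Manifold

namespace Pool.Agent.Q73.PW

open Pool.Agent.Results.MP_a52643_an.AbsoluteContinuity (lapl LocL2 Test)
open Pool.Agent.Results.MP_a52643_an.SharpNodalLength (IsothermalAtlas IsEigenfunction laplacian)

universe w v

namespace J15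

theorem meas_inter {M : Type w} [TopologicalSpace M] [MeasurableSpace M] [BorelSpace M]
    {V : Set ℂ} {φ : ℂ → M} (hV : IsOpen V) (hφ : ContinuousOn φ V) {S : Set M}
    (hS : MeasurableSet S) : MeasurableSet (V ∩ φ ⁻¹' S) := by
  have h1 : Continuous (V.domRestrict φ) := continuousOn_iff_continuous_domRestrict.mp hφ
  have h2 : MeasurableSet ((V.domRestrict φ) ⁻¹' S) := h1.measurable hS
  have h3 := hV.measurableSet.subtype_image h2
  have e : V ∩ φ ⁻¹' S = Subtype.val '' ((V.domRestrict φ) ⁻¹' S) := by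
    ext z
    constructor
    · rintro ⟨h4, h5⟩
      exact ⟨⟨z, h4⟩, h5, rfl⟩
    · rintro ⟨⟨z', h4⟩, h5, rfl⟩
      exact ⟨h4, h5⟩
  rw [e]
  exact h3

section

variable {M : Type w} {ι : Type v} [TopologicalSpace M] [T2Space M]
  [SecondCountableTopology M] [MeasurableSpace M] [BorelSpace M] {U : ι → Set ℂ} {φ : ι → ℂ → M}
  {ρ : ι → ℂ → ℝ} {area len : Measure M}

/-- the measure `ρ dz` on `V` -/
noncomputable def mu (ρ : ι → ℂ → ℝ) (i : ι) (V : Set ℂ) : Measure ℂ :=
  (volume.restrict V).withDensity (fun z => ENNReal.ofReal (ρ i z))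

theorem aem {V : Set ℂ} {i : ι} (h : IsothermalAtlas U φ ρ area len) (hV : IsOpen V)
    (hVU : V ⊆ U i) : AEMeasurable (fun z => ENNReal.ofReal (ρ i z)) (volume.restrict V) :=
  (((h.density_continuous i).mono hVU).aemeasurable hV.measurableSet).ennreal_ofReal

theorem restr (h : IsothermalAtlas U φ ρ area len) {i : ι} {V : Set ℂ} (hV : IsOpen V)
    (hVU : V ⊆ U i) {S : Set M} (hS : MeasurableSet S) :
    area (S ∩ φ i '' V) = ∫⁻ z in V ∩ φ i ⁻¹' S, ENNReal.ofReal (ρ i z) := by
  have h1 := h.area_chart i (V ∩ φ i ⁻¹' S)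
    (meas_inter hV ((h.continuous_chart i).mono hVU) hS) (Set.inter_subset_left.trans hVU)
  rw [← h1]
  congr 1
  ext x
  constructor
  · rintro ⟨h2, z, hz, rfl⟩
    exact ⟨z, ⟨hz, h2⟩, rfl⟩
  · rintro ⟨z, ⟨hz, h2⟩, rfl⟩
    exact ⟨h2, z, hz, rfl⟩

/-- a measurable function that equals `φ` on `V` -/
theorem exists_meas (h : IsothermalAtlas U φ ρ area len) {i : ι} {V : Set ℂ} (hV : IsOpen V)
    (hVU : V ⊆ U i) (hne : V.Nonempty) : ∃ ψ : ℂ → M, Measurable ψ ∧ ∀ z ∈ V, ψ z = φ i z := by
  classical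
  obtain ⟨z0, hz0⟩ := hne
  refine ⟨V.piecewise (φ i) (fun _ => φ i z0), ?_, fun z hz => Set.piecewise_eq_of_mem _ _ _ hz⟩
  intro S hS
  have e : (V.piecewise (φ i) fun _ => φ i z0) ⁻¹' S =
      (V ∩ φ i ⁻¹' S) ∪ (Vᶜ ∩ (fun _ => φ i z0) ⁻¹' S) := by
    ext z
    by_cases hz : z ∈ V
    · simp [Set.piecewise, hz]
    · simp [Set.piecewise, hz]
  rw [e]
  exact (meas_inter hV ((h.continuous_chart i).mono hVU) hS).union
    (hV.measurableSet.compl.inter (measurable_const hS))

theorem aemphi (h : IsothermalAtlas U φ ρ area len) {i : ι} {V : Set ℂ} (hV : IsOpen V)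
    (hVU : V ⊆ U i) (hne : V.Nonempty) : AEMeasurable (φ i) (mu ρ i V) := by
  obtain ⟨ψ, hψ, he⟩ := exists_meas h hV hVU hne
  refine ⟨ψ, hψ, ?_⟩
  have h1 : ∀ᵐ z ∂(volume.restrict V), φ i z = ψ z := by
    rw [ae_restrict_iff' hV.measurableSet]
    exact Eventually.of_forall fun z hz => (he z hz).symm
  exact (withDensity_absolutelyContinuous _ _).ae_le h1

theorem transport (h : IsothermalAtlas U φ ρ area len) {i : ι} {V : Set ℂ} (hV : IsOpen V)
    (hVU : V ⊆ U i) (hne : V.Nonempty) :
    area.restrict (φ i '' V) = Measure.map (φ i) (mu ρ i V) := by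
  obtain ⟨ψ, hψ, he⟩ := exists_meas h hV hVU hne
  have hφψ : φ i =ᵐ[mu ρ i V] ψ := by
    have h1 : ∀ᵐ z ∂(volume.restrict V), φ i z = ψ z := by
      rw [ae_restrict_iff' hV.measurableSet]
      exact Eventually.of_forall fun z hz => (he z hz).symm
    exact (withDensity_absolutelyContinuous _ _).ae_le h1
  rw [Measure.map_congr hφψ]
  ext S hS
  rw [Measure.restrict_apply hS, Measure.map_apply hψ hS, restr h hV hVU hS, mu,
    withDensity_apply _ (hψ hS), Measure.restrict_restrict (hψ hS)]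
  congr 2
  ext z
  constructor
  · rintro ⟨h1, h2⟩
    exact ⟨by
      show ψ z ∈ S
      rw [he z h1]
      exact h2, h1⟩
  · rintro ⟨h1, h2⟩
    refine ⟨h2, ?_⟩
    show φ i z ∈ S
    rw [← he z h2]
    exact h1

theorem integ_chart (h : IsothermalAtlas U φ ρ area len) {i : ι} {V : Set ℂ} (hV : IsOpen V)
    (hVU : V ⊆ U i) (hne : V.Nonempty) {g : M → ℝ} (hg : Measurable g) :
    ∫ x in φ i '' V, g x ∂area = ∫ z in V, ρ i z * g (φ i z) := by
  rw [transport h hV hVU hne, integral_map (aemphi h hV hVU hne) hg.aestronglyMeasurable, mu,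
    integral_withDensity_eq_integral_toReal_smul₀ (aem h hV hVU)
      (Eventually.of_forall fun z => ENNReal.ofReal_lt_top)]
  apply setIntegral_congr_fun hV.measurableSet
  intro z hz
  show (ENNReal.ofReal (ρ i z)).toReal * g (φ i z) = ρ i z * g (φ i z)
  rw [ENNReal.toReal_ofReal (h.density_pos i z (hVU hz)).le]

theorem lint_chart (h : IsothermalAtlas U φ ρ area len) {i : ι} {V : Set ℂ} (hV : IsOpen V)
    (hVU : V ⊆ U i) (hne : V.Nonempty) {g : M → ℝ≥0∞} (hg : Measurable g) :
    ∫⁻ x in φ i '' V, g x ∂area = ∫⁻ z in V, ENNReal.ofReal (ρ i z) * g (φ i z) := by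
  rw [transport h hV hVU hne, lintegral_map' hg.aemeasurable (aemphi h hV hVU hne), mu]
  obtain ⟨ψ, hψ, he⟩ := exists_meas h hV hVU hne
  have h1 : AEMeasurable (fun z => g (φ i z)) (volume.restrict V) := by
    refine ⟨fun z => g (ψ z), hg.comp hψ, ?_⟩
    have h1 : ∀ᵐ z ∂(volume.restrict V), φ i z = ψ z := by
      rw [ae_restrict_iff' hV.measurableSet]
      exact Eventually.of_forall fun z hz => (he z hz).symm
    filter_upwards [h1] with z hz
    rw [hz]
  rw [lintegral_withDensity_eq_lintegral_mul₀ (aem h hV hVU) h1]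
  rfl

theorem exists_K (h : IsothermalAtlas U φ ρ area len) {i : ι} {V : Set ℂ} (hV : IsOpen V)
    (hVU : V ⊆ U i) (hfin : area (φ i '' V) ≠ ⊤) {e : ℝ≥0∞} (he : e ≠ 0) :
    ∃ K ⊆ V, IsCompact K ∧ area (φ i '' V) ≤ area (φ i '' K) + e := by
  have h1 : ∀ S ⊆ V, MeasurableSet S → mu ρ i V S = area (φ i '' S) := by
    intro S hS hSm
    rw [mu, withDensity_apply _ hSm, Measure.restrict_restrict hSm,
      Set.inter_eq_left.mpr hS, h.area_chart i S hSm (hS.trans hVU)]
  have hfm : IsFiniteMeasure (mu ρ i V) := by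
    refine ⟨?_⟩
    rw [mu, withDensity_apply _ MeasurableSet.univ, Measure.restrict_univ,
      ← h.area_chart i V hV.measurableSet hVU]
    exact hfin.lt_top
  obtain ⟨K, hK1, hK2, hK3⟩ := hV.measurableSet.exists_isCompact_lt_add (μ := mu ρ i V)
    (measure_ne_top _ _) he
  refine ⟨K, hK1, hK2, ?_⟩
  rw [h1 V subset_rfl hV.measurableSet, h1 K hK1 hK2.measurableSet] at hK3
  exact hK3.le

theorem exists_w (h : IsothermalAtlas U φ ρ area len) {i : ι} {V : Set ℂ} (hV : IsOpen V)
    (hVU : V ⊆ U i) {χ : ℂ → ℝ} (hχ : Test V χ) (hχ1 : ∀ z, χ z ≤ 1) :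
    ∃ w : M → ℝ, Measurable w ∧ (∀ x, 0 ≤ w x) ∧ (∀ x, w x ≤ 1) ∧
      (∀ x, x ∉ φ i '' V → w x = 0) ∧ ∀ z ∈ V, w (φ i z) = χ z := by
  classical
  set w : M → ℝ := fun x => if hx : x ∈ φ i '' V then χ hx.choose else 0 with hw
  have w0 : ∀ x, x ∉ φ i '' V → w x = 0 := fun x hx => by
    simp only [hw]
    rw [dif_neg hx]
  have w1 : ∀ z ∈ V, w (φ i z) = χ z := by
    intro z hz
    have hx : φ i z ∈ φ i '' V := ⟨z, hz, rfl⟩
    simp only [hw]
    rw [dif_pos hx]
    have h2 := hx.choose_spec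
    rw [h.injective_chart i (hVU h2.1) (hVU hz) h2.2]
  refine ⟨w, ?_, ?_, ?_, w0, w1⟩
  · apply measurable_of_Ioi
    intro a
    rcases lt_or_ge a 0 with ha | ha
    · have : w ⁻¹' Set.Ioi a = Set.univ := by
        apply Set.eq_univ_of_forall
        intro x
        show a < w x
        refine lt_of_lt_of_le ha ?_
        by_cases hx : x ∈ φ i '' V
        · obtain ⟨z, hz, rfl⟩ := hx
          rw [w1 z hz]
          exact hχ.2.2.2 z
        · rw [w0 x hx]
      rw [this]
      exact MeasurableSet.univ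
    · have : w ⁻¹' Set.Ioi a = φ i '' (V ∩ χ ⁻¹' Set.Ioi a) := by
        ext x
        constructor
        · intro hx
          have hx' : a < w x := hx
          have hxV : x ∈ φ i '' V := by
            by_contra hn
            rw [w0 x hn] at hx'
            linarith
          obtain ⟨z, hz, rfl⟩ := hxV
          rw [w1 z hz] at hx'
          exact ⟨z, ⟨hz, hx'⟩, rfl⟩
        · rintro ⟨z, ⟨hz, hz2⟩, rfl⟩
          show a < w (φ i z)
          rw [w1 z hz]
          exact hz2
      rw [this]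
      exact (h.open_chart i _ (hV.inter (isOpen_Ioi.preimage hχ.1.continuous))
        (Set.inter_subset_left.trans hVU)).measurableSet
  · intro x
    by_cases hx : x ∈ φ i '' V
    · obtain ⟨z, hz, rfl⟩ := hx
      rw [w1 z hz]
      exact hχ.2.2.2 z
    · rw [w0 x hx]
  · intro x
    by_cases hx : x ∈ φ i '' V
    · obtain ⟨z, hz, rfl⟩ := hx
      rw [w1 z hz]
      exact hχ1 z
    · rw [w0 x hx]
      exact zero_le_one

theorem integ_w (h : IsothermalAtlas U φ ρ area len) {i : ι} {V : Set ℂ} (hV : IsOpen V)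
    (hVU : V ⊆ U i) {χ : ℂ → ℝ} (hχ : Test V χ) {w : M → ℝ} (hw : Measurable w)
    (w0 : ∀ x, x ∉ φ i '' V → w x = 0) (w1 : ∀ z ∈ V, w (φ i z) = χ z) {D : Set M}
    (hD : IsOpen D) (hVD : φ i '' V ⊆ D) {g : M → ℝ} (hg : Measurable g) :
    ∫ x in D, w x * g x ∂area = ∫ z, χ z * ρ i z * g (φ i z) := by
  have e1 : ∫ x in D, w x * g x ∂area = ∫ x in φ i '' V, w x * g x ∂area := by
    apply setIntegral_eq_of_subset_of_forall_sdiff_eq_zero hD.measurableSet hVD
    intro x hx
    rw [w0 x hx.2, zero_mul]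
  have e2 : ∫ z in V, χ z * ρ i z * g (φ i z) = ∫ z, χ z * ρ i z * g (φ i z) := by
    apply setIntegral_eq_integral_of_forall_compl_eq_zero
    intro z hz
    have : χ z = 0 := by
      by_contra hne
      exact hz (hχ.2.2.1 (subset_tsupport χ hne))
    rw [this, zero_mul, zero_mul]
  rw [e1, ← e2]
  rcases V.eq_empty_or_nonempty with hne | hne
  · rw [hne]
    simp
  · have e3 : ∫ x in φ i '' V, w x * g x ∂area = ∫ z in V, ρ i z * (w (φ i z) * g (φ i z)) :=
      integ_chart h hV hVU hne (g := fun x => w x * g x) (hw.mul hg)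
    rw [e3]
    apply setIntegral_congr_fun hV.measurableSet
    intro z hz
    show ρ i z * (w (φ i z) * g (φ i z)) = χ z * ρ i z * g (φ i z)
    rw [w1 z hz]
    ring

/-- disjoint open pieces, each in a chart, that cover `D` up to a null set -/
theorem exists_pieces (h : IsothermalAtlas U φ ρ area len) [Nonempty M] {D : Set M}
    (hD : IsOpen D) : ∃ (i : ℕ → ι) (V : ℕ → Set ℂ), (∀ j, IsOpen (V j)) ∧ (∀ j, V j ⊆ U (i j)) ∧
      (∀ j, φ (i j) '' V j ⊆ D) ∧
      Pairwise (Function.onFun Disjoint fun j => φ (i j) '' V j) ∧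
      area D ≤ ∑' j, area (φ (i j) '' V j) := by
  have hAt : Pool.Agent.Q73.NL.Atl U φ ρ area len :=
    ⟨h.isOpen_domain, h.continuous_chart, h.injective_chart, h.open_chart, h.cover,
      h.density_pos, h.density_continuous, h.area_chart, h.len_chart⟩
  obtain ⟨d, hd⟩ := Pool.Agent.Q73.NL.exists_discs hAt
  set B : ℕ → Set M := fun j => φ (d j).i '' Metric.ball (d j).z (d j).r with hB
  set K : ℕ → Set M := fun j => φ (d j).i '' Metric.closedBall (d j).z (d j).r with hK
  have hBK : ∀ j, B j ⊆ K j := fun j => Set.image_mono Metric.ball_subset_closedBall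
  have hKc : ∀ j, IsClosed (K j) := fun j =>
    ((isCompact_closedBall _ _).image_of_continuousOn
      ((h.continuous_chart _).mono (d j).sub)).isClosed
  have hBo : ∀ j, IsOpen (B j) := fun j =>
    h.open_chart _ _ Metric.isOpen_ball (Metric.ball_subset_closedBall.trans (d j).sub)
  set Q : ℕ → Set M := fun j => D ∩ (B j \ ⋃ k ∈ Finset.range j, K k) with hQ
  have hQo : ∀ j, IsOpen (Q j) := fun j =>
    hD.inter ((hBo j).sdiff ((Finset.range j).finite_toSet.isClosed_biUnion fun k _ => hKc k))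
  have hQD : ∀ j, Q j ⊆ D := fun j => Set.inter_subset_left
  have hQd : Pairwise (Function.onFun Disjoint Q) := by
    have key : ∀ i j : ℕ, i < j → Disjoint (Q i) (Q j) := by
      intro i j hij
      rw [Set.disjoint_left]
      intro x hx hx'
      refine hx'.2.2 ?_
      simp only [Set.mem_iUnion, Finset.mem_range]
      exact ⟨i, hij, hBK i hx.2.1⟩
    intro i j hij
    rcases lt_or_gt_of_ne hij with h | h
    · exact key i j h
    · exact (key j i h).symm
  have hnull : ∀ j, area (K j \ B j) = 0 := by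
    intro j
    have h1 : K j \ B j ⊆ φ (d j).i '' Metric.sphere (d j).z (d j).r := by
      rintro x ⟨⟨z, hz, rfl⟩, hxB⟩
      refine ⟨z, ?_, rfl⟩
      rw [Metric.mem_sphere]
      refine le_antisymm hz (not_lt.1 fun hlt => hxB ⟨z, hlt, rfl⟩)
    refine measure_mono_null h1 ?_
    rw [h.area_chart _ _ Metric.isClosed_sphere.measurableSet
      (Metric.sphere_subset_closedBall.trans (d j).sub)]
    exact setLIntegral_measure_zero _ _ (Measure.addHaar_sphere_of_ne_zero volume _ (d j).hr.ne')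
  have hcov : D ⊆ (⋃ j, Q j) ∪ ⋃ j, (K j \ B j) := by
    intro x hx
    have hex : ∃ j, x ∈ K j := by
      have : x ∈ ⋃ j, φ (d j).i '' Metric.ball (d j).z (d j).r := by rw [hd]; trivial
      obtain ⟨j, hj⟩ := Set.mem_iUnion.1 this
      exact ⟨j, hBK j hj⟩
    classical
    have h1 := Nat.find_spec hex
    have h2 : ∀ k < Nat.find hex, x ∉ K k := fun k hk => Nat.find_min hex hk
    by_cases hxB : x ∈ B (Nat.find hex)
    · left
      refine Set.mem_iUnion.2 ⟨Nat.find hex, hx, hxB, ?_⟩
      simp only [Set.mem_iUnion, Finset.mem_range, not_exists]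
      exact fun k hk => h2 k hk
    · right
      exact Set.mem_iUnion.2 ⟨Nat.find hex, h1, hxB⟩
  have hA : area D ≤ ∑' j, area (Q j) := by
    refine (measure_mono hcov).trans ((measure_union_le _ _).trans ?_)
    rw [measure_iUnion_null hnull, add_zero]
    exact measure_iUnion_le _
  set V : ℕ → Set ℂ := fun j => U (d j).i ∩ φ (d j).i ⁻¹' Q j with hV
  have hVQ : ∀ j, φ (d j).i '' V j = Q j := by
    intro j
    ext x
    constructor
    · rintro ⟨z, hz, rfl⟩
      exact hz.2
    · intro hx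
      obtain ⟨z, hz, rfl⟩ := Set.image_mono (Metric.ball_subset_closedBall.trans (d j).sub) hx.2.1
      exact ⟨z, ⟨hz, hx⟩, rfl⟩
  refine ⟨fun j => (d j).i, V, fun j => (h.continuous_chart _).isOpen_inter_preimage
    (h.isOpen_domain _) (hQo j), fun j => Set.inter_subset_left, fun j => ?_, ?_, ?_⟩
  · rw [hVQ]
    exact hQD j
  · have : (fun j => φ (d j).i '' V j) = Q := funext hVQ
    rw [this]
    exact hQd
  · simp only [hVQ]
    exact hA

end

/-- smooth cut-off functions in the plane -/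
theorem exists_cut {U K : Set ℂ} (hU : IsOpen U) (hK : IsCompact K) (hKU : K ⊆ U) :
    ∃ g : ℂ → ℝ, Test U g ∧ (∀ x ∈ K, g x = 1) ∧ (∀ x, g x ≤ 1) := by
  obtain ⟨δ, hδ, hδB⟩ := hK.exists_cthickening_subset_open hU hKU
  obtain ⟨f, hf1, hf2, hf3⟩ := exists_contMDiff_support_eq_eq_one_iff (𝓘(ℝ, ℂ))
    (Metric.isOpen_thickening (δ := δ) (E := K)) hK.isClosed
    (Metric.self_subset_thickening hδ K)
  have hs : tsupport f ⊆ Metric.cthickening δ K := by
    apply closure_minimal _ Metric.isClosed_cthickening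
    rw [hf3.1]
    exact Metric.thickening_subset_cthickening _ _
  refine ⟨f, ⟨hf1.contDiff, ?_, hs.trans hδB, fun x => ?_⟩, fun x hx => ?_, fun x => ?_⟩
  · exact (hK.cthickening (r := δ)).of_isClosed_subset (isClosed_tsupport f) hs
  · exact (hf2 ⟨x, rfl⟩).1
  · exact (hf3.2 x).1 hx
  · exact (hf2 ⟨x, rfl⟩).2

end J15

open J15 in
theorem j15 : J15.{w, v} := by
  intro M ι _ _ _ _ _ U φ ρ area len h D hD hfin ε hε
  rcases isEmpty_or_nonempty M with hM | hM
  · refine ⟨0, Fin.elim0, Fin.elim0, Fin.elim0, Fin.elim0, fun j => j.elim0, fun j => j.elim0,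
      fun j => j.elim0, fun x => by simp, ?_, fun j => j.elim0⟩
    have : D = ∅ := Set.eq_empty_of_isEmpty D
    rw [this]
    simp
    exact hε.le
  obtain ⟨i, V, hVo, hVU, hVD, hdis, hA⟩ := exists_pieces h hD
  -- the number of pieces
  obtain ⟨m, hm⟩ : ∃ m : ℕ, area D ≤
      (∑ j ∈ Finset.range m, area (φ (i j) '' V j)) + ENNReal.ofReal (ε / 2) := by
    have he : ENNReal.ofReal (ε / 2) ≠ 0 := by
      rw [Ne, ENNReal.ofReal_eq_zero, not_le]
      positivity
    by_cases h0 : area D = 0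
    · exact ⟨0, by rw [h0]; exact zero_le⟩
    · have h1 : area D - ENNReal.ofReal (ε / 2) < ⨆ m : ℕ,
          ∑ j ∈ Finset.range m, area (φ (i j) '' V j) := by
        rw [← ENNReal.tsum_eq_iSup_nat]
        exact lt_of_lt_of_le (ENNReal.sub_lt_self hfin h0 he) hA
      obtain ⟨m, hm⟩ := lt_iSup_iff.mp h1
      exact ⟨m, tsub_le_iff_right.mp hm.le⟩
  set e : ℝ≥0∞ := ENNReal.ofReal (ε / 2 / (m + 1)) with he
  have he0 : e ≠ 0 := by
    rw [he, Ne, ENNReal.ofReal_eq_zero, not_le]
    positivity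
  have hfinj : ∀ j, area (φ (i j) '' V j) ≠ ⊤ := fun j =>
    ne_top_of_le_ne_top hfin (measure_mono (hVD j))
  have hK : ∀ j, ∃ K ⊆ V j, IsCompact K ∧ area (φ (i j) '' V j) ≤ area (φ (i j) '' K) + e :=
    fun j => exists_K h (hVo j) (hVU j) (hfinj j) he0
  choose K hKV hKc hKa using hK
  have hcut := fun j => exists_cut (hVo j) (hKc j) (hKV j)
  choose χ hχ hχK hχ1 using hcut
  have hww := fun j => exists_w h (hVo j) (hVU j) (hχ j) (hχ1 j)
  choose w hwm hw0 hw1 hwz hwc using hww
  have hwK : ∀ j, ∀ x ∈ φ (i j) '' K j, w j x = 1 := by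
    rintro j x ⟨z, hz, rfl⟩
    rw [hwc j z (hKV j hz), hχK j z hz]
  have hsum : ∀ x, ∑ j : Fin m, w j x ≤ 1 := by
    intro x
    by_cases hx : ∃ j : Fin m, x ∈ φ (i j) '' V j
    · obtain ⟨j0, hj0⟩ := hx
      rw [Finset.sum_eq_single j0]
      · exact hw1 _ _
      · intro j _ hj
        apply hwz
        intro hxj
        have hne : (j : ℕ) ≠ (j0 : ℕ) := fun h => hj (Fin.ext h)
        exact Set.disjoint_left.mp (hdis hne) hxj hj0
      · intro hj
        exact absurd (Finset.mem_univ _) hj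
    · have h0 : ∑ j : Fin m, w j x = 0 := by
        apply Finset.sum_eq_zero
        intro j _
        apply hwz
        intro hxj
        exact hx ⟨j, hxj⟩
      rw [h0]
      exact zero_le_one
  refine ⟨m, fun j => i j, fun j => V j, fun j => χ j, fun j => w j,
    fun j => ⟨hVo j, hVU j, hVD j, hχ j⟩, fun j => hwm j, fun j => hw0 j, hsum, ?_, ?_⟩
  · -- the integral of the rest
    set F : Set M := ⋃ j : Fin m, φ (i j) '' K j with hF
    have hKm : ∀ j : Fin m, MeasurableSet (φ (i j) '' K j) := fun j =>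
      ((hKc j).image_of_continuousOn ((h.continuous_chart _).mono
        ((hKV j).trans (hVU j)))).isClosed.measurableSet
    have hFm : MeasurableSet F := MeasurableSet.iUnion hKm
    have hFD : F ⊆ D := Set.iUnion_subset fun j =>
      (Set.image_mono (hKV j)).trans (hVD j)
    have hFa : area F = ∑ j : Fin m, area (φ (i j) '' K j) := by
      rw [hF, measure_iUnion _ hKm, tsum_fintype]
      intro j j' hj
      have hne : (j : ℕ) ≠ (j' : ℕ) := fun h => hj (Fin.ext h)
      exact (hdis hne).mono (Set.image_mono (hKV j)) (Set.image_mono (hKV j'))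
    have hDF : area D ≤ area F + ENNReal.ofReal ε := by
      have e1 : (∑ j ∈ Finset.range m, area (φ (i j) '' V j)) ≤ area F +
          ENNReal.ofReal (ε / 2) := by
        rw [Finset.sum_range, hFa]
        calc ∑ j : Fin m, area (φ (i j) '' V j) ≤
            ∑ j : Fin m, (area (φ (i j) '' K j) + e) :=
              Finset.sum_le_sum fun j _ => hKa j
          _ = (∑ j : Fin m, area (φ (i j) '' K j)) + m * e := by
              rw [Finset.sum_add_distrib]
              simp
          _ ≤ _ := by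
              gcongr
              rw [he, ← ENNReal.ofReal_natCast, ← ENNReal.ofReal_mul (by positivity)]
              apply ENNReal.ofReal_le_ofReal
              rw [mul_div_assoc', div_le_iff₀ (by positivity)]
              nlinarith
      calc area D ≤ _ := hm
        _ ≤ area F + ENNReal.ofReal (ε / 2) + ENNReal.ofReal (ε / 2) := by gcongr
        _ = area F + ENNReal.ofReal ε := by
            rw [add_assoc, ← ENNReal.ofReal_add (by positivity) (by positivity), add_halves]
    have hrest : area (D \ F) ≤ ENNReal.ofReal ε := by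
      rw [measure_sdiff hFD hFm.nullMeasurableSet (ne_top_of_le_ne_top hfin (measure_mono hFD))]
      exact tsub_le_iff_left.mpr hDF
    have hind : ∀ x, 1 - ∑ j : Fin m, w j x ≤ Fᶜ.indicator (fun _ => (1 : ℝ)) x := by
      intro x
      by_cases hx : x ∈ F
      · rw [Set.indicator_of_notMem (Set.notMem_compl_iff.mpr hx)]
        obtain ⟨j, hj⟩ := Set.mem_iUnion.mp hx
        have h1 : w j x ≤ ∑ j : Fin m, w j x :=
          Finset.single_le_sum (f := fun j : Fin m => w j x) (fun j _ => hw0 j x)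
            (Finset.mem_univ j)
        rw [hwK j x hj] at h1
        linarith
      · rw [Set.indicator_of_mem hx]
        have : 0 ≤ ∑ j : Fin m, w j x := Finset.sum_nonneg fun j _ => hw0 j x
        linarith
    have hfm : IsFiniteMeasure (area.restrict D) := ⟨by
      rw [Measure.restrict_apply_univ]
      exact hfin.lt_top⟩
    have h2 : ∫ x in D, (1 - ∑ j : Fin m, w j x) ∂area ≤
        ∫ x in D, Fᶜ.indicator (fun _ => (1 : ℝ)) x ∂area := by
      apply integral_mono_of_nonneg
      · refine Eventually.of_forall fun x => ?_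
        have := hsum x
        show 0 ≤ 1 - ∑ j : Fin m, w j x
        linarith
      · exact (integrable_const (1 : ℝ)).indicator hFm.compl
      · exact Eventually.of_forall hind
    refine h2.trans ?_
    rw [integral_indicator hFm.compl, setIntegral_const, smul_eq_mul, mul_one,
      measureReal_def, Measure.restrict_apply hFm.compl]
    have e2 : Fᶜ ∩ D = D \ F := by
      rw [Set.inter_comm, Set.sdiff_eq]
    rw [e2]
    exact ENNReal.toReal_le_of_le_ofReal hε.le hrest
  · intro j g hg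
    exact integ_w h (hVo j) (hVU j) (hχ j) (hwm j) (hwz j) (hwc j) hD (hVD j) hg

open J15 in
theorem j16 : J16.{w, v} := by
  intro M ι _ _ _ _ _ U φ ρ area len h hρ lam f D B hlam hf hD hB
  have hcont : ∀ n, Continuous (f n) := by
    intro n
    rw [continuous_def]
    intro O hO
    have e1 : f n ⁻¹' O = ⋃ i, φ i '' (U i ∩ (fun z => f n (φ i z)) ⁻¹' O) := by
      ext x
      constructor
      · intro hx
        obtain ⟨i, z, hz, rfl⟩ := h.cover x
        exact Set.mem_iUnion.mpr ⟨i, z, ⟨hz, hx⟩, rfl⟩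
      · intro hx
        obtain ⟨i, z, ⟨hz, hz2⟩, rfl⟩ := Set.mem_iUnion.mp hx
        exact hz2
    rw [e1]
    apply isOpen_iUnion
    intro i
    exact h.open_chart i _ ((hf n i).1.continuousOn.isOpen_inter_preimage (h.isOpen_domain i) hO)
      Set.inter_subset_left
  refine ⟨fun n => (hcont n).measurable, ?_⟩
  intro i V hV hVU hVD
  refine ⟨hV, (hρ i).mono hVU, fun z hz => h.density_pos i z (hVU hz), hlam,
    fun n => (hf n i).1.mono hVU, ?_, ?_⟩
  · intro n z hz
    have := (hf n i).2 z (hVU hz)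
    have e1 : lapl (fun z => f n (φ i z)) z = laplacian (fun z => f n (φ i z)) z := rfl
    rw [e1]
    linarith
  · intro K hK hKV
    rcases K.eq_empty_or_nonempty with hKe | hKe
    · refine ⟨0, Eventually.of_forall fun n => ?_⟩
      rw [hKe]
      simp
    obtain ⟨z0, hz0, hmin⟩ := hK.exists_isMinOn hKe
      ((h.density_continuous i).mono (hKV.trans hVU))
    set c := ρ i z0 with hc
    have hc0 : 0 < c := h.density_pos i z0 (hVU (hKV hz0))
    refine ⟨c⁻¹ * |B|, Eventually.of_forall fun n => ?_⟩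
    have hVne : V.Nonempty := ⟨z0, hKV hz0⟩
    have hgm : Measurable (fun x => ENNReal.ofReal (f n x ^ 2)) :=
      ((hcont n).measurable.pow_const 2).ennreal_ofReal
    have h1 := lint_chart h hV hVU hVne hgm
    have h2 : ∫⁻ z in K, ENNReal.ofReal (ρ i z * f n (φ i z) ^ 2) ≤ ENNReal.ofReal |B| := by
      calc ∫⁻ z in K, ENNReal.ofReal (ρ i z * f n (φ i z) ^ 2) ≤
          ∫⁻ z in V, ENNReal.ofReal (ρ i z * f n (φ i z) ^ 2) :=
            lintegral_mono_set hKV
        _ = ∫⁻ z in V, ENNReal.ofReal (ρ i z) * ENNReal.ofReal (f n (φ i z) ^ 2) := by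
            apply setLIntegral_congr_fun hV.measurableSet
            intro z hz
            exact ENNReal.ofReal_mul (h.density_pos i z (hVU hz)).le
        _ = ∫⁻ x in φ i '' V, ENNReal.ofReal (f n x ^ 2) ∂area := h1.symm
        _ ≤ ∫⁻ x in D, ENNReal.ofReal (f n x ^ 2) ∂area := lintegral_mono_set hVD
        _ ≤ ENNReal.ofReal B := hB n
        _ ≤ _ := ENNReal.ofReal_le_ofReal (le_abs_self B)
    have hfc : ContinuousOn (fun z => f n (φ i z)) K :=
      (hf n i).1.continuousOn.mono (hKV.trans hVU)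
    have hρc : ContinuousOn (ρ i) K := (h.density_continuous i).mono (hKV.trans hVU)
    have i1 : IntegrableOn (fun z => ρ i z * f n (φ i z) ^ 2) K :=
      (hρc.mul (hfc.pow 2)).integrableOn_compact hK
    have i2 : IntegrableOn (fun z => f n (φ i z) ^ 2) K := (hfc.pow 2).integrableOn_compact hK
    have h3 : ∫ z in K, ρ i z * f n (φ i z) ^ 2 ≤ |B| := by
      have h0 : 0 ≤ᵐ[volume.restrict K] fun z => ρ i z * f n (φ i z) ^ 2 := by
        rw [EventuallyLE, ae_restrict_iff' hK.measurableSet]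
        exact Eventually.of_forall fun z hz =>
          mul_nonneg (h.density_pos i z (hVU (hKV hz))).le (sq_nonneg _)
      rw [integral_eq_lintegral_of_nonneg_ae h0 i1.aestronglyMeasurable]
      exact ENNReal.toReal_le_of_le_ofReal (abs_nonneg B) h2
    have h4 : ∫ z in K, f n (φ i z) ^ 2 ≤ ∫ z in K, c⁻¹ * (ρ i z * f n (φ i z) ^ 2) := by
      apply setIntegral_mono_on i2 (i1.const_mul _) hK.measurableSet
      intro z hz
      have h5 : c ≤ ρ i z := hmin hz
      have h6 : 1 ≤ c⁻¹ * ρ i z := by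
        rw [← div_eq_inv_mul, le_div_iff₀ hc0]
        linarith
      have h7 := mul_le_mul_of_nonneg_right h6 (sq_nonneg (f n (φ i z)))
      linarith
    rw [integral_const_mul] at h4
    exact h4.trans (mul_le_mul_of_nonneg_left h3 (by positivity))

end Pool.Agent.Q73.PW
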