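import Pool.Agent.Q73.PW.Stm2

/-!
# Project PW, J8: the jets of eigenfunctions are bounded in mean square
-/

set_option autoImplicit false
open MeasureTheory Filter Topology Real
open scoped ContDiff ENNReal

namespace Pool.Agent.Q73.PW

namespace J8h

open Pool.Agent.W745.RW Pool.Agent.TH294.RS Pool.Agent.TH294.RG Pool.Agent.TH421.DF
  Pool.Agent.TH421.AC
open Pool.Agent.Results.MP_a52643_an.AbsoluteContinuity

/-- mixed second derivatives -/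
lemma rdm {Ω : Set ℂ} (hΩ : IsOpen Ω) {h : ℕ → ℝ} {u : ℕ → ℂ → ℝ}
    (hu : ∀ n, ContDiffOn ℝ ∞ (u n) Ω) (v v' : ℂ) (n : ℕ) {z : ℂ} (hz : z ∈ Ω) :
    rd h v (rd h v' u) n z = h n ^ 2 * fderiv ℝ (fun w => fderiv ℝ (u n) w v') z v := by
  show h n * fderiv ℝ (fun w => h n * fderiv ℝ (u n) w v') z v = _
  rw [fderiv_const_mul (rdA hΩ (rsd hΩ (hu n) v') hz)]
  simp only [smul_apply, smul_eq_mul]; ring

/-- the energy of the jet in terms of the semiclassical derivatives -/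
lemma en_eq {Ω : Set ℂ} (hΩ : IsOpen Ω) {h : ℕ → ℝ} {w : ℕ → ℂ → ℝ}
    (hw : ∀ n, ContDiffOn ℝ ∞ (w n) Ω) (n : ℕ) {z : ℂ} (hz : z ∈ Ω) :
    En (h n) (w n) z = 1 + w n z ^ 2 + (rd h 1 w n z ^ 2 + rd h Complex.I w n z ^ 2) +
      (rd h 1 (rd h 1 w) n z ^ 2 + rd h 1 (rd h Complex.I w) n z ^ 2 +
        rd h Complex.I (rd h 1 w) n z ^ 2 + rd h Complex.I (rd h Complex.I w) n z ^ 2) := by
  rw [rdm hΩ hw 1 1 n hz, rdm hΩ hw 1 Complex.I n hz, rdm hΩ hw Complex.I 1 n hz,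
    rdm hΩ hw Complex.I Complex.I n hz]
  simp only [En, rd]
  show 1 + w n z ^ 2 + h n ^ 2 * ((fderiv ℝ (w n) z 1) ^ 2 + (fderiv ℝ (w n) z Complex.I) ^ 2) +
    h n ^ 4 * ((fderiv ℝ (fun w' => fderiv ℝ (w n) w' 1) z 1) ^ 2 +
      (fderiv ℝ (fun w' => fderiv ℝ (w n) w' Complex.I) z 1) ^ 2 +
      (fderiv ℝ (fun w' => fderiv ℝ (w n) w' 1) z Complex.I) ^ 2 +
      (fderiv ℝ (fun w' => fderiv ℝ (w n) w' Complex.I) z Complex.I) ^ 2) = _
  ring

/-- integrals of sums on a compact set -/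
lemma int_add {K : Set ℂ} (hK : IsCompact K) {F G : ℂ → ℝ} {a b : ℝ} (hF : ContinuousOn F K)
    (hG : ContinuousOn G K) (h1 : ∫ z in K, F z ≤ a) (h2 : ∫ z in K, G z ≤ b) :
    ∫ z in K, (F z + G z) ≤ a + b := by
  rw [integral_add (hF.integrableOn_compact hK) (hG.integrableOn_compact hK)]
  exact add_le_add h1 h2

end J8h

open J8h
open Pool.Agent.W745.RW Pool.Agent.TH294.RS Pool.Agent.TH294.RG Pool.Agent.TH421.DF
  Pool.Agent.TH421.AC
open Pool.Agent.Results.MP_a52643_an.AbsoluteContinuity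

/-- **The jets are bounded in mean square.** -/
theorem j8 : J8 := by
  intro Ω ρ lam u S K hK hKΩ
  have hΩ := S.hΩ
  have hρ := S.hρ
  have hlam := S.hlam
  have hu := S.hu
  have he := S.he
  have hL := S.hL
  obtain ⟨N0, hN0⟩ := (eventually_atTop.1 (hlam.eventually_ge_atTop 1))
  obtain ⟨l, hl⟩ : ∃ l : ℕ → ℝ, ∀ n, l n = lam (n + N0) := ⟨_, fun _ => rfl⟩
  have l1 : ∀ n, 1 ≤ l n := fun n => by rw [hl]; exact hN0 _ (Nat.le_add_left _ _)
  have ll : Tendsto l atTop atTop :=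
    (hlam.comp (tendsto_add_atTop_nat N0)).congr fun n => (hl n).symm
  obtain ⟨h, hh⟩ : ∃ h : ℕ → ℝ, ∀ n, h n = (√(l n))⁻¹ := ⟨_, fun _ => rfl⟩
  have hp : ∀ n, 0 < h n := fun n => by
    rw [hh]; exact inv_pos.2 (Real.sqrt_pos.2 (lt_of_lt_of_le one_pos (l1 n)))
  have h0 : Tendsto h atTop (𝓝 0) :=
    (tendsto_inv_atTop_zero.comp (Real.tendsto_sqrt_atTop.comp ll)).congr fun n => (hh n).symm
  have h2 : ∀ n, h n ^ 2 * l n = 1 := fun n => by
    have p : 0 < l n := lt_of_lt_of_le one_pos (l1 n)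
    rw [hh, inv_pow, Real.sq_sqrt p.le, inv_mul_cancel₀ p.ne']
  obtain ⟨w, hw⟩ : ∃ w : ℕ → ℂ → ℝ, w = fun n => u (n + N0) := ⟨_, rfl⟩
  have sw : ∀ n, ContDiffOn ℝ ∞ (w n) Ω := fun n => by rw [hw]; exact hu _
  have ew : ∀ n, ∀ z ∈ Ω, h n ^ 2 * lapl (w n) z = -(ρ z * w n z) := by
    intro n z hz
    have e1 := he (n + N0) z hz
    rw [← hl] at e1
    have e2 : lapl (w n) z = - (l n * (ρ z * w n z)) := by
      rw [hw]; show lapl (u (n + N0)) z = - (l n * (ρ z * u (n + N0) z)); linarith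
    rw [e2]
    have := h2 n
    linear_combination (-(ρ z * w n z)) * this
  have lbw : LB Ω 2 (cx w) := by
    refine ⟨fun n => Complex.ofRealCLM.contDiff.comp_contDiffOn (sw n), fun K hK hKB => ?_⟩
    obtain ⟨C, hC⟩ := hL K hK hKB
    refine ⟨C, ?_⟩
    have h3 := (tendsto_add_atTop_nat N0).eventually hC
    refine h3.mono fun n hn => ?_
    simp only [cx, Complex.norm_real, Real.norm_eq_abs, sq_abs, hw]
    exact hn
  have MKw : MK2 Ω h 4 (cx w) := by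
    refine mk_sol hΩ hp h0 lbw (ρ := fun z => (ρ z : ℂ))
      (Complex.ofRealCLM.contDiff.comp_contDiffOn hρ) (c := fun _ => 1) (M := 1)
      (Eventually.of_forall fun n => by norm_num) ?_ 4
    intro n z hz
    have e1 : lap (cx w n) z = ((lapl (w n) z : ℝ) : ℂ) := lap_re hΩ (sw n) hz
    simp only [Pool.Agent.TH294.RS.hL]
    rw [e1]
    have e2 := ew n z hz
    have e3 : ((h n ^ 2 * lapl (w n) z : ℝ) : ℂ) = ((-(ρ z * w n z) : ℝ) : ℂ) := by rw [e2]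
    push_cast at e3
    simp only [cx]
    push_cast
    rw [e3]; ring
  have s1 := rd_sm (h := h) hΩ sw 1
  have sI := rd_sm (h := h) hΩ sw Complex.I
  obtain ⟨m1, mI⟩ := mk_rd hΩ sw MKw
  obtain ⟨m11, mI1⟩ := mk_rd hΩ s1 m1
  obtain ⟨m1I, mII⟩ := mk_rd hΩ sI mI
  obtain ⟨c0, -, b0⟩ := lb_re MKw.lb hK hKΩ
  obtain ⟨c1, -, b1⟩ := lb_re m1.lb hK hKΩ
  obtain ⟨c2, -, b2⟩ := lb_re mI.lb hK hKΩ
  obtain ⟨c3, -, b3⟩ := lb_re m11.lb hK hKΩ
  obtain ⟨c4, -, b4⟩ := lb_re m1I.lb hK hKΩ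
  obtain ⟨c5, -, b5⟩ := lb_re mI1.lb hK hKΩ
  obtain ⟨c6, -, b6⟩ := lb_re mII.lb hK hKΩ
  refine ⟨(∫ z in K, (1 : ℝ)) + c0 + (c1 + c2) + (c3 + c4 + c5 + c6), ?_⟩
  rw [← Filter.map_add_atTop_eq_nat N0, eventually_map]
  filter_upwards [b0, b1, b2, b3, b4, b5, b6] with n b0 b1 b2 b3 b4 b5 b6
  have e1 : 1 / √(lam (n + N0)) = h n := by rw [hh, hl, one_div]
  have e2 : u (n + N0) = w n := by rw [hw]
  refine ⟨lt_of_lt_of_le one_pos (hN0 _ (Nat.le_add_left _ _)), ?_⟩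
  rw [e1, e2]
  rw [setIntegral_congr_fun hK.measurableSet (fun z hz => en_eq hΩ sw n (hKΩ hz))]
  have k0 : ContinuousOn (fun z => w n z ^ 2) K := ((sw n).continuousOn.mono hKΩ).pow 2
  have k1 : ContinuousOn (fun z => rd h 1 w n z ^ 2) K := ((s1 n).continuousOn.mono hKΩ).pow 2
  have k2 : ContinuousOn (fun z => rd h Complex.I w n z ^ 2) K :=
    ((sI n).continuousOn.mono hKΩ).pow 2
  have k3 : ContinuousOn (fun z => rd h 1 (rd h 1 w) n z ^ 2) K :=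
    ((rd_sm hΩ s1 1 n).continuousOn.mono hKΩ).pow 2
  have k4 : ContinuousOn (fun z => rd h 1 (rd h Complex.I w) n z ^ 2) K :=
    ((rd_sm hΩ sI 1 n).continuousOn.mono hKΩ).pow 2
  have k5 : ContinuousOn (fun z => rd h Complex.I (rd h 1 w) n z ^ 2) K :=
    ((rd_sm hΩ s1 Complex.I n).continuousOn.mono hKΩ).pow 2
  have k6 : ContinuousOn (fun z => rd h Complex.I (rd h Complex.I w) n z ^ 2) K :=
    ((rd_sm hΩ sI Complex.I n).continuousOn.mono hKΩ).pow 2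
  refine int_add hK ((continuousOn_const.add k0).add (k1.add k2)) (((k3.add k4).add k5).add k6)
    (int_add hK (continuousOn_const.add k0) (k1.add k2)
      (int_add hK continuousOn_const k0 le_rfl b0) (int_add hK k1 k2 b1 b2))
    (int_add hK ((k3.add k4).add k5) k6 (int_add hK (k3.add k4) k5 (int_add hK k3 k4 b3 b4) b5) b6)

end Pool.Agent.Q73.PW
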