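import Pool.Agent.Q73.PW.J9a

/-!
# Project PW: the inequality in isothermal coordinates
-/

set_option autoImplicit false
set_option linter.unusedVariables false
open MeasureTheory Filter Topology Real
open scoped ContDiff ENNReal

namespace Pool.Agent.Q73.PW

noncomputable section

open Pool.Agent.Results.MP_a52643_an.AbsoluteContinuity (lapl LocL2 Test)

namespace J9

theorem line {f : ℂ → ℝ} {z : ℂ} (e : ℂ) (hf : DifferentiableAt ℝ f z) :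
    HasDerivAt (fun t : ℝ => f (z + t • e)) (fderiv ℝ f z e) 0 :=
  hf.hasFDerivAt.hasLineDerivAt e

theorem comp2 {f : ℝ → ℝ → ℝ} {x s α' β' : ℝ} {α β : ℝ → ℝ}
    (hf : DifferentiableAt ℝ (fun p : ℝ × ℝ => f p.1 p.2) (x, s))
    (hα : HasDerivAt α α' 0) (hβ : HasDerivAt β β' 0) (h0 : α 0 = x) (h1 : β 0 = s) :
    HasDerivAt (fun t => f (α t) (β t)) (dx f x s * α' + ds f x s * β') 0 := by
  have hF := hf.hasFDerivAt
  set A := fderiv ℝ (fun p : ℝ × ℝ => f p.1 p.2) (x, s) with hA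
  have e1 : dx f x s = A (1, 0) := by
    have : HasDerivAt (fun t : ℝ => (t, s)) ((1 : ℝ), (0 : ℝ)) x :=
      (hasDerivAt_id x).prodMk (hasDerivAt_const x s)
    exact (HasFDerivAt.comp_hasDerivAt (l := fun p : ℝ × ℝ => f p.1 p.2) x hF this).deriv
  have e2 : ds f x s = A (0, 1) := by
    have : HasDerivAt (fun t : ℝ => (x, t)) ((0 : ℝ), (1 : ℝ)) s :=
      (hasDerivAt_const s x).prodMk (hasDerivAt_id s)
    exact (HasFDerivAt.comp_hasDerivAt (l := fun p : ℝ × ℝ => f p.1 p.2) s hF this).deriv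
  have h2 : HasDerivAt (fun t : ℝ => (α t, β t)) (α', β') 0 := hα.prodMk hβ
  have h3 : HasFDerivAt (fun p : ℝ × ℝ => f p.1 p.2) A ((fun t : ℝ => (α t, β t)) 0) := by
    simp only [h0, h1]; exact hF
  have h4 := HasFDerivAt.comp_hasDerivAt (0 : ℝ) h3 h2
  have e3 : A (α', β') = dx f x s * α' + ds f x s * β' := by
    rw [e1, e2]
    have : ((α', β') : ℝ × ℝ) = α' • ((1 : ℝ), (0 : ℝ)) + β' • ((0 : ℝ), (1 : ℝ)) := by
      simp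
    rw [this, map_add, map_smul, map_smul, smul_eq_mul, smul_eq_mul]
    ring
  rw [← e3]
  exact h4

/-- the derivative of a component of the field in a direction -/
theorem dX {a b : ℝ → ℝ → ℝ} {h e2 c c' x x' p p' al al' be be' v1 v1' v2 v2' q q' s : ℝ}
    {C X P Al Be V1 V2 Q : ℝ → ℝ}
    (hs : s = h ^ 2 * (v1 ^ 2 + v2 ^ 2) * q + e2)
    (ha : DifferentiableAt ℝ (fun p : ℝ × ℝ => a p.1 p.2) (x, s))
    (hb : DifferentiableAt ℝ (fun p : ℝ × ℝ => b p.1 p.2) (x, s))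
    (hC : HasDerivAt C c' 0) (hX : HasDerivAt X x' 0) (hP : HasDerivAt P p' 0)
    (hAl : HasDerivAt Al al' 0) (hBe : HasDerivAt Be be' 0) (hV1 : HasDerivAt V1 v1' 0)
    (hV2 : HasDerivAt V2 v2' 0) (hQ : HasDerivAt Q q' 0)
    (eC : C 0 = c) (eX : X 0 = x) (eP : P 0 = p) (eAl : Al 0 = al) (eBe : Be 0 = be)
    (eV1 : V1 0 = v1) (eV2 : V2 0 = v2) (eQ : Q 0 = q) :
    HasDerivAt (fun t => C t * (h * (a (X t) (h ^ 2 * (V1 t ^ 2 + V2 t ^ 2) * Q t + e2) * P t +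
        2 * b (X t) (h ^ 2 * (V1 t ^ 2 + V2 t ^ 2) * Q t + e2) *
          (X t * P t + h ^ 2 * Q t * (Al t * V1 t + Be t * V2 t)))))
      (c' * (h * (a x s * p + 2 * b x s * (x * p + h ^ 2 * q * (al * v1 + be * v2)))) +
        c * (h * ((dx a x s * x' + ds a x s * (h ^ 2 * (2 * v1 * v1' + 2 * v2 * v2') * q +
            h ^ 2 * (v1 ^ 2 + v2 ^ 2) * q')) * p + a x s * p' +
          2 * (dx b x s * x' + ds b x s * (h ^ 2 * (2 * v1 * v1' + 2 * v2 * v2') * q +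
            h ^ 2 * (v1 ^ 2 + v2 ^ 2) * q')) * (x * p + h ^ 2 * q * (al * v1 + be * v2)) +
          2 * b x s * (x' * p + x * p' + h ^ 2 * q' * (al * v1 + be * v2) +
            h ^ 2 * q * (al' * v1 + al * v1' + be' * v2 + be * v2'))))) 0 := by
  have hS : HasDerivAt (fun t => h ^ 2 * (V1 t ^ 2 + V2 t ^ 2) * Q t + e2)
      (h ^ 2 * (2 * v1 * v1' + 2 * v2 * v2') * q + h ^ 2 * (v1 ^ 2 + v2 ^ 2) * q') 0 := by
    have := ((((hV1.pow 2).add (hV2.pow 2)).const_mul (h ^ 2)).mul hQ).add_const e2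
    refine this.congr_deriv ?_
    simp only [Pi.add_apply, Pi.pow_apply, eV1, eV2, eQ]
    ring
  have hS0 : (fun t => h ^ 2 * (V1 t ^ 2 + V2 t ^ 2) * Q t + e2) 0 = s := by
    simp only [eV1, eV2, eQ, hs]
  have h1 := comp2 ha hX hS eX hS0
  have h2 := comp2 hb hX hS eX hS0
  have h3 := (hX.mul hP).add (((hQ.const_mul (h ^ 2)).mul ((hAl.mul hV1).add (hBe.mul hV2))))
  have h4 := hC.mul (((h1.mul hP).add ((h2.const_mul 2).mul h3)).const_mul h)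
  refine (h4.congr_deriv ?_)
  simp only [Pi.add_apply, Pi.mul_apply, eC, eX, eP, eAl, eBe, eV1, eV2, eQ, ← hs]
  ring

section Calc

variable {Ω : Set ℂ} {f : ℂ → ℝ}

theorem cd1 (hΩ : IsOpen Ω) (hf : ContDiffOn ℝ ∞ f Ω) : ContDiffOn ℝ ∞ (U1 f) Ω := by
  have h1 : ContDiffOn ℝ ∞ (fderiv ℝ f) Ω := hf.fderiv_of_isOpen hΩ (by simp)
  exact h1.clm_apply contDiffOn_const

theorem cd2 (hΩ : IsOpen Ω) (hf : ContDiffOn ℝ ∞ f Ω) : ContDiffOn ℝ ∞ (U2 f) Ω := by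
  have h1 : ContDiffOn ℝ ∞ (fderiv ℝ f) Ω := hf.fderiv_of_isOpen hΩ (by simp)
  exact h1.clm_apply contDiffOn_const

theorem dat (hΩ : IsOpen Ω) (hf : ContDiffOn ℝ ∞ f Ω) {z : ℂ} (hz : z ∈ Ω) :
    DifferentiableAt ℝ f z :=
  (hf.contDiffAt (hΩ.mem_nhds hz)).differentiableAt (by simp)

theorem symm (hΩ : IsOpen Ω) (hf : ContDiffOn ℝ ∞ f Ω) {z : ℂ} (hz : z ∈ Ω) :
    U1 (U2 f) z = U2 (U1 f) z := by
  have h1 : ContDiffOn ℝ ∞ (fderiv ℝ f) Ω := hf.fderiv_of_isOpen hΩ (by simp)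
  have h2 : DifferentiableAt ℝ (fderiv ℝ f) z :=
    (h1.contDiffAt (hΩ.mem_nhds hz)).differentiableAt (by simp)
  have h3 := (hf.contDiffAt (hΩ.mem_nhds hz)).isSymmSndFDerivAt (by
    rw [minSmoothness_of_isRCLikeNormedField]
    exact WithTop.coe_le_coe.2 (le_top : (2 : ℕ∞) ≤ ⊤))
  have e1 : U1 (U2 f) z = fderiv ℝ (fderiv ℝ f) z 1 Complex.I := by
    have h4 : HasFDerivAt (fun w => fderiv ℝ f w Complex.I)
        ((ContinuousLinearMap.apply ℝ ℝ Complex.I).comp (fderiv ℝ (fderiv ℝ f) z)) z :=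
      (ContinuousLinearMap.apply ℝ ℝ Complex.I).hasFDerivAt.comp z h2.hasFDerivAt
    show fderiv ℝ (fun w => fderiv ℝ f w Complex.I) z 1 = _
    rw [h4.fderiv]
    rfl
  have e2 : U2 (U1 f) z = fderiv ℝ (fderiv ℝ f) z Complex.I 1 := by
    have h4 : HasFDerivAt (fun w => fderiv ℝ f w 1)
        ((ContinuousLinearMap.apply ℝ ℝ (1 : ℂ)).comp (fderiv ℝ (fderiv ℝ f) z)) z :=
      (ContinuousLinearMap.apply ℝ ℝ (1 : ℂ)).hasFDerivAt.comp z h2.hasFDerivAt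
    show fderiv ℝ (fun w => fderiv ℝ f w 1) z Complex.I = _
    rw [h4.fderiv]
    rfl
  rw [e1, e2]
  exact h3 1 Complex.I

theorem U_congr (hΩ : IsOpen Ω) {g : ℂ → ℝ} (h : ∀ z ∈ Ω, f z = g z) {z : ℂ} (hz : z ∈ Ω) :
    fderiv ℝ f z = fderiv ℝ g z :=
  Filter.EventuallyEq.fderiv_eq (Filter.eventually_of_mem (hΩ.mem_nhds hz) h)

theorem third (hΩ : IsOpen Ω) {u ρ : ℂ → ℝ} {h : ℝ} (hu : ContDiffOn ℝ ∞ u Ω)
    (hρ : ContDiffOn ℝ ∞ ρ Ω) (he : ∀ z ∈ Ω, h ^ 2 * lapl u z = -(ρ z * u z)) {z : ℂ}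
    (hz : z ∈ Ω) :
    h ^ 2 * (U1 (U1 (U1 u)) z + U2 (U2 (U1 u)) z) = -(U1 ρ z * u z + ρ z * U1 u z) ∧
    h ^ 2 * (U1 (U1 (U2 u)) z + U2 (U2 (U2 u)) z) = -(U2 ρ z * u z + ρ z * U2 u z) := by
  have h1 := cd1 hΩ hu
  have h2 := cd2 hΩ hu
  have h11 := cd1 hΩ h1
  have h12 := cd1 hΩ h2
  have h21 := cd2 hΩ h1
  have h22 := cd2 hΩ h2
  have he' : ∀ w ∈ Ω, h ^ 2 * (U1 (U1 u) w + U2 (U2 u) w) = -(ρ w * u w) := he
  have hs : ∀ w ∈ Ω, U1 (U2 u) w = U2 (U1 u) w := fun w hw => symm hΩ hu hw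
  have hd := U_congr hΩ he' hz
  have e1 : HasFDerivAt (fun w => h ^ 2 * (U1 (U1 u) w + U2 (U2 u) w))
      (h ^ 2 • (fderiv ℝ (U1 (U1 u)) z + fderiv ℝ (U2 (U2 u)) z)) z :=
    ((dat hΩ h11 hz).hasFDerivAt.add (dat hΩ h22 hz).hasFDerivAt).const_mul _
  have e2 : HasFDerivAt (fun w => -(ρ w * u w)) (-(ρ z • fderiv ℝ u z + u z • fderiv ℝ ρ z)) z :=
    ((dat hΩ hρ hz).hasFDerivAt.mul (dat hΩ hu hz).hasFDerivAt).neg
  rw [e1.fderiv, e2.fderiv] at hd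
  have k1 := congrArg (fun L : ℂ →L[ℝ] ℝ => L 1) hd
  have k2 := congrArg (fun L : ℂ →L[ℝ] ℝ => L Complex.I) hd
  simp only [FunLike.coe_smul, Pi.smul_apply, add_apply, neg_apply, smul_eq_mul] at k1 k2
  have s1 : U1 (U2 (U2 u)) z = U2 (U2 (U1 u)) z := by
    rw [symm hΩ h2 hz]
    show fderiv ℝ (U1 (U2 u)) z Complex.I = fderiv ℝ (U2 (U1 u)) z Complex.I
    rw [U_congr hΩ hs hz]
  have s2 : U2 (U1 (U1 u)) z = U1 (U1 (U2 u)) z := by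
    rw [← symm hΩ h1 hz]
    show fderiv ℝ (U2 (U1 u)) z 1 = fderiv ℝ (U1 (U2 u)) z 1
    rw [U_congr hΩ hs hz]
  constructor
  · rw [← s1]
    have : h ^ 2 * (U1 (U1 (U1 u)) z + U1 (U2 (U2 u)) z) =
      -(ρ z * U1 u z + u z * U1 ρ z) := k1
    linarith
  · rw [← s2]
    have : h ^ 2 * (U2 (U1 (U1 u)) z + U2 (U2 (U2 u)) z) =
      -(ρ z * U2 u z + u z * U2 ρ z) := k2
    linarith

theorem int_zero {X : ℂ → ℝ} (hX : ContDiff ℝ ∞ X) (hc : HasCompactSupport X) (e : ℂ) :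
    Integrable (fun z => fderiv ℝ X z e) ∧ ∫ z, fderiv ℝ X z e = 0 := by
  have h1 : Continuous (fun z => fderiv ℝ X z e) :=
    (hX.continuous_fderiv (by simp)).clm_apply continuous_const
  have h2 : HasCompactSupport (fun z => fderiv ℝ X z e) := hc.fderiv_apply ℝ e
  have h3 : Integrable (fun z => fderiv ℝ X z e) := h1.integrable_of_hasCompactSupport h2
  refine ⟨h3, ?_⟩
  have := integral_mul_fderiv_eq_neg_fderiv_mul_of_integrable (μ := (volume : Measure ℂ))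
    (f := fun _ : ℂ => (1 : ℝ)) (g := X) (v := e) (by simp) (by simpa using h3)
    (by simpa using hX.continuous.integrable_of_hasCompactSupport hc)
    (fun x _ => by fun_prop) (fun x _ => (hX.differentiable (by simp)) x)
  simpa using this

theorem cut (hΩ : IsOpen Ω) {χ F : ℂ → ℝ} (hχ : ContDiff ℝ ∞ χ) (hs : tsupport χ ⊆ Ω)
    (hF : ContDiffOn ℝ ∞ F Ω) : ContDiff ℝ ∞ (fun z => χ z * F z) := by
  rw [contDiff_iff_contDiffAt]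
  intro z
  by_cases hz : z ∈ tsupport χ
  · exact hχ.contDiffAt.mul (hF.contDiffAt (hΩ.mem_nhds (hs hz)))
  · have h1 : (fun z => χ z * F z) =ᶠ[𝓝 z] fun _ => 0 := by
      have : ∀ᶠ w in 𝓝 z, w ∉ tsupport χ := (isClosed_tsupport χ).isOpen_compl.mem_nhds hz
      filter_upwards [this] with w hw
      rw [image_eq_zero_of_notMem_tsupport hw, zero_mul]
    exact contDiffAt_const.congr_of_eventuallyEq h1

theorem cut_zero {χ F : ℂ → ℝ} {z : ℂ} (hz : z ∉ tsupport χ) (e : ℂ) :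
    fderiv ℝ (fun z => χ z * F z) z e = 0 := by
  have h1 : (fun z => χ z * F z) =ᶠ[𝓝 z] fun _ => 0 := by
    have : ∀ᶠ w in 𝓝 z, w ∉ tsupport χ := (isClosed_tsupport χ).isOpen_compl.mem_nhds hz
    filter_upwards [this] with w hw
    rw [image_eq_zero_of_notMem_tsupport hw, zero_mul]
  rw [h1.fderiv_eq]
  simp

end Calc

/-- the components of the field, without the cut-off -/
def F1 (ρ u : ℂ → ℝ) (a b : ℝ → ℝ → ℝ) (h e2 : ℝ) (z : ℂ) : ℝ :=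
  h * (a (u z) (h ^ 2 * (U1 u z ^ 2 + U2 u z ^ 2) * (ρ z)⁻¹ + e2) * U1 u z +
    2 * b (u z) (h ^ 2 * (U1 u z ^ 2 + U2 u z ^ 2) * (ρ z)⁻¹ + e2) *
      (u z * U1 u z + h ^ 2 * (ρ z)⁻¹ * (U1 (U1 u) z * U1 u z + U1 (U2 u) z * U2 u z)))

def F2 (ρ u : ℂ → ℝ) (a b : ℝ → ℝ → ℝ) (h e2 : ℝ) (z : ℂ) : ℝ :=
  h * (a (u z) (h ^ 2 * (U1 u z ^ 2 + U2 u z ^ 2) * (ρ z)⁻¹ + e2) * U2 u z +
    2 * b (u z) (h ^ 2 * (U1 u z ^ 2 + U2 u z ^ 2) * (ρ z)⁻¹ + e2) *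
      (u z * U2 u z + h ^ 2 * (ρ z)⁻¹ * (U2 (U1 u) z * U1 u z + U2 (U2 u) z * U2 u z)))

section Field

variable {Ω : Set ℂ} {ρ χ u Φ : ℂ → ℝ} {a b : ℝ → ℝ → ℝ} {h e2 : ℝ}

theorem smooth_s (hΩ : IsOpen Ω) (hρ : ContDiffOn ℝ ∞ ρ Ω) (hρ0 : ∀ z ∈ Ω, 0 < ρ z)
    (hu : ContDiffOn ℝ ∞ u Ω) :
    ContDiffOn ℝ ∞ (fun z => h ^ 2 * (U1 u z ^ 2 + U2 u z ^ 2) * (ρ z)⁻¹ + e2) Ω := by
  have h1 := cd1 hΩ hu
  have h2 := cd2 hΩ hu
  have h3 : ContDiffOn ℝ ∞ (fun z => (ρ z)⁻¹) Ω := hρ.inv fun z hz => (hρ0 z hz).ne'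
  exact ((contDiffOn_const.mul ((h1.pow 2).add (h2.pow 2))).mul h3).add contDiffOn_const

theorem smooth_comp (hΩ : IsOpen Ω) (hρ : ContDiffOn ℝ ∞ ρ Ω) (hρ0 : ∀ z ∈ Ω, 0 < ρ z)
    (hu : ContDiffOn ℝ ∞ u Ω) (he : 0 < e2)
    (ha : ContDiffOn ℝ ∞ (fun p : ℝ × ℝ => a p.1 p.2) {p | 0 < p.2}) :
    ContDiffOn ℝ ∞ (fun z => a (u z) (h ^ 2 * (U1 u z ^ 2 + U2 u z ^ 2) * (ρ z)⁻¹ + e2)) Ω := by
  have h1 : ContDiffOn ℝ ∞
      (fun z => (u z, h ^ 2 * (U1 u z ^ 2 + U2 u z ^ 2) * (ρ z)⁻¹ + e2)) Ω :=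
    hu.prodMk (smooth_s hΩ hρ hρ0 hu)
  refine ha.comp h1 fun z hz => ?_
  have := hρ0 z hz
  show 0 < h ^ 2 * (U1 u z ^ 2 + U2 u z ^ 2) * (ρ z)⁻¹ + e2
  positivity

theorem smooth_F (hΩ : IsOpen Ω) (hρ : ContDiffOn ℝ ∞ ρ Ω) (hρ0 : ∀ z ∈ Ω, 0 < ρ z)
    (hu : ContDiffOn ℝ ∞ u Ω) (he : 0 < e2)
    (ha : ContDiffOn ℝ ∞ (fun p : ℝ × ℝ => a p.1 p.2) {p | 0 < p.2})
    (hb : ContDiffOn ℝ ∞ (fun p : ℝ × ℝ => b p.1 p.2) {p | 0 < p.2}) :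
    ContDiffOn ℝ ∞ (F1 ρ u a b h e2) Ω ∧ ContDiffOn ℝ ∞ (F2 ρ u a b h e2) Ω := by
  have h1 := cd1 hΩ hu
  have h2 := cd2 hΩ hu
  have h11 := cd1 hΩ h1
  have h12 := cd1 hΩ h2
  have h21 := cd2 hΩ h1
  have h22 := cd2 hΩ h2
  have h3 : ContDiffOn ℝ ∞ (fun z => (ρ z)⁻¹) Ω := hρ.inv fun z hz => (hρ0 z hz).ne'
  have hA := smooth_comp (h := h) hΩ hρ hρ0 hu he ha
  have hB := smooth_comp (h := h) hΩ hρ hρ0 hu he hb
  constructor
  · exact contDiffOn_const.mul ((hA.mul h1).add ((contDiffOn_const.mul hB).mul ((hu.mul h1).add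
      ((contDiffOn_const.mul h3).mul ((h11.mul h1).add (h12.mul h2))))))
  · exact contDiffOn_const.mul ((hA.mul h2).add ((contDiffOn_const.mul hB).mul ((hu.mul h2).add
      ((contDiffOn_const.mul h3).mul ((h21.mul h1).add (h22.mul h2))))))

/-- the pointwise inequality -/
theorem pointwise {Φ : ℝ → ℝ} {C B : ℝ} (hΩ : IsOpen Ω) (hρ : ContDiffOn ℝ ∞ ρ Ω)
    (hρ0 : ∀ z ∈ Ω, 0 < ρ z) (hχ : Test Ω χ) (hF : Fld Φ a b 1 C) (hB : 1 ≤ B)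
    (ε : ℝ) (hh : 0 < h) (hε : 0 < ε) (hε1 : ε ≤ 1) (hu : ContDiffOn ℝ ∞ u Ω)
    (hEq : ∀ z ∈ Ω, h ^ 2 * lapl u z = -(ρ z * u z)) (z : ℂ) (hz : z ∈ tsupport χ)
    (b1 : χ z ≤ B) (b2 : |U1 χ z| ≤ B) (b3 : |U2 χ z| ≤ B) (b4 : ρ z ≤ B) (b5 : (ρ z)⁻¹ ≤ B)
    (b6 : |U1 ρ z| ≤ B) (b7 : |U2 ρ z| ≤ B) :
    χ z * ρ z * (mn Φ √(u z ^ 2 + h ^ 2 * (U1 u z ^ 2 + U2 u z ^ 2) / ρ z + ε ^ 2) - Φ (u z)) ≤
      h * (fderiv ℝ (fun z => χ z * F1 ρ u a b h (ε ^ 2) z) z 1 +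
        fderiv ℝ (fun z => χ z * F2 ρ u a b h (ε ^ 2) z) z Complex.I) +
      16 * C * B ^ 4 * (h + ε ^ 2) * En h u z := by
  have hzΩ : z ∈ Ω := hχ.2.2.1 hz
  have hr := hρ0 z hzΩ
  have h1 := cd1 hΩ hu
  have h2 := cd2 hΩ hu
  have h11 := cd1 hΩ h1
  have h12 := cd1 hΩ h2
  have h21 := cd2 hΩ h1
  have h22 := cd2 hΩ h2
  have hsF := smooth_F (h := h) hΩ hρ hρ0 hu (pow_pos hε 2) hF.sa hF.sb
  set s : ℝ := h ^ 2 * (U1 u z ^ 2 + U2 u z ^ 2) * (ρ z)⁻¹ + ε ^ 2 with hs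
  have hs0 : 0 < s := by rw [hs]; positivity
  have hm : ((u z, s) : ℝ × ℝ) ∈ {p : ℝ × ℝ | 0 < p.2} := hs0
  have hopen : IsOpen {p : ℝ × ℝ | 0 < p.2} := isOpen_lt continuous_const continuous_snd
  have hda : DifferentiableAt ℝ (fun p : ℝ × ℝ => a p.1 p.2) (u z, s) :=
    (hF.sa.contDiffAt (hopen.mem_nhds hm)).differentiableAt (by simp)
  have hdb : DifferentiableAt ℝ (fun p : ℝ × ℝ => b p.1 p.2) (u z, s) :=
    (hF.sb.contDiffAt (hopen.mem_nhds hm)).differentiableAt (by simp)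
  have hq : ContDiffOn ℝ ∞ (fun z => (ρ z)⁻¹) Ω := hρ.inv fun z hz => (hρ0 z hz).ne'
  have hdq : ∀ e : ℂ, fderiv ℝ (fun z => (ρ z)⁻¹) z e = -((ρ z)⁻¹ ^ 2 * fderiv ℝ ρ z e) := by
    intro e
    have hl := line e (dat hΩ hρ hzΩ)
    have h0 : ρ (z + (0 : ℝ) • e) = ρ z := by simp
    have hi := hl.inv (by rw [h0]; exact hr.ne')
    have hl2 := line e (dat hΩ hq hzΩ)
    have := hl2.unique hi
    rw [this, h0]
    field_simp
  have hs12 : U1 (U2 u) z = U2 (U1 u) z := symm hΩ hu hzΩ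
  obtain ⟨th1, th2⟩ := third hΩ hu hρ hEq hzΩ
  have hχd : DifferentiableAt ℝ χ z := hχ.1.differentiable (by simp) z
  -- the derivatives of the components
  have hd1 : DifferentiableAt ℝ (fun z => χ z * F1 ρ u a b h (ε ^ 2) z) z :=
      hχd.mul (dat hΩ hsF.1 hzΩ)
  have D1 := (line 1 hd1).unique (dX (h := h) (c := χ z) (x := u z) (p := U1 u z)
    (al := U1 (U1 u) z) (be := U1 (U2 u) z) (v1 := U1 u z) (v2 := U2 u z) (q := (ρ z)⁻¹)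
    hs hda hdb (line 1 hχd) (line 1 (dat hΩ hu hzΩ))
    (line 1 (dat hΩ h1 hzΩ)) (line 1 (dat hΩ h11 hzΩ)) (line 1 (dat hΩ h12 hzΩ))
    (line 1 (dat hΩ h1 hzΩ)) (line 1 (dat hΩ h2 hzΩ)) (line 1 (dat hΩ hq hzΩ))
    (by simp) (by simp) (by simp) (by simp) (by simp) (by simp) (by simp) (by simp))
  have hd2 : DifferentiableAt ℝ (fun z => χ z * F2 ρ u a b h (ε ^ 2) z) z :=
    hχd.mul (dat hΩ hsF.2 hzΩ)
  have D2 := (line Complex.I hd2).unique (dX (h := h) (c := χ z) (x := u z) (p := U2 u z)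
    (al := U2 (U1 u) z) (be := U2 (U2 u) z) (v1 := U1 u z) (v2 := U2 u z) (q := (ρ z)⁻¹)
    hs hda hdb (line Complex.I hχd) (line Complex.I (dat hΩ hu hzΩ))
    (line Complex.I (dat hΩ h2 hzΩ)) (line Complex.I (dat hΩ h21 hzΩ))
    (line Complex.I (dat hΩ h22 hzΩ)) (line Complex.I (dat hΩ h1 hzΩ))
    (line Complex.I (dat hΩ h2 hzΩ)) (line Complex.I (dat hΩ hq hzΩ))
    (by simp) (by simp) (by simp) (by simp) (by simp) (by simp) (by simp) (by simp))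
  rw [hdq] at D1 D2
  have hx1 : fderiv ℝ u z 1 = U1 u z := rfl
  have hx2 : fderiv ℝ u z Complex.I = U2 u z := rfl
  have hx3 : fderiv ℝ (U1 u) z 1 = U1 (U1 u) z := rfl
  have hx4 : fderiv ℝ (U2 u) z 1 = U1 (U2 u) z := rfl
  have hx5 : fderiv ℝ (U1 u) z Complex.I = U2 (U1 u) z := rfl
  have hx6 : fderiv ℝ (U2 u) z Complex.I = U2 (U2 u) z := rfl
  have hx7 : fderiv ℝ (U1 (U1 u)) z 1 = U1 (U1 (U1 u)) z := rfl
  have hx8 : fderiv ℝ (U1 (U2 u)) z 1 = U1 (U1 (U2 u)) z := rfl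
  have hx9 : fderiv ℝ (U2 (U1 u)) z Complex.I = U2 (U2 (U1 u)) z := rfl
  have hx10 : fderiv ℝ (U2 (U2 u)) z Complex.I = U2 (U2 (U2 u)) z := rfl
  have hx11 : fderiv ℝ χ z 1 = U1 χ z := rfl
  have hx12 : fderiv ℝ χ z Complex.I = U2 χ z := rfl
  have hx13 : fderiv ℝ ρ z 1 = U1 ρ z := rfl
  have hx14 : fderiv ℝ ρ z Complex.I = U2 ρ z := rfl
  rw [hx1, hx3, hx4, hx7, hx8, hx11, hx13] at D1
  rw [hx2, hx5, hx6, hx9, hx10, hx12, hx14] at D2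
  obtain ⟨x, hx⟩ : ∃ x, x = u z := ⟨_, rfl⟩
  obtain ⟨u1, hu1⟩ : ∃ y, y = U1 u z := ⟨_, rfl⟩
  obtain ⟨u2, hu2⟩ : ∃ y, y = U2 u z := ⟨_, rfl⟩
  obtain ⟨u11, hu11⟩ : ∃ y, y = U1 (U1 u) z := ⟨_, rfl⟩
  obtain ⟨u12, hu12⟩ : ∃ y, y = U2 (U1 u) z := ⟨_, rfl⟩
  obtain ⟨u22, hu22⟩ : ∃ y, y = U2 (U2 u) z := ⟨_, rfl⟩
  obtain ⟨q, hqq⟩ : ∃ y, y = (ρ z)⁻¹ := ⟨_, rfl⟩
  obtain ⟨r, hrr⟩ : ∃ y, y = ρ z := ⟨_, rfl⟩
  have hL := hEq z hzΩ
  have hL' : h ^ 2 * (U1 (U1 u) z + U2 (U2 u) z) = -(ρ z * u z) := hL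
  have hqr : q * r = 1 := by rw [hqq, hrr]; exact inv_mul_cancel₀ hr.ne'
  have hq0 : 0 < q := by rw [hqq]; positivity
  rw [hs12] at D1
  have eEn : En h u z = 1 + x ^ 2 + ((h * u1) ^ 2 + (h * u2) ^ 2) + ((h ^ 2 * u11) ^ 2 +
      (h ^ 2 * u12) ^ 2 + (h ^ 2 * u12) ^ 2 + (h ^ 2 * u22) ^ 2) := by
    unfold En
    rw [hs12, ← hx, ← hu1, ← hu2, ← hu11, ← hu12, ← hu22]
    ring
  have esq : u z ^ 2 + h ^ 2 * (U1 u z ^ 2 + U2 u z ^ 2) / ρ z + ε ^ 2 = x ^ 2 + s := by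
    rw [hs, hx, div_eq_mul_inv]; ring
  rw [esq, eEn]
  rw [← hx, ← hu1, ← hu2, ← hu11, ← hu12, ← hqq] at D1
  rw [← hx, ← hu1, ← hu2, ← hu12, ← hu22, ← hqq] at D2
  rw [← hx, ← hu1, ← hrr] at th1
  rw [← hx, ← hu2, ← hrr] at th2
  rw [← hx, ← hu11, ← hu22, ← hrr] at hL'
  rw [← hqq, ← hu1, ← hu2] at hs
  rw [← hx, ← hrr]
  rw [← hqq] at b5
  rw [← hrr] at b4 hr
  rw [← hx] at hm hda hdb
  clear_value s
  have R1 := hF.r1 x s hs0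
  have R2 := hF.r2 x s hs0
  have R3 := hF.r3 x s hs0
  have R4 := hF.r4 x s hs0
  have hk : b x s = b x s / s * s := by field_simp
  have hkk := hF.b5 x s hs0
  have hk0 : 0 ≤ b x s / s := div_nonneg R4 hs0.le
  have hD := algD h x u1 u2 u11 u12 u22 _ _ q r (U1 ρ z) (U2 ρ z) (χ z) (U1 χ z) (U2 χ z)
    (a x s) (dx a x s) (ds a x s) (b x s) (dx b x s) (ds b x s) hqr hL' th1 th2 _ _ _ _ rfl rfl
    _ _ _ _ rfl rfl (D1.trans (by ring)) (D2.trans (by ring)) (h * u1) (h * u2)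
    (q * (h ^ 2 * u11)) (q * (h ^ 2 * u12)) (q * (h ^ 2 * u22)) _ _ _ _ _ rfl rfl rfl rfl rfl
    rfl rfl rfl rfl rfl
  have hE := algE x (h * u1) (h * u2) q (q * (h ^ 2 * u11)) (q * (h ^ 2 * u12))
    (q * (h ^ 2 * u22)) (ε ^ 2) s (a x s) (dx a x s) (ds a x s) (b x s) (dx b x s) (ds b x s)
    (b x s / s) (Φ x - mn Φ √(x ^ 2 + s))
    (by linear_combination q * hL' - x * hqr) (by rw [hs]; ring) hk R1 R2
  rw [hE] at hD
  have hR := bndR x (h * u1) (h * u2) (h ^ 2 * u11) (h ^ 2 * u12) (h ^ 2 * u22) q (χ z) (U1 χ z)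
    (U2 χ z) (U1 ρ z) (U2 ρ z) (a x s) (ds a x s) (b x s) (ds b x s) s (ε ^ 2) √(x ^ 2 + s) B C
    _ (q * (h ^ 2 * u11) * (h * u1) + q * (h ^ 2 * u12) * (h * u2))
    (q * (h ^ 2 * u12) * (h * u1) + q * (h ^ 2 * u22) * (h * u2)) _ _ _ hB hF.C0 (hχ.2.2.2 z) b1
    hq0.le b5 b2 b3 b6 b7 (sq_nonneg _) (pow_le_one₀ hε.le hε1) (by rw [hs]; ring) rfl
    (Real.sqrt_nonneg _) (Real.sq_sqrt (by positivity)) (hF.b1 x s hs0) (hF.b3 x s hs0) R4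
    (hF.b4 x s hs0) (hF.b6 x s hs0) rfl rfl rfl rfl rfl
  have hEb := bndE x (h * u1) (h * u2) (h ^ 2 * u11) (h ^ 2 * u12) (h ^ 2 * u22) q (χ z) r
    (b x s / s) (dx a x s) (dx b x s) (ε ^ 2) √(x ^ 2 + s) B C _ hB hF.C0 (hχ.2.2.2 z) b1
    hq0.le b5 hr.le b4 (sq_nonneg _) hk0 hkk (hF.b2 x s hs0) (Real.sqrt_nonneg _)
    (Real.abs_le_sqrt (by linarith)) (hF.b7 x s hs0) rfl
  have hQ : 0 ≤ x ^ 2 * s + 2 * x * (q * ((q * (h ^ 2 * u11) * (h * u1) +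
      q * (h ^ 2 * u12) * (h * u2)) * (h * u1) + (q * (h ^ 2 * u12) * (h * u1) +
      q * (h ^ 2 * u22) * (h * u2)) * (h * u2))) + q * ((q * (h ^ 2 * u11) * (h * u1) +
      q * (h ^ 2 * u12) * (h * u2)) ^ 2 + (q * (h ^ 2 * u12) * (h * u1) +
      q * (h ^ 2 * u22) * (h * u2)) ^ 2) := by
    have e : x ^ 2 * s + 2 * x * (q * ((q * (h ^ 2 * u11) * (h * u1) +
      q * (h ^ 2 * u12) * (h * u2)) * (h * u1) + (q * (h ^ 2 * u12) * (h * u1) +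
      q * (h ^ 2 * u22) * (h * u2)) * (h * u2))) + q * ((q * (h ^ 2 * u11) * (h * u1) +
      q * (h ^ 2 * u12) * (h * u2)) ^ 2 + (q * (h ^ 2 * u12) * (h * u1) +
      q * (h ^ 2 * u22) * (h * u2)) ^ 2) = x ^ 2 * ε ^ 2 + q * ((x * (h * u1) +
      (q * (h ^ 2 * u11) * (h * u1) + q * (h ^ 2 * u12) * (h * u2))) ^ 2 + (x * (h * u2) +
      (q * (h ^ 2 * u12) * (h * u1) + q * (h ^ 2 * u22) * (h * u2))) ^ 2) := by
      rw [hs]; ring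
    rw [e]
    positivity
  rw [hD]
  have hR1 := mul_le_mul_of_nonneg_left (abs_le.1 hR).1 hh.le
  have hcr : 0 ≤ χ z * r := mul_nonneg (hχ.2.2.2 z) hr.le
  rw [one_mul] at R3
  have hP := mul_nonneg hcr (mul_nonneg R3 hQ)
  linarith

end Field

theorem en_cont {Ω : Set ℂ} {u : ℂ → ℝ} (h : ℝ) (hΩ : IsOpen Ω) (hu : ContDiffOn ℝ ∞ u Ω) :
    ContinuousOn (En h u) Ω := by
  have h1 := cd1 hΩ hu
  have h2 := cd2 hΩ hu
  have h11 := (cd1 hΩ h1).continuousOn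
  have h12 := (cd1 hΩ h2).continuousOn
  have h21 := (cd2 hΩ h1).continuousOn
  have h22 := (cd2 hΩ h2).continuousOn
  exact (((continuousOn_const.add (hu.continuousOn.pow 2))).add
    (continuousOn_const.mul ((h1.continuousOn.pow 2).add (h2.continuousOn.pow 2)))).add
    (continuousOn_const.mul ((((h11.pow 2).add (h12.pow 2)).add (h21.pow 2)).add (h22.pow 2)))

end J9

open J9 in
/-- job J9 -/
theorem j9 : J9 := by
  intro Ω ρ χ Φ a b C hΩ hρ hρ0 hχ hΦ hF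
  have hK : IsCompact (tsupport χ) := hχ.2.1
  have hKΩ : tsupport χ ⊆ Ω := hχ.2.2.1
  have hχu : ContDiffOn ℝ ∞ χ Set.univ := hχ.1.contDiffOn
  obtain ⟨B1, hB1⟩ := hK.exists_bound_of_continuousOn hχ.1.continuous.continuousOn
  obtain ⟨B2, hB2⟩ := hK.exists_bound_of_continuousOn
    ((cd1 isOpen_univ hχu).continuousOn.mono (Set.subset_univ _))
  obtain ⟨B3, hB3⟩ := hK.exists_bound_of_continuousOn
    ((cd2 isOpen_univ hχu).continuousOn.mono (Set.subset_univ _))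
  obtain ⟨B4, hB4⟩ := hK.exists_bound_of_continuousOn (hρ.continuousOn.mono hKΩ)
  obtain ⟨B5, hB5⟩ := hK.exists_bound_of_continuousOn
    ((hρ.inv fun z hz => (hρ0 z hz).ne').continuousOn.mono hKΩ)
  obtain ⟨B6, hB6⟩ := hK.exists_bound_of_continuousOn ((cd1 hΩ hρ).continuousOn.mono hKΩ)
  obtain ⟨B7, hB7⟩ := hK.exists_bound_of_continuousOn ((cd2 hΩ hρ).continuousOn.mono hKΩ)
  obtain ⟨B, hB⟩ : ∃ B : ℝ, B = 1 + |B1| + |B2| + |B3| + |B4| + |B5| + |B6| + |B7| := ⟨_, rfl⟩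
  have p1 := abs_nonneg B1
  have p2 := abs_nonneg B2
  have p3 := abs_nonneg B3
  have p4 := abs_nonneg B4
  have p5 := abs_nonneg B5
  have p6 := abs_nonneg B6
  have p7 := abs_nonneg B7
  have l1 := le_abs_self B1
  have l2 := le_abs_self B2
  have l3 := le_abs_self B3
  have l4 := le_abs_self B4
  have l5 := le_abs_self B5
  have l6 := le_abs_self B6
  have l7 := le_abs_self B7
  refine ⟨16 * C * B ^ 4, ?_⟩
  intro h ε u hh hh1 hε hε1 hu hEq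
  have hsF := smooth_F (h := h) hΩ hρ hρ0 hu (pow_pos hε 2) hF.sa hF.sb
  have hX1 := cut hΩ hχ.1 hKΩ hsF.1
  have hX2 := cut hΩ hχ.1 hKΩ hsF.2
  have hc1 : HasCompactSupport (fun z => χ z * F1 ρ u a b h (ε ^ 2) z) := hχ.2.1.mul_right
  have hc2 : HasCompactSupport (fun z => χ z * F2 ρ u a b h (ε ^ 2) z) := hχ.2.1.mul_right
  obtain ⟨i1, z1⟩ := int_zero hX1 hc1 1
  obtain ⟨i2, z2⟩ := int_zero hX2 hc2 Complex.I
  have hEn : IntegrableOn (En h u) (tsupport χ) :=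
    ((en_cont h hΩ hu).mono hKΩ).integrableOn_compact hK
  have hEi : Integrable ((tsupport χ).indicator (En h u)) :=
    (integrable_indicator_iff hK.measurableSet).2 hEn
  have hEpos : ∀ z, 0 ≤ En h u z := fun z => by unfold En; positivity
  have hC0 := hF.C0
  have hB0 : 1 ≤ B := by rw [hB]; linarith
  have hle : ∀ z, χ z * ρ z *
      (mn Φ √(u z ^ 2 + h ^ 2 * (U1 u z ^ 2 + U2 u z ^ 2) / ρ z + ε ^ 2) - Φ (u z)) ≤
      h * (fderiv ℝ (fun z => χ z * F1 ρ u a b h (ε ^ 2) z) z 1 +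
        fderiv ℝ (fun z => χ z * F2 ρ u a b h (ε ^ 2) z) z Complex.I) +
      16 * C * B ^ 4 * (h + ε ^ 2) * (tsupport χ).indicator (En h u) z := by
    intro z
    by_cases hz : z ∈ tsupport χ
    · rw [Set.indicator_of_mem hz]
      refine pointwise hΩ hρ hρ0 hχ hF hB0 ε hh hε hε1 hu hEq z hz ?_ ?_ ?_ ?_ ?_ ?_ ?_
      · have := (le_abs_self _).trans (hB1 z hz); linarith
      · have := hB2 z hz; rw [Real.norm_eq_abs] at this; linarith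
      · have := hB3 z hz; rw [Real.norm_eq_abs] at this; linarith
      · have := (le_abs_self _).trans (hB4 z hz); linarith
      · have : (ρ z)⁻¹ ≤ B5 := (le_abs_self _).trans (hB5 z hz)
        linarith
      · have := hB6 z hz; rw [Real.norm_eq_abs] at this; linarith
      · have := hB7 z hz; rw [Real.norm_eq_abs] at this; linarith
    · rw [Set.indicator_of_notMem hz, cut_zero hz, cut_zero hz,
        image_eq_zero_of_notMem_tsupport hz]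
      simp
  have i12 : Integrable (fun z => h * (fderiv ℝ (fun z => χ z * F1 ρ u a b h (ε ^ 2) z) z 1 +
      fderiv ℝ (fun z => χ z * F2 ρ u a b h (ε ^ 2) z) z Complex.I)) := (i1.add i2).const_mul h
  have hG : Integrable (fun z => h * (fderiv ℝ (fun z => χ z * F1 ρ u a b h (ε ^ 2) z) z 1 +
        fderiv ℝ (fun z => χ z * F2 ρ u a b h (ε ^ 2) z) z Complex.I) +
      16 * C * B ^ 4 * (h + ε ^ 2) * (tsupport χ).indicator (En h u) z) :=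
    i12.add (hEi.const_mul _)
  have hGi : ∫ z, (h * (fderiv ℝ (fun z => χ z * F1 ρ u a b h (ε ^ 2) z) z 1 +
        fderiv ℝ (fun z => χ z * F2 ρ u a b h (ε ^ 2) z) z Complex.I) +
      16 * C * B ^ 4 * (h + ε ^ 2) * (tsupport χ).indicator (En h u) z) =
      16 * C * B ^ 4 * (h + ε ^ 2) * ∫ z in tsupport χ, En h u z := by
    rw [integral_add i12 (hEi.const_mul _), integral_const_mul,
      integral_const_mul, integral_add i1 i2, z1, z2, integral_indicator hK.measurableSet]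
    ring
  rw [← hGi]
  by_cases hf : Integrable (fun z => χ z * ρ z *
      (mn Φ √(u z ^ 2 + h ^ 2 * (U1 u z ^ 2 + U2 u z ^ 2) / ρ z + ε ^ 2) - Φ (u z)))
  · exact integral_mono hf hG hle
  · rw [integral_undef hf, hGi]
    have : 0 ≤ ∫ z in tsupport χ, En h u z := integral_nonneg hEpos
    positivity

end

end Pool.Agent.Q73.PW
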