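import Pool.Agent.Q73.PW.Stm4

/-!
# Project PW: rigidity of plane waves (proof of `R1`)
-/

set_option autoImplicit false
open MeasureTheory Filter Topology Real
open scoped ContDiff

namespace Pool.Agent.Q73.PW

namespace R1P

noncomputable section

variable {d : ℕ}

/-- partial derivatives -/
def D (i : Fin d) (g : EuclideanSpace ℝ (Fin d) → ℝ) : EuclideanSpace ℝ (Fin d) → ℝ :=
  fun z => fderiv ℝ g z (EuclideanSpace.single i 1)

theorem D_smooth {g : EuclideanSpace ℝ (Fin d) → ℝ} (hg : ContDiff ℝ ∞ g) (i : Fin d) :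
    ContDiff ℝ ∞ (D i g) :=
  (hg.fderiv_right (by simp)).clm_apply contDiff_const

theorem D_add {g h : EuclideanSpace ℝ (Fin d) → ℝ} (hg : ContDiff ℝ ∞ g) (hh : ContDiff ℝ ∞ h)
    (i : Fin d) (z : EuclideanSpace ℝ (Fin d)) :
    D i (fun z => g z + h z) z = D i g z + D i h z := by
  unfold D
  rw [fderiv_fun_add (hg.differentiable (by simp) z) (hh.differentiable (by simp) z)]
  rfl

theorem D_sub {g h : EuclideanSpace ℝ (Fin d) → ℝ} (hg : ContDiff ℝ ∞ g) (hh : ContDiff ℝ ∞ h)
    (i : Fin d) (z : EuclideanSpace ℝ (Fin d)) :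
    D i (fun z => g z - h z) z = D i g z - D i h z := by
  unfold D
  rw [fderiv_fun_sub (hg.differentiable (by simp) z) (hh.differentiable (by simp) z)]
  rfl

theorem D_mul {g h : EuclideanSpace ℝ (Fin d) → ℝ} (hg : ContDiff ℝ ∞ g) (hh : ContDiff ℝ ∞ h)
    (i : Fin d) (z : EuclideanSpace ℝ (Fin d)) :
    D i (fun z => g z * h z) z = g z * D i h z + h z * D i g z := by
  unfold D
  rw [fderiv_fun_mul (hg.differentiable (by simp) z) (hh.differentiable (by simp) z)]
  rfl

theorem D_sum {ι : Type} (s : Finset ι) {g : ι → EuclideanSpace ℝ (Fin d) → ℝ}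
    (hg : ∀ k, ContDiff ℝ ∞ (g k)) (i : Fin d) (z : EuclideanSpace ℝ (Fin d)) :
    D i (fun z => ∑ k ∈ s, g k z) z = ∑ k ∈ s, D i (g k) z := by
  unfold D
  rw [fderiv_fun_sum fun k _ => (hg k).differentiable (by simp) z]
  rw [sum_apply]

theorem D_const (c : ℝ) (i : Fin d) (z : EuclideanSpace ℝ (Fin d)) :
    D i (fun _ => c) z = 0 := by
  unfold D
  simp

theorem D_cmul {g : EuclideanSpace ℝ (Fin d) → ℝ} (hg : ContDiff ℝ ∞ g) (c : ℝ)
    (i : Fin d) (z : EuclideanSpace ℝ (Fin d)) :
    D i (fun z => c * g z) z = c * D i g z := by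
  rw [D_mul contDiff_const hg, D_const]
  ring

theorem D_comm {g : EuclideanSpace ℝ (Fin d) → ℝ} (hg : ContDiff ℝ ∞ g)
    (i j : Fin d) : D i (D j g) = D j (D i g) := by
  funext z
  have h1 : ∀ i j : Fin d, D i (D j g) z = fderiv ℝ (fderiv ℝ g) z (EuclideanSpace.single i 1)
      (EuclideanSpace.single j 1) := by
    intro i j
    have h2 : DifferentiableAt ℝ (fderiv ℝ g) z :=
      (hg.fderiv_right (m := ∞) (by simp)).differentiable (by simp) z
    unfold D
    rw [fderiv_clm_apply h2 (differentiableAt_const _)]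
    simp
  rw [h1, h1]
  have h3 : IsSymmSndFDerivAt ℝ g z := by
    refine hg.contDiffAt.isSymmSndFDerivAt ?_
    simp only [minSmoothness_of_isRCLikeNormedField]
    exact WithTop.coe_le_coe.2 (le_top : (2 : ℕ∞) ≤ ⊤)
  exact h3 _ _

theorem fderiv_D (g : EuclideanSpace ℝ (Fin d) → ℝ) (z v : EuclideanSpace ℝ (Fin d)) :
    fderiv ℝ g z v = ∑ i, v i * D i g z := by
  have h1 : v = ∑ i, v i • EuclideanSpace.single i (1 : ℝ) := by
    ext j
    simp [Finset.sum_apply, Pi.single_apply]
  conv_lhs => rw [h1]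
  rw [map_sum]
  refine Finset.sum_congr rfl fun i _ => ?_
  rw [map_smul, smul_eq_mul]
  rfl

theorem const_of_D {g : EuclideanSpace ℝ (Fin d) → ℝ} (hg : ContDiff ℝ ∞ g)
    (h : ∀ i z, D i g z = 0) (x y : EuclideanSpace ℝ (Fin d)) : g x = g y := by
  refine is_const_of_fderiv_eq_zero (hg.differentiable (by simp)) (fun z => ?_) x y
  ext v
  rw [fderiv_D]
  simp [h]

theorem D_congr {g h : EuclideanSpace ℝ (Fin d) → ℝ} (hgh : ∀ z, g z = h z) (i : Fin d)
    (z : EuclideanSpace ℝ (Fin d)) : D i g z = D i h z := by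
  have : g = h := funext hgh
  rw [this]

theorem inner_sum (θ y : EuclideanSpace ℝ (Fin d)) : inner ℝ θ y = ∑ i, θ i * y i := by
  rw [PiLp.inner_apply]
  refine Finset.sum_congr rfl fun i _ => ?_
  simp [mul_comm]

theorem D_cos (θ : EuclideanSpace ℝ (Fin d)) (i : Fin d) (z : EuclideanSpace ℝ (Fin d)) :
    D i (fun y => Real.cos (inner ℝ θ y)) z = - Real.sin (inner ℝ θ z) * θ i := by
  unfold D
  have h1 : HasFDerivAt (fun y : EuclideanSpace ℝ (Fin d) => (inner ℝ θ y : ℝ)) (innerSL ℝ θ) z :=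
    (innerSL ℝ θ).hasFDerivAt
  rw [h1.cos.fderiv]
  simp [inner_sum]

theorem D_sin (θ : EuclideanSpace ℝ (Fin d)) (i : Fin d) (z : EuclideanSpace ℝ (Fin d)) :
    D i (fun y => Real.sin (inner ℝ θ y)) z = Real.cos (inner ℝ θ z) * θ i := by
  unfold D
  have h1 : HasFDerivAt (fun y : EuclideanSpace ℝ (Fin d) => (inner ℝ θ y : ℝ)) (innerSL ℝ θ) z :=
    (innerSL ℝ θ).hasFDerivAt
  rw [h1.sin.fderiv]
  simp [inner_sum]

theorem r1 : R1 := by
  intro d f c hc hf hL hE
  have hL' : ∀ y, (∑ i, D i (D i f) y) + f y = 0 := hL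
  have hE' : ∀ y, f y ^ 2 + ∑ i, D i f y ^ 2 = c := hE
  have s1 : ∀ i, ContDiff ℝ ∞ (D i f) := fun i => D_smooth hf i
  have s2 : ∀ i j, ContDiff ℝ ∞ (D i (D j f)) := fun i j => D_smooth (s1 j) i
  have s3 : ∀ i j k, ContDiff ℝ ∞ (D i (D j (D k f))) := fun i j k => D_smooth (s2 j k) i
  -- (1)
  have e1 : ∀ j z, f z * D j f z + ∑ i, D i f z * D j (D i f) z = 0 := by
    intro j z
    have h1 := D_congr (h := fun _ => c) (g := fun z => f z * f z + ∑ i, D i f z * D i f z)
      (by intro z; rw [← hE' z]; simp [sq]) j z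
    rw [D_const, D_add (hf.mul hf) (ContDiff.sum fun i _ => (s1 i).mul (s1 i)), D_mul hf hf,
      D_sum _ (fun i => (s1 i).mul (s1 i))] at h1
    have h2 : ∑ i, D j (fun z => D i f z * D i f z) z = 2 * ∑ i, D i f z * D j (D i f) z := by
      rw [Finset.mul_sum]
      exact Finset.sum_congr rfl fun i _ => by rw [D_mul (s1 i) (s1 i)]; ring
    rw [h2] at h1
    linarith
  -- (2)
  have e2 : ∀ z, ∑ j, ∑ i, D j (D i f) z ^ 2 = f z ^ 2 := by
    intro z
    have h1 : ∀ j, D j f z * D j f z + f z * D j (D j f) z +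
        ∑ i, (D j (D i f) z ^ 2 + D i f z * D j (D j (D i f)) z) = 0 := by
      intro j
      have h2 := D_congr (h := fun _ => 0) (e1 j) j z
      rw [D_const, D_add (hf.mul (s1 j)) (ContDiff.sum fun i _ => (s1 i).mul (s2 j i)),
        D_mul hf (s1 j), D_sum _ (fun i => (s1 i).mul (s2 j i))] at h2
      rw [← h2]
      have h3 : ∑ i, D j (fun z => D i f z * D j (D i f) z) z =
          ∑ i, (D j (D i f) z ^ 2 + D i f z * D j (D j (D i f)) z) :=
        Finset.sum_congr rfl fun i _ => by rw [D_mul (s1 i) (s2 j i)]; ring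
      rw [h3]
      ring
    have h4 : ∀ i, ∑ j, D j (D j (D i f)) z = - D i f z := by
      intro i
      have h5 : ∀ j, D j (D j (D i f)) z = D i (D j (D j f)) z := by
        intro j
        rw [D_comm hf j i, D_comm (s1 j) j i]
      rw [Finset.sum_congr rfl fun j _ => h5 j, ← D_sum _ (fun j => s2 j j)]
      rw [D_congr (g := fun z => ∑ j, D j (D j f) z) (h := fun z => (-1) * f z)
        (by intro z; linarith [hL' z]) i z, D_cmul hf]
      ring
    have h6 : ∑ j, (D j f z * D j f z + f z * D j (D j f) z +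
        ∑ i, (D j (D i f) z ^ 2 + D i f z * D j (D j (D i f)) z)) = 0 :=
      Finset.sum_eq_zero fun j _ => h1 j
    simp only [Finset.sum_add_distrib] at h6
    rw [← Finset.mul_sum] at h6
    have h7 : ∑ j, ∑ i, D i f z * D j (D j (D i f)) z = - ∑ i, D i f z * D i f z := by
      rw [Finset.sum_comm, ← Finset.sum_neg_distrib]
      refine Finset.sum_congr rfl fun i _ => ?_
      rw [← Finset.mul_sum, h4]
      ring
    rw [h7] at h6
    have h8 := hL' z
    have h9 : ∑ j, D j (D j f) z = - f z := by linarith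
    rw [h9] at h6
    nlinarith [h6]
  have hp : ∀ z, ∑ i, D i f z ^ 2 = c - f z ^ 2 := fun z => by linarith [hE' z]
  have hz0 : ∀ z, c - f z ^ 2 = 0 → ∀ i, D i f z = 0 := by
    intro z hz i
    have h1 := hp z
    rw [hz] at h1
    have h2 := (Finset.sum_eq_zero_iff_of_nonneg fun i _ => sq_nonneg _).1 h1 i (Finset.mem_univ i)
    exact pow_eq_zero_iff (two_ne_zero) |>.1 h2
  -- (3)
  have e3 : ∀ z i j, (c - f z ^ 2) * D i (D j f) z + f z * (D i f z * D j f z) = 0 := by
    intro z
    have h1 : ∑ i, ∑ j, ((c - f z ^ 2) * D i (D j f) z + f z * (D i f z * D j f z)) ^ 2 = 0 := by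
      have h2 : ∀ i j, ((c - f z ^ 2) * D i (D j f) z + f z * (D i f z * D j f z)) ^ 2 =
          (c - f z ^ 2) ^ 2 * D i (D j f) z ^ 2 +
          2 * (c - f z ^ 2) * f z * (D i f z * (D j f z * D i (D j f) z)) +
          f z ^ 2 * (D i f z ^ 2 * D j f z ^ 2) := fun i j => by ring
      simp only [h2, Finset.sum_add_distrib, ← Finset.mul_sum]
      rw [e2 z]
      have h3 : ∀ i, ∑ j, D j f z * D i (D j f) z = - (f z * D i f z) := fun i => by
        linarith [e1 i z]
      simp only [h3]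
      rw [hp z]
      simp only [← Finset.sum_mul]
      rw [hp z]
      have h4 : ∑ i, D i f z * -(f z * D i f z) = - f z * (c - f z ^ 2) := by
        rw [← hp z, Finset.mul_sum]
        exact Finset.sum_congr rfl fun i _ => by ring
      rw [h4]
      ring
    intro i j
    have h2 := (Finset.sum_eq_zero_iff_of_nonneg fun i _ =>
      Finset.sum_nonneg fun j _ => sq_nonneg _).1 h1 i (Finset.mem_univ i)
    have h3 := (Finset.sum_eq_zero_iff_of_nonneg fun j _ => sq_nonneg _).1 h2 j (Finset.mem_univ j)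
    exact pow_eq_zero_iff (two_ne_zero) |>.1 h3
  -- (4)
  have e4 : ∀ z i j k, D i (D j f) z * D k f z = D i (D k f) z * D j f z := by
    intro z i j k
    by_cases hz : c - f z ^ 2 = 0
    · rw [hz0 z hz, hz0 z hz, mul_zero, mul_zero]
    · apply mul_left_cancel₀ hz
      linear_combination D k f z * e3 z i j - D j f z * e3 z i k
  have hopen : ∀ z, (∀ᶠ w in 𝓝 z, c - f w ^ 2 = 0) → False := by
    intro z hz
    have h1 : ∀ i, D i (D i f) z = 0 := by
      intro i
      have h2 : D i f =ᶠ[𝓝 z] fun _ => 0 := hz.mono fun w hw => hz0 w hw i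
      unfold D at h2 ⊢
      rw [h2.fderiv_eq]
      simp
    have h2 := hL' z
    rw [Finset.sum_eq_zero fun i _ => h1 i, zero_add] at h2
    have h3 := hz.self_of_nhds
    rw [h2] at h3
    simp at h3
    exact hc.ne' h3
  have e5 : ∀ z i j k, f z * D k (D i (D j f)) z = D k f z * D i (D j f) z := by
    intro z i j k
    have h1 : ∀ z, (c - f z ^ 2) * (f z * D k (D i (D j f)) z - D k f z * D i (D j f) z) = 0 := by
      intro z
      have h2 := D_congr (h := fun _ => 0)
        (g := fun z => (c - f z * f z) * D i (D j f) z + f z * (D i f z * D j f z))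
        (by intro z; rw [← e3 z i j]; ring) k z
      rw [D_const, D_add ((contDiff_const.sub (hf.mul hf)).mul (s2 i j))
        (hf.mul ((s1 i).mul (s1 j))), D_mul (contDiff_const.sub (hf.mul hf)) (s2 i j),
        D_sub contDiff_const (hf.mul hf), D_const, D_mul hf hf, D_mul hf ((s1 i).mul (s1 j)),
        D_mul (s1 i) (s1 j)] at h2
      have h3 := e3 z i j
      have h4 := e4 z i j k
      have h5 := e4 z j i k
      have h6 : D j (D i f) z = D i (D j f) z := congrFun (D_comm hf j i) z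
      have h7 : D k (D j f) z = D j (D k f) z := congrFun (D_comm hf k j) z
      have h8 : D k (D i f) z = D i (D k f) z := congrFun (D_comm hf k i) z
      rw [h6] at h5
      rw [h7, h8] at h2
      linear_combination f z * h2 + f z ^ 2 * h4 + f z ^ 2 * h5 - D k f z * h3
    by_contra hne
    have hG : ContDiff ℝ ∞ fun z => f z * D k (D i (D j f)) z - D k f z * D i (D j f) z :=
      (hf.mul (s3 k i j)).sub ((s1 k).mul (s2 i j))
    have h2 : ∀ᶠ w in 𝓝 z, f w * D k (D i (D j f)) w - D k f w * D i (D j f) w ≠ 0 :=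
      hG.continuous.continuousAt.eventually_ne (sub_ne_zero.2 hne)
    exact hopen z (h2.mono fun w hw => (mul_eq_zero.1 (h1 w)).resolve_right hw)
  -- the constant tensor
  have e6 : ∀ i j x y, D i f x * D j f x - f x * D i (D j f) x =
      D i f y * D j f y - f y * D i (D j f) y := by
    intro i j x y
    refine const_of_D (g := fun z => D i f z * D j f z - f z * D i (D j f) z)
      (((s1 i).mul (s1 j)).sub (hf.mul (s2 i j))) (fun k z => ?_) x y
    rw [D_sub ((s1 i).mul (s1 j)) (hf.mul (s2 i j)), D_mul (s1 i) (s1 j), D_mul hf (s2 i j)]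
    have h4 := e4 z i j k
    have h5 := e4 z j i k
    have h6 : D j (D i f) z = D i (D j f) z := congrFun (D_comm hf j i) z
    have h7 : D k (D j f) z = D j (D k f) z := congrFun (D_comm hf k j) z
    have h8 : D k (D i f) z = D i (D k f) z := congrFun (D_comm hf k i) z
    rw [h6] at h5
    rw [h7, h8]
    linear_combination (-1 : ℝ) * h4 - h5 - e5 z i j k
  obtain ⟨y0, hy0⟩ : ∃ y0, c - f y0 ^ 2 ≠ 0 := by
    by_contra hcon
    push Not at hcon
    exact hopen 0 (Filter.Eventually.of_forall hcon)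
  have hpos : 0 < c - f y0 ^ 2 := lt_of_le_of_ne
    (by rw [← hp y0]; exact Finset.sum_nonneg fun i _ => sq_nonneg _) (Ne.symm hy0)
  set q := √(c - f y0 ^ 2) with hq
  have hqpos : 0 < q := Real.sqrt_pos.2 hpos
  have hq2 : q ^ 2 = c - f y0 ^ 2 := Real.sq_sqrt hpos.le
  set θ : EuclideanSpace ℝ (Fin d) := WithLp.toLp 2 fun i => D i f y0 / q with hθ
  have hθi : ∀ i, q * θ i = D i f y0 := fun i => by
    simp only [hθ]
    field_simp
  have hθ1 : ∑ i, θ i ^ 2 = 1 := by
    have h1 : q ^ 2 * ∑ i, θ i ^ 2 = q ^ 2 := by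
      rw [hq2, Finset.mul_sum, ← hp y0]
      refine Finset.sum_congr rfl fun i _ => ?_
      rw [← hθi, mul_pow, hp y0, hq2]
    exact mul_left_cancel₀ (pow_ne_zero 2 hqpos.ne') (by rw [h1, mul_one])
  have hT : ∀ i j, D i f y0 * D j f y0 - f y0 * D i (D j f) y0 = c * (θ i * θ j) := by
    intro i j
    apply mul_left_cancel₀ hy0
    have h1 := e3 y0 i j
    have h2 : D i f y0 * D j f y0 = (c - f y0 ^ 2) * (θ i * θ j) := by
      rw [← hθi, ← hθi, ← hq2]
      ring
    linear_combination (-f y0) * h1 + c * h2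
  have e7 : ∀ z i j, D i (D j f) z = - f z * (θ i * θ j) := by
    intro z i j
    apply mul_left_cancel₀ hc.ne'
    have h1 := e6 i j z y0
    rw [hT] at h1
    linear_combination e3 z i j - f z * h1
  set s : EuclideanSpace ℝ (Fin d) → ℝ := fun z => ∑ i, θ i * D i f z with hs
  have ss : ContDiff ℝ ∞ s := ContDiff.sum fun i _ => contDiff_const.mul (s1 i)
  have hDs : ∀ j z, D j s z = - f z * θ j := by
    intro j z
    rw [hs, D_sum _ (fun i => contDiff_const.mul (s1 i))]
    have h1 : ∀ i, D j (fun z => θ i * D i f z) z = - f z * θ j * θ i ^ 2 := by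
      intro i
      rw [D_cmul (s1 i), e7]
      ring
    rw [Finset.sum_congr rfl fun i _ => h1 i, ← Finset.mul_sum, hθ1, mul_one]
  have hs0 : s y0 = q := by
    simp only [hs]
    have h1 : ∀ i, θ i * D i f y0 = q * θ i ^ 2 := fun i => by rw [← hθi]; ring
    rw [Finset.sum_congr rfl fun i _ => h1 i, ← Finset.mul_sum, hθ1, mul_one]
  have hDf : ∀ i z, D i f z = θ i * s z := by
    intro i z
    have h1 := const_of_D (g := fun z => D i f z - θ i * s z) ((s1 i).sub (contDiff_const.mul ss))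
      (fun j w => by
        rw [D_sub (s1 i) (contDiff_const.mul ss), D_cmul ss, hDs, e7]
        ring) z y0
    simp only at h1
    rw [hs0, ← hθi] at h1
    linarith
  have hfs : ∀ z, f z ^ 2 + s z ^ 2 = c := by
    intro z
    rw [← hE' z]
    have h1 : ∀ i, D i f z ^ 2 = s z ^ 2 * θ i ^ 2 := fun i => by rw [hDf]; ring
    rw [Finset.sum_congr rfl fun i _ => h1 i, ← Finset.mul_sum, hθ1, mul_one]
  have sC : ContDiff ℝ ∞ fun y : EuclideanSpace ℝ (Fin d) => Real.cos (inner ℝ θ y) :=
    Real.contDiff_cos.comp (contDiff_const.inner ℝ contDiff_id)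
  have sS : ContDiff ℝ ∞ fun y : EuclideanSpace ℝ (Fin d) => Real.sin (inner ℝ θ y) :=
    Real.contDiff_sin.comp (contDiff_const.inner ℝ contDiff_id)
  have hP : ∀ z, f z * Real.cos (inner ℝ θ z) - s z * Real.sin (inner ℝ θ z) = f 0 := by
    intro z
    have h1 := const_of_D (g := fun z => f z * Real.cos (inner ℝ θ z) -
      s z * Real.sin (inner ℝ θ z)) ((hf.mul sC).sub (ss.mul sS)) (fun j w => by
        rw [D_sub (hf.mul sC) (ss.mul sS), D_mul hf sC, D_mul ss sS, D_cos, D_sin, hDs, hDf]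
        ring) z 0
    simpa using h1
  have hQ : ∀ z, f z * Real.sin (inner ℝ θ z) + s z * Real.cos (inner ℝ θ z) = s 0 := by
    intro z
    have h1 := const_of_D (g := fun z => f z * Real.sin (inner ℝ θ z) +
      s z * Real.cos (inner ℝ θ z)) ((hf.mul sS).add (ss.mul sC)) (fun j w => by
        rw [D_add (hf.mul sS) (ss.mul sC), D_mul hf sS, D_mul ss sC, D_cos, D_sin, hDs, hDf]
        ring) z 0
    simpa using h1
  set w : ℂ := ⟨f 0, - s 0⟩ with hw
  have hwn : ‖w‖ = √c := by
    rw [Complex.norm_def, Complex.normSq_mk, ← hfs 0]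
    congr 1
    ring
  refine ⟨θ, Complex.arg w, ?_, fun y => ?_⟩
  · rw [EuclideanSpace.norm_eq]
    simp only [Real.norm_eq_abs, sq_abs]
    rw [hθ1, Real.sqrt_one]
  · have h1 := Complex.norm_mul_cos_arg w
    have h2 := Complex.norm_mul_sin_arg w
    rw [hwn] at h1 h2
    rw [Real.cos_add]
    have h3 : w.re = f 0 := rfl
    have h4 : w.im = - s 0 := rfl
    rw [h3] at h1
    rw [h4] at h2
    have h5 := Real.cos_sq_add_sin_sq (inner ℝ θ y)
    linear_combination (- Real.cos (inner ℝ θ y)) * h1 + Real.sin (inner ℝ θ y) * h2 +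
      Real.cos (inner ℝ θ y) * hP y + Real.sin (inner ℝ θ y) * hQ y - f y * h5

end

end R1P

theorem r1 : R1 := R1P.r1

end Pool.Agent.Q73.PW
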