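import Mathlib

/-!
# Project PW: rigidity of plane waves
-/

set_option autoImplicit false
open MeasureTheory Filter Topology Real
open scoped ContDiff

namespace Pool.Agent.Q73.PW

noncomputable section

/-- R1: solutions of `Δf + f = 0` in `ℝ^d` with constant energy `f² + |∇f|² = c > 0` are plane waves.

Proof. Write `∂_v f` for directional derivatives. (1) From `∇ (f² + |∇f|²) = 0`: `D²f (∇f) = - f ∇f`. (2) From
`Δ (f² + |∇f|²) = 0` and `Δf = - f`, `Δ∇f = - ∇f`: `|D²f|² = f²` (Hilbert-Schmidt norm). (3) For a symmetric matrix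
`A` with `A n = - f n`, `|n| = 1`, `|A|² = f²`: `|A + f n⊗n|² = |A|² - f² = 0`, so `A = - f n⊗n`. So
`(c - f²) ∂_v ∂_w f = - f ∂_v f ∂_w f` at every point (where `∇f = 0` we have `f² = c` and both sides vanish).
(4) Put `T_{vw} = ∂_v f ∂_w f / (c - f²)` on the open set `{f² < c}` and `T_{vw} = - ∂_v ∂_w f / f` on the open set
`{f ≠ 0}`; they agree on the intersection and cover `ℝ^d`, so `T_{vw}` is smooth; on `{f² < c}` its derivative is
zero by (3); `{f² < c}` is dense (on an open set with `f² = c` the function would be locally constant, so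
`Δf = 0 ≠ - f`). So `T_{vw}` is constant on `ℝ^d`, and `∂_v ∂_w f = - f T_{vw}` everywhere. At a point `y0` with
`f (y0)² < c` we have `T_{vw} = θ_v θ_w` with `θ = ∇f / √(c - f²)` at `y0`, `|θ| = 1`. (5) For `v` orthogonal to
`θ`: `∇ (∂_v f) = 0` and `∂_v f (y0) = 0`, so `∂_v f = 0` everywhere; and `g (t) = f (y0 + t θ)` solves `g'' = - g`,
`g² + g'² = c`. -/
def R1 : Prop := ∀ (d : ℕ) (f : EuclideanSpace ℝ (Fin d) → ℝ) (c : ℝ), 0 < c → ContDiff ℝ ∞ f →
  (∀ y, (∑ i, fderiv ℝ (fun z => fderiv ℝ f z (EuclideanSpace.single i 1)) y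
    (EuclideanSpace.single i 1)) + f y = 0) →
  (∀ y, f y ^ 2 + ∑ i, fderiv ℝ f y (EuclideanSpace.single i 1) ^ 2 = c) →
  ∃ (θ : EuclideanSpace ℝ (Fin d)) (φ : ℝ), ‖θ‖ = 1 ∧
    ∀ y, f y = √c * Real.cos (inner ℝ θ y + φ)

end

end Pool.Agent.Q73.PW
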