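import Pool.Agent.Q73.PW.St3
import Pool.Agent.Q73.PW.Stm4

/-!
# Project PW: the case of equality for stationary waves
-/

set_option autoImplicit false
open MeasureTheory Filter Topology
open scoped ContDiff ENNReal

namespace Pool.Agent.Q73.PW

open Pool.Agent.Y139.SW Pool.Agent.Q73.SM

noncomputable section

namespace St

variable {d : ℕ} {S : Type*} [MeasurableSpace S] {P : Measure S}

/-- almost all samples are plane waves -/
def Plane (P : Measure S) (F : S → E d → ℝ) : Prop :=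
  ∀ᵐ s ∂P, ∃ (θ : E d) (φ : ℝ), ‖θ‖ = 1 ∧
    ∀ y, F s y = √(2 * ∫ s, F s 0 ^ 2 ∂P) * Real.cos (inner ℝ θ y + φ)

theorem rig (r1 : R1) {F : S → E d → ℝ} (h : SW P F) (h0 : 0 < ∫ s, F s 0 ^ 2 ∂P)
    (H : ∀ᵐ s ∂P, F s 0 ^ 2 + g2 (F s) 0 = 2 * ∫ s, F s 0 ^ 2 ∂P) : Plane P F := by
  have := h.pr
  unfold Plane
  obtain ⟨c, hc⟩ : ∃ c, c = 2 * ∫ s, F s 0 ^ 2 ∂P := ⟨_, rfl⟩
  have c0 : 0 < c := by rw [hc]; positivity
  rw [← hc] at H ⊢
  obtain ⟨Ψ, v1, mΨ, hQ, hτ, W⟩ := canon h.mF h.sF h.eF h.st h.l2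
  have gS := g2_sf W.sf
  have m0 : ∀ y, Measurable fun f : Sp d => f.1 y := fun y => W.sf.meas y
  have mg : ∀ y, Measurable fun f : Sp d => g2 f.1 y := fun y => gS.meas y
  have h1 : ∀ᵐ f ∂(P.map Ψ), f.1 0 ^ 2 + g2 f.1 0 = c := by
    have ms : MeasurableSet {f : Sp d | f.1 0 ^ 2 + g2 f.1 0 = c} :=
      measurableSet_eq_fun (((m0 0).pow_const 2).add (mg 0)) measurable_const
    rw [ae_map_iff mΨ.aemeasurable ms]
    filter_upwards [H] with s hs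
    rw [v1]; exact hs
  have hx : ∀ x : E d, ∀ᵐ s ∂P, F s x ^ 2 + g2 (F s) x = c := by
    intro x
    have h2 := (hτ x).quasiMeasurePreserving.ae h1
    have h3 := ae_of_ae_map mΨ.aemeasurable h2
    filter_upwards [h3] with s hs
    have e1 : (sh x (Ψ s)).1 0 = F s x := by
      show (Ψ s).1 (0 + x) = _
      rw [zero_add, v1]
    have e2 : g2 (sh x (Ψ s)).1 0 = g2 (F s) x := by
      have := gS.cov x (Ψ s) 0
      rw [zero_add, v1] at this
      exact this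
    rw [e1, e2] at hs
    exact hs
  obtain ⟨T, Tc, Td⟩ := TopologicalSpace.exists_countable_dense (E d)
  have h3 : ∀ᵐ s ∂P, ∀ x ∈ T, F s x ^ 2 + g2 (F s) x = c := (ae_ball_iff Tc).2 fun x _ => hx x
  filter_upwards [h3] with s hs
  have cg : Continuous (g2 (F s)) := by
    unfold g2
    exact continuous_finsetSum _ fun j _ => ((D_sm (h.sF s) j).continuous).pow 2
  have h4 : (fun y => F s y ^ 2 + g2 (F s) y) = fun _ => c :=
    Continuous.ext_on Td (((h.sF s).continuous.pow 2).add cg) continuous_const hs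
  exact r1 d (F s) c c0 (h.sF s) (h.eF s) (fun y => congrFun h4 y)

theorem rig_low (r1 : R1) (a1 : A1) {F : S → E d → ℝ} (h : SW P F) (h0 : 0 < ∫ s, F s 0 ^ 2 ∂P)
    {q : ℝ} (q0 : 0 < q) (q2 : q < 2)
    (Hc : Integrable (fun s => |F s 0| ^ q) P ∧ Integrable (fun s => (F s 0 ^ 2 + g2 (F s) 0) ^ (q / 2)) P ∧
      ∫ s, |F s 0| ^ q ∂P ≤ kap q * ∫ s, (F s 0 ^ 2 + g2 (F s) 0) ^ (q / 2) ∂P ∧
      ∫ s, (F s 0 ^ 2 + g2 (F s) 0) ^ (q / 2) ∂P ≤ (2 * ∫ s, F s 0 ^ 2 ∂P) ^ (q / 2))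
    (he : kap q * (2 * ∫ s, F s 0 ^ 2 ∂P) ^ (q / 2) ≤ ∫ s, |F s 0| ^ q ∂P) : Plane P F := by
  have := h.pr
  have k0 := a1.2.1 q q0
  obtain ⟨m0, mg, iE, eE⟩ := en h
  obtain ⟨-, iP, c3, -⟩ := Hc
  have h1 : (2 * ∫ s, F s 0 ^ 2 ∂P) ^ (q / 2) ≤ ∫ s, (F s 0 ^ 2 + g2 (F s) 0) ^ (q / 2) ∂P :=
    le_of_mul_le_mul_left (he.trans c3) k0
  rcases (Real.strictConcaveOn_rpow (by positivity : 0 < q / 2) (by linarith : q / 2 < 1)).ae_eq_const_or_lt_map_average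
    (μ := P) (f := fun s => F s 0 ^ 2 + g2 (F s) 0)
    (Real.continuous_rpow_const (by positivity)).continuousOn isClosed_Ici
    (ae_of_all _ fun s => p_nn (F s) 0) iE iP with hh | hh
  · refine rig r1 h h0 ?_
    filter_upwards [hh] with s hs
    rw [hs, Function.const_apply, average_eq_integral, eE]
  · exfalso
    rw [average_eq_integral, average_eq_integral, eE] at hh
    exact absurd h1 (not_le.2 hh)

theorem rig_high (r1 : R1) (a1 : A1) {F : S → E d → ℝ} (h : SW P F) (h0 : 0 < ∫ s, F s 0 ^ 2 ∂P)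
    {q : ℝ} (hq : 2 < q)
    (Hc : ENNReal.ofReal (kap q) * ∫⁻ s, ENNReal.ofReal ((F s 0 ^ 2 + g2 (F s) 0) ^ (q / 2)) ∂P ≤
      ∫⁻ s, ENNReal.ofReal (|F s 0| ^ q) ∂P)
    (he : ∫⁻ s, ENNReal.ofReal (|F s 0| ^ q) ∂P ≤
      ENNReal.ofReal (kap q * (2 * ∫ s, F s 0 ^ 2 ∂P) ^ (q / 2))) : Plane P F := by
  have := h.pr
  have k0 := a1.2.1 q (by linarith)
  obtain ⟨m0, mg, iE, eE⟩ := en h
  have nnP : ∀ s, 0 ≤ F s 0 ^ 2 + g2 (F s) 0 := fun s => p_nn (F s) 0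
  have mP : Measurable fun s => (F s 0 ^ 2 + g2 (F s) 0) ^ (q / 2) := ((m0.pow_const 2).add mg).pow_const _
  have h1 : ∫⁻ s, ENNReal.ofReal ((F s 0 ^ 2 + g2 (F s) 0) ^ (q / 2)) ∂P ≤
      ENNReal.ofReal ((2 * ∫ s, F s 0 ^ 2 ∂P) ^ (q / 2)) := by
    have h2 := Hc.trans he
    rw [ENNReal.ofReal_mul k0.le] at h2
    exact (ENNReal.mul_le_mul_iff_right (ENNReal.ofReal_pos.2 k0).ne' ENNReal.ofReal_ne_top).1 h2
  have iP : Integrable (fun s => (F s 0 ^ 2 + g2 (F s) 0) ^ (q / 2)) P := by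
    refine ⟨mP.aestronglyMeasurable, ?_⟩
    rw [hasFiniteIntegral_iff_ofReal (ae_of_all _ fun s => Real.rpow_nonneg (nnP s) _)]
    exact h1.trans_lt ENNReal.ofReal_lt_top
  rw [← ofReal_integral_eq_lintegral_ofReal iP (ae_of_all _ fun s => Real.rpow_nonneg (nnP s) _),
    ENNReal.ofReal_le_ofReal_iff (by positivity)] at h1
  rcases (strictConvexOn_rpow (by linarith : 1 < q / 2)).ae_eq_const_or_map_average_lt
    (μ := P) (f := fun s => F s 0 ^ 2 + g2 (F s) 0)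
    (Real.continuous_rpow_const (by linarith)).continuousOn isClosed_Ici
    (ae_of_all _ nnP) iE iP with hh | hh
  · refine rig r1 h h0 ?_
    filter_upwards [hh] with s hs
    rw [hs, Function.const_apply, average_eq_integral, eE]
  · exfalso
    rw [average_eq_integral, average_eq_integral, eE] at hh
    exact absurd h1 (not_le.2 hh)

end St

end

end Pool.Agent.Q73.PW
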