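import Pool.Agent.Q73.PW.Stm2

/-!
# Project PW: plane domains
-/

set_option autoImplicit false
open MeasureTheory Filter Topology Real
open scoped ContDiff ENNReal

namespace Pool.Agent.Q73.PW

open Pool.Agent.Results.MP_a52643_an.AbsoluteContinuity (lapl LocL2 Test)

noncomputable section

namespace Bil

lemma young {q δ : ℝ} (q0 : 0 < q) (q2 : q < 2) (hδ : 0 < δ) :
    ∃ C : ℝ, 0 ≤ C ∧ ∀ x : ℝ, |x| ^ q ≤ δ * x ^ 2 + C := by
  obtain ⟨T, hT⟩ : ∃ T : ℝ, T = δ ^ (1 / (q - 2)) := ⟨_, rfl⟩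
  have T0 : 0 < T := by rw [hT]; positivity
  have hTq : T ^ (q - 2) = δ := by
    rw [hT, ← Real.rpow_mul hδ.le, one_div_mul_cancel (by linarith), Real.rpow_one]
  refine ⟨T ^ q, by positivity, fun x => ?_⟩
  rcases le_total |x| T with h | h
  · have : |x| ^ q ≤ T ^ q := Real.rpow_le_rpow (abs_nonneg _) h q0.le
    nlinarith [mul_nonneg hδ.le (sq_nonneg x)]
  · have hx : 0 < |x| := T0.trans_le h
    have h1 : |x| ^ q = |x| ^ (q - 2) * x ^ 2 := by
      rw [← sq_abs x, ← Real.rpow_natCast, ← Real.rpow_add hx]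
      congr 1; push_cast; ring
    have h2 : |x| ^ (q - 2) ≤ T ^ (q - 2) := Real.rpow_le_rpow_of_nonpos T0 h (by linarith)
    rw [hTq] at h2
    rw [h1]
    have h3 : |x| ^ (q - 2) * x ^ 2 ≤ δ * x ^ 2 := by gcongr
    have : 0 ≤ T ^ q := by positivity
    linarith

/-- a test function equal to `1` on most of `D` -/
lemma exists_test {D : Set ℂ} (hD : IsOpen D) (hf : volume D ≠ ⊤) {ε : ℝ} (hε : 0 < ε) :
    ∃ χ : ℂ → ℝ, Test D χ ∧ (∀ z, χ z ≤ 1) ∧ ∃ K : Set ℂ, IsCompact K ∧ K ⊆ D ∧ (∀ z ∈ K, χ z = 1) ∧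
      volume (D \ K) ≤ ENNReal.ofReal ε := by
  obtain ⟨K, hKD, hK, hKm⟩ := hD.measurableSet.exists_isCompact_sdiff_lt hf
    (ε := ENNReal.ofReal ε) (by simpa using hε)
  obtain ⟨δ, hδ, hδB⟩ := hK.exists_cthickening_subset_open hD hKD
  obtain ⟨f, hf1, hf2, hf3⟩ := exists_contMDiff_support_eq_eq_one_iff (modelWithCornersSelf ℝ ℂ)
    (Metric.isOpen_thickening (δ := δ) (E := K)) hK.isClosed
    (Metric.self_subset_thickening hδ K)
  have hs : tsupport f ⊆ Metric.cthickening δ K := by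
    apply closure_minimal _ Metric.isClosed_cthickening
    rw [hf3.1]
    exact Metric.thickening_subset_cthickening _ _
  refine ⟨f, ⟨hf1.contDiff, ?_, hs.trans hδB, fun z => ?_⟩, fun z => ?_, K, hK, hKD, fun z hz => ?_, ?_⟩
  · exact (hK.cthickening (r := δ)).of_isClosed_subset (isClosed_tsupport f) hs
  · exact (hf2 ⟨z, rfl⟩).1
  · exact (hf2 ⟨z, rfl⟩).2
  · exact (hf3.2 z).1 hz
  · exact hKm.le

/-- the hypotheses on an open subset of the plane -/
structure Dom (D : Set ℂ) (lam : ℕ → ℝ) (u : ℕ → ℂ → ℝ) (B : ℝ) : Prop where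
  o : IsOpen D
  fin : volume D ≠ ⊤
  hlam : Tendsto lam atTop atTop
  sm : ∀ n, ContDiffOn ℝ ∞ (u n) D
  eq : ∀ n, ∀ z ∈ D, lapl (u n) z + lam n * u n z = 0
  int : ∀ n, IntegrableOn (fun z => u n z ^ 2) D
  bd : ∀ n, ∫ z in D, u n z ^ 2 ≤ B

lemma Dom.seq {D : Set ℂ} {lam : ℕ → ℝ} {u : ℕ → ℂ → ℝ} {B : ℝ} (h : Dom D lam u B) :
    Seq D (fun _ => 1) lam u := by
  refine ⟨h.o, contDiffOn_const, fun _ _ => one_pos, h.hlam, h.sm, fun n z hz => ?_, fun K _ hKD => ?_⟩
  · have := h.eq n z hz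
    rw [one_mul]; exact this
  · exact ⟨B, Eventually.of_forall fun n =>
      (setIntegral_mono_set (h.int n) (ae_of_all _ fun z => sq_nonneg _)
        (ae_of_all _ hKD)).trans (h.bd n)⟩

/-- integrals against a test function -/
lemma out {D : Set ℂ} {χ : ℂ → ℝ} (hχ : Test D χ) (f : ℂ → ℝ) : ∫ z, χ z * f z = ∫ z in D, χ z * f z := by
  refine (setIntegral_eq_integral_of_forall_compl_eq_zero fun z hz => ?_).symm
  have : χ z = 0 := image_eq_zero_of_notMem_tsupport fun h => hz (hχ.2.2.1 h)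
  rw [this, zero_mul]

lemma int_mul {D : Set ℂ} {χ : ℂ → ℝ} (hχ : Test D χ) (h1 : ∀ z, χ z ≤ 1) {f : ℂ → ℝ}
    (hf : IntegrableOn f D) : IntegrableOn (fun z => χ z * f z) D := by
  refine Integrable.bdd_mul (c := 1) hf hχ.1.continuous.aestronglyMeasurable (ae_of_all _ fun z => ?_)
  rw [Real.norm_eq_abs, abs_of_nonneg (hχ.2.2.2 z)]
  exact h1 z

/-- **Low powers.** -/
theorem low (j13 : J13) (a1 : A1) {D : Set ℂ} {lam : ℕ → ℝ} {u : ℕ → ℂ → ℝ} {B : ℝ}
    (h : Dom D lam u B) {q : ℝ} (q0 : 0 < q) (q2 : q < 2) {η : ℝ} (hη : 0 < η) :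
    ∀ᶠ n in atTop, ∫ z in D, |u n z| ^ q ≤
      kap q * (volume D).toReal ^ (1 - q / 2) * (2 * ∫ z in D, u n z ^ 2) ^ (q / 2) + η := by
  have B0 : 0 ≤ B := (integral_nonneg fun z => sq_nonneg _).trans (h.bd 0)
  have k0 := a1.2.1 q q0
  obtain ⟨C, C0, hC⟩ := young q0 q2 (δ := η / (3 * (B + 1))) (by positivity)
  obtain ⟨χ, hχ, hχ1, K, hK, hKD, hχK, hKm⟩ := exists_test h.o h.fin (ε := η / (3 * (C + 1)))
    (by positivity)
  have key := (j13 D (fun _ => 1) lam u h.seq χ hχ (η / 3) (by positivity)).1 q q0 q2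
  filter_upwards [key] with n hn
  simp only [mul_one] at hn
  have iu := h.int n
  have mD := h.o.measurableSet
  have cu : ContinuousOn (u n) D := (h.sm n).continuousOn
  have i1 : IntegrableOn (fun z => |u n z| ^ q) D := by
    have m1 : AEStronglyMeasurable (fun z => |u n z| ^ q) (volume.restrict D) :=
      (ContinuousOn.rpow_const cu.abs fun z _ => Or.inr q0.le).aestronglyMeasurable mD
    have i2 : IntegrableOn (fun z => η / (3 * (B + 1)) * u n z ^ 2 + C) D :=
      (iu.const_mul _).add (integrableOn_const h.fin)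
    refine Integrable.mono' i2 m1 (ae_of_all _ fun z => ?_)
    rw [Real.norm_eq_abs, abs_of_nonneg (by positivity)]
    exact hC _
  have iK : IntegrableOn (fun z => |u n z| ^ q) (D \ K) := i1.mono_set Set.sdiff_subset
  -- the rest
  have r1 : ∫ z in D \ K, |u n z| ^ q ≤ 2 * (η / 3) := by
    have hf : volume (D \ K) ≠ ⊤ := (hKm.trans_lt ENNReal.ofReal_lt_top).ne
    have i3 : IntegrableOn (fun z => η / (3 * (B + 1)) * u n z ^ 2) (D \ K) :=
      (iu.mono_set Set.sdiff_subset).const_mul _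
    have i4 : Integrable (fun z => η / (3 * (B + 1)) * u n z ^ 2 + C) (volume.restrict (D \ K)) :=
      Integrable.add i3 (integrableOn_const hf)
    calc ∫ z in D \ K, |u n z| ^ q ≤ ∫ z in D \ K, (η / (3 * (B + 1)) * u n z ^ 2 + C) :=
          integral_mono iK i4 fun z => hC _
      _ = η / (3 * (B + 1)) * (∫ z in D \ K, u n z ^ 2) + C * (volume (D \ K)).toReal := by
          rw [integral_add i3 (integrableOn_const hf), integral_const_mul, setIntegral_const,
            smul_eq_mul, mul_comm C]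
          rfl
      _ ≤ η / (3 * (B + 1)) * B + C * (η / (3 * (C + 1))) := by
          have e1 : ∫ z in D \ K, u n z ^ 2 ≤ B :=
            (setIntegral_mono_set iu (ae_of_all _ fun z => sq_nonneg _)
              (ae_of_all _ Set.sdiff_subset)).trans (h.bd n)
          have e2 : (volume (D \ K)).toReal ≤ η / (3 * (C + 1)) :=
            ENNReal.toReal_le_of_le_ofReal (by positivity) hKm
          gcongr
      _ ≤ 2 * (η / 3) := by
          have e1 : η / (3 * (B + 1)) * B ≤ η / 3 := by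
            rw [div_mul_eq_mul_div, div_le_div_iff₀ (by positivity) (by positivity)]
            nlinarith
          have e2 : C * (η / (3 * (C + 1))) ≤ η / 3 := by
            rw [mul_div_assoc', div_le_div_iff₀ (by positivity) (by positivity)]
            nlinarith
          linarith
  have r2 : ∫ z in K, |u n z| ^ q ≤ ∫ z, χ z * |u n z| ^ q := by
    rw [out hχ]
    have e1 : ∫ z in K, |u n z| ^ q = ∫ z in K, χ z * |u n z| ^ q :=
      setIntegral_congr_fun hK.measurableSet fun z hz => by simp [hχK z hz]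
    rw [e1]
    exact setIntegral_mono_set (int_mul hχ hχ1 i1)
      (ae_of_all _ fun z => mul_nonneg (hχ.2.2.2 z) (by positivity)) (ae_of_all _ hKD)
  have r3 : ∫ z in D, |u n z| ^ q = (∫ z in K, |u n z| ^ q) + ∫ z in D \ K, |u n z| ^ q := by
    rw [← setIntegral_union Set.disjoint_sdiff_right (mD.diff hK.measurableSet) (i1.mono_set hKD) iK,
      Set.union_sdiff_cancel hKD]
  have m1 : ∫ z, χ z ≤ (volume D).toReal := by
    have e1 : ∫ z, χ z = ∫ z in D, χ z := by
      have := out hχ (fun _ => 1)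
      simpa using this
    rw [e1]
    have e2 : ∫ z in D, χ z ≤ ∫ z in D, (1 : ℝ) := by
      refine integral_mono ?_ (integrableOn_const h.fin) hχ1
      have := int_mul hχ hχ1 (f := fun _ => 1) (integrableOn_const h.fin)
      simp only [mul_one] at this
      exact this
    refine e2.trans (le_of_eq ?_)
    rw [setIntegral_const, smul_eq_mul, mul_one]
    rfl
  have m0 : 0 ≤ ∫ z, χ z := integral_nonneg hχ.2.2.2
  have s1 : ∫ z, χ z * u n z ^ 2 ≤ ∫ z in D, u n z ^ 2 := by
    rw [out hχ]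
    refine integral_mono (int_mul hχ hχ1 iu) iu fun z => ?_
    show χ z * u n z ^ 2 ≤ u n z ^ 2
    have := mul_le_mul_of_nonneg_right (hχ1 z) (sq_nonneg (u n z))
    linarith
  have s0 : 0 ≤ ∫ z, χ z * u n z ^ 2 := integral_nonneg fun z => mul_nonneg (hχ.2.2.2 z) (sq_nonneg _)
  have fin : kap q * (∫ z, χ z) ^ (1 - q / 2) * (2 * ∫ z, χ z * u n z ^ 2) ^ (q / 2) ≤
      kap q * (volume D).toReal ^ (1 - q / 2) * (2 * ∫ z in D, u n z ^ 2) ^ (q / 2) := by
    have e1 : (∫ z, χ z) ^ (1 - q / 2) ≤ (volume D).toReal ^ (1 - q / 2) :=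
      Real.rpow_le_rpow m0 m1 (by linarith)
    have e2 : (2 * ∫ z, χ z * u n z ^ 2) ^ (q / 2) ≤ (2 * ∫ z in D, u n z ^ 2) ^ (q / 2) :=
      Real.rpow_le_rpow (by positivity) (by linarith) (by positivity)
    have e3 : 0 ≤ (∫ z, χ z) ^ (1 - q / 2) := Real.rpow_nonneg m0 _
    have e4 : 0 ≤ (2 * ∫ z, χ z * u n z ^ 2) ^ (q / 2) := Real.rpow_nonneg (by positivity) _
    gcongr
  rw [r3]
  linarith

/-- **High powers** for sequences with uniform mass. -/
theorem high (j13 : J13) (a1 : A1) {D : Set ℂ} {lam : ℕ → ℝ} {u : ℕ → ℂ → ℝ} {B : ℝ}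
    (h : Dom D lam u B) (hm : ∀ χ, Test D χ → Tendsto (fun n => ∫ z, χ z * u n z ^ 2) atTop (𝓝 (∫ z, χ z)))
    {q : ℝ} (hq : 2 < q) :
    ENNReal.ofReal (kap q * 2 ^ (q / 2)) * volume D ≤
      liminf (fun n => ∫⁻ z in D, ENNReal.ofReal (|u n z| ^ q)) atTop := by
  have k0 := a1.2.1 q (by linarith)
  have mD := h.o.measurableSet
  -- for one test function
  have key : ∀ χ, Test D χ → (∀ z, χ z ≤ 1) → 0 < ∫ z, χ z →
      ENNReal.ofReal (kap q * 2 ^ (q / 2) * ∫ z, χ z) ≤
        liminf (fun n => ∫⁻ z in D, ENNReal.ofReal (|u n z| ^ q)) atTop := by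
    intro χ hχ hχ1 M0
    obtain ⟨M, hM⟩ : ∃ M, M = ∫ z, χ z := ⟨_, rfl⟩
    rw [← hM] at M0 ⊢
    have ht : Tendsto (fun n => kap q * (2 * ∫ z, χ z * u n z ^ 2) ^ (q / 2)) atTop
        (𝓝 (kap q * (2 * M) ^ (q / 2))) := by
      have h1 := (hm χ hχ).const_mul 2
      rw [← hM] at h1
      exact ((Real.continuousAt_rpow_const _ _ (Or.inr (by positivity))).tendsto.comp h1).const_mul _
    refine ENNReal.le_of_forall_pos_le_add fun ε hε _ => ?_
    have hε' : (0 : ℝ) < ε := hε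
    obtain ⟨η, hη⟩ : ∃ η : ℝ, η = ε * M ^ (q / 2 - 1) / 2 := ⟨_, rfl⟩
    have η0 : 0 < η := by rw [hη]; positivity
    have e1 := (j13 D (fun _ => 1) lam u h.seq χ hχ η η0).2.1 q hq
    have e2 := ht.eventually (eventually_gt_nhds (show kap q * (2 * M) ^ (q / 2) - η <
      kap q * (2 * M) ^ (q / 2) by linarith))
    rw [← tsub_le_iff_right]
    refine le_liminf_of_le (by isBoundedDefault) ?_
    filter_upwards [e1, e2] with n e1 e2
    simp only [mul_one, ← hM] at e1
    have p1 : 0 < M ^ (q / 2 - 1) := by positivity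
    have e3 : kap q * (2 * M) ^ (q / 2) = M ^ (q / 2 - 1) * (kap q * 2 ^ (q / 2) * M) := by
      rw [Real.mul_rpow (by norm_num) M0.le]
      have : M ^ (q / 2) = M ^ (q / 2 - 1) * M := by
        nth_rewrite 3 [← Real.rpow_one M]
        rw [← Real.rpow_add M0]; congr 1; ring
      rw [this]; ring
    have e4 : kap q * 2 ^ (q / 2) * M - ε ≤ ∫ z, χ z * |u n z| ^ q := by
      have : M ^ (q / 2 - 1) * (kap q * 2 ^ (q / 2) * M - ε) ≤
          M ^ (q / 2 - 1) * ∫ z, χ z * |u n z| ^ q := by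
        have h2 : 2 * η = M ^ (q / 2 - 1) * ε := by rw [hη]; ring
        rw [mul_sub, ← e3, ← h2]
        linarith
      exact le_of_mul_le_mul_left this p1
    have e5 : ENNReal.ofReal (∫ z, χ z * |u n z| ^ q) ≤ ∫⁻ z in D, ENNReal.ofReal (|u n z| ^ q) := by
      rw [out hχ]
      have cu : ContinuousOn (u n) D := (h.sm n).continuousOn
      by_cases hi : IntegrableOn (fun z => χ z * |u n z| ^ q) D
      · rw [ofReal_integral_eq_lintegral_ofReal hi
          (ae_of_all _ fun z => mul_nonneg (hχ.2.2.2 z) (by positivity))]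
        refine lintegral_mono fun z => ENNReal.ofReal_le_ofReal ?_
        have := mul_le_mul_of_nonneg_right (hχ1 z) (by positivity : 0 ≤ |u n z| ^ q)
        linarith
      · rw [integral_undef hi]; simp
    refine le_trans ?_ ((ENNReal.ofReal_le_ofReal e4).trans e5)
    have p2 : (0 : ℝ) ≤ ε := hε'.le
    rw [ENNReal.ofReal_sub _ p2]
    simp
  by_cases hD0 : volume D = 0
  · rw [hD0]; simp
  have hD1 : 0 < (volume D).toReal := ENNReal.toReal_pos hD0 h.fin
  -- approximation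
  refine ENNReal.le_of_forall_pos_le_add fun ε hε _ => ?_
  obtain ⟨κ, hκ⟩ : ∃ κ, κ = kap q * 2 ^ (q / 2) := ⟨_, rfl⟩
  have κ0 : 0 < κ := by rw [hκ]; positivity
  have hε' : (0 : ℝ) < ε := hε
  obtain ⟨χ, hχ, hχ1, K, hK, hKD, hχK, hKm⟩ := exists_test h.o h.fin
    (ε := min (ε / κ) ((volume D).toReal / 2)) (by positivity)
  have vK : (volume D).toReal - min (ε / κ) ((volume D).toReal / 2) ≤ (volume K).toReal := by
    have h1 : volume D ≤ volume K + ENNReal.ofReal (min (ε / κ) ((volume D).toReal / 2)) := by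
      calc volume D ≤ volume (K ∪ D \ K) := measure_mono (by rw [Set.union_sdiff_self]; exact Set.subset_union_right)
        _ ≤ volume K + volume (D \ K) := measure_union_le _ _
        _ ≤ _ := by gcongr
    have h2 := ENNReal.toReal_mono (by
      exact ENNReal.add_ne_top.2 ⟨hK.measure_lt_top.ne, ENNReal.ofReal_ne_top⟩) h1
    rw [ENNReal.toReal_add hK.measure_lt_top.ne ENNReal.ofReal_ne_top,
      ENNReal.toReal_ofReal (by positivity)] at h2
    linarith
  have iχ : Integrable χ := hχ.1.continuous.integrable_of_hasCompactSupport hχ.2.1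
  have mK : (volume K).toReal ≤ ∫ z, χ z := by
    have e1 : ∫ z in K, χ z = (volume K).toReal := by
      have : ∫ z in K, χ z = ∫ z in K, (1 : ℝ) :=
        setIntegral_congr_fun hK.measurableSet fun z hz => hχK z hz
      rw [this, setIntegral_const, smul_eq_mul, mul_one]; rfl
    rw [← e1]
    exact setIntegral_le_integral iχ (ae_of_all _ hχ.2.2.2)
  have Mp : 0 < ∫ z, χ z := by
    have := min_le_right (ε / κ) ((volume D).toReal / 2)
    linarith
  have h3 := key χ hχ hχ1 Mp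
  rw [← hκ] at h3 ⊢
  have h4 : ENNReal.ofReal κ * volume D ≤ ENNReal.ofReal (κ * ∫ z, χ z) + ε := by
    have e1 : ENNReal.ofReal κ * volume D = ENNReal.ofReal (κ * (volume D).toReal) := by
      rw [ENNReal.ofReal_mul κ0.le, ENNReal.ofReal_toReal h.fin]
    have e2 : (ε : ℝ≥0∞) = ENNReal.ofReal ε := by simp
    rw [e1, e2, ← ENNReal.ofReal_add (by positivity) hε'.le]
    apply ENNReal.ofReal_le_ofReal
    have e3 := min_le_left (ε / κ) ((volume D).toReal / 2)
    have e4 : κ * (ε / κ) = ε := by field_simp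
    nlinarith
  exact h4.trans (by gcongr)

end Bil

end

end Pool.Agent.Q73.PW
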