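import Pool.Agent.Q73.PW.Pow
import Pool.Agent.Q73.PW.Bil

/-!
# Project PW: whole domains
-/

set_option autoImplicit false
open MeasureTheory Filter Topology Real
open scoped ContDiff ENNReal

namespace Pool.Agent.Q73.PW

noncomputable section

open Pool.Agent.Results.MP_a52643_an.AbsoluteContinuity (lapl LocL2 Test)
open Pool.Agent.Results.MP_a52643_an.SharpNodalLength (IsothermalAtlas IsEigenfunction)

namespace Gl

/-- plane domains -/
theorem plane (j13 : J13) (a2 : A2) {D : Set ℂ} {lam : ℕ → ℝ} {u : ℕ → ℂ → ℝ} {B : ℝ}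
    (h : Bil.Dom D lam u B) : Cmp volume D u := by
  intro Φ L hΦ m0 m1 η hη
  have mD := h.o.measurableSet
  refine glue h.fin (fun n => (h.sm n).continuousOn.aestronglyMeasurable mD) h.int h.bd hΦ m0 a2
    (fun ε hε => ?_) hη
  obtain ⟨χ, hχ, hχ1, K, hK, hKD, hχK, hKm⟩ := Bil.exists_test h.o h.fin hε
  have mχ : Measurable χ := hχ.1.continuous.measurable
  refine ⟨1, fun _ => χ, fun _ => mχ, fun _ => hχ.2.2.2, fun x => by simpa using hχ1 x, ?_, ?_⟩
  · have hf : volume (D \ K) ≠ ⊤ := (hKm.trans_lt ENNReal.ofReal_lt_top).ne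
    have e1 : ∫ x in D, (1 - ∑ _j : Fin 1, χ x) ≤ ∫ x in D, (D \ K).indicator (fun _ => (1 : ℝ)) x := by
      have i1 : IntegrableOn (fun _ : ℂ => (1 : ℝ)) D := integrableOn_const h.fin
      have i2 : IntegrableOn (fun z => χ z) D := by
        have := Bil.int_mul hχ hχ1 i1
        simpa only [mul_one] using this
      refine setIntegral_mono_on ?_ ?_ mD fun x hx => ?_
      · simp only [Finset.univ_unique, Finset.sum_const, Finset.card_singleton, one_smul]
        exact i1.sub i2
      · exact i1.indicator (mD.diff hK.measurableSet)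
      · simp only [Finset.univ_unique, Finset.sum_const, Finset.card_singleton, one_smul]
        by_cases hxK : x ∈ K
        · rw [hχK x hxK]
          simp [hxK]
        · have hxDK : x ∈ D \ K := ⟨hx, hxK⟩
          rw [Set.indicator_of_mem hxDK]
          have := hχ.2.2.2 x
          linarith
    refine e1.trans ?_
    rw [setIntegral_indicator (mD.diff hK.measurableSet), setIntegral_const, smul_eq_mul, mul_one]
    have : D ∩ (D \ K) = D \ K := Set.inter_eq_right.2 Set.sdiff_subset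
    rw [this]
    exact ENNReal.toReal_le_of_le_ofReal hε.le hKm
  · intro _ η' hη'
    have key := (j13 D (fun _ => 1) lam u h.seq χ hχ η' hη').2.2 Φ L hΦ m0 m1
    filter_upwards [key] with n hn
    simp only [mul_one] at hn
    have e0 : ∫ z in D, χ z = ∫ z, χ z := by
      have := Bil.out hχ (fun _ => 1)
      simp only [mul_one] at this
      exact this.symm
    rw [Bil.out hχ, Bil.out hχ] at hn
    rw [e0]
    exact hn

universe w v

/-- surfaces -/
theorem surface (j13 : J13) (j15 : J15.{w, v}) (j16 : J16.{w, v}) (a2 : A2) (M : Type w) (ι : Type v)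
    [TopologicalSpace M] [T2Space M]
    [SecondCountableTopology M] [MeasurableSpace M] [BorelSpace M] (U : ι → Set ℂ) (φ : ι → ℂ → M)
    (ρ : ι → ℂ → ℝ) (area len : Measure M) (h : IsothermalAtlas U φ ρ area len)
    (hρ : ∀ i, ContDiffOn ℝ ∞ (ρ i) (U i)) (lam : ℕ → ℝ) (f : ℕ → M → ℝ) (D : Set M) (B : ℝ)
    (hlam : Tendsto lam atTop atTop) (he : ∀ n, IsEigenfunction U φ ρ (lam n) (f n)) (hD : IsOpen D)
    (hf : area D ≠ ⊤) (hB : ∀ n, ∫⁻ x in D, ENNReal.ofReal (f n x ^ 2) ∂area ≤ ENNReal.ofReal B) :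
    (∀ n, Measurable (f n)) ∧ (∀ n, IntegrableOn (fun x => f n x ^ 2) D area) ∧ Cmp area D f := by
  obtain ⟨mf, sq⟩ := j16 M ι U φ ρ area len h hρ lam f D B hlam he hD hB
  have hi : ∀ n, IntegrableOn (fun x => f n x ^ 2) D area := by
    intro n
    refine ⟨((mf n).pow_const 2).aestronglyMeasurable, ?_⟩
    rw [hasFiniteIntegral_iff_ofReal (ae_of_all _ fun s => sq_nonneg _)]
    exact (hB n).trans_lt ENNReal.ofReal_lt_top
  have hi2 : ∀ n, ∫ x in D, f n x ^ 2 ∂area ≤ max B 0 := by
    intro n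
    have h1 := hB n
    rw [← ofReal_integral_eq_lintegral_ofReal (hi n) (ae_of_all _ fun s => sq_nonneg _)] at h1
    rcases le_total 0 B with hB0 | hB0
    · rw [ENNReal.ofReal_le_ofReal_iff hB0] at h1
      exact h1.trans (le_max_left _ _)
    · rw [ENNReal.ofReal_of_nonpos hB0] at h1
      exact (ENNReal.ofReal_eq_zero.1 (le_antisymm h1 bot_le)).trans (le_max_right _ _)
  refine ⟨mf, hi, fun Φ L hΦ m0 m1 η hη => ?_⟩
  refine glue hf (fun n => (mf n).aestronglyMeasurable) hi hi2 hΦ m0 a2 (fun ε hε => ?_) hη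
  obtain ⟨m, i, V, χ, w, w1, w2, w3, w4, w5, w6⟩ := j15 M ι U φ ρ area len h D hD hf ε hε
  refine ⟨m, w, w2, w3, w4, w5, fun j η' hη' => ?_⟩
  obtain ⟨oV, VU, VD, T⟩ := w1 j
  have key := (j13 (V j) (ρ (i j)) lam (fun n z => f n (φ (i j) z)) (sq (i j) (V j) oV VU VD) (χ j) T
    η' hη').2.2 Φ L hΦ m0 m1
  filter_upwards [key] with n hn
  have e1 : ∫ x in D, w j x ∂area = ∫ z, χ j z * ρ (i j) z := by
    have := w6 j (fun _ => 1) measurable_const
    simp only [mul_one] at this
    exact this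
  have e2 := w6 j (fun x => f n x ^ 2) ((mf n).pow_const 2)
  have e3 := w6 j (fun x => Φ (f n x)) (hΦ.sm.continuous.measurable.comp (mf n))
  rw [e1, e2, e3]
  exact hn

end Gl

end

end Pool.Agent.Q73.PW
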