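import Pool.Agent.Q73.PW.AllSt
import Pool.Agent.Q73.PW.R1
import Pool.Agent.Q73.PW.St5
import Pool.Agent.Q73.PW.J8
import Pool.Agent.Q73.PW.J9
import Pool.Agent.Q73.PW.J10
import Pool.Agent.Q73.PW.J13
import Pool.Agent.Q73.PW.J15
import Pool.Agent.Q73.PW.Whole

/-! # Project PW: the lemmas for surfaces -/

namespace Pool.Agent.Q73.PW

theorem all10 : J10 := j10 allSt.1 j8 j9 a2

theorem all13 : J13 := j13 j8 all10 (j11 all10) p1 p2 a1 a2

end Pool.Agent.Q73.PW
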