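import Pool.Agent.Q73.PW.Glue

/-!
# Project PW: powers, from the comparison for all `Φ`
-/

set_option autoImplicit false
open MeasureTheory Filter Topology Real
open scoped ContDiff ENNReal

namespace Pool.Agent.Q73.PW

noncomputable section

namespace Gl

variable {X : Type*} [MeasurableSpace X] {μ : Measure X} {D : Set X} {f : ℕ → X → ℝ}

/-- the comparison for all `Φ` -/
def Cmp (μ : Measure X) (D : Set X) (f : ℕ → X → ℝ) : Prop :=
  ∀ (Φ : ℝ → ℝ) (L : ℝ), Cls Φ L → M0 Φ → M1 Φ → ∀ η : ℝ, 0 < η → ∀ᶠ n in atTop,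
    (μ D).toReal * mn Φ √((2 * ∫ x in D, f n x ^ 2 ∂μ) / (μ D).toReal) ≤
      (∫ x in D, Φ (f n x) ∂μ) + η

theorem cmp_mean (H : Cmp μ D f) (hV : 0 < (μ D).toReal) {Φ : ℝ → ℝ} {L : ℝ} (hΦ : Cls Φ L) (m0 : M0 Φ)
    (m1 : M1 Φ) {η : ℝ} (hη : 0 < η) : ∀ᶠ n in atTop,
    mn Φ √((2 * ∫ x in D, f n x ^ 2 ∂μ) / (μ D).toReal) ≤ (∫ x in D, Φ (f n x) ∂μ) / (μ D).toReal + η := by
  filter_upwards [H Φ L hΦ m0 m1 ((μ D).toReal * η) (by positivity)] with n hn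
  rw [← sub_le_iff_le_add, le_div_iff₀ hV]
  linarith

theorem low_mean (a1 : A1) (p1 : P1) (hf : μ D ≠ ⊤) (hV : 0 < (μ D).toReal)
    (mf : ∀ n, AEStronglyMeasurable (f n) (μ.restrict D))
    (hi : ∀ n, IntegrableOn (fun x => f n x ^ 2) D μ) (H : Cmp μ D f) {q : ℝ} (q0 : 0 < q) (q2 : q < 2)
    {η : ℝ} (hη : 0 < η) : ∀ᶠ n in atTop,
    (∫ x in D, |f n x| ^ q ∂μ) / (μ D).toReal ≤
      kap q * ((2 * ∫ x in D, f n x ^ 2 ∂μ) / (μ D).toReal) ^ (q / 2) + η := by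
  have hfin : IsFiniteMeasure (μ.restrict D) := ⟨by rw [Measure.restrict_apply_univ]; exact lt_top_iff_ne_top.2 hf⟩
  obtain ⟨δ, hδ⟩ : ∃ δ, δ = (η / 2) ^ (2 / q) := ⟨_, rfl⟩
  have δ0 : 0 < δ := by rw [hδ]; positivity
  have δq : δ ^ (q / 2) = η / 2 := by
    rw [hδ, ← Real.rpow_mul (by positivity)]
    have : 2 / q * (q / 2) = 1 := by field_simp
    rw [this, Real.rpow_one]
  obtain ⟨⟨L, hL⟩, m0, m1, -⟩ := p1 q δ q0 q2 δ0
  filter_upwards [cmp_mean H hV hL m0 m1 (η := η / 2) (by positivity)] with n hn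
  obtain ⟨V, hVV⟩ : ∃ V, V = (μ D).toReal := ⟨_, rfl⟩
  obtain ⟨S, hS⟩ : ∃ S, S = ∫ x in D, f n x ^ 2 ∂μ := ⟨_, rfl⟩
  rw [← hVV] at hV
  rw [← hVV, ← hS] at hn ⊢
  have S0 : 0 ≤ S := by rw [hS]; exact integral_nonneg fun x => sq_nonneg _
  have absq : ∀ x : ℝ, |x| ^ q = (x ^ 2) ^ (q / 2) := by
    intro x
    rw [← sq_abs, ← Real.rpow_natCast, ← Real.rpow_mul (abs_nonneg x)]
    congr 1; push_cast; ring
  have low : ∀ x : ℝ, 0 ≤ x → x ^ (q / 2) ≤ 1 + x := by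
    intro x hx
    rcases le_total x 1 with h1 | h1
    · have := Real.rpow_le_one hx h1 (by positivity : 0 ≤ q / 2); linarith
    · have : x ^ (q / 2) ≤ x ^ (1 : ℝ) := Real.rpow_le_rpow_of_exponent_le h1 (by linarith)
      rw [Real.rpow_one] at this; linarith
  have i2 : Integrable (fun x => f n x ^ 2) (μ.restrict D) := hi n
  have iq : Integrable (fun x => |f n x| ^ q) (μ.restrict D) := by
    refine Integrable.mono' (g := fun x => 1 + f n x ^ 2) ((integrable_const _).add i2)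
      (((mf n).aemeasurable.abs.pow_const q).aestronglyMeasurable) (ae_of_all _ fun s => ?_)
    rw [Real.norm_eq_abs, abs_of_nonneg (by positivity), absq]
    exact low _ (sq_nonneg _)
  have i3 : Integrable (fun x => (f n x ^ 2 + δ) ^ (q / 2)) (μ.restrict D) := by
    refine Integrable.mono' (g := fun x => 1 + (f n x ^ 2 + δ)) ((integrable_const _).add (i2.add (integrable_const _)))
      (((((mf n).aemeasurable.pow_const 2).add_const δ).pow_const (q / 2)).aestronglyMeasurable)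
      (ae_of_all _ fun s => ?_)
    rw [Real.norm_eq_abs, abs_of_nonneg (by positivity)]
    exact low _ (by positivity)
  have d2 : ∫ x in D, |f n x| ^ q ∂μ ≤ ∫ x in D, (f n x ^ 2 + δ) ^ (q / 2) ∂μ := by
    refine integral_mono iq i3 fun s => ?_
    show |f n s| ^ q ≤ (f n s ^ 2 + δ) ^ (q / 2)
    rw [absq]
    exact Real.rpow_le_rpow (sq_nonneg _) (by linarith) (by positivity)
  have n1 : ∀ r, mn (fun x : ℝ => -(x ^ 2 + δ) ^ (q / 2)) r = -mn (fun x : ℝ => (x ^ 2 + δ) ^ (q / 2)) r := by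
    intro r
    unfold mn
    rw [intervalIntegral.integral_neg, neg_div]
  rw [n1, integral_neg, neg_div] at hn
  have d3 := a1.2.2.1 q δ √((2 * S) / V) q0 q2 δ0 (Real.sqrt_nonneg _)
  have e : √((2 * S) / V) ^ q = ((2 * S) / V) ^ (q / 2) := by
    rw [Real.sqrt_eq_rpow, ← Real.rpow_mul (by positivity)]
    congr 1; ring
  rw [e, δq] at d3
  have d4 : (∫ x in D, |f n x| ^ q ∂μ) / V ≤ (∫ x in D, (f n x ^ 2 + δ) ^ (q / 2) ∂μ) / V := by gcongr
  linarith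

theorem high_mean (a1 : A1) (p2 : P2) (j3 : J3) (hf : μ D ≠ ⊤) (hV : 0 < (μ D).toReal)
    {B : ℝ} (hB : ∀ n, ∫ x in D, f n x ^ 2 ∂μ ≤ B) (H : Cmp μ D f) {q : ℝ} (hq : 2 < q)
    {η : ℝ} (hη : 0 < η) : ∀ᶠ n in atTop,
    ENNReal.ofReal (kap q * ((2 * ∫ x in D, f n x ^ 2 ∂μ) / (μ D).toReal) ^ (q / 2)) ≤
      (∫⁻ x in D, ENNReal.ofReal (|f n x| ^ q) ∂μ) / μ D + ENNReal.ofReal η := by
  have B0 : 0 ≤ B := (integral_nonneg fun z => sq_nonneg _).trans (hB 0)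
  obtain ⟨Φ, L, hL, m2, Φ0, Φq, Φr⟩ := p2 q (√((2 * B) / (μ D).toReal) + 1) (η / 2) hq (by positivity)
    (by positivity)
  obtain ⟨m0, m1⟩ := (j3 Φ hL.sm hL.ev).2.2.2.2.2.1 m2
  filter_upwards [cmp_mean H hV hL m0 m1 (η := η / 2) (by positivity)] with n hn
  obtain ⟨V, hVV⟩ : ∃ V, V = (μ D).toReal := ⟨_, rfl⟩
  obtain ⟨S, hS⟩ : ∃ S, S = ∫ x in D, f n x ^ 2 ∂μ := ⟨_, rfl⟩
  have SB : S ≤ B := by rw [hS]; exact hB n
  have S0 : 0 ≤ S := by rw [hS]; exact integral_nonneg fun x => sq_nonneg _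
  have eV : μ D = ENNReal.ofReal V := by rw [hVV, ENNReal.ofReal_toReal hf]
  rw [← hVV] at hV Φr
  rw [← hVV, ← hS] at hn ⊢
  have e : √((2 * S) / V) ^ q = ((2 * S) / V) ^ (q / 2) := by
    rw [Real.sqrt_eq_rpow, ← Real.rpow_mul (by positivity)]
    congr 1; ring
  have d1 := Φr √((2 * S) / V) (Real.sqrt_nonneg _) (by
    have : √((2 * S) / V) ≤ √((2 * B) / V) := Real.sqrt_le_sqrt (by gcongr)
    linarith)
  rw [e] at d1
  have d2 : kap q * ((2 * S) / V) ^ (q / 2) ≤ (∫ x in D, Φ (f n x) ∂μ) / V + η := by linarith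
  have I0 : 0 ≤ ∫ x in D, Φ (f n x) ∂μ := integral_nonneg fun x => Φ0 _
  refine (ENNReal.ofReal_le_ofReal d2).trans ?_
  rw [ENNReal.ofReal_add (by positivity) hη.le]
  gcongr
  rw [ENNReal.ofReal_div_of_pos hV, eV]
  gcongr
  by_cases hi : Integrable (fun x => Φ (f n x)) (μ.restrict D)
  · rw [ofReal_integral_eq_lintegral_ofReal hi (ae_of_all _ fun x => Φ0 _)]
    exact lintegral_mono fun x => ENNReal.ofReal_le_ofReal (Φq _)
  · rw [integral_undef hi]; simp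

end Gl

end

end Pool.Agent.Q73.PW
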