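import Pool.Agent.Q73.PW.Stm2

/-!
# Project PW (helper73), job PW-A1: means of powers and of the logarithm
-/

set_option autoImplicit false
open MeasureTheory Filter Topology Real
open scoped ContDiff ENNReal

namespace Pool.Agent.Q73.PW

noncomputable section

namespace A1f

theorem cont_pow {q : ℝ} (hq : 0 ≤ q) (r : ℝ) : Continuous fun t : ℝ => |r * cos t| ^ q :=
  (Continuous.abs (by fun_prop)).rpow_const fun _ => Or.inr hq

theorem ae_cos : ∀ᵐ t : ℝ, cos t ≠ 0 := by
  have h : {t : ℝ | cos t = 0}.Countable := by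
    have : {t : ℝ | cos t = 0} ⊆ Set.range fun k : ℤ => (2 * (k : ℝ) + 1) * π / 2 := by
      intro t ht
      obtain ⟨k, hk⟩ := Real.cos_eq_zero_iff.1 ht
      exact ⟨k, hk.symm⟩
    exact (Set.countable_range _).mono this
  exact h.ae_notMem volume

theorem kap_eq (q : ℝ) : kap q = (∫ t in (0 : ℝ)..π, |cos t| ^ q) / π := by
  unfold kap mn
  simp only [one_mul]

theorem mn_pow {q r : ℝ} (hr : 0 ≤ r) : mn (fun x => |x| ^ q) r = kap q * r ^ q := by
  rw [kap_eq]
  unfold mn
  have h : ∀ t : ℝ, |r * cos t| ^ q = r ^ q * |cos t| ^ q := by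
    intro t
    rw [abs_mul, abs_of_nonneg hr, Real.mul_rpow hr (abs_nonneg _)]
  simp only [h]
  rw [intervalIntegral.integral_const_mul]
  ring

theorem kap_pos {q : ℝ} (hq : 0 < q) : 0 < kap q := by
  rw [kap_eq]
  refine div_pos ?_ pi_pos
  refine intervalIntegral.integral_pos pi_pos ?_ (fun t _ => by positivity) ⟨0, ?_, ?_⟩
  · have := cont_pow hq.le 1
    simp only [one_mul] at this
    exact this.continuousOn
  · exact ⟨le_rfl, pi_pos.le⟩
  · rw [cos_zero, abs_one, one_rpow]
    exact one_pos

theorem mn_del {q δ r : ℝ} (hq : 0 < q) (hq2 : q < 2) (hδ : 0 < δ) (hr : 0 ≤ r) :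
    mn (fun x => (x ^ 2 + δ) ^ (q / 2)) r ≤ kap q * r ^ q + δ ^ (q / 2) := by
  rw [← mn_pow hr]
  unfold mn
  have h1 : δ ^ (q / 2) = (∫ t in (0 : ℝ)..π, δ ^ (q / 2)) / π := by
    rw [intervalIntegral.integral_const, smul_eq_mul, sub_zero]
    field_simp
  have c1 : Continuous fun t : ℝ => ((r * cos t) ^ 2 + δ) ^ (q / 2) :=
    Continuous.rpow_const (by fun_prop) fun _ => Or.inr (by positivity)
  have c2 := cont_pow hq.le r
  rw [h1, ← add_div, ← intervalIntegral.integral_add (c2.intervalIntegrable _ _)
    intervalIntegrable_const]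
  refine div_le_div_of_nonneg_right ?_ pi_pos.le
  refine intervalIntegral.integral_mono_on pi_pos.le (c1.intervalIntegrable _ _)
    ((c2.intervalIntegrable _ _).add intervalIntegrable_const) fun t _ => ?_
  have h2 := Real.rpow_add_le_add_rpow (sq_nonneg (r * cos t)) hδ.le
    (by positivity : 0 ≤ q / 2) (by linarith)
  refine h2.trans (le_of_eq ?_)
  congr 1
  rw [← sq_abs, ← Real.rpow_natCast, ← Real.rpow_mul (abs_nonneg _)]
  congr 1
  push_cast
  ring

theorem kap_one : kap 1 = 2 / π := by
  rw [kap_eq]
  congr 1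
  simp only [rpow_one]
  have h1 : IntervalIntegrable (fun t : ℝ => |cos t|) volume 0 (π / 2) :=
    (Continuous.abs (by fun_prop)).intervalIntegrable _ _
  have h2 : IntervalIntegrable (fun t : ℝ => |cos t|) volume (π / 2) π :=
    (Continuous.abs (by fun_prop)).intervalIntegrable _ _
  rw [← intervalIntegral.integral_add_adjacent_intervals h1 h2]
  have e1 : ∫ t in (0 : ℝ)..(π / 2), |cos t| = ∫ t in (0 : ℝ)..(π / 2), cos t := by
    refine intervalIntegral.integral_congr fun t ht => ?_
    rw [Set.uIcc_of_le (by positivity)] at ht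
    exact abs_of_nonneg (cos_nonneg_of_mem_Icc ⟨by linarith [ht.1, pi_pos], ht.2⟩)
  have e2 : ∫ t in (π / 2)..π, |cos t| = ∫ t in (π / 2)..π, - cos t := by
    refine intervalIntegral.integral_congr fun t ht => ?_
    rw [Set.uIcc_of_le (by linarith [pi_pos])] at ht
    exact abs_of_nonpos (cos_nonpos_of_pi_div_two_le_of_le ht.1 (by linarith [ht.2, pi_pos]))
  rw [e1, e2, intervalIntegral.integral_neg, integral_cos, integral_cos]
  simp
  norm_num

theorem kap_two : kap 2 = 1 / 2 := by
  rw [kap_eq]
  have h : ∀ t : ℝ, |cos t| ^ (2 : ℝ) = cos t ^ 2 := by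
    intro t
    rw [Real.rpow_two, sq_abs]
  simp only [h]
  rw [integral_cos_sq]
  simp
  field_simp

theorem log_cos : ∫ t in (0 : ℝ)..π, Real.log (cos t) = -Real.log 2 * π := by
  rw [← integral_log_sin_zero_pi]
  have hper : Function.Periodic (fun t => Real.log (sin t)) π := by
    intro t
    simp only [sin_add_pi, Real.log_neg_eq_log]
  have h1 : ∫ t in (0 : ℝ)..π, Real.log (cos t) =
      ∫ t in (0 : ℝ)..π, (fun t => Real.log (sin t)) (t + π / 2) := by
    refine intervalIntegral.integral_congr fun t _ => ?_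
    simp only [sin_add_pi_div_two]
  rw [h1, intervalIntegral.integral_comp_add_right (fun t => Real.log (sin t)), zero_add]
  have h2 := hper.intervalIntegral_add_eq (π / 2) 0
  rw [zero_add] at h2
  rw [add_comm π (π / 2)]
  exact h2

theorem ilc : IntervalIntegrable (fun t : ℝ => Real.log (cos t)) volume 0 π :=
  intervalIntegrable_log_cos

theorem mn_log {r : ℝ} (hr : 0 < r) : mn (fun x => Real.log |x|) r = Real.log (r / 2) := by
  unfold mn
  have h1 : ∫ t in (0 : ℝ)..π, Real.log |r * cos t| =
      ∫ t in (0 : ℝ)..π, (Real.log r + Real.log (cos t)) := by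
    refine intervalIntegral.integral_congr_ae ?_
    filter_upwards [ae_cos] with t ht _
    rw [Real.log_abs, Real.log_mul hr.ne' ht]
  rw [h1, intervalIntegral.integral_add intervalIntegrable_const ilc,
    log_cos, intervalIntegral.integral_const, smul_eq_mul, Real.log_div hr.ne' two_ne_zero]
  field_simp
  ring

/-- the quotient `(kap q - 1) / q` as an integral -/
theorem quot_eq {q : ℝ} (hq : 0 < q) :
    (kap q - 1) / q = (∫ t in (0 : ℝ)..π, (|cos t| ^ q - 1) / q) / π := by
  have c := cont_pow hq.le 1
  simp only [one_mul] at c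
  rw [kap_eq, intervalIntegral.integral_div, intervalIntegral.integral_sub
    (c.intervalIntegrable _ _) intervalIntegrable_const, intervalIntegral.integral_const,
    smul_eq_mul]
  field_simp
  ring

theorem quot_tendsto :
    Tendsto (fun q => (kap q - 1) / q) (𝓝[>] 0) (𝓝 (-Real.log 2)) := by
  have h1 : Tendsto (fun q : ℝ => ∫ t in (0 : ℝ)..π, (|cos t| ^ q - 1) / q) (𝓝[>] 0)
      (𝓝 (∫ t in (0 : ℝ)..π, Real.log (cos t))) := by
    refine intervalIntegral.tendsto_integral_filter_of_dominated_convergence
      (fun t => |Real.log (cos t)|) ?_ ?_ ilc.abs ?_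
    · filter_upwards [self_mem_nhdsWithin] with q hq
      have c := cont_pow (le_of_lt hq) 1
      simp only [one_mul] at c
      exact (((c.sub continuous_const).div_const q)).aestronglyMeasurable
    · filter_upwards [self_mem_nhdsWithin] with q hq
      have hq' : (0 : ℝ) < q := hq
      filter_upwards [ae_cos] with t ht _
      have h2 : 0 < |cos t| := abs_pos.2 ht
      have h3 : |cos t| ≤ 1 := abs_cos_le_one t
      have h4 : |cos t| ^ q ≤ 1 := Real.rpow_le_one h2.le h3 hq'.le
      have h5 : q * Real.log (cos t) ≤ |cos t| ^ q - 1 := by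
        rw [Real.rpow_def_of_pos h2, Real.log_abs, mul_comm q]
        linarith [Real.add_one_le_exp (Real.log (cos t) * q)]
      have h6 : Real.log (cos t) ≤ 0 := by
        rw [← Real.log_abs]
        exact Real.log_nonpos h2.le h3
      rw [Real.norm_eq_abs, abs_of_nonpos h6, abs_of_nonpos (div_nonpos_of_nonpos_of_nonneg
        (by linarith) hq'.le), neg_le_neg_iff, le_div_iff₀ hq', mul_comm]
      exact h5
    · filter_upwards [ae_cos] with t ht _
      have h2 : 0 < |cos t| := abs_pos.2 ht
      have h3 := (Real.hasStrictDerivAt_const_rpow h2 0).hasDerivAt.tendsto_slope_zero_right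
      simp only [zero_add, rpow_zero, one_mul, smul_eq_mul, Real.log_abs] at h3
      refine h3.congr fun q => ?_
      rw [mul_comm, div_eq_mul_inv]
  have h2 := h1.div_const π
  rw [log_cos] at h2
  have e : -Real.log 2 * π / π = -Real.log 2 := by field_simp
  rw [e] at h2
  refine h2.congr' ?_
  filter_upwards [self_mem_nhdsWithin] with q hq
  exact (quot_eq hq).symm

theorem kap_lower {q : ℝ} (hq : 0 < q) : 1 ≤ 2 ^ q * kap q := by
  have c := cont_pow hq.le 1
  simp only [one_mul] at c
  have h1 : ∫ t in (0 : ℝ)..π, (1 + q * (Real.log 2 + Real.log (cos t))) ≤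
      ∫ t in (0 : ℝ)..π, 2 ^ q * |cos t| ^ q := by
    refine intervalIntegral.integral_mono_ae pi_pos.le ?_
      ((c.intervalIntegrable _ _).const_mul _) ?_
    · exact intervalIntegrable_const.add
        ((intervalIntegrable_const.add ilc).const_mul q)
    · filter_upwards [ae_cos] with t ht
      have h2 : 0 < |cos t| := abs_pos.2 ht
      rw [← Real.mul_rpow two_pos.le h2.le, Real.rpow_def_of_pos (by positivity),
        Real.log_mul two_ne_zero h2.ne', Real.log_abs, mul_comm q, add_comm (1 : ℝ)]
      exact Real.add_one_le_exp _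
  rw [intervalIntegral.integral_add intervalIntegrable_const
    ((intervalIntegrable_const.add ilc).const_mul q),
    intervalIntegral.integral_const_mul, intervalIntegral.integral_add intervalIntegrable_const
    ilc, log_cos, intervalIntegral.integral_const,
    intervalIntegral.integral_const, intervalIntegral.integral_const_mul] at h1
  rw [kap_eq, ← mul_div_assoc, le_div_iff₀ pi_pos]
  refine le_trans (le_of_eq ?_) h1
  simp only [smul_eq_mul]
  ring

end A1f

open A1f

theorem a1 : A1 := by
  refine ⟨fun q r _ hr => mn_pow hr, fun q hq => kap_pos hq,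
    fun q δ r hq hq2 hδ hr => mn_del hq hq2 hδ hr, kap_one, kap_two, fun r hr => mn_log hr, ?_⟩
  have h1 : Tendsto (fun q => Real.exp ((kap q - 1) / q)) (𝓝[>] 0) (𝓝 (1 / 2)) := by
    have := (Real.continuous_exp.tendsto (-Real.log 2)).comp quot_tendsto
    rw [Real.exp_neg, Real.exp_log two_pos] at this
    rw [one_div]
    exact this
  refine tendsto_of_tendsto_of_tendsto_of_le_of_le' tendsto_const_nhds h1 ?_ ?_
  · filter_upwards [self_mem_nhdsWithin] with q hq
    have hq' : (0 : ℝ) < q := hq
    have h2 := kap_lower hq'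
    have h3 := kap_pos hq'
    have h4 : (1 / 2 : ℝ) ^ q ≤ kap q := by
      rw [Real.div_rpow zero_le_one two_pos.le, Real.one_rpow, div_le_iff₀ (by positivity)]
      linarith [mul_comm (kap q) ((2 : ℝ) ^ q)]
    have h5 := Real.rpow_le_rpow (by positivity) h4 (by positivity : 0 ≤ 1 / q)
    rwa [← Real.rpow_mul (by norm_num), mul_one_div_cancel hq'.ne', Real.rpow_one] at h5
  · filter_upwards [self_mem_nhdsWithin] with q hq
    have hq' : (0 : ℝ) < q := hq
    have h3 := kap_pos hq'
    rw [Real.rpow_def_of_pos h3]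
    refine Real.exp_le_exp.2 ?_
    rw [mul_one_div]
    exact div_le_div_of_nonneg_right (Real.log_le_sub_one_of_pos h3) hq'.le

end

end Pool.Agent.Q73.PW
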