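import Pool.Agent.Q73.PW.Stm2

/-!
# Project PW, job A2: convexity and the Lipschitz bound of the mean
-/

set_option autoImplicit false
open MeasureTheory Filter Topology Real
open scoped ContDiff

namespace Pool.Agent.Q73.PW

noncomputable section

namespace A2

theorem deriv_smooth {Φ : ℝ → ℝ} (hΦ : ContDiff ℝ ∞ Φ) : ContDiff ℝ ∞ (deriv Φ) := by
  have h2 : ContDiff ℝ (∞ + 1) Φ := by simpa using hΦ
  exact ((contDiff_succ_iff_deriv).1 h2).2.2

theorem deriv_odd {Φ : ℝ → ℝ} (hev : ∀ x, Φ (-x) = Φ x) (x : ℝ) : deriv Φ (-x) = -deriv Φ x := by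
  have h1 : (fun y => Φ (-y)) = Φ := funext hev
  have h2 := deriv_comp_neg Φ x
  rw [h1] at h2
  rw [h2, neg_neg]

theorem d1_bd {Φ : ℝ → ℝ} {L : ℝ} (h : Cls Φ L) (x : ℝ) : |deriv Φ x| ≤ L * |x| := by
  have s1 := deriv_smooth h.sm
  have z1 : deriv Φ 0 = 0 := by
    have := deriv_odd h.ev 0
    rw [neg_zero] at this
    linarith
  have b1 := Convex.norm_image_sub_le_of_norm_deriv_le (f := deriv Φ) (C := L)
    (s := Set.univ) (fun z _ => (s1.differentiable (by simp)) z) (fun z _ => h.bd z) convex_univ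
    (x := 0) (y := x) (Set.mem_univ _) (Set.mem_univ _)
  rwa [z1, sub_zero, sub_zero, Real.norm_eq_abs, Real.norm_eq_abs] at b1

/-- the function of `x²` -/
def hh (Φ : ℝ → ℝ) (p : ℝ) : ℝ := Φ √p

theorem hh_cos {Φ : ℝ → ℝ} (hev : ∀ x, Φ (-x) = Φ x) (p : ℝ) (hp : 0 ≤ p) (t : ℝ) :
    Φ (√p * cos t) = hh Φ (p * cos t ^ 2) := by
  unfold hh
  rw [Real.sqrt_mul hp, Real.sqrt_sq_eq_abs]
  rcases le_total 0 (cos t) with h | h
  · rw [abs_of_nonneg h]
  · rw [abs_of_nonpos h, mul_neg, hev]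

theorem hh_cont {Φ : ℝ → ℝ} (hΦ : ContDiff ℝ ∞ Φ) : Continuous (hh Φ) :=
  hΦ.continuous.comp Real.continuous_sqrt

theorem hh_der {Φ : ℝ → ℝ} (hΦ : ContDiff ℝ ∞ Φ) (p : ℝ) (hp : 0 < p) :
    HasDerivAt (hh Φ) (deriv Φ √p / √p / 2) p := by
  have h1 := ((hΦ.differentiable (by simp)) √p).hasDerivAt.comp p (Real.hasDerivAt_sqrt hp.ne')
  have h2 : deriv Φ √p * (1 / (2 * √p)) = deriv Φ √p / √p / 2 := by
    have : √p ≠ 0 := (Real.sqrt_pos.2 hp).ne'
    field_simp
  rw [h2] at h1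
  exact h1

theorem hh_lip {Φ : ℝ → ℝ} {L : ℝ} (h : Cls Φ L) (p p' : ℝ) (hp : 0 ≤ p) (hpp : p ≤ p') :
    |hh Φ p' - hh Φ p| ≤ L / 2 * (p' - p) := by
  have hb : ∀ t, 0 < t → |deriv Φ √t / √t / 2| ≤ L / 2 := by
    intro t ht
    have hq : 0 < √t := Real.sqrt_pos.2 ht
    have h1 := d1_bd h √t
    rw [abs_of_pos hq] at h1
    rw [abs_div, abs_div, abs_of_pos hq, abs_two]
    have h2 : |deriv Φ √t| / √t ≤ L := by
      rw [div_le_iff₀ hq]
      exact h1
    linarith
  have mono : ∀ e : ℝ, (e = 1 ∨ e = -1) → MonotoneOn (fun t : ℝ => L / 2 * t - e * hh Φ t) (Set.Ici 0) := by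
    intro e he
    have hd : ∀ t, 0 < t → HasDerivAt (fun t : ℝ => L / 2 * t - e * hh Φ t)
        (L / 2 * 1 - e * (deriv Φ √t / √t / 2)) t :=
      fun t ht => ((hasDerivAt_id t).const_mul (L / 2)).sub ((hh_der h.sm t ht).const_mul e)
    apply monotoneOn_of_deriv_nonneg (convex_Ici 0)
    · exact ((continuous_const.mul continuous_id).sub (continuous_const.mul (hh_cont h.sm))).continuousOn
    · intro t ht
      rw [interior_Ici] at ht
      exact (hd t ht).differentiableAt.differentiableWithinAt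
    · intro t ht
      rw [interior_Ici] at ht
      rw [(hd t ht).deriv]
      have h1 := abs_le.1 (hb t ht)
      rcases he with rfl | rfl
      · linarith [h1.2]
      · linarith [h1.1]
  have h1 := mono 1 (Or.inl rfl) (Set.mem_Ici.2 hp) (Set.mem_Ici.2 (hp.trans hpp)) hpp
  have h2 := mono (-1) (Or.inr rfl) (Set.mem_Ici.2 hp) (Set.mem_Ici.2 (hp.trans hpp)) hpp
  simp only at h1 h2
  rw [abs_le]
  constructor
  · linarith
  · linarith

theorem mn_hh {Φ : ℝ → ℝ} (hev : ∀ x, Φ (-x) = Φ x) (p : ℝ) (hp : 0 ≤ p) :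
    mn Φ √p = (∫ t in (0 : ℝ)..π, hh Φ (p * cos t ^ 2)) / π := by
  unfold mn
  congr 1
  refine intervalIntegral.integral_congr fun t _ => ?_
  exact hh_cos hev p hp t

theorem int_hh {Φ : ℝ → ℝ} (hΦ : ContDiff ℝ ∞ Φ) (p : ℝ) :
    IntervalIntegrable (fun t => hh Φ (p * cos t ^ 2)) volume 0 π :=
  ((hh_cont hΦ).comp (continuous_const.mul (continuous_cos.pow 2))).intervalIntegrable _ _

theorem hh_conv {Φ : ℝ → ℝ} (hΦ : ContDiff ℝ ∞ Φ) (hM : M0 Φ) : ConvexOn ℝ (Set.Ici 0) (hh Φ) := by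
  apply MonotoneOn.convexOn_of_deriv (convex_Ici 0) (hh_cont hΦ).continuousOn
  · intro t ht
    rw [interior_Ici] at ht
    exact (hh_der hΦ t ht).differentiableAt.differentiableWithinAt
  · intro s hs t ht hst
    rw [interior_Ici] at hs ht
    rw [(hh_der hΦ s hs).deriv, (hh_der hΦ t ht).deriv]
    have := hM √s √t (Real.sqrt_pos.2 hs) (Real.sqrt_le_sqrt hst)
    linarith

end A2

open A2 in
/-- A2 -/
theorem a2 : Pool.Agent.Q73.PW.A2 := by
  intro Φ L h
  have hL : 0 ≤ L := (abs_nonneg _).trans (h.bd 0)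
  have ha : ∀ p p', 0 ≤ p → p ≤ p' → |mn Φ √p' - mn Φ √p| ≤ L / 2 * (p' - p) := by
    intro p p' hp hpp
    rw [mn_hh h.ev p hp, mn_hh h.ev p' (hp.trans hpp), ← sub_div,
      ← intervalIntegral.integral_sub (int_hh h.sm p') (int_hh h.sm p), abs_div, abs_of_pos pi_pos,
      div_le_iff₀ pi_pos]
    have h2 := intervalIntegral.norm_integral_le_of_norm_le_const (a := (0 : ℝ)) (b := π) (C := L / 2 * (p' - p))
      (f := fun t => hh Φ (p' * cos t ^ 2) - hh Φ (p * cos t ^ 2)) (fun t _ => by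
        rw [Real.norm_eq_abs]
        have hc : cos t ^ 2 ≤ 1 := by
          have := abs_cos_le_one t
          rw [← sq_abs]
          exact pow_le_one₀ (abs_nonneg _) this
        have hc0 : 0 ≤ cos t ^ 2 := sq_nonneg _
        refine (hh_lip h (p * cos t ^ 2) (p' * cos t ^ 2) (mul_nonneg hp hc0)
          (mul_le_mul_of_nonneg_right hpp hc0)).trans ?_
        have h3 : 0 ≤ L / 2 * (p' - p) := mul_nonneg (by linarith) (by linarith)
        nlinarith)
    rw [sub_zero, abs_of_pos pi_pos] at h2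
    exact h2
  refine ⟨ha, ?_, ?_, ?_⟩
  · intro p hp
    have h1 := ha 0 p (le_refl _) hp
    have h2 : mn Φ √(0 : ℝ) = Φ 0 := by
      unfold mn
      rw [Real.sqrt_zero]
      simp only [zero_mul]
      rw [intervalIntegral.integral_const, sub_zero, smul_eq_mul]
      field_simp
    rw [h2, sub_zero] at h1
    exact h1
  · intro hM
    have hc := hh_conv h.sm hM
    refine ⟨convex_Ici 0, ?_⟩
    intro p hp p' hp' a b ha hb hab
    have hp0 : 0 ≤ p := hp
    have hp0' : 0 ≤ p' := hp'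
    have h1 : 0 ≤ a • p + b • p' := by
      rw [smul_eq_mul, smul_eq_mul]
      positivity
    show mn Φ √(a • p + b • p') ≤ a • mn Φ √p + b • mn Φ √p'
    rw [mn_hh h.ev _ h1, mn_hh h.ev p hp0, mn_hh h.ev p' hp0']
    simp only [smul_eq_mul]
    rw [← mul_div_assoc, ← mul_div_assoc, ← add_div, ← intervalIntegral.integral_const_mul, ← intervalIntegral.integral_const_mul,
      ← intervalIntegral.integral_add ((int_hh h.sm p).const_mul a) ((int_hh h.sm p').const_mul b)]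
    refine div_le_div_of_nonneg_right ?_ pi_pos.le
    refine intervalIntegral.integral_mono_on pi_pos.le (int_hh h.sm _)
      (((int_hh h.sm p).const_mul a).add ((int_hh h.sm p').const_mul b)) fun t _ => ?_
    have hc0 : 0 ≤ cos t ^ 2 := sq_nonneg _
    have h2 := hc.2 (Set.mem_Ici.2 (mul_nonneg hp0 hc0)) (Set.mem_Ici.2 (mul_nonneg hp0' hc0)) ha hb hab
    have h3 : (a * p + b * p') * cos t ^ 2 = a * (p * cos t ^ 2) + b * (p' * cos t ^ 2) := by
      ring
    rw [h3]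
    simpa only [smul_eq_mul] using h2
  · intro hM
    exact hh_conv h.sm hM

end

end Pool.Agent.Q73.PW
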