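import Pool.Agent.Q73.PW.J2

/-!
# Project PW, job J1: the sign of `be` and the monotonicity of `fB / sin θ`
-/

set_option autoImplicit false
open MeasureTheory Filter Topology Real
open scoped ContDiff

namespace Pool.Agent.Q73.PW

namespace J1

/-- the mean of an even function -/
theorem mn_even {F : ℝ → ℝ} (hF : Continuous F) (hev : ∀ x, F (-x) = F x) (r : ℝ) :
    mn F r * π = 2 * ∫ t in (0 : ℝ)..(π / 2), F (r * cos t) := by
  have hc : Continuous (fun t => F (r * cos t)) := hF.comp (continuous_const.mul continuous_cos)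
  have h1 : (∫ t in (0 : ℝ)..π, F (r * cos t)) =
      (∫ t in (0 : ℝ)..(π / 2), F (r * cos t)) + ∫ t in (π / 2)..π, F (r * cos t) :=
    (intervalIntegral.integral_add_adjacent_intervals (hc.intervalIntegrable _ _)
      (hc.intervalIntegrable _ _)).symm
  have h2 : (∫ t in (π / 2)..π, F (r * cos t)) = ∫ t in (0 : ℝ)..(π / 2), F (r * cos t) := by
    have h3 := intervalIntegral.integral_comp_sub_left (a := 0) (b := π / 2)
      (fun t => F (r * cos t)) π
    have e1 : π - π / 2 = π / 2 := by ring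
    have e2 : π - 0 = π := by ring
    rw [e1, e2] at h3
    rw [← h3]
    congr 1
    funext t
    have e3 : r * cos (π - t) = -(r * cos t) := by
      rw [cos_pi_sub]
      ring
    show F (r * cos (π - t)) = F (r * cos t)
    rw [e3, hev]
  unfold mn
  rw [h1, h2]
  field_simp
  ring

theorem fA_half {F : ℝ → ℝ} (hF : Continuous F) (hev : ∀ x, F (-x) = F x) (r : ℝ) :
    fA F r (π / 2) = 0 := by
  have hc : Continuous (fun t => F (r * cos t)) := hF.comp (continuous_const.mul continuous_cos)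
  unfold fA
  rw [intervalIntegral.integral_sub (hc.intervalIntegrable _ _)
    (continuous_const.intervalIntegrable _ _), intervalIntegral.integral_const]
  have := mn_even hF hev r
  simp only [smul_eq_mul]
  linarith

theorem deriv_odd {Φ : ℝ → ℝ} (hev : ∀ x, Φ (-x) = Φ x) (x : ℝ) : deriv Φ (-x) = -deriv Φ x := by
  have h1 : deriv (fun y => Φ (-y)) x = -deriv Φ (-x) := deriv_comp_neg Φ x
  have h2 : (fun y => Φ (-y)) = Φ := by
    funext y
    exact hev y
  rw [h2] at h1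
  linarith

theorem scd_even {Φ : ℝ → ℝ} (hev : ∀ x, Φ (-x) = Φ x) (x : ℝ) : scd Φ (-x) = scd Φ x := by
  unfold scd
  rw [deriv_odd hev]
  ring

theorem d_comp {Φ : ℝ → ℝ} (h : ContDiff ℝ ∞ Φ) (r θ : ℝ) :
    HasDerivAt (fun t => Φ (r * cos t)) (-(r * sin θ * deriv Φ (r * cos θ))) θ := by
  have h1 : HasDerivAt Φ (deriv Φ (r * cos θ)) (r * cos θ) :=
    (h.differentiable (by simp) _).hasDerivAt
  have h2 : HasDerivAt (fun t : ℝ => r * cos t) (r * (-sin θ)) θ := (hasDerivAt_cos θ).const_mul r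
  have h3 := h1.comp θ h2
  have e : -(r * sin θ * deriv Φ (r * cos θ)) = deriv Φ (r * cos θ) * (r * (-sin θ)) := by ring
  rw [e]
  exact h3

theorem d_be {Φ : ℝ → ℝ} (h : ContDiff ℝ ∞ Φ) (r θ : ℝ) :
    HasDerivAt (fun t => be Φ r t) (2 * sin θ * cos θ * fA (scd Φ) r θ -
      sin θ ^ 2 * mn (scd Φ) r - 2 * sin θ ^ 2 * (Φ (r * cos θ) - mn Φ r)) θ := by
  have h1 := ((hasDerivAt_sin θ).pow 2).mul (J2.t_fA (J2.scd_smooth h) r θ)
  have h2 := ((hasDerivAt_sin θ).mul (hasDerivAt_cos θ)).mul ((d_comp h r θ).sub_const (mn Φ r))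
  have h3 := J2.t_fA h r θ
  have h4 := (h1.add h2).sub h3
  refine h4.congr_deriv ?_
  have hs : sin θ ^ 2 = 1 - cos θ ^ 2 := by
    have := sin_sq_add_cos_sq θ
    linarith
  have e : scd Φ (r * cos θ) = r * cos θ * deriv Φ (r * cos θ) := rfl
  simp only [Pi.pow_apply, Pi.mul_apply]
  rw [e]
  have e1 : cos θ * cos θ = 1 - sin θ ^ 2 := by
    have := sin_sq_add_cos_sq θ
    nlinarith
  push_cast
  linear_combination (Φ (r * cos θ) - mn Φ r) * e1

/-- the quotient of the derivative of `be` by `sin²` -/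
noncomputable def ga (Φ : ℝ → ℝ) (r θ : ℝ) : ℝ :=
  2 * (cos θ / sin θ) * fA (scd Φ) r θ - mn (scd Φ) r - 2 * (Φ (r * cos θ) - mn Φ r)

theorem d_be' {Φ : ℝ → ℝ} (h : ContDiff ℝ ∞ Φ) (r θ : ℝ) (hs : sin θ ≠ 0) :
    HasDerivAt (fun t => be Φ r t) (sin θ ^ 2 * ga Φ r θ) θ := by
  refine (d_be h r θ).congr_deriv ?_
  unfold ga
  field_simp

/-- twice this divided by `sin²` is the derivative of `ga` -/
noncomputable def de (Φ : ℝ → ℝ) (r θ : ℝ) : ℝ :=
  -fA (scd Φ) r θ - sin θ * cos θ * mn (scd Φ) r + r * sin θ * deriv Φ (r * cos θ)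

theorem d_ga {Φ : ℝ → ℝ} (h : ContDiff ℝ ∞ Φ) (r θ : ℝ) (hs : sin θ ≠ 0) :
    HasDerivAt (fun t => ga Φ r t) (2 / sin θ ^ 2 * de Φ r θ) θ := by
  have h1 := (((hasDerivAt_cos θ).div (hasDerivAt_sin θ) hs).const_mul 2).mul
    (J2.t_fA (J2.scd_smooth h) r θ)
  have h2 := ((d_comp h r θ).sub_const (mn Φ r)).const_mul 2
  have h3 := (h1.sub_const (mn (scd Φ) r)).sub h2
  refine h3.congr_deriv ?_
  have e : scd Φ (r * cos θ) = r * cos θ * deriv Φ (r * cos θ) := rfl
  have e1 : cos θ ^ 2 = 1 - sin θ ^ 2 := by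
    have := sin_sq_add_cos_sq θ
    linarith
  simp only [Pi.div_apply]
  rw [e]
  unfold de
  generalize deriv Φ (r * cos θ) = D
  field_simp
  linear_combination (-fA (scd Φ) r θ + sin θ * r * D) * e1

theorem de_nonpos {Φ : ℝ → ℝ} (h : ContDiff ℝ ∞ Φ) (hev : ∀ x, Φ (-x) = Φ x) (hM : M0 Φ)
    {r θ : ℝ} (hr : 0 < r) (h0 : 0 < θ) (h1 : θ < π / 2) : de Φ r θ ≤ 0 := by
  have hcθ : 0 < cos θ := cos_pos_of_mem_Ioo ⟨by linarith, h1⟩
  have hsθ : 0 < sin θ := sin_pos_of_pos_of_lt_pi h0 (by linarith [pi_pos])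
  have hg : Continuous (fun t => scd Φ (r * cos t)) := J2.c_comp (J2.scd_smooth h) r
  set κ : ℝ := deriv Φ (r * cos θ) / (r * cos θ) with hκ
  have hκ2 : deriv Φ (r * cos θ) = κ * (r * cos θ) := by
    rw [hκ]
    field_simp
  have key : ∀ t, 0 < cos t → scd Φ (r * cos t) =
      (r * cos t) ^ 2 * (deriv Φ (r * cos t) / (r * cos t)) := by
    intro t ht
    unfold scd
    field_simp
  have hc2 : Continuous (fun t => κ * r ^ 2 * cos t ^ 2) := by fun_prop
  -- first part
  have hX : κ * r ^ 2 * ((cos θ * sin θ + θ) / 2) ≤ ∫ t in (0 : ℝ)..θ, scd Φ (r * cos t) := by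
    have e : (∫ t in (0 : ℝ)..θ, κ * r ^ 2 * cos t ^ 2) =
        κ * r ^ 2 * ((cos θ * sin θ + θ) / 2) := by
      rw [intervalIntegral.integral_const_mul, integral_cos_sq]
      simp
    rw [← e]
    apply intervalIntegral.integral_mono_on h0.le (hc2.intervalIntegrable _ _)
      (hg.intervalIntegrable _ _)
    intro t ht
    have hct : cos θ ≤ cos t := cos_le_cos_of_nonneg_of_le_pi ht.1 (by linarith [pi_pos]) ht.2
    have h2 : κ ≤ deriv Φ (r * cos t) / (r * cos t) :=
      hM _ _ (by positivity) (mul_le_mul_of_nonneg_left hct hr.le)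
    rw [key t (by linarith)]
    have h3 := mul_le_mul_of_nonneg_left h2 (sq_nonneg (r * cos t))
    nlinarith
  have hY : (∫ t in θ..(π / 2), scd Φ (r * cos t)) ≤
      κ * r ^ 2 * ((-(cos θ * sin θ) + π / 2 - θ) / 2) := by
    have e : (∫ t in θ..(π / 2), κ * r ^ 2 * cos t ^ 2) =
        κ * r ^ 2 * ((-(cos θ * sin θ) + π / 2 - θ) / 2) := by
      rw [intervalIntegral.integral_const_mul, integral_cos_sq]
      simp
    rw [← e]
    apply intervalIntegral.integral_mono_on h1.le (hg.intervalIntegrable _ _)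
      (hc2.intervalIntegrable _ _)
    intro t ht
    rcases lt_or_eq_of_le ht.2 with h2 | h2
    · have hct : cos t ≤ cos θ := cos_le_cos_of_nonneg_of_le_pi h0.le (by linarith [pi_pos]) ht.1
      have hct0 : 0 < cos t := cos_pos_of_mem_Ioo ⟨by linarith [ht.1], h2⟩
      have h3 : deriv Φ (r * cos t) / (r * cos t) ≤ κ :=
        hM _ _ (by positivity) (mul_le_mul_of_nonneg_left hct hr.le)
      rw [key t hct0]
      have h4 := mul_le_mul_of_nonneg_left h3 (sq_nonneg (r * cos t))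
      nlinarith
    · rw [h2]
      simp [scd]
  have hsum : (∫ t in (0 : ℝ)..θ, scd Φ (r * cos t)) + (∫ t in θ..(π / 2), scd Φ (r * cos t)) =
      mn (scd Φ) r * π / 2 := by
    rw [intervalIntegral.integral_add_adjacent_intervals (hg.intervalIntegrable _ _)
      (hg.intervalIntegrable _ _)]
    have := mn_even (J2.scd_smooth h).continuous (scd_even hev) r
    linarith
  have hfA : fA (scd Φ) r θ = (∫ t in (0 : ℝ)..θ, scd Φ (r * cos t)) - θ * mn (scd Φ) r := by
    unfold fA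
    rw [intervalIntegral.integral_sub (hg.intervalIntegrable _ _)
      (continuous_const.intervalIntegrable _ _), intervalIntegral.integral_const]
    simp
  unfold de
  rw [hfA, hκ2]
  set X := ∫ t in (0 : ℝ)..θ, scd Φ (r * cos t)
  set Y := ∫ t in θ..(π / 2), scd Φ (r * cos t)
  set m := mn (scd Φ) r
  have hsc : 0 ≤ sin θ * cos θ := by positivity
  have hsθ2 : sin θ ≤ θ := sin_le h0.le
  have hsc2 : sin θ * cos θ ≤ θ := by nlinarith [cos_le_one θ]
  have hm : m = 2 / π * (X + Y) := by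
    rw [hsum]
    field_simp
  set X' := X - κ * r ^ 2 * ((cos θ * sin θ + θ) / 2) with hX'
  set Y' := Y - κ * r ^ 2 * ((-(cos θ * sin θ) + π / 2 - θ) / 2) with hY'
  have hX'0 : 0 ≤ X' := by linarith
  have hY'0 : Y' ≤ 0 := by linarith
  have eX : X = X' + κ * r ^ 2 * ((cos θ * sin θ + θ) / 2) := by
    rw [hX']
    ring
  have eY : Y = Y' + κ * r ^ 2 * ((-(cos θ * sin θ) + π / 2 - θ) / 2) := by
    rw [hY']
    ring
  have hpi : π ≠ 0 := pi_ne_zero
  have e1 : -(X - θ * m) - sin θ * cos θ * m + r * sin θ * (κ * (r * cos θ)) =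
      -X' + 2 / π * (θ - sin θ * cos θ) * (X' + Y') := by
    rw [hm, eX, eY]
    field_simp
    ring
  rw [e1]
  have h5 : 0 ≤ 2 / π * (θ - sin θ * cos θ) := by
    have : 0 ≤ 2 / π := by positivity
    exact mul_nonneg this (by linarith)
  have h6 : 2 / π * (θ - sin θ * cos θ) ≤ 1 := by
    rw [div_mul_eq_mul_div, div_le_one pi_pos]
    linarith
  nlinarith [mul_nonneg h5 (neg_nonneg.mpr hY'0), mul_nonneg (sub_nonneg.mpr h6) hX'0]

theorem ga_anti {Φ : ℝ → ℝ} (h : ContDiff ℝ ∞ Φ) (hev : ∀ x, Φ (-x) = Φ x) (hM : M0 Φ)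
    {r : ℝ} (hr : 0 < r) : AntitoneOn (fun t => ga Φ r t) (Set.Ioo 0 (π / 2)) := by
  have hs : ∀ t ∈ Set.Ioo (0 : ℝ) (π / 2), sin t ≠ 0 := fun t ht =>
    (sin_pos_of_pos_of_lt_pi ht.1 (by linarith [pi_pos, ht.2])).ne'
  apply antitoneOn_of_deriv_nonpos (convex_Ioo _ _)
  · intro t ht
    exact (d_ga h r t (hs t ht)).continuousAt.continuousWithinAt
  · rw [interior_Ioo]
    intro t ht
    exact (d_ga h r t (hs t ht)).differentiableAt.differentiableWithinAt
  · rw [interior_Ioo]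
    intro t ht
    rw [(d_ga h r t (hs t ht)).deriv]
    exact mul_nonpos_of_nonneg_of_nonpos (by positivity) (de_nonpos h hev hM hr ht.1 ht.2)

/-- the function with derivative `sin²` -/
noncomputable def Sf (θ : ℝ) : ℝ := (θ - sin θ * cos θ) / 2

theorem d_Sf (θ : ℝ) : HasDerivAt Sf (sin θ ^ 2) θ := by
  have h1 := ((hasDerivAt_id θ).sub ((hasDerivAt_sin θ).mul (hasDerivAt_cos θ))).div_const 2
  refine h1.congr_deriv ?_
  have := sin_sq_add_cos_sq θ
  linear_combination (-1 / 2) * this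

theorem be_zero {Φ : ℝ → ℝ} (r : ℝ) : be Φ r 0 = 0 := by
  simp [be, fA]

theorem be_half {Φ : ℝ → ℝ} (h : ContDiff ℝ ∞ Φ) (hev : ∀ x, Φ (-x) = Φ x) (r : ℝ) :
    be Φ r (π / 2) = 0 := by
  unfold be
  rw [fA_half (J2.scd_smooth h).continuous (scd_even hev), fA_half h.continuous hev]
  simp

/-- `be` is concave as a function of `Sf` -/
theorem conc_left {Φ : ℝ → ℝ} (h : ContDiff ℝ ∞ Φ) (hev : ∀ x, Φ (-x) = Φ x) (hM : M0 Φ)
    {r t θ : ℝ} (hr : 0 < r) (ht : 0 ≤ t) (h0 : t ≤ θ) (h1 : 0 < θ) (h2 : θ < π / 2) :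
    ga Φ r θ * (Sf θ - Sf t) ≤ be Φ r θ - be Φ r t := by
  have hm : MonotoneOn (fun x => be Φ r x - ga Φ r θ * Sf x) (Set.Icc 0 θ) := by
    have hd : ∀ x, HasDerivAt (fun x => be Φ r x - ga Φ r θ * Sf x)
        ((2 * sin x * cos x * fA (scd Φ) r x -
      sin x ^ 2 * mn (scd Φ) r - 2 * sin x ^ 2 * (Φ (r * cos x) - mn Φ r)) -
        ga Φ r θ * sin x ^ 2) x := fun x => (d_be h r x).sub ((d_Sf x).const_mul _)
    apply monotoneOn_of_deriv_nonneg (convex_Icc _ _)
    · intro x _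
      exact (hd x).continuousAt.continuousWithinAt
    · intro x _
      exact (hd x).differentiableAt.differentiableWithinAt
    · rw [interior_Icc]
      intro x hx
      have hs : sin x ≠ 0 := (sin_pos_of_pos_of_lt_pi hx.1 (by linarith [pi_pos, hx.2])).ne'
      have h3 := ((d_be' h r x hs).sub ((d_Sf x).const_mul (ga Φ r θ))).deriv
      have h4 : deriv (fun x => be Φ r x - ga Φ r θ * Sf x) x =
        sin x ^ 2 * ga Φ r x - ga Φ r θ * sin x ^ 2 := h3
      rw [h4]
      have h5 : ga Φ r θ ≤ ga Φ r x := ga_anti h hev hM hr ⟨hx.1, by linarith [hx.2]⟩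
        ⟨h1, h2⟩ hx.2.le
      nlinarith [sq_nonneg (sin x)]
  have := hm ⟨ht, h0⟩ ⟨h1.le, le_refl _⟩ h0
  simp only at this
  linarith

theorem conc_right {Φ : ℝ → ℝ} (h : ContDiff ℝ ∞ Φ) (hev : ∀ x, Φ (-x) = Φ x) (hM : M0 Φ)
    {r θ : ℝ} (hr : 0 < r) (h1 : 0 < θ) (h2 : θ < π / 2) :
    be Φ r (π / 2) - be Φ r θ ≤ ga Φ r θ * (Sf (π / 2) - Sf θ) := by
  have hm : AntitoneOn (fun x => be Φ r x - ga Φ r θ * Sf x) (Set.Icc θ (π / 2)) := by
    have hd : ∀ x, HasDerivAt (fun x => be Φ r x - ga Φ r θ * Sf x)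
        ((2 * sin x * cos x * fA (scd Φ) r x -
      sin x ^ 2 * mn (scd Φ) r - 2 * sin x ^ 2 * (Φ (r * cos x) - mn Φ r)) -
        ga Φ r θ * sin x ^ 2) x := fun x => (d_be h r x).sub ((d_Sf x).const_mul _)
    apply antitoneOn_of_deriv_nonpos (convex_Icc _ _)
    · intro x _
      exact (hd x).continuousAt.continuousWithinAt
    · intro x _
      exact (hd x).differentiableAt.differentiableWithinAt
    · rw [interior_Icc]
      intro x hx
      have hs : sin x ≠ 0 := (sin_pos_of_pos_of_lt_pi (h1.trans hx.1)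
        (by linarith [pi_pos, hx.2])).ne'
      have h3 := ((d_be' h r x hs).sub ((d_Sf x).const_mul (ga Φ r θ))).deriv
      have h4 : deriv (fun x => be Φ r x - ga Φ r θ * Sf x) x =
        sin x ^ 2 * ga Φ r x - ga Φ r θ * sin x ^ 2 := h3
      rw [h4]
      have h5 : ga Φ r x ≤ ga Φ r θ := ga_anti h hev hM hr ⟨h1, h2⟩
        ⟨h1.trans hx.1, hx.2⟩ hx.1.le
      nlinarith [sq_nonneg (sin x)]
  have := hm ⟨le_refl _, h2.le⟩ ⟨h2.le, le_refl _⟩ h2.le
  simp only at this
  linarith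

theorem Sf_half : Sf (π / 2) = π / 4 := by
  unfold Sf
  rw [cos_pi_div_two]
  ring

theorem Sf_nonneg {θ : ℝ} (h0 : 0 ≤ θ) (h1 : θ ≤ π / 2) : 0 ≤ Sf θ := by
  unfold Sf
  have h2 := sin_le h0
  have h3 : 0 ≤ sin θ := sin_nonneg_of_nonneg_of_le_pi h0 (by linarith [pi_pos])
  nlinarith [cos_le_one θ]

theorem Sf_mono {t θ : ℝ} (h : t ≤ θ) : Sf t ≤ Sf θ := by
  have hm : Monotone Sf := by
    apply monotone_of_deriv_nonneg
    · intro x
      exact (d_Sf x).differentiableAt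
    · intro x
      rw [(d_Sf x).deriv]
      positivity
  exact hm h

theorem be_nonneg {Φ : ℝ → ℝ} (h : ContDiff ℝ ∞ Φ) (hev : ∀ x, Φ (-x) = Φ x) (hM : M0 Φ)
    {r θ : ℝ} (hr : 0 < r) (h1 : 0 ≤ θ) (h2 : θ ≤ π / 2) : 0 ≤ be Φ r θ := by
  rcases h1.eq_or_lt with h1 | h1
  · rw [← h1, be_zero]
  rcases h2.eq_or_lt with h2 | h2
  · rw [h2, be_half h hev]
  have h3 := conc_left h hev hM hr (le_refl 0) h1.le h1 h2
  have h4 := conc_right h hev hM hr h1 h2
  rw [be_zero] at h3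
  rw [be_half h hev] at h4
  have h5 := Sf_mono h1.le
  have h6 := Sf_mono h2.le
  rcases le_total 0 (ga Φ r θ) with h7 | h7
  · have := mul_nonneg h7 (sub_nonneg.mpr h5)
    linarith
  · have := mul_nonneg (neg_nonneg.mpr h7) (sub_nonneg.mpr h6)
    linarith

theorem W_nonneg {θ : ℝ} (h1 : 0 ≤ θ) (h2 : θ ≤ π / 2) :
    cos θ * (π * θ - θ ^ 2 + sin θ ^ 2) ≤ sin θ * (π - 2 * θ + 2 * (sin θ * cos θ)) := by
  rcases h2.eq_or_lt with h2 | h2
  · rw [h2]
    simp
    ring_nf
    exact le_refl _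
  have hcon : ∀ x ∈ Set.Icc 0 θ, 0 < cos x := fun x hx =>
    cos_pos_of_mem_Ioo ⟨by linarith [hx.1, pi_pos], by linarith [hx.2]⟩
  set W : ℝ → ℝ := fun x => (sin x * (π - 2 * x + 2 * (sin x * cos x)) -
    cos x * (π * x - x ^ 2 + sin x ^ 2)) / cos x with hW
  have hd : ∀ x ∈ Set.Icc 0 θ, HasDerivAt W
      (sin x ^ 2 * (π - 2 * x - 2 * (sin x * cos x)) / cos x ^ 2) x := by
    intro x hx
    have hs := hasDerivAt_sin x
    have hc := hasDerivAt_cos x
    have hi := hasDerivAt_id x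
    have h3 := ((hs.mul (((hi.const_mul 2).const_sub π).add ((hs.mul hc).const_mul 2))).sub
      (hc.mul (((hi.const_mul π).sub (hi.pow 2)).add (hs.pow 2)))).div hc (hcon x hx).ne'
    refine h3.congr_deriv ?_
    simp only [Pi.mul_apply, Pi.add_apply, Pi.sub_apply, Pi.pow_apply, id]
    have e1 : sin x ^ 2 = 1 - cos x ^ 2 := by
      have := sin_sq_add_cos_sq x
      linarith
    have hc0 := (hcon x hx).ne'
    field_simp
    push_cast
    ring_nf
    have e3 : sin x ^ 3 = sin x * (1 - cos x ^ 2) := by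
      rw [← e1]
      ring
    rw [e3, e1]
    ring
  have hm : MonotoneOn W (Set.Icc 0 θ) := by
    apply monotoneOn_of_deriv_nonneg (convex_Icc _ _)
    · intro x hx
      exact (hd x hx).continuousAt.continuousWithinAt
    · intro x hx
      exact (hd x (interior_subset hx)).differentiableAt.differentiableWithinAt
    · intro x hx
      have hx' := interior_subset hx
      rw [(hd x hx').deriv]
      have h5 : 0 ≤ π - 2 * x - 2 * (sin x * cos x) := by
        have hmm : Monotone (fun y : ℝ => y + sin y * cos y) := by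
          have hdd : ∀ y : ℝ, HasDerivAt (fun y : ℝ => y + sin y * cos y) (2 * cos y ^ 2) y := by
            intro y
            have := (hasDerivAt_id y).add ((hasDerivAt_sin y).mul (hasDerivAt_cos y))
            refine this.congr_deriv ?_
            have := sin_sq_add_cos_sq y
            linear_combination -this
          apply monotone_of_deriv_nonneg
          · intro y
            exact (hdd y).differentiableAt
          · intro y
            rw [(hdd y).deriv]
            positivity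
        have := hmm (show x ≤ π / 2 by linarith [hx'.2])
        simp only [cos_pi_div_two, mul_zero, add_zero] at this
        linarith
      positivity
  have h6 := hm ⟨le_refl _, h1⟩ ⟨h1, le_refl _⟩ h1
  have h7 : W 0 = 0 := by simp [hW]
  rw [h7] at h6
  have h8 : 0 ≤ (sin θ * (π - 2 * θ + 2 * (sin θ * cos θ)) -
    cos θ * (π * θ - θ ^ 2 + sin θ ^ 2)) / cos θ := h6
  have h9 := (le_div_iff₀ (hcon θ ⟨h1, le_refl _⟩)).mp h8
  linarith

theorem int_Sf (θ : ℝ) : ∫ t in (0 : ℝ)..θ, Sf t = (θ ^ 2 - sin θ ^ 2) / 4 := by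
  have hd : ∀ t ∈ Set.uIcc 0 θ, HasDerivAt (fun t : ℝ => (t ^ 2 - sin t ^ 2) / 4) (Sf t) t := by
    intro t _
    have := (((hasDerivAt_id t).pow 2).sub ((hasDerivAt_sin t).pow 2)).div_const 4
    refine this.congr_deriv ?_
    unfold Sf
    simp
    ring
  have hc : Continuous Sf := by
    unfold Sf
    fun_prop
  rw [intervalIntegral.integral_eq_sub_of_hasDerivAt hd (hc.intervalIntegrable _ _)]
  simp

end J1

theorem j1 : J1 := by
  intro Φ h hev hM r θ hr h0 h1
  refine ⟨J1.be_nonneg h hev hM hr h0 h1, ?_⟩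
  have hbe := J1.be_nonneg h hev hM hr h0 h1
  rcases h1.eq_or_lt with h2 | h2
  · rw [h2, cos_pi_div_two, sin_pi_div_two, zero_mul, one_mul]
    rw [h2] at hbe
    exact hbe
  rcases h0.eq_or_lt with h3 | h3
  · rw [← h3]
    simp
  have hcb := J2.c_be h r
  have hcS : Continuous J1.Sf := by
    unfold J1.Sf
    fun_prop
  have hint : (π / 4 - J1.Sf θ) * (∫ t in (0 : ℝ)..θ, be Φ r t) ≤
      be Φ r θ * (π * θ / 4 - (θ ^ 2 - sin θ ^ 2) / 4) := by
    have e1 : (∫ t in (0 : ℝ)..θ, (π / 4 - J1.Sf θ) * be Φ r t) =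
        (π / 4 - J1.Sf θ) * ∫ t in (0 : ℝ)..θ, be Φ r t :=
      intervalIntegral.integral_const_mul _ _
    have e2 : (∫ t in (0 : ℝ)..θ, be Φ r θ * (π / 4 - J1.Sf t)) =
        be Φ r θ * (π * θ / 4 - (θ ^ 2 - sin θ ^ 2) / 4) := by
      rw [intervalIntegral.integral_const_mul, intervalIntegral.integral_sub
        (continuous_const.intervalIntegrable _ _) (hcS.intervalIntegrable _ _),
        intervalIntegral.integral_const, J1.int_Sf]
      simp only [smul_eq_mul, sub_zero]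
      ring
    rw [← e1, ← e2]
    apply intervalIntegral.integral_mono_on h3.le
      ((hcb.const_mul _).intervalIntegrable _ _)
      (((continuous_const.sub hcS).const_mul _).intervalIntegrable _ _)
    intro t ht
    have h4 := J1.conc_left h hev hM hr ht.1 ht.2 h3 h2
    have h5 := J1.conc_right h hev hM hr h3 h2
    rw [J1.be_half h hev, J1.Sf_half] at h5
    have h6 := J1.Sf_mono ht.2
    have h7 : J1.Sf θ ≤ π / 4 := by
      rw [← J1.Sf_half]
      exact J1.Sf_mono h2.le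
    set a := J1.Sf θ - J1.Sf t with ha
    set b := π / 4 - J1.Sf θ with hb
    have ha0 : 0 ≤ a := by linarith
    have hb0 : 0 ≤ b := by linarith
    have e3 : π / 4 - J1.Sf t = a + b := by
      rw [ha, hb]
      ring
    show b * be Φ r t ≤ be Φ r θ * (π / 4 - J1.Sf t)
    rw [e3]
    nlinarith [mul_nonneg hb0 (sub_nonneg.mpr h4), mul_nonneg ha0 (sub_nonneg.mpr h5)]
  have hW := J1.W_nonneg h0 h1
  have hc0 : 0 < cos θ := cos_pos_of_mem_Ioo ⟨by linarith, h2⟩
  have hs0 : 0 < sin θ := sin_pos_of_pos_of_lt_pi h3 (by linarith [pi_pos])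
  have e4 : π / 4 - J1.Sf θ = (π - 2 * θ + 2 * (sin θ * cos θ)) / 4 := by
    unfold J1.Sf
    ring
  rw [e4] at hint
  have hD : 0 < π - 2 * θ + 2 * (sin θ * cos θ) := by
    have : 0 < sin θ * cos θ := by positivity
    linarith
  set D := π - 2 * θ + 2 * (sin θ * cos θ) with hDdef
  set Ib := ∫ t in (0 : ℝ)..θ, be Φ r t
  have h8 : D * Ib ≤ be Φ r θ * (π * θ - θ ^ 2 + sin θ ^ 2) := by linarith
  have h9 : D * (cos θ * Ib) ≤ D * (sin θ * be Φ r θ) := by
    have h10 := mul_le_mul_of_nonneg_left h8 hc0.le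
    have h11 := mul_le_mul_of_nonneg_left hW hbe
    nlinarith
  exact le_of_mul_le_mul_left h9 hD

end Pool.Agent.Q73.PW
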