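import Pool.Agent.Q73.PW.Stm2

/-!
# Project PW, jobs P1, P3: the functions `-(x² + δ)^(q/2)` and `-log (x² + δ)`
-/

set_option autoImplicit false
open MeasureTheory Filter Topology Real
open scoped ContDiff

namespace Pool.Agent.Q73.PW

noncomputable section

namespace P1

section pw

variable {q δ : ℝ}

theorem base_pos (hδ : 0 < δ) (x : ℝ) : 0 < x ^ 2 + δ := by positivity

theorem hd_base (x : ℝ) : HasDerivAt (fun x : ℝ => x ^ 2 + δ) (2 * x) x := by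
  have h := (hasDerivAt_pow 2 x).add_const δ
  have h2 : ((2 : ℕ) : ℝ) * x ^ (2 - 1) = 2 * x := by norm_num
  rwa [h2] at h

theorem hd_pow (hδ : 0 < δ) (a x : ℝ) : HasDerivAt (fun x : ℝ => (x ^ 2 + δ) ^ a) (2 * x * a * (x ^ 2 + δ) ^ (a - 1)) x :=
  (hd_base x).rpow_const (Or.inl (base_pos hδ x).ne')

theorem sm_pow (hδ : 0 < δ) (a : ℝ) : ContDiff ℝ ∞ (fun x : ℝ => (x ^ 2 + δ) ^ a) :=
  ((contDiff_id.pow 2).add contDiff_const).rpow_const_of_ne fun x => (base_pos hδ x).ne'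

/-- first derivative -/
theorem d1 (hδ : 0 < δ) : deriv (fun x : ℝ => -(x ^ 2 + δ) ^ (q / 2)) = fun x => -(q * x * (x ^ 2 + δ) ^ (q / 2 - 1)) := by
  funext x
  have h := (hd_pow hδ (q / 2) x).neg
  have h2 : -(2 * x * (q / 2) * (x ^ 2 + δ) ^ (q / 2 - 1)) = -(q * x * (x ^ 2 + δ) ^ (q / 2 - 1)) := by ring
  rw [h2] at h
  exact h.deriv

theorem pow_split (hδ : 0 < δ) (x : ℝ) :
    (x ^ 2 + δ) ^ (q / 2 - 1) = (x ^ 2 + δ) ^ (q / 2 - 2) * (x ^ 2 + δ) := by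
  have h := Real.rpow_add_one (base_pos hδ x).ne' (q / 2 - 2)
  have h2 : q / 2 - 2 + 1 = q / 2 - 1 := by ring
  rwa [h2] at h

/-- second derivative -/
theorem hd2 (hδ : 0 < δ) (x : ℝ) : HasDerivAt (fun x => -(q * x * (x ^ 2 + δ) ^ (q / 2 - 1)))
    (-(q * ((q - 1) * (x ^ 2 + δ) ^ (q / 2 - 1) + (2 - q) * δ * (x ^ 2 + δ) ^ (q / 2 - 2)))) x := by
  have h1 : HasDerivAt (fun x : ℝ => q * x) q x := by
    have := (hasDerivAt_id x).const_mul q
    rwa [mul_one] at this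
  have h := (h1.mul (hd_pow hδ (q / 2 - 1) x)).neg
  have h2 : -(q * (x ^ 2 + δ) ^ (q / 2 - 1) + q * x * (2 * x * (q / 2 - 1) * (x ^ 2 + δ) ^ (q / 2 - 1 - 1))) =
      -(q * ((q - 1) * (x ^ 2 + δ) ^ (q / 2 - 1) + (2 - q) * δ * (x ^ 2 + δ) ^ (q / 2 - 2))) := by
    have e1 : q / 2 - 1 - 1 = q / 2 - 2 := by ring
    rw [e1, pow_split hδ]
    ring
  rw [h2] at h
  exact h

theorem anti (hδ : 0 < δ) {a : ℝ} (ha : a ≤ 0) {x y : ℝ} (hx : 0 < x) (hxy : x ≤ y) :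
    (y ^ 2 + δ) ^ a ≤ (x ^ 2 + δ) ^ a :=
  Real.rpow_le_rpow_of_nonpos (base_pos hδ x) (by nlinarith) ha

theorem sm (hδ : 0 < δ) : ContDiff ℝ ∞ (fun x : ℝ => -(x ^ 2 + δ) ^ (q / 2)) := (sm_pow hδ _).neg

end pw

section lg

variable {δ : ℝ}

theorem e1 (hδ : 0 < δ) : deriv (fun x : ℝ => -Real.log (x ^ 2 + δ)) = fun x => -(2 * x / (x ^ 2 + δ)) := by
  funext x
  exact ((hd_base x).log (base_pos hδ x).ne').neg.deriv

theorem he2 (hδ : 0 < δ) (x : ℝ) : HasDerivAt (fun x => -(2 * x / (x ^ 2 + δ)))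
    ((2 * x ^ 2 - 2 * δ) / (x ^ 2 + δ) ^ 2) x := by
  have h1 : HasDerivAt (fun x : ℝ => 2 * x) 2 x := by
    have := (hasDerivAt_id x).const_mul (2 : ℝ)
    rwa [mul_one] at this
  have h := (h1.div (hd_base (δ := δ) x) (base_pos hδ x).ne').neg
  have h2 : -((2 * (x ^ 2 + δ) - 2 * x * (2 * x)) / (x ^ 2 + δ) ^ 2) = (2 * x ^ 2 - 2 * δ) / (x ^ 2 + δ) ^ 2 := by
    rw [← neg_div]
    congr 1
    ring
  rw [h2] at h
  exact h

end lg

end P1

open P1 in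
/-- P1 -/
theorem p1 : Pool.Agent.Q73.PW.P1 := by
  intro q δ hq hq2 hδ
  have hd2' : deriv (deriv (fun x : ℝ => -(x ^ 2 + δ) ^ (q / 2))) =
      fun x => -(q * ((q - 1) * (x ^ 2 + δ) ^ (q / 2 - 1) + (2 - q) * δ * (x ^ 2 + δ) ^ (q / 2 - 2))) := by
    rw [d1 hδ]
    funext x
    exact (hd2 hδ x).deriv
  refine ⟨⟨q * δ ^ (q / 2 - 1), ?_, ?_, ?_⟩, ?_, ?_, ?_⟩
  · exact sm hδ
  · intro x
    simp only [neg_sq]
  · intro x
    rw [hd2']
    have hb := base_pos hδ x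
    have p1 : 0 < (x ^ 2 + δ) ^ (q / 2 - 2) := Real.rpow_pos_of_pos hb _
    have h1 : (q - 1) * (x ^ 2 + δ) ^ (q / 2 - 1) + (2 - q) * δ * (x ^ 2 + δ) ^ (q / 2 - 2) =
        (x ^ 2 + δ) ^ (q / 2 - 2) * ((q - 1) * x ^ 2 + δ) := by
      rw [pow_split hδ]
      ring
    have h2 : |(q - 1) * x ^ 2 + δ| ≤ x ^ 2 + δ := by
      rw [abs_le]
      constructor
      · nlinarith [sq_nonneg x]
      · nlinarith [sq_nonneg x]
    have h3 : (x ^ 2 + δ) ^ (q / 2 - 1) ≤ δ ^ (q / 2 - 1) :=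
      Real.rpow_le_rpow_of_nonpos hδ (by nlinarith [sq_nonneg x]) (by linarith)
    simp only
    rw [h1, abs_neg, abs_mul, abs_of_pos hq, abs_mul, abs_of_pos p1]
    refine mul_le_mul_of_nonneg_left ?_ hq.le
    calc (x ^ 2 + δ) ^ (q / 2 - 2) * |(q - 1) * x ^ 2 + δ| ≤ (x ^ 2 + δ) ^ (q / 2 - 2) * (x ^ 2 + δ) :=
          mul_le_mul_of_nonneg_left h2 p1.le
      _ = (x ^ 2 + δ) ^ (q / 2 - 1) := (pow_split hδ x).symm
      _ ≤ _ := h3
  · intro x y hx hxy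
    have hy : 0 < y := lt_of_lt_of_le hx hxy
    rw [d1 hδ]
    have h1 : ∀ z : ℝ, 0 < z → -(q * z * (z ^ 2 + δ) ^ (q / 2 - 1)) / z = -(q * (z ^ 2 + δ) ^ (q / 2 - 1)) := by
      intro z hz
      field_simp
    simp only
    rw [h1 x hx, h1 y hy]
    have := anti hδ (a := q / 2 - 1) (by linarith) hx hxy
    nlinarith
  · intro x y hx hxy
    have hy : 0 < y := lt_of_lt_of_le hx hxy
    have h0 : ∀ z : ℝ, deriv (scd (fun x : ℝ => -(x ^ 2 + δ) ^ (q / 2))) z =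
        1 * -(q * z * (z ^ 2 + δ) ^ (q / 2 - 1)) +
        z * -(q * ((q - 1) * (z ^ 2 + δ) ^ (q / 2 - 1) + (2 - q) * δ * (z ^ 2 + δ) ^ (q / 2 - 2))) := by
      intro z
      have e1 : scd (fun x : ℝ => -(x ^ 2 + δ) ^ (q / 2)) = fun x => x * -(q * x * (x ^ 2 + δ) ^ (q / 2 - 1)) := by
        funext x
        unfold scd
        rw [d1 hδ]
      rw [e1]
      exact ((hasDerivAt_id z).mul (hd2 hδ z)).deriv
    have h1 : ∀ z : ℝ, 0 < z → deriv (scd (fun x : ℝ => -(x ^ 2 + δ) ^ (q / 2))) z / z =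
        -(q * (q * (z ^ 2 + δ) ^ (q / 2 - 1) + (2 - q) * δ * (z ^ 2 + δ) ^ (q / 2 - 2))) := by
      intro z hz
      rw [h0]
      field_simp
      ring
    rw [h1 x hx, h1 y hy]
    have a1 := anti hδ (a := q / 2 - 1) (by linarith) hx hxy
    have a2 := anti hδ (a := q / 2 - 2) (by linarith) hx hxy
    have b1 := mul_le_mul_of_nonneg_left a1 hq.le
    have b2 := mul_le_mul_of_nonneg_left a2 (mul_nonneg (by linarith : (0 : ℝ) ≤ 2 - q) hδ.le)
    have b3 := mul_le_mul_of_nonneg_left (add_le_add b1 b2) hq.le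
    linarith
  · intro hq1 x y hx hxy
    rw [hd2']
    simp only
    have a1 := anti hδ (a := q / 2 - 1) (by linarith) hx hxy
    have a2 := anti hδ (a := q / 2 - 2) (by linarith) hx hxy
    have b1 := mul_le_mul_of_nonneg_left a1 (by linarith : (0 : ℝ) ≤ q - 1)
    have b2 := mul_le_mul_of_nonneg_left a2 (mul_nonneg (by linarith : (0 : ℝ) ≤ 2 - q) hδ.le)
    have b3 := mul_le_mul_of_nonneg_left (add_le_add b1 b2) hq.le
    linarith

open P1 in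
/-- P3 -/
theorem p3 : P3 := by
  intro δ hδ
  have he2' : deriv (deriv (fun x : ℝ => -Real.log (x ^ 2 + δ))) =
      fun x => (2 * x ^ 2 - 2 * δ) / (x ^ 2 + δ) ^ 2 := by
    rw [e1 hδ]
    funext x
    exact (he2 hδ x).deriv
  refine ⟨⟨2 / δ, ?_, ?_, ?_⟩, ?_, ?_⟩
  · exact (((contDiff_id.pow 2).add contDiff_const).log fun x => (base_pos hδ x).ne').neg
  · intro x
    simp only [neg_sq]
  · intro x
    rw [he2']
    have hb := base_pos hδ x
    simp only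
    rw [abs_div, abs_of_pos (pow_pos hb 2), div_le_div_iff₀ (pow_pos hb 2) hδ]
    have h2 : |2 * x ^ 2 - 2 * δ| ≤ 2 * (x ^ 2 + δ) := by
      rw [abs_le]
      constructor
      · nlinarith [sq_nonneg x]
      · nlinarith [sq_nonneg x]
    calc |2 * x ^ 2 - 2 * δ| * δ ≤ 2 * (x ^ 2 + δ) * δ := mul_le_mul_of_nonneg_right h2 hδ.le
      _ ≤ 2 * (x ^ 2 + δ) * (x ^ 2 + δ) := by
          refine mul_le_mul_of_nonneg_left ?_ (by linarith)
          nlinarith [sq_nonneg x]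
      _ = _ := by ring
  · intro x y hx hxy
    have hy : 0 < y := lt_of_lt_of_le hx hxy
    rw [e1 hδ]
    have h1 : ∀ z : ℝ, 0 < z → -(2 * z / (z ^ 2 + δ)) / z = -(2 / (z ^ 2 + δ)) := by
      intro z hz
      have := (base_pos hδ z).ne'
      field_simp
    simp only
    rw [h1 x hx, h1 y hy]
    have h2 : 2 / (y ^ 2 + δ) ≤ 2 / (x ^ 2 + δ) :=
      div_le_div_of_nonneg_left (by norm_num) (base_pos hδ x) (by nlinarith)
    linarith
  · intro x y hx hxy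
    have hy : 0 < y := lt_of_lt_of_le hx hxy
    have h0 : ∀ z : ℝ, deriv (scd (fun x : ℝ => -Real.log (x ^ 2 + δ))) z =
        1 * -(2 * z / (z ^ 2 + δ)) + z * ((2 * z ^ 2 - 2 * δ) / (z ^ 2 + δ) ^ 2) := by
      intro z
      have e1' : scd (fun x : ℝ => -Real.log (x ^ 2 + δ)) = fun x => x * -(2 * x / (x ^ 2 + δ)) := by
        funext x
        unfold scd
        rw [e1 hδ]
      rw [e1']
      exact ((hasDerivAt_id z).mul (he2 hδ z)).deriv
    have h1 : ∀ z : ℝ, 0 < z → deriv (scd (fun x : ℝ => -Real.log (x ^ 2 + δ))) z / z =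
        -(4 * δ / (z ^ 2 + δ) ^ 2) := by
      intro z hz
      have := (base_pos hδ z).ne'
      rw [h0]
      field_simp
      ring
    rw [h1 x hx, h1 y hy]
    have h2 : 4 * δ / (y ^ 2 + δ) ^ 2 ≤ 4 * δ / (x ^ 2 + δ) ^ 2 :=
      div_le_div_of_nonneg_left (by linarith) (pow_pos (base_pos hδ x) 2)
        (pow_le_pow_left₀ (base_pos hδ x).le (by nlinarith) 2)
    linarith

end

end Pool.Agent.Q73.PW
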