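import Pool.Agent.Q73.PW.Stm2

/-!
# Project PW, job P2: the functions for `q > 2`

`Φ'' (x) = q (q - 1) (x² / (x² + δ))^m ((x² + δ) / (1 + δ x²))^{(q-2)/2}`, `m ≥ (q-2)/2` a natural number.
-/

set_option autoImplicit false
open MeasureTheory Filter Topology Real
open scoped ContDiff

namespace Pool.Agent.Q73.PW

namespace P2

/-- smooth approximation of `|x| ^ (2 a)` from below -/
noncomputable def W (δ a : ℝ) (m : ℕ) (x : ℝ) : ℝ :=
  (x ^ 2 / (x ^ 2 + δ)) ^ m * ((x ^ 2 + δ) / (1 + δ * x ^ 2)) ^ a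

theorem W_smooth {δ a : ℝ} {m : ℕ} (h : 0 < δ) : ContDiff ℝ ∞ (W δ a m) := by
  have h2 : ContDiff ℝ ∞ (fun x : ℝ => x ^ 2) := contDiff_id.pow 2
  have h3 : ContDiff ℝ ∞ (fun x : ℝ => x ^ 2 / (x ^ 2 + δ)) :=
    h2.div (h2.add contDiff_const) (fun x => by positivity)
  have h4 : ContDiff ℝ ∞ (fun x : ℝ => (x ^ 2 + δ) / (1 + δ * x ^ 2)) :=
    (h2.add contDiff_const).div (contDiff_const.add (contDiff_const.mul h2))
      (fun x => by positivity)
  exact (h3.pow m).mul (h4.rpow_const_of_ne (fun x => by positivity))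

theorem W_even (δ a : ℝ) (m : ℕ) (x : ℝ) : W δ a m (-x) = W δ a m x := by
  unfold W
  rw [neg_sq]

theorem W_nonneg {δ a : ℝ} {m : ℕ} (h : 0 < δ) (x : ℝ) : 0 ≤ W δ a m x := by
  unfold W
  positivity

theorem W_le {δ a : ℝ} {m : ℕ} (h : 0 < δ) (h1 : δ < 1) (ha : 0 ≤ a) (x : ℝ) :
    W δ a m x ≤ (1 / δ) ^ a := by
  unfold W
  have h2 : (x ^ 2 / (x ^ 2 + δ)) ^ m ≤ 1 := by
    apply pow_le_one₀ (by positivity)
    rw [div_le_one (by positivity)]
    linarith
  have h3 : ((x ^ 2 + δ) / (1 + δ * x ^ 2)) ^ a ≤ (1 / δ) ^ a := by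
    apply rpow_le_rpow (by positivity) _ ha
    rw [div_le_div_iff₀ (by positivity) h]
    nlinarith
  have h4 : 0 ≤ ((x ^ 2 + δ) / (1 + δ * x ^ 2)) ^ a := by positivity
  calc _ ≤ 1 * ((x ^ 2 + δ) / (1 + δ * x ^ 2)) ^ a := mul_le_mul_of_nonneg_right h2 h4
    _ ≤ _ := by
      rw [one_mul]
      exact h3

theorem W_mono {δ a : ℝ} {m : ℕ} (h : 0 < δ) (h1 : δ < 1) (ha : 0 ≤ a) {x y : ℝ} (hx : 0 ≤ x)
    (hxy : x ≤ y) : W δ a m x ≤ W δ a m y := by
  unfold W
  have h0 : x ^ 2 ≤ y ^ 2 := by nlinarith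
  have h2 : (x ^ 2 / (x ^ 2 + δ)) ^ m ≤ (y ^ 2 / (y ^ 2 + δ)) ^ m := by
    apply pow_le_pow_left₀ (by positivity)
    rw [div_le_div_iff₀ (by positivity) (by positivity)]
    nlinarith
  have h3 : ((x ^ 2 + δ) / (1 + δ * x ^ 2)) ^ a ≤ ((y ^ 2 + δ) / (1 + δ * y ^ 2)) ^ a := by
    apply rpow_le_rpow (by positivity) _ ha
    rw [div_le_div_iff₀ (by positivity) (by positivity)]
    nlinarith [mul_nonneg (sub_nonneg.mpr h0) (show 0 ≤ 1 - δ ^ 2 by nlinarith)]
  exact mul_le_mul h2 h3 (by positivity) (by positivity)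

theorem W_le_rpow {δ a : ℝ} {m : ℕ} (h : 0 < δ) (ha : 0 ≤ a) (ham : a ≤ m) {x : ℝ}
    (hx : 0 < x) : W δ a m x ≤ x ^ (2 * a) := by
  unfold W
  have hs : 0 < x ^ 2 / (x ^ 2 + δ) := by positivity
  have h1 : x ^ 2 / (x ^ 2 + δ) ≤ 1 := by
    rw [div_le_one (by positivity)]
    linarith
  have h2 : (x ^ 2 / (x ^ 2 + δ)) ^ m ≤ (x ^ 2 / (x ^ 2 + δ)) ^ a := by
    rw [← rpow_natCast]
    exact rpow_le_rpow_of_exponent_ge hs h1 ham
  have h4 : 0 ≤ ((x ^ 2 + δ) / (1 + δ * x ^ 2)) ^ a := by positivity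
  calc _ ≤ (x ^ 2 / (x ^ 2 + δ)) ^ a * ((x ^ 2 + δ) / (1 + δ * x ^ 2)) ^ a :=
        mul_le_mul_of_nonneg_right h2 h4
    _ = (x ^ 2 / (1 + δ * x ^ 2)) ^ a := by
        rw [← mul_rpow hs.le (by positivity)]
        congr 1
        field_simp
    _ ≤ (x ^ 2) ^ a := by
        apply rpow_le_rpow (by positivity) _ ha
        rw [div_le_iff₀ (by positivity)]
        nlinarith [mul_nonneg (mul_nonneg h.le (sq_nonneg x)) (sq_nonneg x)]
    _ = x ^ (2 * a) := by
        rw [rpow_mul hx.le, rpow_two]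

theorem W_lim {a : ℝ} {m : ℕ} {x : ℝ} (hx : 0 < x) :
    Tendsto (fun δ => W δ a m x) (𝓝[>] 0) (𝓝 (x ^ (2 * a))) := by
  have h0 : ContinuousAt (fun δ => W δ a m x) 0 := by
    unfold W
    have h1 : ContinuousAt (fun δ : ℝ => x ^ 2 / (x ^ 2 + δ)) 0 :=
      ContinuousAt.div (by fun_prop) (by fun_prop) (by positivity)
    have h2 : ContinuousAt (fun δ : ℝ => (x ^ 2 + δ) / (1 + δ * x ^ 2)) 0 :=
      ContinuousAt.div (by fun_prop) (by fun_prop) (by simp)
    exact (h1.pow m).mul (h2.rpow_const (Or.inl (by simp [hx.ne'])))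
  have h3 := h0.tendsto
  have e : W 0 a m x = x ^ (2 * a) := by
    unfold W
    have : x ^ 2 ≠ 0 := by positivity
    simp [this]
    rw [rpow_mul hx.le, rpow_two]
  rw [e] at h3
  exact h3.mono_left nhdsWithin_le_nhds

/-- the primitive from `0` -/
noncomputable def prim (w : ℝ → ℝ) (x : ℝ) : ℝ := ∫ t in (0 : ℝ)..x, w t

theorem d_prim {w : ℝ → ℝ} (hw : Continuous w) (x : ℝ) : HasDerivAt (prim w) (w x) x :=
  intervalIntegral.integral_hasDerivAt_right (hw.intervalIntegrable _ _)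
    hw.aestronglyMeasurable.stronglyMeasurableAtFilter hw.continuousAt

theorem deriv_prim {w : ℝ → ℝ} (hw : Continuous w) : deriv (prim w) = w := by
  funext x
  exact (d_prim hw x).deriv

theorem prim_smooth {w : ℝ → ℝ} (hw : ContDiff ℝ ∞ w) : ContDiff ℝ ∞ (prim w) := by
  rw [contDiff_infty_iff_deriv, deriv_prim hw.continuous]
  exact ⟨fun x => (d_prim hw.continuous x).differentiableAt, hw⟩

theorem prim_cont {w : ℝ → ℝ} (hw : Continuous w) : Continuous (prim w) :=
  continuous_iff_continuousAt.mpr fun x => (d_prim hw x).continuousAt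

theorem prim_odd {w : ℝ → ℝ} (hev : ∀ x, w (-x) = w x) (x : ℝ) : prim w (-x) = -prim w x := by
  unfold prim
  have h1 := intervalIntegral.integral_comp_neg (a := 0) (b := x) (fun t => w t)
  have h2 : (∫ t in (0 : ℝ)..x, w (-t)) = ∫ t in (0 : ℝ)..x, w t := by
    congr 1
    funext t
    exact hev t
  rw [h2, neg_zero] at h1
  rw [h1, intervalIntegral.integral_symm]

theorem prim_even {w : ℝ → ℝ} (hod : ∀ x, w (-x) = -w x) (x : ℝ) : prim w (-x) = prim w x := by
  unfold prim
  have h1 := intervalIntegral.integral_comp_neg (a := 0) (b := x) (fun t => w t)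
  have h2 : (∫ t in (0 : ℝ)..x, w (-t)) = -∫ t in (0 : ℝ)..x, w t := by
    rw [← intervalIntegral.integral_neg]
    congr 1
    funext t
    exact hod t
  rw [h2, neg_zero] at h1
  have h3 : (∫ t in (0 : ℝ)..(-x), w t) = -∫ t in (-x)..(0 : ℝ), w t :=
    intervalIntegral.integral_symm _ _
  rw [h3, ← h1, neg_neg]

end P2

open P2 in
theorem p2 : P2 := by
  intro q R η hq hR hη
  set a : ℝ := (q - 2) / 2 with ha
  have ha0 : 0 < a := by
    rw [ha]
    linarith
  obtain ⟨m, hm⟩ := exists_nat_ge a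
  have hc0 : 0 < q * (q - 1) := mul_pos (by linarith) (by linarith)
  -- dominated convergence
  have hg : Continuous (fun t : ℝ => q * (q - 1) * t ^ (q - 2)) :=
    continuous_const.mul (continuous_id.rpow_const (fun x => Or.inr (by linarith)))
  have hlim : Tendsto (fun δ => ∫ t in (0 : ℝ)..R, q * (q - 1) * W δ a m t) (𝓝[>] 0)
      (𝓝 (∫ t in (0 : ℝ)..R, q * (q - 1) * t ^ (q - 2))) := by
    apply intervalIntegral.tendsto_integral_filter_of_dominated_convergence
      (fun t : ℝ => q * (q - 1) * t ^ (q - 2))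
    · filter_upwards [self_mem_nhdsWithin] with δ hδ
      exact (continuous_const.mul (W_smooth hδ).continuous).aestronglyMeasurable
    · filter_upwards [self_mem_nhdsWithin] with δ hδ
      refine Eventually.of_forall fun t ht => ?_
      rw [Set.uIoc_of_le hR.le] at ht
      rw [norm_of_nonneg (mul_nonneg hc0.le (W_nonneg hδ t))]
      apply mul_le_mul_of_nonneg_left _ hc0.le
      have := W_le_rpow (m := m) hδ ha0.le hm ht.1
      have e : 2 * a = q - 2 := by
        rw [ha]
        ring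
      rw [e] at this
      exact this
    · exact hg.intervalIntegrable _ _
    · refine Eventually.of_forall fun t ht => ?_
      rw [Set.uIoc_of_le hR.le] at ht
      have := (W_lim (a := a) (m := m) ht.1).const_mul (q * (q - 1))
      have e : 2 * a = q - 2 := by
        rw [ha]
        ring
      rw [e] at this
      exact this
  have hev : ∀ᶠ δ in 𝓝[>] (0 : ℝ), (∫ t in (0 : ℝ)..R, q * (q - 1) * t ^ (q - 2)) - η / R <
      ∫ t in (0 : ℝ)..R, q * (q - 1) * W δ a m t :=
    hlim.eventually (lt_mem_nhds (by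
      have : 0 < η / R := by positivity
      linarith))
  have hlt1 : ∀ᶠ δ in 𝓝[>] (0 : ℝ), δ < 1 :=
    nhdsWithin_le_nhds (gt_mem_nhds one_pos)
  obtain ⟨δ, ⟨hδ, hδ1⟩, hδ0⟩ := ((hev.and hlt1).and self_mem_nhdsWithin).exists
  have hδ0 : 0 < δ := hδ0
  set w : ℝ → ℝ := fun x => q * (q - 1) * W δ a m x with hw
  have hws : ContDiff ℝ ∞ w := contDiff_const.mul (W_smooth hδ0)
  have hwc := hws.continuous
  have hwe : ∀ x, w (-x) = w x := fun x => by
    simp only [hw]
    rw [W_even]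
  have hw0 : ∀ x, 0 ≤ w x := fun x => mul_nonneg hc0.le (W_nonneg hδ0 x)
  have hwle : ∀ t, 0 < t → w t ≤ q * (q - 1) * t ^ (q - 2) := by
    intro t ht
    apply mul_le_mul_of_nonneg_left _ hc0.le
    have := W_le_rpow (m := m) hδ0 ha0.le hm ht
    have e : 2 * a = q - 2 := by
      rw [ha]
      ring
    rw [e] at this
    exact this
  have hwle0 : ∀ t, 0 ≤ t → w t ≤ q * (q - 1) * t ^ (q - 2) := by
    intro t ht
    rcases ht.eq_or_lt with h | h
    · have h1 : Tendsto w (𝓝[>] 0) (𝓝 (w 0)) := hwc.continuousAt.tendsto.mono_left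
        nhdsWithin_le_nhds
      have h2 : Tendsto (fun t : ℝ => q * (q - 1) * t ^ (q - 2)) (𝓝[>] 0)
        (𝓝 (q * (q - 1) * 0 ^ (q - 2))) := hg.continuousAt.tendsto.mono_left
        nhdsWithin_le_nhds
      rw [← h]
      exact le_of_tendsto_of_tendsto h1 h2 (by
        filter_upwards [self_mem_nhdsWithin] with t ht
        exact hwle t ht)
    · exact hwle t h
  set F1 := prim w with hF1
  have hF1c : Continuous F1 := prim_cont hwc
  set Φ := prim F1 with hΦ
  have hd1 : deriv Φ = F1 := deriv_prim hF1c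
  have hd2 : deriv (deriv Φ) = w := by
    rw [hd1]
    exact deriv_prim hwc
  have hΦe : ∀ x, Φ (-x) = Φ x := prim_even (prim_odd hwe)
  -- bounds for `F1`
  have intg : ∀ x : ℝ, (∫ t in (0 : ℝ)..x, q * (q - 1) * t ^ (q - 2)) = q * x ^ (q - 1) := by
    intro x
    rw [intervalIntegral.integral_const_mul, integral_rpow (Or.inl (by linarith))]
    have e : q - 2 + 1 = q - 1 := by ring
    rw [e, zero_rpow (by linarith)]
    have : q - 1 ≠ 0 := by linarith
    field_simp
    ring
  have intg2 : ∀ x : ℝ, (∫ t in (0 : ℝ)..x, q * t ^ (q - 1)) = x ^ q := by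
    intro x
    rw [intervalIntegral.integral_const_mul, integral_rpow (Or.inl (by linarith))]
    have e : q - 1 + 1 = q := by ring
    rw [e, zero_rpow (by linarith)]
    have : q ≠ 0 := by linarith
    field_simp
    ring
  have hg2 : Continuous (fun t : ℝ => q * t ^ (q - 1)) :=
    continuous_const.mul (continuous_id.rpow_const (fun x => Or.inr (by linarith)))
  have hF10 : ∀ x, 0 ≤ x → 0 ≤ F1 x := fun x hx =>
    intervalIntegral.integral_nonneg hx (fun t _ => hw0 t)
  have hF1le : ∀ x, 0 ≤ x → F1 x ≤ q * x ^ (q - 1) := by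
    intro x hx
    rw [← intg x]
    exact intervalIntegral.integral_mono_on hx (hwc.intervalIntegrable _ _)
      (hg.intervalIntegrable _ _) (fun t ht => hwle0 t ht.1)
  have hF1ge : ∀ x, 0 ≤ x → x ≤ R → q * x ^ (q - 1) - η / R ≤ F1 x := by
    intro x hx hxR
    have h1 : (∫ t in x..R, w t) ≤ ∫ t in x..R, q * (q - 1) * t ^ (q - 2) :=
      intervalIntegral.integral_mono_on hxR (hwc.intervalIntegrable _ _)
      (hg.intervalIntegrable _ _) (fun t ht => hwle0 t (hx.trans ht.1))
    have h2 : (∫ t in (0 : ℝ)..x, w t) + (∫ t in x..R, w t) = ∫ t in (0 : ℝ)..R, w t :=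
      intervalIntegral.integral_add_adjacent_intervals (hwc.intervalIntegrable _ _)
        (hwc.intervalIntegrable _ _)
    have h3 : (∫ t in (0 : ℝ)..x, q * (q - 1) * t ^ (q - 2)) +
        (∫ t in x..R, q * (q - 1) * t ^ (q - 2)) = ∫ t in (0 : ℝ)..R, q * (q - 1) * t ^ (q - 2) :=
      intervalIntegral.integral_add_adjacent_intervals (hg.intervalIntegrable _ _)
        (hg.intervalIntegrable _ _)
    rw [intg x] at h3
    have h4 : F1 x = ∫ t in (0 : ℝ)..x, w t := rfl
    rw [h4]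
    linarith
  have hΦ0 : ∀ x, 0 ≤ x → 0 ≤ Φ x := fun x hx =>
    intervalIntegral.integral_nonneg hx (fun t ht => hF10 t ht.1)
  have hΦle : ∀ x, 0 ≤ x → Φ x ≤ x ^ q := by
    intro x hx
    rw [← intg2 x]
    exact intervalIntegral.integral_mono_on hx (hF1c.intervalIntegrable _ _)
      (hg2.intervalIntegrable _ _) (fun t ht => hF1le t ht.1)
  have hΦge : ∀ x, 0 ≤ x → x ≤ R → x ^ q - η ≤ Φ x := by
    intro x hx hxR
    have h1 : (∫ t in (0 : ℝ)..x, (q * t ^ (q - 1) - η / R)) ≤ Φ x :=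
      intervalIntegral.integral_mono_on hx
      ((hg2.sub continuous_const).intervalIntegrable _ _) (hF1c.intervalIntegrable _ _)
      (fun t ht => hF1ge t ht.1 (ht.2.trans hxR))
    rw [intervalIntegral.integral_sub (hg2.intervalIntegrable _ _)
      (continuous_const.intervalIntegrable _ _), intg2 x, intervalIntegral.integral_const] at h1
    have h2 : (x - 0) • (η / R) ≤ η := by
      rw [smul_eq_mul, sub_zero]
      calc x * (η / R) ≤ R * (η / R) := mul_le_mul_of_nonneg_right hxR (by positivity)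
        _ = η := by field_simp
    linarith
  have habs : ∀ x, Φ x = Φ |x| := by
    intro x
    rcases abs_choice x with h | h
    · rw [h]
    · rw [h, hΦe]
  refine ⟨Φ, q * (q - 1) * (1 / δ) ^ a, ⟨prim_smooth (prim_smooth hws), hΦe, ?_⟩, ?_, ?_, ?_, ?_⟩
  · intro x
    rw [hd2, abs_of_nonneg (hw0 x)]
    exact mul_le_mul_of_nonneg_left (W_le hδ0 hδ1 ha0.le x) hc0.le
  · intro x y hx hxy
    rw [hd2]
    exact mul_le_mul_of_nonneg_left (W_mono hδ0 hδ1 ha0.le hx.le hxy) hc0.le
  · intro x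
    rw [habs]
    exact hΦ0 _ (abs_nonneg x)
  · intro x
    rw [habs]
    exact hΦle _ (abs_nonneg x)
  · intro r hr hrR
    have hc1 : Continuous (fun t => Φ (r * cos t)) :=
      (prim_cont hF1c).comp (continuous_const.mul continuous_cos)
    have hc2 : Continuous (fun t => |cos t| ^ q * r ^ q - η) :=
      ((continuous_cos.abs.rpow_const (fun x => Or.inr (by linarith))).mul
        continuous_const).sub continuous_const
    have hc3 : Continuous (fun t => |cos t| ^ q * r ^ q) :=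
      (continuous_cos.abs.rpow_const (fun x => Or.inr (by linarith))).mul
        continuous_const
    have h1 : (∫ t in (0 : ℝ)..π, (|cos t| ^ q * r ^ q - η)) ≤ ∫ t in (0 : ℝ)..π, Φ (r * cos t) := by
      apply intervalIntegral.integral_mono_on pi_pos.le (hc2.intervalIntegrable _ _)
        (hc1.intervalIntegrable _ _)
      intro t _
      rw [habs]
      have h2 : |r * cos t| ≤ R := by
        rw [abs_mul, abs_of_nonneg hr]
        calc r * |cos t| ≤ r * 1 := mul_le_mul_of_nonneg_left (abs_cos_le_one t) hr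
          _ ≤ R := by linarith
      have h3 := hΦge _ (abs_nonneg (r * cos t)) h2
      have h4 : |cos t| ^ q * r ^ q = |r * cos t| ^ q := by
        rw [← mul_rpow (abs_nonneg _) hr, abs_mul, abs_of_nonneg hr, mul_comm]
      rw [h4]
      exact h3
    rw [intervalIntegral.integral_sub (hc3.intervalIntegrable _ _)
      (continuous_const.intervalIntegrable _ _), intervalIntegral.integral_const,
      intervalIntegral.integral_mul_const] at h1
    have e1 : kap q = (∫ t in (0 : ℝ)..π, |cos t| ^ q) / π := by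
      unfold kap mn
      simp
    rw [e1]
    unfold mn
    rw [le_div_iff₀ pi_pos]
    have e2 : ((∫ t in (0 : ℝ)..π, |cos t| ^ q) / π * r ^ q - η) * π =
        (∫ t in (0 : ℝ)..π, |cos t| ^ q) * r ^ q - (π - 0) • η := by
      rw [smul_eq_mul]
      have := pi_ne_zero
      field_simp
      ring
    rw [e2]
    exact h1

end Pool.Agent.Q73.PW
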