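import Pool.Agent.Q73.PW.St3
import Pool.Agent.Results.MP_4fa179_mp.DensityAtZero

/-!
# Project PW: stationary waves, plane waves and the density at zero
-/

set_option autoImplicit false
open MeasureTheory Filter Topology
open scoped ContDiff ENNReal

namespace Pool.Agent.Q73.PW

open Pool.Agent.Y139.SW Pool.Agent.Q73.SM

noncomputable section

namespace St

/-- the mean of an even function at the plane wave -/
theorem pw_mean (d : ℕ) {Φ : ℝ → ℝ} (hΦ : Continuous Φ) (ev : ∀ x, Φ (-x) = Φ x) :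
    ∫ s, Φ (pwv d s 0) ∂(AddCircle.haarAddCircle (T := 2 * Real.pi)) = mn Φ 1 := by
  have hpi := Real.pi_pos
  have h1 := AddCircle.intervalIntegral_preimage (2 * Real.pi) (Real.pi / 2) (fun s => Φ (pwv d s 0))
  have h2 : ∫ a in (Real.pi / 2)..(Real.pi / 2 + 2 * Real.pi), Φ (pwv d (a : AddCircle (2 * Real.pi)) 0) =
      2 * ∫ t in (0 : ℝ)..Real.pi, Φ (Real.cos t) := by
    have e : ∀ a : ℝ, Φ (pwv d (a : AddCircle (2 * Real.pi)) 0) = Φ (Real.sin a) := by
      intro a; rw [pwv_coe]; simp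
    simp only [e]
    have h3 := intervalIntegral.integral_comp_add_right (a := 0) (b := 2 * Real.pi)
      (fun a => Φ (Real.sin a)) (Real.pi / 2)
    rw [zero_add, add_comm (2 * Real.pi)] at h3
    rw [← h3]
    simp only [Real.sin_add_pi_div_two]
    have c : ∀ a b : ℝ, IntervalIntegrable (fun a => Φ (Real.cos a)) volume a b :=
      fun a b => (hΦ.comp Real.continuous_cos).intervalIntegrable a b
    rw [← intervalIntegral.integral_add_adjacent_intervals (c 0 Real.pi) (c Real.pi (2 * Real.pi)),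
      two_mul (∫ x in (0 : ℝ)..Real.pi, Φ (Real.cos x))]
    congr 1
    have h4 := intervalIntegral.integral_comp_add_right (a := 0) (b := Real.pi)
      (fun a => Φ (Real.cos a)) Real.pi
    rw [zero_add, ← two_mul] at h4
    rw [← h4]
    refine intervalIntegral.integral_congr fun a _ => ?_
    show Φ (Real.cos (a + Real.pi)) = Φ (Real.cos a)
    rw [Real.cos_add_pi, ev]
  rw [h2] at h1
  rw [AddCircle.volume_eq_smul_haarAddCircle, integral_smul_measure,
    ENNReal.toReal_ofReal (by positivity), smul_eq_mul] at h1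
  unfold mn
  simp only [one_mul]
  rw [eq_div_iff hpi.ne']
  have h5 : 2 * Real.pi * (∫ s, Φ (pwv d s 0) ∂(AddCircle.haarAddCircle (T := 2 * Real.pi))) =
      2 * ∫ t in (0 : ℝ)..Real.pi, Φ (Real.cos t) := by linarith
  linarith

/-- the density at zero in terms of the variance -/
theorem dens (a1 : A1) {S : Type*} [MeasurableSpace S] {P : Measure S} {F : S → E 2 → ℝ} (h : SW P F)
    (H : ∀ δ : ℝ, 0 < δ → Concl P F (fun x => -(x ^ 2 + δ) ^ ((1 : ℝ) / 2)))
    (hd : ENNReal.ofReal (2 / (Real.pi ^ 2 * ∫ s, |F s 0| ∂P)) ≤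
        liminf (fun ε : ℝ => P {s | |F s 0| ≤ ε} / ENNReal.ofReal (2 * ε)) (𝓝[>] 0)) :
    ENNReal.ofReal (1 / (Real.pi * √(2 * ∫ s, F s 0 ^ 2 ∂P))) ≤
      liminf (fun ε : ℝ => P {s | |F s 0| ≤ ε} / ENNReal.ofReal (2 * ε)) (𝓝[>] 0) := by
  have hpi := Real.pi_pos
  obtain ⟨i1, i2, h1, h2⟩ := pow_low a1 h (q := 1) one_pos (by norm_num) H
  rw [a1.2.2.2.1] at h1
  simp only [Real.rpow_one] at h1 i1
  rw [← Real.sqrt_eq_rpow] at h2
  rcases (integral_nonneg (μ := P) (f := fun s => |F s 0|) fun s => abs_nonneg _).eq_or_lt with h0 | h0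
  · -- the field vanishes almost surely
    have h3 : (fun s => |F s 0|) =ᵐ[P] 0 :=
      (integral_eq_zero_iff_of_nonneg (fun s => abs_nonneg _) i1).1 h0.symm
    have h4 : ∫ s, F s 0 ^ 2 ∂P = 0 := by
      rw [integral_eq_zero_of_ae]
      filter_upwards [h3] with s hs
      have : F s 0 = 0 := by simpa using hs
      rw [this]; simp
    rw [h4]; simp
  · refine le_trans (ENNReal.ofReal_le_ofReal ?_) hd
    have h5 : ∫ s, |F s 0| ∂P ≤ 2 / Real.pi * √(2 * ∫ s, F s 0 ^ 2 ∂P) := by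
      refine h1.trans ?_
      gcongr
    have h6 : 0 < √(2 * ∫ s, F s 0 ^ 2 ∂P) := by
      by_contra hc
      have : √(2 * ∫ s, F s 0 ^ 2 ∂P) = 0 := le_antisymm (not_lt.1 hc) (Real.sqrt_nonneg _)
      rw [this, mul_zero] at h5
      linarith
    rw [div_le_div_iff₀ (by positivity) (by positivity)]
    calc 1 * (Real.pi ^ 2 * ∫ s, |F s 0| ∂P) ≤
          1 * (Real.pi ^ 2 * (2 / Real.pi * √(2 * ∫ s, F s 0 ^ 2 ∂P))) := by gcongr
      _ = 2 * (Real.pi * √(2 * ∫ s, F s 0 ^ 2 ∂P)) := by field_simp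

end St

end

end Pool.Agent.Q73.PW
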