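import Pool.Agent.Q73.PW.J5
import Pool.Agent.Q73.PW.J1
import Pool.Agent.Q73.PW.J3
import Pool.Agent.Q73.PW.A1
import Pool.Agent.Q73.PW.A2
import Pool.Agent.Q73.PW.P1
import Pool.Agent.Q73.PW.P2
import Pool.Agent.Q73.PW.St4

/-! # Project PW: the lemmas for stationary waves -/

namespace Pool.Agent.Q73.PW

theorem allSt : J5 ∧ J3 ∧ A1 ∧ A2 ∧ P1 ∧ P2 := by
  have h3 := j3 j1 j2
  have h4 := j4 j2 h3
  exact ⟨j5 j2 h3 h4 (j4p j2 h4), h3, a1, a2, p1, p2⟩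

end Pool.Agent.Q73.PW
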