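import Mathlib

/-!
# Project PW: plane waves are extremal for all `L^q` norms of eigenfunctions. Definitions.

`Φ : ℝ → ℝ` is smooth and even. `mn Φ r` is the mean of `Φ (r cos t)`. In polar coordinates
`x = r cos θ`, `y = r sin θ` the functions `fA`, `fB` solve `∂_θ fA = Φ (x) - mn Φ r`, `fA = 0` for `θ = 0`, and
`∂_θ fB = be / 2`, `be = (y ∂_y - 1) fA`. The vector field used for a solution of `ΔF + F = 0` is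
`V = al ∇F + bb ∇(F² + |∇F|²)` with the coefficients at `x = F`, `s = |∇F|² + ε²`.
-/

set_option autoImplicit false
open MeasureTheory Filter Topology Real
open scoped ContDiff

namespace Pool.Agent.Q73.PW

noncomputable section

/-- the mean of `Φ (r cos t)` -/
def mn (Φ : ℝ → ℝ) (r : ℝ) : ℝ := (∫ t in (0 : ℝ)..π, Φ (r * cos t)) / π

/-- the scaling derivative `x Φ' (x)` -/
def scd (Φ : ℝ → ℝ) (x : ℝ) : ℝ := x * deriv Φ x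

def fA (Φ : ℝ → ℝ) (r θ : ℝ) : ℝ := ∫ t in (0 : ℝ)..θ, (Φ (r * cos t) - mn Φ r)

def be (Φ : ℝ → ℝ) (r θ : ℝ) : ℝ :=
  sin θ ^ 2 * fA (scd Φ) r θ + sin θ * cos θ * (Φ (r * cos θ) - mn Φ r) - fA Φ r θ

def fB (Φ : ℝ → ℝ) (r θ : ℝ) : ℝ := (∫ t in (0 : ℝ)..θ, be Φ r t) / 2

/-- the coefficient of `∇F` -/
def al (Φ : ℝ → ℝ) (x s : ℝ) : ℝ := fA Φ √(x ^ 2 + s) (arccos (x / √(x ^ 2 + s))) / √s

/-- the coefficient of `∇(F² + |∇F|²)` -/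
def bb (Φ : ℝ → ℝ) (x s : ℝ) : ℝ := fB Φ √(x ^ 2 + s) (arccos (x / √(x ^ 2 + s))) / s

/-- smooth, even, bounded second derivative -/
structure Cls (Φ : ℝ → ℝ) (L : ℝ) : Prop where
  sm : ContDiff ℝ ∞ Φ
  ev : ∀ x, Φ (-x) = Φ x
  bd : ∀ x, |deriv (deriv Φ) x| ≤ L

/-- `Φ' (x) / x` is nondecreasing on `(0, ∞)` -/
def M0 (Φ : ℝ → ℝ) : Prop := ∀ x y, 0 < x → x ≤ y → deriv Φ x / x ≤ deriv Φ y / y

/-- `(x Φ')' / x` is nondecreasing on `(0, ∞)` -/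
def M1 (Φ : ℝ → ℝ) : Prop := M0 (scd Φ)

/-- `Φ''` is nondecreasing on `(0, ∞)` -/
def M2 (Φ : ℝ → ℝ) : Prop := ∀ x y, 0 < x → x ≤ y → deriv (deriv Φ) x ≤ deriv (deriv Φ) y

/-- partial derivatives of a function of `(x, s)` -/
def dx (f : ℝ → ℝ → ℝ) (x s : ℝ) : ℝ := deriv (fun t => f t s) x
def ds (f : ℝ → ℝ → ℝ) (x s : ℝ) : ℝ := deriv (fun t => f x t) s

/-- the properties of the coefficients `a`, `b` used in the estimates; `k = 1` in dimension two,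
`k = 1 / 2` in general -/
structure Fld (Φ : ℝ → ℝ) (a b : ℝ → ℝ → ℝ) (k C : ℝ) : Prop where
  C0 : 0 ≤ C
  sa : ContDiffOn ℝ ∞ (fun p : ℝ × ℝ => a p.1 p.2) {p | 0 < p.2}
  sb : ContDiffOn ℝ ∞ (fun p : ℝ × ℝ => b p.1 p.2) {p | 0 < p.2}
  r1 : ∀ x s, 0 < s → (dx a x s - 2 * x * ds a x s) * s - a x s * x = -(Φ x - mn Φ √(x ^ 2 + s))
  r2 : ∀ x s, 0 < s → ds a x s + dx b x s - 2 * x * ds b x s = 2 * x * (b x s / s)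
  r3 : ∀ x s, 0 < s → 0 ≤ ds b x s + k * (b x s / s)
  r4 : ∀ x s, 0 < s → 0 ≤ b x s
  b1 : ∀ x s, 0 < s → |a x s| ≤ C * √(x ^ 2 + s)
  b2 : ∀ x s, 0 < s → |dx a x s| ≤ C
  b3 : ∀ x s, 0 < s → |ds a x s| * s ≤ C * √(x ^ 2 + s)
  b4 : ∀ x s, 0 < s → b x s ≤ C
  b5 : ∀ x s, 0 < s → b x s / s ≤ C
  b6 : ∀ x s, 0 < s → |ds b x s| * s ≤ C
  b7 : ∀ x s, 0 < s → |dx b x s| * √(x ^ 2 + s) ≤ C

/-- J1: the sign of `be` and the monotonicity of `fB / sin θ`.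

Proof. Fix `r > 0`. Write `s = sin θ`, `c = cos θ`, `f (t) = Φ (r cos t)`, `g (t) = r cos t Φ' (r cos t)`
(`= scd Φ (r cos t)`), `f̄ = mn Φ r`, `ḡ = mn (scd Φ) r`, `e (θ) = fA (scd Φ) r θ = ∫_0^θ (g - ḡ)`. Evenness of
`Φ` gives `g (π - t) = g (t)`, so `ḡ = (2/π) ∫_0^{π/2} g`, `fA Φ r (π/2) = e (π/2) = 0`, `be = 0` at
`θ = 0` and at `θ = π/2`.
(1) For `0 < θ < π/2`: `be' = s² γ`, `γ = 2 (c/s) e - ḡ - 2 (f - f̄)`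
(use `f' (t) = - r sin t Φ' (r cos t)`, so `s² g + s c f' = 0`).
(2) `γ' = (2/s²) δ`, `δ (θ) = - ∫_0^θ g + (θ - s c) ḡ + r s Φ' (r c)`.
(3) `δ ≤ 0` on `(0, π/2)`: let `k (t) = Φ' (r cos t) / (r cos t)`, nonincreasing on `[0, π/2)` by `M0`,
`g = r² cos² t k (t)`, `κ = k (θ)`. As `∫_0^θ r² cos² = r² (θ + s c)/2` and
`(2/π) ∫_0^{π/2} r² cos² = r²/2`, `δ = - ∫_0^θ r² cos² t (k (t) - κ) dt +
(2/π) (θ - s c) ∫_0^{π/2} r² cos² t (k (t) - κ) dt`, and `k (t) ≤ κ` for `t > θ`, `0 ≤ θ - s c ≤ π/2`, so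
`δ ≤ - (1 - (2/π)(θ - s c)) ∫_0^θ r² cos² t (k - κ) ≤ 0`.
(4) So `γ` is nonincreasing on `(0, π/2)`. If `γ (θ) ≥ 0` then `be' ≥ 0` on `(0, θ)` and `be (θ) ≥ be (0) = 0`;
if `γ (θ) ≤ 0` then `be' ≤ 0` on `(θ, π/2)` and `be (θ) ≥ be (π/2) = 0`.
(5) Second claim. Let `S (θ) = ∫_0^θ sin² = (θ - s c)/2`, `S (π/2) = π/4`. For `0 ≤ t ≤ θ < π/2`:
`be (θ) (π/4 - S (t)) ≥ be (t) (π/4 - S (θ))` (concavity of `be` as a function of `S`, that is: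
`be (θ) - be (t) ≥ γ (θ) (S (θ) - S (t))` and `- be (θ) = be (π/2) - be (θ) ≤ γ (θ) (π/4 - S (θ))`, from (1),
(4); if `γ (θ) ≥ 0` directly). Integrate over `t ∈ [0, θ]`, with `∫_0^θ S = (θ² - s²)/4`:
`(π/4 - S (θ)) ∫_0^θ be ≤ be (θ) (π θ/4 - (θ² - s²)/4)`. Finally
`c (π θ - θ² + s²) ≤ s (π - 2 θ + 2 s c)` on `[0, π/2]`, since
`W (θ) = tan θ (1 - (2/π)(θ - s c)) - θ + (θ² - s²)/π` has `W (0) = 0` and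
`W' = tan² θ (1 - (2/π)(θ + s c)) ≥ 0` (`θ + s c` is nondecreasing, `π/2` at `π/2`). For `θ = π/2` the
claim is `0 ≤ be`. -/
def J1 : Prop := ∀ Φ : ℝ → ℝ, ContDiff ℝ ∞ Φ → (∀ x, Φ (-x) = Φ x) → M0 Φ → ∀ r θ : ℝ, 0 < r →
  0 ≤ θ → θ ≤ π / 2 → 0 ≤ be Φ r θ ∧ cos θ * ∫ t in (0 : ℝ)..θ, be Φ r t ≤ sin θ * be Φ r θ

/-- J2: calculus of `fA`, `fB`.

Proof. `fA Φ r θ = θ ∫_0^1 (Φ (r cos (θ u)) - mn Φ r) du`, `fB Φ r θ = (θ/2) ∫_0^1 be Φ r (θ u) du` and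
`Pool.Agent.H66R2.RZPar.contDiff_int`, `hasDerivAt_int` (file Pool/Agent/H66R2/RZ_Par.lean). The derivatives in
`r`: `r ∂_r [Φ (r cos t)] = scd Φ (r cos t)`; all operations (`mn`, `fA`, `be`, `fB`) commute with
`r ∂_r`, e.g. `r ∂_r (be Φ) = be (scd Φ)`. -/
def J2 : Prop := ∀ Φ : ℝ → ℝ, ContDiff ℝ ∞ Φ →
  ContDiff ℝ ∞ (fun r => mn Φ r) ∧
  ContDiff ℝ ∞ (fun p : ℝ × ℝ => fA Φ p.1 p.2) ∧
  ContDiff ℝ ∞ (fun p : ℝ × ℝ => be Φ p.1 p.2) ∧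
  ContDiff ℝ ∞ (fun p : ℝ × ℝ => fB Φ p.1 p.2) ∧
  (∀ r, r ≠ 0 → HasDerivAt (fun r => mn Φ r) (mn (scd Φ) r / r) r) ∧
  (∀ r θ, HasDerivAt (fun θ => fA Φ r θ) (Φ (r * cos θ) - mn Φ r) θ) ∧
  (∀ r θ, r ≠ 0 → HasDerivAt (fun r => fA Φ r θ) (fA (scd Φ) r θ / r) r) ∧
  (∀ r θ, HasDerivAt (fun θ => fB Φ r θ) (be Φ r θ / 2) θ) ∧
  (∀ r θ, r ≠ 0 → HasDerivAt (fun r => fB Φ r θ) (fB (scd Φ) r θ / r) r) ∧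
  (∀ Ψ : ℝ → ℝ, ContDiff ℝ ∞ Ψ → ∀ c r θ, fB (fun x => Φ x - c * Ψ x) r θ = fB Φ r θ - c * fB Ψ r θ)

/-- J3: symmetry and signs on `[0, π]`.

Proof. The symmetries: substitute `t → π - t`; `fA Φ r π = 0`, `∫_0^π be = 0`. Signs: on `[0, π/2]` from J1,
on `[π/2, π]` by the symmetries (`cos` changes sign, `be` too). `fB (scd Φ) ≥ 0` from J1 for `scd Φ` (even)
if `M1 Φ`. `M2 → M0`: `Φ' (0) = 0` and `Φ' (x)/x = ∫_0^1 Φ'' (x u) du`; `M2 → M1`: `(scd Φ)'/x = Φ'/x + Φ''`.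
Last claim: `sin² (fB (scd Φ) - fB Φ) + (cos/2) (sin be - cos ∫_0^θ be)`, and
`fB (scd Φ) - fB Φ = fB (x Φ' - Φ) ≥ 0`, since `(x Φ' - Φ)' = x Φ''`, so `M0 (x Φ' - Φ)` is `M2 Φ`; the second
term is J1. -/
def J3 : Prop := ∀ Φ : ℝ → ℝ, ContDiff ℝ ∞ Φ → (∀ x, Φ (-x) = Φ x) →
  (∀ r θ, fA Φ r (π - θ) = -fA Φ r θ) ∧ (∀ r θ, be Φ r (π - θ) = -be Φ r θ) ∧
  (∀ r θ, fB Φ r (π - θ) = fB Φ r θ) ∧
  (M0 Φ → ∀ r θ, 0 < r → 0 ≤ θ → θ ≤ π → 0 ≤ fB Φ r θ) ∧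
  (M0 Φ → M1 Φ → ∀ r θ, 0 < r → 0 ≤ θ → θ ≤ π →
    0 ≤ sin θ * fB (scd Φ) r θ + cos θ * be Φ r θ / 2) ∧
  (M2 Φ → M0 Φ ∧ M1 Φ) ∧
  (M2 Φ → ∀ r θ, 0 < r → 0 ≤ θ → θ ≤ π →
    0 ≤ sin θ ^ 2 * fB (scd Φ) r θ + sin θ * cos θ * be Φ r θ / 2 - fB Φ r θ)

/-- J4: bounds.

Proof. For `|x|, |y| ≤ r`: `|Φ (x) - Φ (y)| ≤ L |x² - y²| / 2 ≤ L r²`. `|scd Φ (x)| ≤ L r²` for `|x| ≤ r`, so
`|fA (scd Φ) r θ| ≤ 2 L r² θ` and by symmetry `≤ K L r² sin θ`. For `be` on `[0, π/2]`: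
`be (θ) = ∫_0^θ sin² γ` with `γ` from the proof of J1 (no monotonicity needed there), `|γ| ≤ K L r²`; so
`|be| ≤ K L r² θ³`, `θ ≤ (π/2) sin θ`. `fB = (1/2) ∫_0^θ be`. On `[π/2, π]` the symmetries of J3 (first three
claims). The hypothesis forces `L ≥ 0`. -/
def J4 : Prop := ∃ K : ℝ, 0 ≤ K ∧ ∀ (Φ : ℝ → ℝ) (L r : ℝ), ContDiff ℝ ∞ Φ → (∀ x, Φ (-x) = Φ x) →
  0 < r → (∀ x, |x| ≤ r → |deriv Φ x| ≤ L * |x|) →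
  (∀ θ, |Φ (r * cos θ) - mn Φ r| ≤ K * L * r ^ 2) ∧
  ∀ θ, 0 ≤ θ → θ ≤ π → |fA Φ r θ| ≤ K * L * r ^ 2 * sin θ ∧
    |be Φ r θ| ≤ K * L * r ^ 2 * sin θ ^ 3 ∧ |fB Φ r θ| ≤ K * L * r ^ 2 * sin θ ^ 4

/-- J4': the better bound near zero.

Proof. Let `κ = Φ'' (0)`, `Φ' (0) = 0 = Φ''' (0)`. There is `L'` with `|Φ' (x) - κ x| ≤ L' |x|³` for all `x`
(Taylor for `|x| ≤ 1`, for `|x| ≥ 1` from `|Φ'| ≤ L |x|`). `fB` of `x ↦ x²` vanishes (`fA = r² sin θ cos θ / 2`,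
`be = 0`). Apply J4 to `Φ (x) - (κ/2) x²` with `L' r²` in place of `L`, and the linearity in J2. -/
def J4' : Prop := ∀ (Φ : ℝ → ℝ) (L : ℝ), Cls Φ L → ∃ C : ℝ, 0 ≤ C ∧ ∀ r θ, 0 < r → 0 ≤ θ → θ ≤ π →
  |fB Φ r θ| ≤ C * r ^ 4 * sin θ ^ 4

/-- J5: the coefficients.

Proof. Put `r = √(x² + s)`, `θ = arccos (x / r) ∈ (0, π)`, so `x = r cos θ`, `√s = r sin θ`. Smoothness: J2 and
smoothness of `arccos` on `(-1, 1)`. `∂_x r = cos θ`, `∂_x θ = - sin θ / r`, `∂_s r = 1/(2r)`,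
`∂_s θ = cos θ / (2 r² sin θ)`. Hence
`ds al = be / (2 s^{3/2})`, `dx al = (cos θ fA (scd Φ) / r - sin θ (Φ (x) - mn Φ r) / r) / √s`,
`ds bb = (fB (scd Φ) / (2 r²) + be cos θ / (4 r² sin θ)) / s - fB / s²`,
`dx bb = (cos θ fB (scd Φ) / r - sin θ be / (2 r)) / s`, and `r1`, `r2` follow by algebra (checked numerically).
`ds bb + bb / s = (sin θ fB (scd Φ) + cos θ be / 2) / (2 r² s sin θ)`,
`ds bb + bb / (2 s) = (sin² θ fB (scd Φ) + sin θ cos θ be / 2 - fB) / (2 s²)`: J3. The bounds from J4 for `Φ`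
(constant `L`) and `scd Φ` (constant `2 L`, as `(x Φ')' = Φ' + x Φ''`), `b5` from J4'. -/
def J5 : Prop := ∀ (Φ : ℝ → ℝ) (L : ℝ), Cls Φ L →
  (M0 Φ → M1 Φ → ∃ C, Fld Φ (al Φ) (bb Φ) 1 C) ∧ (M2 Φ → ∃ C, Fld Φ (al Φ) (bb Φ) (1 / 2) C)

end

end Pool.Agent.Q73.PW
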