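import Pool.Agent.Q73.NL.F3

/-!
# Project PW: the Neumann eigenfunctions `√2 cos (n x)` of the square
-/

set_option autoImplicit false
open MeasureTheory Filter Topology Complex
open scoped ContDiff ENNReal

namespace Pool.Agent.Q73.PW.Ex

noncomputable section

open Pool.Agent.Q73.NL (sq vol_sq)

def nm (n : ℕ) (z : ℂ) : ℝ := √2 * Real.cos (n * z.re)

theorem nm_smooth (n : ℕ) : ContDiff ℝ ∞ (nm n) := by
  unfold nm
  have h1 : ContDiff ℝ ∞ (fun z : ℂ => z.re) := Complex.reCLM.contDiff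
  fun_prop

theorem nm_dx (n : ℕ) : (fun z => fderiv ℝ (nm n) z 1) = fun z => -(√2 * n * Real.sin (n * z.re)) := by
  funext z
  have h1 : HasFDerivAt (fun z : ℂ => z.re) Complex.reCLM z := Complex.reCLM.hasFDerivAt
  have h3 := ((h1.const_mul (n : ℝ)).cos).const_mul √2
  have h4 : fderiv ℝ (nm n) z = _ := h3.fderiv
  rw [h4]
  simp
  ring

theorem nm_dy (n : ℕ) : (fun z => fderiv ℝ (nm n) z I) = fun _ => 0 := by
  funext z
  have h1 : HasFDerivAt (fun z : ℂ => z.re) Complex.reCLM z := Complex.reCLM.hasFDerivAt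
  have h3 := ((h1.const_mul (n : ℝ)).cos).const_mul √2
  have h4 : fderiv ℝ (nm n) z = _ := h3.fderiv
  rw [h4]
  simp

theorem nm_lap (n : ℕ) (z : ℂ) : (fderiv ℝ (fun w => fderiv ℝ (nm n) w 1) z 1 +
    fderiv ℝ (fun w => fderiv ℝ (nm n) w I) z I) + (n : ℝ) ^ 2 * nm n z = 0 := by
  rw [nm_dx, nm_dy]
  have h1 : HasFDerivAt (fun z : ℂ => z.re) Complex.reCLM z := Complex.reCLM.hasFDerivAt
  have h3 := (((h1.const_mul (n : ℝ)).sin).const_mul (√2 * n)).neg
  have h4 : fderiv ℝ (fun z : ℂ => -(√2 * n * Real.sin (n * z.re))) z = _ := h3.fderiv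
  rw [h4]
  simp [nm]
  ring

theorem int_sq (g : ℝ → ℝ) : ∫ z in sq, g z.re = Real.pi * ∫ x in (0 : ℝ)..Real.pi, g x := by
  have h1 : sq = Complex.measurableEquivRealProd ⁻¹'
      (Set.Ioo 0 Real.pi ×ˢ Set.Ioo 0 Real.pi) := by
    ext z; rfl
  have h2 : ∫ z in sq, g z.re = ∫ z in Complex.measurableEquivRealProd ⁻¹'
      (Set.Ioo 0 Real.pi ×ˢ Set.Ioo 0 Real.pi), (fun p : ℝ × ℝ => g p.1 * 1) (Complex.measurableEquivRealProd z) := by
    rw [h1]
    refine setIntegral_congr_fun ?_ fun z _ => ?_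
    · exact Complex.measurableEquivRealProd.measurable (measurableSet_Ioo.prod measurableSet_Ioo)
    · show g z.re = g z.re * 1
      rw [mul_one]
  rw [h2, Complex.volume_preserving_equiv_real_prod.setIntegral_preimage_emb
    Complex.measurableEquivRealProd.measurableEmbedding (fun p : ℝ × ℝ => g p.1 * 1), Measure.volume_eq_prod,
    setIntegral_prod_mul g (fun _ => (1 : ℝ)), setIntegral_const, smul_eq_mul, mul_one,
    intervalIntegral.integral_of_le Real.pi_pos.le, integral_Ioc_eq_integral_Ioo]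
  simp [Real.pi_pos.le]
  ring

theorem per {Φ : ℝ → ℝ} (hΦ : Continuous Φ) (ev : ∀ x, Φ (-x) = Φ x) (n : ℕ) (hn : 1 ≤ n) :
    ∫ x in (0 : ℝ)..Real.pi, Φ (√2 * Real.cos (n * x)) = ∫ t in (0 : ℝ)..Real.pi, Φ (√2 * Real.cos t) := by
  have n0 : (n : ℝ) ≠ 0 := by positivity
  have h1 := intervalIntegral.integral_comp_mul_left (a := 0) (b := Real.pi)
    (fun t => Φ (√2 * Real.cos t)) n0
  rw [h1, mul_zero, smul_eq_mul]
  have hp : Function.Periodic (fun t => Φ (√2 * Real.cos t)) Real.pi := by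
    intro t
    show Φ (√2 * Real.cos (t + Real.pi)) = Φ (√2 * Real.cos t)
    rw [Real.cos_add_pi, mul_neg, ev]
  have hc : Continuous fun t => Φ (√2 * Real.cos t) := hΦ.comp (by fun_prop)
  have h2 := hp.intervalIntegral_add_zsmul_eq n 0 (fun a b => hc.intervalIntegrable a b)
  rw [zero_add, zero_add, natCast_zsmul, natCast_zsmul, nsmul_eq_mul, nsmul_eq_mul] at h2
  rw [h2]
  field_simp

theorem mean_nm {Φ : ℝ → ℝ} (hΦ : Continuous Φ) (ev : ∀ x, Φ (-x) = Φ x) (n : ℕ) (hn : 1 ≤ n) :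
    (∫ z in sq, Φ (nm n z)) / (volume sq).toReal =
      (∫ t in (0 : ℝ)..Real.pi, Φ (√2 * Real.cos t)) / Real.pi := by
  have h1 := int_sq (fun x => Φ (√2 * Real.cos (n * x)))
  have h2 : ∫ z in sq, Φ (nm n z) = Real.pi * ∫ t in (0 : ℝ)..Real.pi, Φ (√2 * Real.cos t) := by
    rw [← per hΦ ev n hn]
    exact h1
  rw [h2, vol_sq, ENNReal.toReal_ofReal (by positivity)]
  have := Real.pi_pos
  field_simp

theorem mean_sq (n : ℕ) (hn : 1 ≤ n) : (∫ z in sq, nm n z ^ 2) / (volume sq).toReal = 1 := by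
  have h := mean_nm (Φ := fun x => x ^ 2) (continuous_pow 2) (fun x => by ring) n hn
  refine h.trans ?_
  have e : ∀ t : ℝ, (√2 * Real.cos t) ^ 2 = 2 * Real.cos t ^ 2 := fun t => by
    rw [mul_pow, Real.sq_sqrt zero_le_two]
  simp only [e]
  rw [intervalIntegral.integral_const_mul, integral_cos_sq]
  have := Real.pi_pos
  simp
  field_simp

theorem ex (n : ℕ) (hn : 1 ≤ n) : ContDiff ℝ ∞ (nm n) ∧
    (∀ z, (fderiv ℝ (fun w => fderiv ℝ (nm n) w 1) z 1 +
      fderiv ℝ (fun w => fderiv ℝ (nm n) w I) z I) + (n : ℝ) ^ 2 * nm n z = 0) ∧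
    (∀ z : ℂ, (z.re = 0 ∨ z.re = Real.pi) → fderiv ℝ (nm n) z 1 = 0) ∧
    (∀ z, fderiv ℝ (nm n) z I = 0) ∧
    (∫ z in sq, nm n z ^ 2) / (volume sq).toReal = 1 ∧
    ∀ Φ : ℝ → ℝ, Continuous Φ → (∀ x, Φ (-x) = Φ x) →
      (∫ z in sq, Φ (nm n z)) / (volume sq).toReal =
        (∫ t in (0 : ℝ)..Real.pi, Φ (√2 * Real.cos t)) / Real.pi := by
  refine ⟨nm_smooth n, nm_lap n, fun z hz => ?_, fun z => congrFun (nm_dy n) z, mean_sq n hn,
    fun Φ hΦ ev => mean_nm hΦ ev n hn⟩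
  have := congrFun (nm_dx n) z
  rw [this]
  rcases hz with h | h
  · rw [h]; simp
  · rw [h]; simp [Real.sin_nat_mul_pi]

end

end Pool.Agent.Q73.PW.Ex
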