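import Pool.Agent.Q73.PW.Stm3

/-!
# Project PW: gluing
-/

set_option autoImplicit false
open MeasureTheory Filter Topology Real
open scoped ContDiff ENNReal

namespace Pool.Agent.Q73.PW

noncomputable section

namespace Gl

lemma dzero {Φ : ℝ → ℝ} {L : ℝ} (h : Cls Φ L) : deriv Φ 0 = 0 := by
  have e : deriv (fun x => Φ (-x)) 0 = -deriv Φ (-0) := deriv_comp_neg Φ 0
  have e2 : (fun x => Φ (-x)) = Φ := funext h.ev
  rw [e2, neg_zero] at e
  linarith

lemma dd {Φ : ℝ → ℝ} {L : ℝ} (h : Cls Φ L) : Differentiable ℝ Φ :=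
  h.sm.differentiable (by norm_num)

lemma dd2 {Φ : ℝ → ℝ} {L : ℝ} (h : Cls Φ L) : Differentiable ℝ (deriv Φ) := by
  have : ContDiff ℝ ∞ (deriv Φ) := (contDiff_infty_iff_deriv.1 h.sm).2
  exact this.differentiable (by norm_num)

lemma dbd {Φ : ℝ → ℝ} {L : ℝ} (h : Cls Φ L) (x : ℝ) : |deriv Φ x| ≤ L * |x| := by
  have := Convex.norm_image_sub_le_of_norm_deriv_le (f := deriv Φ) (s := Set.univ) (C := L)
    (fun y _ => (dd2 h) y) (fun y _ => by rw [Real.norm_eq_abs]; exact h.bd y) convex_univ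
    (Set.mem_univ 0) (Set.mem_univ x)
  rw [dzero h, sub_zero, sub_zero] at this
  exact this

lemma L0 {Φ : ℝ → ℝ} {L : ℝ} (h : Cls Φ L) : 0 ≤ L := (abs_nonneg _).trans (h.bd 0)

/-- comparison of derivatives on a half line -/
lemma half {f g : ℝ → ℝ} {X : ℝ} (hf : Differentiable ℝ f) (hg : Differentiable ℝ g)
    (h : ∀ x, X < x → deriv f x ≤ deriv g x) {x : ℝ} (hx : X ≤ x) : f x - f X ≤ g x - g X := by
  have : MonotoneOn (fun x => g x - f x) (Set.Ici X) := by
    refine monotoneOn_of_deriv_nonneg (convex_Ici X) (hg.continuous.sub hf.continuous).continuousOn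
      (hg.sub hf).differentiableOn fun y hy => ?_
    rw [interior_Ici] at hy
    have e : deriv (fun x => g x - f x) y = deriv g y - deriv f y :=
      deriv_fun_sub (hg y) (hf y)
    rw [e]
    have := h y hy
    linarith
  have := this (Set.mem_Ici.2 le_rfl) (Set.mem_Ici.2 hx) hx
  simp only at this
  linarith

lemma dq (κ x : ℝ) : deriv (fun x : ℝ => κ * x ^ 2) x = 2 * κ * x := by
  have : HasDerivAt (fun x : ℝ => κ * x ^ 2) (κ * (2 * x)) x := by
    simpa using (hasDerivAt_pow 2 x).const_mul κ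
  rw [this.deriv]; ring

/-- the quadratic rate at infinity -/
lemma quad {Φ : ℝ → ℝ} {L : ℝ} (h : Cls Φ L) (m0 : M0 Φ) : ∃ κ : ℝ, (∀ x, Φ x ≤ Φ 0 + κ * x ^ 2) ∧
    ∀ η : ℝ, 0 < η → ∃ C : ℝ, 0 ≤ C ∧ ∀ x, (κ - η) * x ^ 2 - C ≤ Φ x := by
  obtain ⟨T, hT⟩ : ∃ T : Set ℝ, T = (fun x => deriv Φ x / x) '' Set.Ioi 0 := ⟨_, rfl⟩
  have ne : T.Nonempty := by rw [hT]; exact ⟨_, 1, Set.mem_Ioi.2 one_pos, rfl⟩
  have bd : BddAbove T := by
    refine ⟨L, ?_⟩
    rw [hT]
    rintro _ ⟨x, hx, rfl⟩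
    have hx : 0 < x := hx
    show deriv Φ x / x ≤ L
    rw [div_le_iff₀ hx]
    have := (le_abs_self _).trans (dbd h x)
    rwa [abs_of_pos hx] at this
  have up : ∀ x, 0 < x → deriv Φ x ≤ sSup T * x := by
    intro x hx
    have : deriv Φ x / x ≤ sSup T := le_csSup bd (by rw [hT]; exact ⟨x, hx, rfl⟩)
    rwa [div_le_iff₀ hx] at this
  have dp : ∀ κ : ℝ, Differentiable ℝ fun x : ℝ => κ * x ^ 2 := fun κ => by fun_prop
  have ev : ∀ x, Φ x = Φ |x| := by
    intro x
    rcases abs_choice x with e | e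
    · rw [e]
    · rw [e, h.ev]
  refine ⟨sSup T / 2, fun x => ?_, fun η hη => ?_⟩
  · have := half (X := 0) (dd h) (dp (sSup T / 2)) (fun y hy => by
      rw [dq]
      have := up y hy
      linarith) (abs_nonneg x)
    rw [← ev] at this
    simp only [sq_abs] at this
    linarith
  · obtain ⟨_, ht, hlt⟩ := exists_lt_of_lt_csSup ne (show sSup T - 2 * η < sSup T by linarith)
    rw [hT] at ht
    obtain ⟨X, hX, rfl⟩ := ht
    have hX : 0 < X := hX
    obtain ⟨κ, hκ⟩ : ∃ κ, κ = sSup T / 2 - η := ⟨_, rfl⟩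
    refine ⟨|Φ X| + |κ| * X ^ 2 + |Φ 0| + L * X ^ 2, by have := L0 h; positivity, fun x => ?_⟩
    rw [← hκ]
    have n1 := L0 h
    rcases le_total X |x| with hx | hx
    · have := half (X := X) (dp κ) (dd h) (fun y hy => by
        have y0 : 0 < y := hX.trans hy
        have h1 := hlt.le.trans (m0 X y hX hy.le)
        rw [le_div_iff₀ y0] at h1
        rw [dq]
        have : 2 * κ * y = (sSup T - 2 * η) * y := by rw [hκ]; ring
        linarith) hx
      rw [← ev] at this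
      simp only [sq_abs] at this
      have a1 := neg_abs_le (Φ X)
      have a2 : κ * X ^ 2 ≤ |κ| * X ^ 2 := by gcongr; exact le_abs_self _
      have a3 : 0 ≤ |Φ 0| + L * X ^ 2 := by positivity
      linarith
    · have a4 : x ^ 2 ≤ X ^ 2 := by rw [← sq_abs x]; gcongr
      have a5 : κ * x ^ 2 ≤ |κ| * X ^ 2 := by
        calc κ * x ^ 2 ≤ |κ| * x ^ 2 := by gcongr; exact le_abs_self _
          _ ≤ |κ| * X ^ 2 := by gcongr
      have a6 : Φ 0 - Φ x ≤ L * X ^ 2 := by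
        have := half (f := fun x => -Φ x) (g := fun x => L * x ^ 2) (X := 0) (dd h).neg (dp L) (fun y hy => by
          have y0 : 0 < y := hy
          have e : deriv (fun x => -Φ x) y = -deriv Φ y := deriv.fun_neg
          rw [e, dq]
          have := neg_abs_le (deriv Φ y)
          have b := dbd h y
          rw [abs_of_pos y0] at b
          nlinarith) (abs_nonneg x)
        rw [← ev, sq_abs] at this
        have b : L * x ^ 2 ≤ L * X ^ 2 := by gcongr
        linarith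
      have a7 := neg_abs_le (Φ 0)
      have a8 := abs_nonneg (Φ X)
      linarith

lemma mn_le {Φ : ℝ → ℝ} {L κ : ℝ} (h : Cls Φ L) (hκ : ∀ x, Φ x ≤ Φ 0 + κ * x ^ 2) {p : ℝ} (hp : 0 ≤ p) :
    mn Φ √p ≤ Φ 0 + κ * p / 2 := by
  unfold mn
  rw [div_le_iff₀ pi_pos]
  have c1 : Continuous fun t : ℝ => Φ (√p * cos t) := h.sm.continuous.comp (by fun_prop)
  have c2 : Continuous fun t : ℝ => Φ 0 + κ * p * cos t ^ 2 := by fun_prop
  calc ∫ t in (0 : ℝ)..π, Φ (√p * cos t) ≤ ∫ t in (0 : ℝ)..π, (Φ 0 + κ * p * cos t ^ 2) := by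
        refine intervalIntegral.integral_mono_on pi_pos.le (c1.intervalIntegrable _ _)
          (c2.intervalIntegrable _ _) fun t _ => ?_
        refine (hκ _).trans (le_of_eq ?_)
        rw [mul_pow, Real.sq_sqrt hp]; ring
    _ = (Φ 0 + κ * p / 2) * π := by
        rw [intervalIntegral.integral_add (by simp) (Continuous.intervalIntegrable (by fun_prop) _ _),
          intervalIntegral.integral_const_mul, integral_cos_sq]
        simp
        ring

/-- two terms -/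
lemma two {G : ℝ → ℝ} (hG : ConvexOn ℝ (Set.Ici 0) G) {M N S R : ℝ} (hM : 0 ≤ M) (hN : 0 ≤ N) (hS : 0 ≤ S)
    (hR : 0 ≤ R) (h1 : M = 0 → S = 0) (h2 : N = 0 → R = 0) :
    (M + N) * G ((S + R) / (M + N)) ≤ M * G (S / M) + N * G (R / N) := by
  rcases hM.eq_or_lt with rfl | M0
  · rw [h1 rfl]; simp
  rcases hN.eq_or_lt with rfl | N0
  · rw [h2 rfl]; simp
  have hMN : 0 < M + N := by positivity
  have m1 : S / M ∈ Set.Ici (0 : ℝ) := Set.mem_Ici.2 (by positivity)
  have m2 : R / N ∈ Set.Ici (0 : ℝ) := Set.mem_Ici.2 (by positivity)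
  have a1 : 0 ≤ M / (M + N) := by positivity
  have a2 : 0 ≤ N / (M + N) := by positivity
  have a3 : M / (M + N) + N / (M + N) = 1 := by field_simp
  have := hG.2 m1 m2 a1 a2 a3
  simp only [smul_eq_mul] at this
  have e : M / (M + N) * (S / M) + N / (M + N) * (R / N) = (S + R) / (M + N) := by
    field_simp
  rw [e] at this
  calc (M + N) * G ((S + R) / (M + N)) ≤ (M + N) * (M / (M + N) * G (S / M) + N / (M + N) * G (R / N)) := by
        gcongr
    _ = _ := by field_simp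

lemma many {G : ℝ → ℝ} (hG : ConvexOn ℝ (Set.Ici 0) G) {ι : Type*} (s : Finset ι) {M S : ι → ℝ}
    (hM : ∀ j, 0 ≤ M j) (hS : ∀ j, 0 ≤ S j) (h0 : ∀ j, M j = 0 → S j = 0) :
    (∑ j ∈ s, M j) * G ((∑ j ∈ s, S j) / ∑ j ∈ s, M j) ≤ ∑ j ∈ s, M j * G (S j / M j) := by
  classical
  induction s using Finset.induction_on with
  | empty => simp
  | insert a s ha ih =>
    rw [Finset.sum_insert ha, Finset.sum_insert ha, Finset.sum_insert ha]
    refine (two hG (hM a) (Finset.sum_nonneg fun j _ => hM j) (hS a) (Finset.sum_nonneg fun j _ => hS j)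
      (h0 a) fun h => ?_).trans (by linarith)
    refine Finset.sum_eq_zero fun j hj => h0 j ?_
    exact (Finset.sum_eq_zero_iff_of_nonneg fun j _ => hM j).1 h j hj

/-- **Gluing.** -/
theorem glue {X : Type*} [MeasurableSpace X] {μ : Measure X} {D : Set X} (hf : μ D ≠ ⊤)
    {f : ℕ → X → ℝ} {B : ℝ} (mf : ∀ n, AEStronglyMeasurable (f n) (μ.restrict D))
    (hi : ∀ n, IntegrableOn (fun x => f n x ^ 2) D μ) (hB : ∀ n, ∫ x in D, f n x ^ 2 ∂μ ≤ B)
    {Φ : ℝ → ℝ} {L : ℝ} (hΦ : Cls Φ L) (m0 : M0 Φ) (a2 : A2)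
    (H : ∀ ε : ℝ, 0 < ε → ∃ (m : ℕ) (w : Fin m → X → ℝ), (∀ j, Measurable (w j)) ∧ (∀ j x, 0 ≤ w j x) ∧
      (∀ x, ∑ j, w j x ≤ 1) ∧ (∫ x in D, (1 - ∑ j, w j x) ∂μ ≤ ε) ∧
      ∀ j, ∀ η : ℝ, 0 < η → ∀ᶠ n in atTop,
        (∫ x in D, w j x ∂μ) * mn Φ √((2 * ∫ x in D, w j x * f n x ^ 2 ∂μ) / ∫ x in D, w j x ∂μ) ≤
          (∫ x in D, w j x * Φ (f n x) ∂μ) + η) {η : ℝ} (hη : 0 < η) :
    ∀ᶠ n in atTop, (μ D).toReal * mn Φ √((2 * ∫ x in D, f n x ^ 2 ∂μ) / (μ D).toReal) ≤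
      (∫ x in D, Φ (f n x) ∂μ) + η := by
  have hfin : IsFiniteMeasure (μ.restrict D) := ⟨by rw [Measure.restrict_apply_univ]; exact lt_top_iff_ne_top.2 hf⟩
  have B0 : 0 ≤ B := (integral_nonneg fun z => sq_nonneg _).trans (hB 0)
  obtain ⟨κ, k1, k2⟩ := quad hΦ m0
  obtain ⟨C, C0, k3⟩ := k2 (η / (6 * (B + 1))) (by positivity)
  have cv : ConvexOn ℝ (Set.Ici 0) (fun p => mn Φ √p) := (a2 Φ L hΦ).2.2.1 m0
  obtain ⟨ε, hε⟩ : ∃ ε, ε = η / (6 * (|Φ 0| + C + 1)) := ⟨_, rfl⟩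
  have ε0 : 0 < ε := by rw [hε]; positivity
  obtain ⟨m, w, w1, w2, w3, w4, w5⟩ := H ε ε0
  have ev : ∀ᶠ n in atTop, ∀ j, (∫ x in D, w j x ∂μ) *
      mn Φ √((2 * ∫ x in D, w j x * f n x ^ 2 ∂μ) / ∫ x in D, w j x ∂μ) ≤
        (∫ x in D, w j x * Φ (f n x) ∂μ) + η / (3 * (m + 1)) :=
    eventually_all.2 fun j => w5 j _ (by positivity)
  filter_upwards [ev] with n hn
  -- notation
  obtain ⟨w0, hw0⟩ : ∃ w0 : X → ℝ, w0 = fun x => 1 - ∑ j, w j x := ⟨_, rfl⟩
  have mw0 : Measurable w0 := by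
    rw [hw0]
    exact measurable_const.sub (Finset.measurable_sum _ fun j _ => w1 j)
  have w0n : ∀ x, 0 ≤ w0 x := fun x => by rw [hw0]; have := w3 x; simp only; linarith
  have w01 : ∀ x, w0 x ≤ 1 := fun x => by
    rw [hw0]
    have := Finset.sum_nonneg (s := Finset.univ) fun j _ => w2 j x
    simp only; linarith
  have wj1 : ∀ j x, w j x ≤ 1 := fun j x =>
    (Finset.single_le_sum (f := fun j => w j x) (fun j _ => w2 j x) (Finset.mem_univ j)).trans (w3 x)
  have iw : ∀ {v : X → ℝ}, Measurable v → (∀ x, 0 ≤ v x) → (∀ x, v x ≤ 1) → ∀ {g : X → ℝ},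
      Integrable g (μ.restrict D) → Integrable (fun x => v x * g x) (μ.restrict D) := by
    intro v mv v0 v1 g hg
    refine Integrable.bdd_mul (c := 1) hg mv.aestronglyMeasurable (ae_of_all _ fun z => ?_)
    rw [Real.norm_eq_abs, abs_of_nonneg (v0 z)]
    exact v1 z
  have iw' : ∀ {v : X → ℝ}, Measurable v → (∀ x, 0 ≤ v x) → (∀ x, v x ≤ 1) →
      Integrable v (μ.restrict D) := by
    intro v mv v0 v1
    have := iw mv v0 v1 (g := fun _ => 1) (integrable_const _)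
    simp only [mul_one] at this
    exact this
  have i2 : Integrable (fun x => f n x ^ 2) (μ.restrict D) := hi n
  have iΦ : Integrable (fun x => Φ (f n x)) (μ.restrict D) := by
    refine Integrable.mono' (g := fun x => |Φ 0| + (|κ| + |κ - η / (6 * (B + 1))|) * f n x ^ 2 + C)
      (((integrable_const _).add (i2.const_mul _)).add (integrable_const _))
      (hΦ.sm.continuous.comp_aestronglyMeasurable (mf n)) (ae_of_all _ fun x => ?_)
    rw [Real.norm_eq_abs, abs_le]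
    have a1 := k1 (f n x)
    have a3 := k3 (f n x)
    have b1 := neg_abs_le (Φ 0)
    have b2 := le_abs_self (Φ 0)
    have b3 := neg_abs_le (κ - η / (6 * (B + 1)))
    have b4 := le_abs_self κ
    have b5 := abs_nonneg (κ - η / (6 * (B + 1)))
    have b6 := abs_nonneg κ
    have sq := sq_nonneg (f n x)
    constructor <;> nlinarith
  have nS : 0 ≤ ∫ x in D, f n x ^ 2 ∂μ := integral_nonneg fun x => sq_nonneg _
  -- zero mass
  have zero : ∀ {v : X → ℝ}, Measurable v → (∀ x, 0 ≤ v x) → (∀ x, v x ≤ 1) →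
      ∫ x in D, v x ∂μ = 0 → ∫ x in D, v x * f n x ^ 2 ∂μ = 0 := by
    intro v mv v0 v1 h
    have h1 := (integral_eq_zero_iff_of_nonneg (μ := μ.restrict D) v0 (iw' mv v0 v1)).1 h
    rw [← integral_zero X ℝ (μ := μ.restrict D)]
    refine integral_congr_ae ?_
    filter_upwards [h1] with x hx
    rw [hx]; simp
  -- decomposition
  have s1 : ∀ {g : X → ℝ}, Integrable g (μ.restrict D) →
      ∫ x in D, g x ∂μ = (∑ j, ∫ x in D, w j x * g x ∂μ) + ∫ x in D, w0 x * g x ∂μ := by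
    intro g hg
    rw [← integral_finsetSum _ fun j _ => iw (w1 j) (w2 j) (wj1 j) hg, ← integral_add]
    · refine integral_congr_ae (ae_of_all _ fun x => ?_)
      simp only
      rw [hw0, ← Finset.sum_mul]
      ring
    · exact integrable_finsetSum _ fun j _ => iw (w1 j) (w2 j) (wj1 j) hg
    · exact iw mw0 w0n w01 hg
  have e1 : (μ D).toReal = (∑ j, ∫ x in D, w j x ∂μ) + ∫ x in D, w0 x ∂μ := by
    have := s1 (g := fun _ => 1) (integrable_const _)
    simp only [mul_one] at this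
    rw [← this, setIntegral_const, smul_eq_mul, mul_one]
    rfl
  have e2 := s1 i2
  have e3 := s1 iΦ
  obtain ⟨a, ha⟩ : ∃ a, a = ∫ x in D, w0 x ∂μ := ⟨_, rfl⟩
  obtain ⟨R, hR⟩ : ∃ R, R = ∫ x in D, w0 x * f n x ^ 2 ∂μ := ⟨_, rfl⟩
  have a0 : 0 ≤ a := by rw [ha]; exact integral_nonneg w0n
  have R0 : 0 ≤ R := by rw [hR]; exact integral_nonneg fun x => mul_nonneg (w0n x) (sq_nonneg _)
  have aε : a ≤ ε := by rw [ha, hw0]; exact w4
  have RB : R ≤ B := by
    rw [hR]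
    refine le_trans ?_ (hB n)
    refine integral_mono (iw mw0 w0n w01 i2) i2 fun x => ?_
    show w0 x * f n x ^ 2 ≤ f n x ^ 2
    have := mul_le_mul_of_nonneg_right (w01 x) (sq_nonneg (f n x))
    linarith
  have az : a = 0 → R = 0 := fun h => by
    rw [hR]; exact zero mw0 w0n w01 (by rw [← ha]; exact h)
  -- the rest
  have r1 : (κ - η / (6 * (B + 1))) * R - C * a ≤ ∫ x in D, w0 x * Φ (f n x) ∂μ := by
    rw [hR, ha, ← integral_const_mul, ← integral_const_mul, ← integral_sub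
      ((iw mw0 w0n w01 i2).const_mul _) ((iw' mw0 w0n w01).const_mul _)]
    refine integral_mono (((iw mw0 w0n w01 i2).const_mul _).sub ((iw' mw0 w0n w01).const_mul _))
      (iw mw0 w0n w01 iΦ) fun x => ?_
    simp only
    have := mul_le_mul_of_nonneg_left (k3 (f n x)) (w0n x)
    linarith
  have r2 : a * mn Φ √((2 * R) / a) ≤ a * Φ 0 + κ * R := by
    rcases a0.eq_or_lt with h | h
    · rw [← h, az h.symm]; simp
    · have := mn_le hΦ k1 (p := 2 * R / a) (by positivity)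
      calc a * mn Φ √((2 * R) / a) ≤ a * (Φ 0 + κ * (2 * R / a) / 2) := by gcongr
        _ = _ := by field_simp
  have r3 : a * Φ 0 + C * a ≤ η / 6 := by
    have b1 : a * Φ 0 + C * a ≤ a * (|Φ 0| + C + 1) := by
      have := le_abs_self (Φ 0)
      nlinarith
    have b2 : a * (|Φ 0| + C + 1) ≤ ε * (|Φ 0| + C + 1) := by gcongr
    have b3 : ε * (|Φ 0| + C + 1) = η / 6 := by rw [hε]; field_simp
    linarith
  have r4 : η / (6 * (B + 1)) * R ≤ η / 6 := by
    rw [div_mul_eq_mul_div, div_le_div_iff₀ (by positivity) (by positivity)]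
    nlinarith
  have r5 : (∑ j, (∫ x in D, w j x ∂μ) *
      mn Φ √((2 * ∫ x in D, w j x * f n x ^ 2 ∂μ) / ∫ x in D, w j x ∂μ)) ≤
        (∑ j, ∫ x in D, w j x * Φ (f n x) ∂μ) + η / 3 := by
    calc _ ≤ ∑ j, ((∫ x in D, w j x * Φ (f n x) ∂μ) + η / (3 * (m + 1))) := Finset.sum_le_sum fun j _ => hn j
      _ = (∑ j, ∫ x in D, w j x * Φ (f n x) ∂μ) + m * (η / (3 * (m + 1))) := by
          rw [Finset.sum_add_distrib]; simp
      _ ≤ _ := by
          have : (m : ℝ) * (η / (3 * (m + 1))) ≤ η / 3 := by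
            rw [mul_div_assoc', div_le_div_iff₀ (by positivity) (by positivity)]
            nlinarith [Nat.cast_nonneg (α := ℝ) m]
          linarith
  -- Jensen
  have J1 := many cv Finset.univ (M := fun j => ∫ x in D, w j x ∂μ)
    (S := fun j => 2 * ∫ x in D, w j x * f n x ^ 2 ∂μ) (fun j => integral_nonneg (w2 j))
    (fun j => mul_nonneg zero_le_two (integral_nonneg fun x => mul_nonneg (w2 j x) (sq_nonneg _)))
    (fun j h => by rw [zero (w1 j) (w2 j) (wj1 j) h, mul_zero])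
  have J2 := two cv (M := ∑ j, ∫ x in D, w j x ∂μ) (S := ∑ j, 2 * ∫ x in D, w j x * f n x ^ 2 ∂μ)
    (N := a) (R := 2 * R) (Finset.sum_nonneg fun j _ => integral_nonneg (w2 j)) a0
    (Finset.sum_nonneg fun j _ => mul_nonneg zero_le_two
      (integral_nonneg fun x => mul_nonneg (w2 j x) (sq_nonneg _))) (by positivity)
    (fun h => Finset.sum_eq_zero fun j hj => by
      have := (Finset.sum_eq_zero_iff_of_nonneg fun j _ => integral_nonneg (w2 j)).1 h j hj
      rw [zero (w1 j) (w2 j) (wj1 j) this, mul_zero]) (fun h => by rw [az h, mul_zero])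
  have e4 : (∑ j, 2 * ∫ x in D, w j x * f n x ^ 2 ∂μ) + 2 * R = 2 * ∫ x in D, f n x ^ 2 ∂μ := by
    rw [e2, ← hR, ← Finset.mul_sum]; ring
  rw [e4, ha, ← e1] at J2
  rw [← ha] at J2
  rw [e3]
  linarith

end Gl

end

end Pool.Agent.Q73.PW
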