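import Pool.Agent.Q73.PW.Defs

/-!
# Project PW, job J4: bounds for `fA`, `be`, `fB`
-/

set_option autoImplicit false
open MeasureTheory Filter Topology Real
open scoped ContDiff

namespace Pool.Agent.Q73.PW

noncomputable section

namespace J4

/-- a bound from a bound of the derivative -/
theorem bd_of_deriv (f f' : ℝ → ℝ) (C : ℝ) (n : ℕ) (hf : ∀ t, HasDerivAt f (f' t) t) (h0 : f 0 = 0)
    (hb : ∀ t, 0 ≤ t → |f' t| ≤ C * t ^ n) (t : ℝ) (ht : 0 ≤ t) : |f t| ≤ C * t ^ (n + 1) / (n + 1) := by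
  have hn : (0 : ℝ) < (n : ℝ) + 1 := by positivity
  have hp : ∀ t, HasDerivAt (fun t : ℝ => C * t ^ (n + 1) / (n + 1)) (C * t ^ n) t := by
    intro t
    have h1 := ((hasDerivAt_pow (n + 1) t).const_mul C).div_const ((n : ℝ) + 1)
    have h2 : C * (((n + 1 : ℕ) : ℝ) * t ^ (n + 1 - 1)) / ((n : ℝ) + 1) = C * t ^ n := by
      rw [Nat.add_sub_cancel]
      push_cast
      field_simp
    rw [h2] at h1
    exact h1
  have mono : ∀ e : ℝ, (e = 1 ∨ e = -1) → 0 ≤ C * t ^ (n + 1) / (n + 1) - e * f t := by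
    intro e he
    have hd : ∀ t, HasDerivAt (fun t : ℝ => C * t ^ (n + 1) / (n + 1) - e * f t) (C * t ^ n - e * f' t) t :=
      fun t => (hp t).sub ((hf t).const_mul e)
    have hm : MonotoneOn (fun t : ℝ => C * t ^ (n + 1) / (n + 1) - e * f t) (Set.Ici 0) := by
      apply monotoneOn_of_deriv_nonneg (convex_Ici 0)
      · exact fun t _ => (hd t).continuousAt.continuousWithinAt
      · exact fun t _ => (hd t).differentiableAt.differentiableWithinAt
      · intro t ht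
        rw [interior_Ici] at ht
        rw [(hd t).deriv]
        have h1 := abs_le.1 (hb t (le_of_lt ht))
        rcases he with rfl | rfl
        · linarith [h1.2]
        · linarith [h1.1]
    have h1 := hm (Set.mem_Ici.2 (le_refl (0 : ℝ))) (Set.mem_Ici.2 ht) ht
    have h2 : (fun t : ℝ => C * t ^ (n + 1) / (n + 1) - e * f t) 0 = 0 := by
      show C * (0 : ℝ) ^ (n + 1) / (n + 1) - e * f 0 = 0
      rw [h0, zero_pow (Nat.succ_ne_zero n)]
      ring
    rw [h2] at h1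
    exact h1
  have h1 := mono 1 (Or.inl rfl)
  have h2 := mono (-1) (Or.inr rfl)
  rw [abs_le]
  constructor
  · linarith
  · linarith

theorem le_two_sin (t : ℝ) (h0 : 0 ≤ t) (h1 : t ≤ π / 2) : t ≤ 2 * sin t := by
  have h2 := Real.mul_le_sin h0 h1
  have h3 : t ≤ π / 2 * sin t := by
    have h4 : π / 2 * (2 / π * t) ≤ π / 2 * sin t := mul_le_mul_of_nonneg_left h2 (by positivity)
    have h5 : π / 2 * (2 / π * t) = t := by
      field_simp
    linarith
  have h4 : 0 ≤ sin t := sin_nonneg_of_nonneg_of_le_pi h0 (by linarith [pi_pos])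
  nlinarith [pi_lt_four]

section

variable {Φ : ℝ → ℝ} {L r : ℝ}

theorem L_nonneg (hr : 0 < r) (hb : ∀ x, |x| ≤ r → |deriv Φ x| ≤ L * |x|) : 0 ≤ L := by
  have h1 := hb r (by rw [abs_of_pos hr])
  rw [abs_of_pos hr] at h1
  have h2 := abs_nonneg (deriv Φ r)
  by_contra h
  push Not at h
  nlinarith

theorem osc (hΦ : ContDiff ℝ ∞ Φ) (hr : 0 < r) (hb : ∀ x, |x| ≤ r → |deriv Φ x| ≤ L * |x|) (x y : ℝ)
    (hx : |x| ≤ r) (hy : |y| ≤ r) : |Φ x - Φ y| ≤ 2 * L * r ^ 2 := by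
  have hL := L_nonneg hr hb
  have hd : Differentiable ℝ Φ := hΦ.differentiable (by simp)
  have h1 : ‖Φ x - Φ y‖ ≤ (L * r) * ‖x - y‖ := by
    refine Convex.norm_image_sub_le_of_norm_deriv_le (s := Set.Icc (-r) r) (fun z _ => hd z) ?_ (convex_Icc _ _)
      (abs_le.1 hy) (abs_le.1 hx)
    intro z hz
    have hz' : |z| ≤ r := abs_le.2 hz
    refine (hb z hz').trans ?_
    exact mul_le_mul_of_nonneg_left hz' hL
  rw [Real.norm_eq_abs, Real.norm_eq_abs] at h1
  have h2 : |x - y| ≤ 2 * r := by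
    rw [abs_le] at hx hy ⊢
    constructor
    · linarith [hx.1, hy.2]
    · linarith [hx.2, hy.1]
  calc |Φ x - Φ y| ≤ L * r * |x - y| := h1
    _ ≤ L * r * (2 * r) := mul_le_mul_of_nonneg_left h2 (mul_nonneg hL hr.le)
    _ = _ := by ring

theorem rcos (hr : 0 < r) (t : ℝ) : |r * cos t| ≤ r := by
  rw [abs_mul, abs_of_pos hr]
  calc r * |cos t| ≤ r * 1 := mul_le_mul_of_nonneg_left (abs_cos_le_one t) hr.le
    _ = r := mul_one r

/-- the distance to the mean -/
theorem mn_near (f : ℝ → ℝ) (hf : Continuous f) (D : ℝ) (r : ℝ) (c : ℝ) (h : ∀ t, |c - f (r * cos t)| ≤ D) :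
    |c - mn f r| ≤ D := by
  have hcont : Continuous fun t => f (r * cos t) := hf.comp (continuous_const.mul continuous_cos)
  have h1 : c - mn f r = (∫ t in (0 : ℝ)..π, (c - f (r * cos t))) / π := by
    unfold mn
    rw [intervalIntegral.integral_sub (by simp) (hcont.intervalIntegrable _ _),
      intervalIntegral.integral_const]
    rw [sub_zero, smul_eq_mul]
    field_simp
  rw [h1, abs_div, abs_of_pos pi_pos, div_le_iff₀ pi_pos]
  have h2 := intervalIntegral.norm_integral_le_of_norm_le_const (a := (0 : ℝ)) (b := π) (C := D)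
    (f := fun t => c - f (r * cos t)) (fun t _ => h t)
  rw [sub_zero, abs_of_pos pi_pos] at h2
  exact h2

theorem scd_bd (hr : 0 < r) (hb : ∀ x, |x| ≤ r → |deriv Φ x| ≤ L * |x|) (x : ℝ) (hx : |x| ≤ r) :
    |scd Φ x| ≤ L * r ^ 2 := by
  have hL := L_nonneg hr hb
  unfold scd
  rw [abs_mul]
  calc |x| * |deriv Φ x| ≤ |x| * (L * |x|) := mul_le_mul_of_nonneg_left (hb x hx) (abs_nonneg x)
    _ = L * |x| ^ 2 := by ring
    _ ≤ L * r ^ 2 := mul_le_mul_of_nonneg_left (pow_le_pow_left₀ (abs_nonneg x) hx 2) hL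

theorem scd_cont (hΦ : ContDiff ℝ ∞ Φ) : ContDiff ℝ ∞ (scd Φ) := by
  have h1 : ContDiff ℝ ∞ (deriv Φ) := by
    have h2 : ContDiff ℝ (∞ + 1) Φ := by simpa using hΦ
    exact ((contDiff_succ_iff_deriv).1 h2).2.2
  exact contDiff_id.mul h1

end

end J4

open J4 in
/-- J4 -/
theorem j4 : J2 → J3 → Pool.Agent.Q73.PW.J4 := by
  intro hJ2 hJ3
  refine ⟨24, by norm_num, ?_⟩
  intro Φ L r hΦ hev hr hb
  have hL := L_nonneg hr hb
  have hLr : 0 ≤ L * r ^ 2 := by positivity
  have hsc := scd_cont hΦ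
  obtain ⟨-, -, -, -, -, dA, -, dB, -, -⟩ := hJ2 Φ hΦ
  obtain ⟨-, -, -, -, -, dA', -, -, -, -⟩ := hJ2 (scd Φ) hsc
  obtain ⟨sA, sB, sF, -⟩ := hJ3 Φ hΦ hev
  -- the first bound
  have b0 : ∀ t, |Φ (r * cos t) - mn Φ r| ≤ 2 * L * r ^ 2 := fun t =>
    mn_near Φ hΦ.continuous _ r _ fun t' => osc hΦ hr hb _ _ (rcos hr t) (rcos hr t')
  have bg : ∀ t, |scd Φ (r * cos t)| ≤ L * r ^ 2 := fun t => scd_bd hr hb _ (rcos hr t)
  have bgm : |mn (scd Φ) r| ≤ L * r ^ 2 := by
    have h1 := mn_near (scd Φ) hsc.continuous (L * r ^ 2) r 0 fun t => by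
      rw [zero_sub, abs_neg]
      exact bg t
    rwa [zero_sub, abs_neg] at h1
  have bg2 : ∀ t, |scd Φ (r * cos t) - mn (scd Φ) r| ≤ 2 * L * r ^ 2 := fun t => by
    have := abs_sub (scd Φ (r * cos t)) (mn (scd Φ) r)
    linarith [bg t]
  have fA0 : ∀ Ψ : ℝ → ℝ, fA Ψ r 0 = 0 := fun Ψ => by
    unfold fA
    rw [intervalIntegral.integral_same]
  have fAb : ∀ t, 0 ≤ t → |fA Φ r t| ≤ 2 * L * r ^ 2 * t := by
    intro t ht
    have h1 := bd_of_deriv (fun t => fA Φ r t) _ (2 * L * r ^ 2) 0 (dA r) (fA0 Φ) (fun t _ => by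
      rw [pow_zero, mul_one]
      exact b0 t) t ht
    simpa using h1
  have eb : ∀ t, 0 ≤ t → |fA (scd Φ) r t| ≤ 2 * L * r ^ 2 * t := by
    intro t ht
    have h1 := bd_of_deriv (fun t => fA (scd Φ) r t) _ (2 * L * r ^ 2) 0 (dA' r) (fA0 (scd Φ)) (fun t _ => by
      rw [pow_zero, mul_one]
      exact bg2 t) t ht
    simpa using h1
  -- the derivative of `be`
  have dbe : ∀ t, HasDerivAt (fun t => be Φ r t)
      (2 * sin t * cos t * fA (scd Φ) r t - sin t ^ 2 * mn (scd Φ) r - 2 * sin t ^ 2 * (Φ (r * cos t) - mn Φ r)) t := by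
    intro t
    have hd : DifferentiableAt ℝ Φ (r * cos t) := (hΦ.differentiable (by simp)) _
    have h1 : HasDerivAt (fun t => Φ (r * cos t)) (deriv Φ (r * cos t) * (r * -sin t)) t :=
      hd.hasDerivAt.comp t ((hasDerivAt_cos t).const_mul r)
    have h2 : HasDerivAt (fun t => sin t ^ 2) (2 * sin t * cos t) t := by
      have h := (hasDerivAt_pow 2 (sin t)).comp t (hasDerivAt_sin t)
      have h3 : ((2 : ℕ) : ℝ) * sin t ^ (2 - 1) * cos t = 2 * sin t * cos t := by norm_num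
      rw [h3] at h
      exact h
    have h3 : HasDerivAt (fun t => sin t * cos t) (cos t * cos t + sin t * -sin t) t :=
      (hasDerivAt_sin t).mul (hasDerivAt_cos t)
    have h4 := ((h2.mul (dA' r t)).add (h3.mul (h1.sub_const (mn Φ r)))).sub (dA r t)
    have h5 : 2 * sin t * cos t * fA (scd Φ) r t + sin t ^ 2 * (scd Φ (r * cos t) - mn (scd Φ) r) +
        ((cos t * cos t + sin t * -sin t) * (Φ (r * cos t) - mn Φ r) +
          sin t * cos t * (deriv Φ (r * cos t) * (r * -sin t))) - (Φ (r * cos t) - mn Φ r) =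
        2 * sin t * cos t * fA (scd Φ) r t - sin t ^ 2 * mn (scd Φ) r - 2 * sin t ^ 2 * (Φ (r * cos t) - mn Φ r) := by
      unfold scd
      have hcs := sin_sq_add_cos_sq t
      linear_combination (Φ (r * cos t) - mn Φ r) * hcs
    rw [h5] at h4
    exact h4
  have be0 : be Φ r 0 = 0 := by
    unfold be
    rw [fA0, fA0, sin_zero]
    ring
  have beb : ∀ t, 0 ≤ t → |be Φ r t| ≤ 3 * L * r ^ 2 * t ^ 3 := by
    intro t ht
    have h1 := bd_of_deriv (fun t => be Φ r t) _ (9 * L * r ^ 2) 2 dbe be0 (fun t ht => by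
      have hs : |sin t| ≤ t := by
        have := abs_sin_le_abs (x := t)
        rwa [abs_of_nonneg ht] at this
      have hs2 : |sin t| ^ 2 ≤ t ^ 2 := pow_le_pow_left₀ (abs_nonneg _) hs 2
      have hc := abs_cos_le_one t
      have e1 : |2 * sin t * cos t * fA (scd Φ) r t| ≤ 4 * L * r ^ 2 * t ^ 2 := by
        rw [abs_mul, abs_mul, abs_mul, abs_two]
        have h3 := eb t ht
        calc 2 * |sin t| * |cos t| * |fA (scd Φ) r t| ≤ 2 * t * 1 * (2 * L * r ^ 2 * t) := by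
              have h4 : 2 * |sin t| * |cos t| ≤ 2 * t * 1 :=
                mul_le_mul (by linarith) hc (abs_nonneg _) (by linarith)
              exact mul_le_mul h4 h3 (abs_nonneg _) (by linarith)
          _ = _ := by ring
      have e2 : |sin t ^ 2 * mn (scd Φ) r| ≤ L * r ^ 2 * t ^ 2 := by
        rw [abs_mul, abs_pow]
        calc |sin t| ^ 2 * |mn (scd Φ) r| ≤ t ^ 2 * (L * r ^ 2) :=
              mul_le_mul hs2 bgm (abs_nonneg _) (by positivity)
          _ = _ := by ring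
      have e3 : |2 * sin t ^ 2 * (Φ (r * cos t) - mn Φ r)| ≤ 4 * L * r ^ 2 * t ^ 2 := by
        rw [abs_mul, abs_mul, abs_pow, abs_two]
        calc 2 * |sin t| ^ 2 * |Φ (r * cos t) - mn Φ r| ≤ 2 * t ^ 2 * (2 * L * r ^ 2) :=
              mul_le_mul (by linarith) (b0 t) (abs_nonneg _) (by positivity)
          _ = _ := by ring
      have e4 := abs_sub (2 * sin t * cos t * fA (scd Φ) r t - sin t ^ 2 * mn (scd Φ) r)
        (2 * sin t ^ 2 * (Φ (r * cos t) - mn Φ r))
      have e5 := abs_sub (2 * sin t * cos t * fA (scd Φ) r t) (sin t ^ 2 * mn (scd Φ) r)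
      linarith) t ht
    have h2 : 9 * L * r ^ 2 * t ^ (2 + 1) / (((2 : ℕ) : ℝ) + 1) = 3 * L * r ^ 2 * t ^ 3 := by
      push_cast
      ring
    rwa [h2] at h1
  have fB0 : fB Φ r 0 = 0 := by
    unfold fB
    rw [intervalIntegral.integral_same, zero_div]
  have fBb : ∀ t, 0 ≤ t → |fB Φ r t| ≤ L * r ^ 2 * t ^ 4 := by
    intro t ht
    have h1 := bd_of_deriv (fun t => fB Φ r t) _ (3 / 2 * L * r ^ 2) 3 (dB r) fB0 (fun t ht => by
      have := beb t ht
      rw [abs_div, abs_two]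
      linarith) t ht
    have h3 : 0 ≤ L * r ^ 2 * t ^ 4 := by positivity
    have h2 : 3 / 2 * L * r ^ 2 * t ^ (3 + 1) / (((3 : ℕ) : ℝ) + 1) = 3 / 8 * (L * r ^ 2 * t ^ 4) := by
      push_cast
      ring
    rw [h2] at h1
    linarith
  refine ⟨fun t => ?_, ?_⟩
  · have := b0 t
    nlinarith
  · -- the half interval
    have half : ∀ t, 0 ≤ t → t ≤ π / 2 → |fA Φ r t| ≤ 24 * L * r ^ 2 * sin t ∧
        |be Φ r t| ≤ 24 * L * r ^ 2 * sin t ^ 3 ∧ |fB Φ r t| ≤ 24 * L * r ^ 2 * sin t ^ 4 := by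
      intro t h0 h1
      have h2 := le_two_sin t h0 h1
      have hs : 0 ≤ sin t := sin_nonneg_of_nonneg_of_le_pi h0 (by linarith [pi_pos])
      have h3 : t ^ 3 ≤ (2 * sin t) ^ 3 := pow_le_pow_left₀ h0 h2 3
      have h4 : t ^ 4 ≤ (2 * sin t) ^ 4 := pow_le_pow_left₀ h0 h2 4
      have p1 : 0 ≤ L * r ^ 2 * sin t := mul_nonneg hLr hs
      have p4 : 0 ≤ L * r ^ 2 * sin t ^ 4 := mul_nonneg hLr (pow_nonneg hs 4)
      refine ⟨(fAb t h0).trans ?_, (beb t h0).trans ?_, (fBb t h0).trans ?_⟩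
      · have := mul_le_mul_of_nonneg_left h2 hLr
        nlinarith
      · have := mul_le_mul_of_nonneg_left h3 hLr
        nlinarith
      · have := mul_le_mul_of_nonneg_left h4 hLr
        nlinarith
    intro t h0 h1
    rcases le_total t (π / 2) with h | h
    · exact half t h0 h
    · have h2 := half (π - t) (by linarith) (by linarith)
      rw [sA, sB, sF, abs_neg, abs_neg, sin_pi_sub] at h2
      exact h2

end

end Pool.Agent.Q73.PW
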