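import Pool.Agent.Q73.PW.J4

/-!
# Project PW, job J4': the bound of `fB` near zero
-/

set_option autoImplicit false
open MeasureTheory Filter Topology Real
open scoped ContDiff

namespace Pool.Agent.Q73.PW

noncomputable section

namespace J4P

theorem deriv_smooth {Φ : ℝ → ℝ} (hΦ : ContDiff ℝ ∞ Φ) : ContDiff ℝ ∞ (deriv Φ) := by
  have h2 : ContDiff ℝ (∞ + 1) Φ := by simpa using hΦ
  exact ((contDiff_succ_iff_deriv).1 h2).2.2

theorem hd {Φ : ℝ → ℝ} (hΦ : ContDiff ℝ ∞ Φ) (x : ℝ) : HasDerivAt Φ (deriv Φ x) x :=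
  ((hΦ.differentiable (by simp)) x).hasDerivAt

theorem deriv_odd {Φ : ℝ → ℝ} (hev : ∀ x, Φ (-x) = Φ x) (x : ℝ) : deriv Φ (-x) = -deriv Φ x := by
  have h1 : (fun y => Φ (-y)) = Φ := funext hev
  have h2 := deriv_comp_neg Φ x
  rw [h1] at h2
  rw [h2, neg_neg]

theorem deriv_even {Φ : ℝ → ℝ} (hev : ∀ x, Φ (-x) = -Φ x) (x : ℝ) : deriv Φ (-x) = deriv Φ x := by
  have h1 : (fun y => Φ (-y)) = fun y => -Φ y := funext hev
  have h2 := deriv_comp_neg Φ x
  rw [h1] at h2
  have h3 : deriv (fun y => -Φ y) x = -deriv Φ x := deriv.neg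
  rw [h3] at h2
  linarith

/-- Taylor bound for the first derivative -/
theorem taylor {Φ : ℝ → ℝ} {L : ℝ} (h : Cls Φ L) : ∃ L' : ℝ, 0 ≤ L' ∧
    ∀ x, |deriv Φ x - deriv (deriv Φ) 0 * x| ≤ L' * |x| ^ 3 := by
  have s1 := deriv_smooth h.sm
  have s2 := deriv_smooth s1
  have s3 := deriv_smooth s2
  have s4 := deriv_smooth s3
  have o1 := deriv_odd h.ev
  have o2 := deriv_even o1
  have o3 := deriv_odd o2
  have z1 : deriv Φ 0 = 0 := by
    have := o1 0
    rw [neg_zero] at this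
    linarith
  have z3 : deriv (deriv (deriv Φ)) 0 = 0 := by
    have := o3 0
    rw [neg_zero] at this
    linarith
  have hL : 0 ≤ L := (abs_nonneg _).trans (h.bd 0)
  obtain ⟨M, hM⟩ := (isCompact_Icc (a := (-1 : ℝ)) (b := 1)).exists_bound_of_continuousOn
    s4.continuous.continuousOn
  have hM0 : 0 ≤ M := (norm_nonneg _).trans (hM 0 ⟨by norm_num, by norm_num⟩)
  -- nonneg `x`
  have key : ∀ x, 0 ≤ x → |deriv Φ x - deriv (deriv Φ) 0 * x| ≤ (M + 2 * L) * x ^ 3 := by
    intro x hx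
    rcases le_total x 1 with h1 | h1
    · -- cut off at `x ≤ 1`
      have b3 : ∀ t, 0 ≤ t → t ≤ 1 → |deriv (deriv (deriv Φ)) t| ≤ M * t := by
        intro t h0 h1
        have := Convex.norm_image_sub_le_of_norm_deriv_le (f := deriv (deriv (deriv Φ))) (C := M)
          (s := Set.Icc (-1 : ℝ) 1) (fun z _ => (s3.differentiable (by simp)) z) (fun z hz => hM z hz) (convex_Icc _ _)
          (x := 0) (y := t) ⟨by norm_num, by norm_num⟩ ⟨by linarith, h1⟩
        rwa [z3, sub_zero, sub_zero, Real.norm_eq_abs, Real.norm_eq_abs, abs_of_nonneg h0] at this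
      have b2 : ∀ t, 0 ≤ t → t ≤ 1 → |deriv (deriv Φ) t - deriv (deriv Φ) 0| ≤ M * t ^ 2 := by
        intro t h0 h1
        have := Convex.norm_image_sub_le_of_norm_deriv_le (f := deriv (deriv Φ)) (C := M * t)
          (s := Set.Icc (0 : ℝ) t) (fun z _ => (s2.differentiable (by simp)) z) (fun z hz => by
            rw [Real.norm_eq_abs]
            exact (b3 z hz.1 (hz.2.trans h1)).trans (mul_le_mul_of_nonneg_left hz.2 hM0)) (convex_Icc _ _)
          (x := 0) (y := t) ⟨le_refl _, h0⟩ ⟨h0, le_refl _⟩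
        rw [sub_zero, Real.norm_eq_abs, Real.norm_eq_abs, abs_of_nonneg h0] at this
        calc _ ≤ M * t * t := this
          _ = _ := by ring
      have b1 := Convex.norm_image_sub_le_of_norm_deriv_le
          (f := fun t => deriv Φ t - deriv (deriv Φ) 0 * t) (C := M * x ^ 2)
          (s := Set.Icc (0 : ℝ) x) (fun z _ => ((hd s1 z).sub ((hasDerivAt_id z).const_mul _)).differentiableAt)
          (fun z hz => by
            have e1 := (hd s1 z).sub ((hasDerivAt_id z).const_mul (deriv (deriv Φ) 0))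
            have e2 : deriv (fun t => deriv Φ t - deriv (deriv Φ) 0 * t) z =
                deriv (deriv Φ) z - deriv (deriv Φ) 0 * 1 := e1.deriv
            rw [e2, mul_one, Real.norm_eq_abs]
            refine (b2 z hz.1 (hz.2.trans h1)).trans ?_
            exact mul_le_mul_of_nonneg_left (pow_le_pow_left₀ hz.1 hz.2 2) hM0) (convex_Icc _ _)
          (x := 0) (y := x) ⟨le_refl _, hx⟩ ⟨hx, le_refl _⟩
      rw [z1, mul_zero, sub_zero, sub_zero, sub_zero, Real.norm_eq_abs, Real.norm_eq_abs, abs_of_nonneg hx] at b1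
      have h3 : 0 ≤ L * x ^ 3 := by positivity
      calc _ ≤ M * x ^ 2 * x := b1
        _ ≤ _ := by linarith [h3, (by ring : M * x ^ 2 * x = M * x ^ 3)]
    · have b1 := Convex.norm_image_sub_le_of_norm_deriv_le (f := deriv Φ) (C := L)
          (s := Set.univ) (fun z _ => (s1.differentiable (by simp)) z) (fun z _ => h.bd z) convex_univ
          (x := 0) (y := x) (Set.mem_univ _) (Set.mem_univ _)
      rw [z1, sub_zero, sub_zero, Real.norm_eq_abs, Real.norm_eq_abs, abs_of_nonneg hx] at b1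
      have b2 := h.bd 0
      have b3 : |deriv (deriv Φ) 0 * x| ≤ L * x := by
        rw [abs_mul, abs_of_nonneg hx]
        exact mul_le_mul_of_nonneg_right b2 hx
      have b4 := abs_sub (deriv Φ x) (deriv (deriv Φ) 0 * x)
      have b5 : x ≤ x ^ 3 := by nlinarith [mul_nonneg hx (sub_nonneg.2 h1)]
      have b6 : L * x ≤ L * x ^ 3 := mul_le_mul_of_nonneg_left b5 hL
      have b7 : 0 ≤ M * x ^ 3 := by positivity
      linarith
  refine ⟨M + 2 * L, by linarith, fun x => ?_⟩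
  rcases le_total 0 x with hx | hx
  · rw [abs_of_nonneg hx]
    exact key x hx
  · have h1 := key (-x) (by linarith)
    rw [o1] at h1
    rw [abs_of_nonpos hx]
    have h2 : deriv Φ x - deriv (deriv Φ) 0 * x = -(-deriv Φ x - deriv (deriv Φ) 0 * -x) := by ring
    rw [h2, abs_neg]
    exact h1

theorem int_cos_sq (t : ℝ) (r : ℝ) : ∫ u in (0 : ℝ)..t, (r * cos u) ^ 2 = r ^ 2 * (cos t * sin t + t) / 2 := by
  have h1 : ∀ u, (r * cos u) ^ 2 = r ^ 2 * cos u ^ 2 := fun u => by ring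
  simp_rw [h1]
  rw [intervalIntegral.integral_const_mul, integral_cos_sq]
  simp
  ring

theorem mn_sq (r : ℝ) : mn (fun x => x ^ 2) r = r ^ 2 / 2 := by
  unfold mn
  have h1 := int_cos_sq π r
  rw [h1, sin_pi]
  field_simp
  ring

theorem fA_sq (r t : ℝ) : fA (fun x => x ^ 2) r t = r ^ 2 * (sin t * cos t) / 2 := by
  unfold fA
  rw [mn_sq, intervalIntegral.integral_sub ?_ (by simp), intervalIntegral.integral_const, int_cos_sq]
  · rw [smul_eq_mul]
    ring
  · exact Continuous.intervalIntegrable (by fun_prop) _ _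

theorem scd_sq : scd (fun x : ℝ => x ^ 2) = fun x => 2 * x ^ 2 := by
  funext x
  unfold scd
  rw [deriv_pow_field 2]
  push_cast
  ring

theorem be_sq (r t : ℝ) : be (fun x => x ^ 2) r t = 0 := by
  have h1 : fA (scd fun x : ℝ => x ^ 2) r t = 2 * fA (fun x => x ^ 2) r t := by
    rw [scd_sq]
    unfold fA mn
    rw [← intervalIntegral.integral_const_mul]
    congr 1
    funext u
    rw [intervalIntegral.integral_const_mul]
    ring
  unfold be
  rw [h1, fA_sq, mn_sq]
  have hcs := sin_sq_add_cos_sq t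
  linear_combination (r ^ 2 * (sin t * cos t)) * hcs

theorem fB_sq (r t : ℝ) : fB (fun x => x ^ 2) r t = 0 := by
  unfold fB
  simp only [be_sq]
  simp

end J4P

open J4P in
/-- J4' -/
theorem j4p : J2 → Pool.Agent.Q73.PW.J4 → J4' := by
  intro hJ2 hJ4 Φ L h
  obtain ⟨K, hK0, hK⟩ := hJ4
  obtain ⟨L', hL0, hL'⟩ := taylor h
  refine ⟨K * L', mul_nonneg hK0 hL0, ?_⟩
  intro r t hr h0 h1
  set κ := deriv (deriv Φ) 0 with hκ
  have hsq : ContDiff ℝ ∞ (fun x : ℝ => x ^ 2) := contDiff_id.pow 2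
  obtain ⟨-, -, -, -, -, -, -, -, -, hlin⟩ := hJ2 Φ h.sm
  have h2 := hlin (fun x => x ^ 2) hsq (κ / 2) r t
  rw [fB_sq, mul_zero, sub_zero] at h2
  have h3 := hK (fun x => Φ x - κ / 2 * x ^ 2) (L' * r ^ 2) r (h.sm.sub (contDiff_const.mul hsq))
    (fun x => by rw [h.ev, neg_sq]) hr (fun x hx => by
      have e1 : HasDerivAt (fun x => Φ x - κ / 2 * x ^ 2) (deriv Φ x - κ / 2 * (((2 : ℕ) : ℝ) * x ^ (2 - 1))) x :=
        (hd h.sm x).sub ((hasDerivAt_pow 2 x).const_mul (κ / 2))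
      have e2 : deriv Φ x - κ / 2 * (((2 : ℕ) : ℝ) * x ^ (2 - 1)) = deriv Φ x - κ * x := by
        norm_num
        ring
      rw [e2] at e1
      rw [e1.deriv]
      refine (hL' x).trans ?_
      have e3 : |x| ^ 2 ≤ r ^ 2 := pow_le_pow_left₀ (abs_nonneg x) hx 2
      calc L' * |x| ^ 3 = L' * |x| ^ 2 * |x| := by ring
        _ ≤ L' * r ^ 2 * |x| := mul_le_mul_of_nonneg_right (mul_le_mul_of_nonneg_left e3 hL0) (abs_nonneg x))
  have h4 := (h3.2 t h0 h1).2.2
  rw [h2] at h4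
  calc |fB Φ r t| ≤ K * (L' * r ^ 2) * r ^ 2 * sin t ^ 4 := h4
    _ = _ := by ring

end

end Pool.Agent.Q73.PW
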