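import Pool.Agent.Q73.PW.J4P

/-!
# Project PW, job J5: the coefficients `al`, `bb`
-/

set_option autoImplicit false
open MeasureTheory Filter Topology Real
open scoped ContDiff

namespace Pool.Agent.Q73.PW

noncomputable section

namespace J5

/-- the chain rule in two variables -/
theorem chain2 (F : ℝ × ℝ → ℝ) (a b Fr Ft : ℝ) (hF : DifferentiableAt ℝ F (a, b))
    (h1 : HasDerivAt (fun r => F (r, b)) Fr a) (h2 : HasDerivAt (fun t => F (a, t)) Ft b)
    (u v : ℝ → ℝ) (u' v' t : ℝ) (hu : HasDerivAt u u' t) (hv : HasDerivAt v v' t) (hut : u t = a) (hvt : v t = b) :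
    HasDerivAt (fun t => F (u t, v t)) (Fr * u' + Ft * v') t := by
  have hF' := hF.hasFDerivAt
  have e1 : fderiv ℝ F (a, b) (1, 0) = Fr := by
    have h3 : HasDerivAt (fun r : ℝ => (r, b)) ((1 : ℝ), (0 : ℝ)) a := (hasDerivAt_id a).prodMk (hasDerivAt_const a b)
    have h4 := HasFDerivAt.comp_hasDerivAt a hF' h3
    exact h4.unique h1
  have e2 : fderiv ℝ F (a, b) (0, 1) = Ft := by
    have h3 : HasDerivAt (fun t : ℝ => (a, t)) ((0 : ℝ), (1 : ℝ)) b := (hasDerivAt_const b a).prodMk (hasDerivAt_id b)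
    have h4 := HasFDerivAt.comp_hasDerivAt b hF' h3
    exact h4.unique h2
  have h5 : HasDerivAt (fun t => (u t, v t)) (u', v') t := hu.prodMk hv
  have hF2 : HasFDerivAt F (fderiv ℝ F (a, b)) (u t, v t) := by
    rw [hut, hvt]
    exact hF'
  have h6 := HasFDerivAt.comp_hasDerivAt t hF2 h5
  have e3 : fderiv ℝ F (a, b) (u', v') = Fr * u' + Ft * v' := by
    have h7 : ((u', v') : ℝ × ℝ) = u' • ((1 : ℝ), (0 : ℝ)) + v' • ((0 : ℝ), (1 : ℝ)) := by
      ext
      · simp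
      · simp
    rw [h7, map_add, map_smul, map_smul, e1, e2, smul_eq_mul, smul_eq_mul]
    ring
  rw [e3] at h6
  exact h6

/-- the point in polar coordinates -/
def R (x s : ℝ) : ℝ := √(x ^ 2 + s)

/-- the angle -/
def T (x s : ℝ) : ℝ := arccos (x / √(x ^ 2 + s))

theorem R_pos {x s : ℝ} (hs : 0 < s) : 0 < R x s := Real.sqrt_pos.2 (by positivity)

theorem R_sq {x s : ℝ} (hs : 0 < s) : R x s ^ 2 = x ^ 2 + s := Real.sq_sqrt (by positivity)

theorem x_lt {x s : ℝ} (hs : 0 < s) : |x| < R x s := by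
  rw [← Real.sqrt_sq_eq_abs]
  exact Real.sqrt_lt_sqrt (sq_nonneg x) (by linarith)

theorem q_le {x s : ℝ} : √s ≤ R x s := Real.sqrt_le_sqrt (by nlinarith [sq_nonneg x])

theorem frac_lt {x s : ℝ} (hs : 0 < s) : -1 < x / R x s ∧ x / R x s < 1 := by
  have h1 := abs_lt.1 (x_lt (x := x) hs)
  have h2 := R_pos (x := x) hs
  constructor
  · rw [lt_div_iff₀ h2]
    linarith [h1.1]
  · rw [div_lt_one h2]
    exact h1.2

theorem cosT {x s : ℝ} (hs : 0 < s) : cos (T x s) = x / R x s :=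
  Real.cos_arccos (frac_lt hs).1.le (frac_lt hs).2.le

theorem one_sub {x s : ℝ} (hs : 0 < s) : √(1 - (x / R x s) ^ 2) = √s / R x s := by
  have h1 : 1 - (x / R x s) ^ 2 = s / R x s ^ 2 := by
    rw [div_pow, R_sq hs]
    have : x ^ 2 + s ≠ 0 := by positivity
    field_simp
    ring
  rw [h1, Real.sqrt_div hs.le, Real.sqrt_sq (R_pos hs).le]

theorem sinT {x s : ℝ} (hs : 0 < s) : sin (T x s) = √s / R x s := by
  rw [T, Real.sin_arccos]
  exact one_sub hs

theorem T_nonneg (x s : ℝ) : 0 ≤ T x s := Real.arccos_nonneg _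

theorem T_le (x s : ℝ) : T x s ≤ π := Real.arccos_le_pi _

theorem RcosT {x s : ℝ} (hs : 0 < s) : R x s * cos (T x s) = x := by
  rw [cosT hs]
  have := (R_pos (x := x) hs).ne'
  field_simp

theorem dRx {x s : ℝ} (hs : 0 < s) : HasDerivAt (fun t => R t s) (x / R x s) x := by
  have h0 : x ^ 2 + s ≠ 0 := by positivity
  have h1 := (((hasDerivAt_pow 2 x).add_const s)).sqrt h0
  have h2 : ((2 : ℕ) : ℝ) * x ^ (2 - 1) / (2 * √(x ^ 2 + s)) = x / R x s := by
    unfold R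
    rw [show (2 - 1 : ℕ) = 1 from rfl, pow_one]
    push_cast
    exact mul_div_mul_left x _ two_ne_zero
  rw [h2] at h1
  exact h1

theorem dRs {x s : ℝ} (hs : 0 < s) : HasDerivAt (fun t => R x t) (1 / (2 * R x s)) s := by
  have h0 : x ^ 2 + s ≠ 0 := by positivity
  exact ((hasDerivAt_id s).const_add (x ^ 2)).sqrt h0

theorem dTx {x s : ℝ} (hs : 0 < s) : HasDerivAt (fun t => T t s) (-(√s / R x s ^ 2)) x := by
  have hR := R_pos (x := x) hs
  have hq : 0 < √s := Real.sqrt_pos.2 hs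
  have h1 : HasDerivAt (fun t => t / R t s) ((1 * R x s - x * (x / R x s)) / R x s ^ 2) x :=
    (hasDerivAt_id x).div (dRx (x := x) hs) hR.ne'
  have h2 : HasDerivAt (fun t => T t s) (-(1 / √(1 - (x / R x s) ^ 2)) * ((1 * R x s - x * (x / R x s)) / R x s ^ 2)) x :=
    (Real.hasDerivAt_arccos (frac_lt (x := x) hs).1.ne' (frac_lt (x := x) hs).2.ne).comp x h1
  rw [one_sub hs] at h2
  have h3 : -(1 / (√s / R x s)) * ((1 * R x s - x * (x / R x s)) / R x s ^ 2) = -(√s / R x s ^ 2) := by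
    have e1 : 1 * R x s - x * (x / R x s) = s / R x s := by
      have e2 := R_sq (x := x) hs
      field_simp
      linarith
    rw [e1]
    have e3 : √s * √s = s := Real.mul_self_sqrt hs.le
    field_simp
    nlinarith
  rw [h3] at h2
  exact h2

theorem dTs {x s : ℝ} (hs : 0 < s) : HasDerivAt (fun t => T x t) (x / (2 * R x s ^ 2 * √s)) s := by
  have hR := R_pos (x := x) hs
  have hq : 0 < √s := Real.sqrt_pos.2 hs
  have h1 : HasDerivAt (fun t => x / R x t) ((0 * R x s - x * (1 / (2 * R x s))) / R x s ^ 2) s :=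
    (hasDerivAt_const s x).div (dRs (x := x) hs) hR.ne'
  have h2 : HasDerivAt (fun t => T x t) (-(1 / √(1 - (x / R x s) ^ 2)) *
      ((0 * R x s - x * (1 / (2 * R x s))) / R x s ^ 2)) s :=
    (Real.hasDerivAt_arccos (frac_lt (x := x) hs).1.ne' (frac_lt (x := x) hs).2.ne).comp s h1
  rw [one_sub hs] at h2
  have h3 : -(1 / (√s / R x s)) * ((0 * R x s - x * (1 / (2 * R x s))) / R x s ^ 2) = x / (2 * R x s ^ 2 * √s) := by
    field_simp
    ring
  rw [h3] at h2
  exact h2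

/-- smoothness of the polar coordinates -/
theorem smR : ContDiffOn ℝ ∞ (fun p : ℝ × ℝ => R p.1 p.2) {p | 0 < p.2} := by
  intro p hp
  have h0 : p.1 ^ 2 + p.2 ≠ 0 := by
    have : (0 : ℝ) < p.2 := hp
    positivity
  exact (((contDiff_fst.pow 2).add contDiff_snd).contDiffAt.sqrt h0).contDiffWithinAt

theorem smT : ContDiffOn ℝ ∞ (fun p : ℝ × ℝ => T p.1 p.2) {p | 0 < p.2} := by
  intro p hp
  have hp' : (0 : ℝ) < p.2 := hp
  have h0 : p.1 ^ 2 + p.2 ≠ 0 := by positivity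
  have hR := R_pos (x := p.1) hp'
  have h1 : ContDiffAt ℝ ∞ (fun p : ℝ × ℝ => p.1 / R p.1 p.2) p :=
    contDiff_fst.contDiffAt.div (((contDiff_fst.pow 2).add contDiff_snd).contDiffAt.sqrt h0) hR.ne'
  have h2 := (Real.contDiffAt_arccos (n := ∞) (frac_lt (x := p.1) hp').1.ne' (frac_lt (x := p.1) hp').2.ne)
  exact (ContDiffAt.comp p h2 h1).contDiffWithinAt

/-- smoothness of the coefficients -/
theorem sm_al (Φ : ℝ → ℝ) (h : ContDiff ℝ ∞ (fun p : ℝ × ℝ => fA Φ p.1 p.2)) :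
    ContDiffOn ℝ ∞ (fun p : ℝ × ℝ => al Φ p.1 p.2) {p | 0 < p.2} := by
  have h1 : ContDiffOn ℝ ∞ (fun p : ℝ × ℝ => fA Φ (R p.1 p.2) (T p.1 p.2)) {p | 0 < p.2} :=
    h.comp_contDiffOn (smR.prodMk smT)
  have h2 : ContDiffOn ℝ ∞ (fun p : ℝ × ℝ => √p.2) {p | 0 < p.2} := by
    intro p hp
    have hp' : (0 : ℝ) < p.2 := hp
    exact (contDiff_snd.contDiffAt.sqrt hp'.ne').contDiffWithinAt
  exact h1.div h2 fun p hp => (Real.sqrt_pos.2 hp).ne'

theorem sm_bb (Φ : ℝ → ℝ) (h : ContDiff ℝ ∞ (fun p : ℝ × ℝ => fB Φ p.1 p.2)) :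
    ContDiffOn ℝ ∞ (fun p : ℝ × ℝ => bb Φ p.1 p.2) {p | 0 < p.2} := by
  have h1 : ContDiffOn ℝ ∞ (fun p : ℝ × ℝ => fB Φ (R p.1 p.2) (T p.1 p.2)) {p | 0 < p.2} :=
    h.comp_contDiffOn (smR.prodMk smT)
  exact h1.div contDiff_snd.contDiffOn fun p hp => (ne_of_gt hp)

section der

variable {Φ : ℝ → ℝ} (hJ : J2) (hΦ : ContDiff ℝ ∞ Φ) {x s : ℝ} (hs : 0 < s)

include hJ hΦ hs

theorem der_al_x : dx (al Φ) x s = (fA (scd Φ) (R x s) (T x s) / R x s * (x / R x s) +
    (Φ x - mn Φ (R x s)) * -(√s / R x s ^ 2)) / √s := by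
  obtain ⟨-, cA, -, -, -, dA, dAr, -, -, -⟩ := hJ Φ hΦ
  have hR := (R_pos (x := x) hs).ne'
  have h1 := dA (R x s) (T x s)
  rw [RcosT hs] at h1
  have h2 := chain2 (fun p : ℝ × ℝ => fA Φ p.1 p.2) (R x s) (T x s) _ _
    ((cA.differentiable (by simp)) _) (dAr (R x s) (T x s) hR) h1
    (fun t => R t s) (fun t => T t s) _ _ x (dRx hs) (dTx hs) rfl rfl
  exact (h2.div_const (√s)).deriv

theorem der_al_s : ds (al Φ) x s = ((fA (scd Φ) (R x s) (T x s) / R x s * (1 / (2 * R x s)) +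
    (Φ x - mn Φ (R x s)) * (x / (2 * R x s ^ 2 * √s))) * √s - fA Φ (R x s) (T x s) * (1 / (2 * √s))) / √s ^ 2 := by
  obtain ⟨-, cA, -, -, -, dA, dAr, -, -, -⟩ := hJ Φ hΦ
  have hR := (R_pos (x := x) hs).ne'
  have h1 := dA (R x s) (T x s)
  rw [RcosT hs] at h1
  have h2 := chain2 (fun p : ℝ × ℝ => fA Φ p.1 p.2) (R x s) (T x s) _ _
    ((cA.differentiable (by simp)) _) (dAr (R x s) (T x s) hR) h1
    (fun t => R x t) (fun t => T x t) _ _ s (dRs hs) (dTs hs) rfl rfl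
  have h3 : HasDerivAt (fun t => √t) (1 / (2 * √s)) s := Real.hasDerivAt_sqrt hs.ne'
  exact (h2.div h3 (Real.sqrt_pos.2 hs).ne').deriv

theorem der_bb_x : dx (bb Φ) x s = (fB (scd Φ) (R x s) (T x s) / R x s * (x / R x s) +
    be Φ (R x s) (T x s) / 2 * -(√s / R x s ^ 2)) / s := by
  obtain ⟨-, -, -, cB, -, -, -, dB, dBr, -⟩ := hJ Φ hΦ
  have hR := (R_pos (x := x) hs).ne'
  have h2 := chain2 (fun p : ℝ × ℝ => fB Φ p.1 p.2) (R x s) (T x s) _ _
    ((cB.differentiable (by simp)) _) (dBr (R x s) (T x s) hR) (dB (R x s) (T x s))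
    (fun t => R t s) (fun t => T t s) _ _ x (dRx hs) (dTx hs) rfl rfl
  exact (h2.div_const s).deriv

theorem der_bb_s : ds (bb Φ) x s = ((fB (scd Φ) (R x s) (T x s) / R x s * (1 / (2 * R x s)) +
    be Φ (R x s) (T x s) / 2 * (x / (2 * R x s ^ 2 * √s))) * s - fB Φ (R x s) (T x s) * 1) / s ^ 2 := by
  obtain ⟨-, -, -, cB, -, -, -, dB, dBr, -⟩ := hJ Φ hΦ
  have hR := (R_pos (x := x) hs).ne'
  have h2 := chain2 (fun p : ℝ × ℝ => fB Φ p.1 p.2) (R x s) (T x s) _ _
    ((cB.differentiable (by simp)) _) (dBr (R x s) (T x s) hR) (dB (R x s) (T x s))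
    (fun t => R x t) (fun t => T x t) _ _ s (dRs hs) (dTs hs) rfl rfl
  exact (h2.div (hasDerivAt_id s) hs.ne').deriv

end der

theorem al_eq (Φ : ℝ → ℝ) (x s : ℝ) : al Φ x s = fA Φ (R x s) (T x s) / √s := rfl

theorem bb_eq (Φ : ℝ → ℝ) (x s : ℝ) : bb Φ x s = fB Φ (R x s) (T x s) / s := rfl

/-- `be` in terms of `x`, `s` -/
theorem be_eq (Φ : ℝ → ℝ) {x s : ℝ} (hs : 0 < s) : be Φ (R x s) (T x s) =
    (√s / R x s) ^ 2 * fA (scd Φ) (R x s) (T x s) + √s / R x s * (x / R x s) * (Φ x - mn Φ (R x s)) -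
      fA Φ (R x s) (T x s) := by
  unfold be
  rw [RcosT hs, sinT hs, cosT hs]

/-- the algebra -/
theorem alg1 (A A' P r q x : ℝ) (hr : r ≠ 0) (hq : q ≠ 0) (h : r ^ 2 = x ^ 2 + q ^ 2) :
    ((A' / r * (x / r) + P * -(q / r ^ 2)) / q -
      2 * x * (((A' / r * (1 / (2 * r)) + P * (x / (2 * r ^ 2 * q))) * q - A * (1 / (2 * q))) / q ^ 2)) * q ^ 2 -
      A / q * x = -P := by
  have h2 : r ^ 2 ≠ 0 := pow_ne_zero 2 hr
  field_simp
  linear_combination (P * q) * h

theorem alg2 (A A' P F F' r q x : ℝ) (hr : r ≠ 0) (hq : q ≠ 0) (h : r ^ 2 = x ^ 2 + q ^ 2) :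
    ((A' / r * (1 / (2 * r)) + P * (x / (2 * r ^ 2 * q))) * q - A * (1 / (2 * q))) / q ^ 2 +
      (F' / r * (x / r) + ((q / r) ^ 2 * A' + q / r * (x / r) * P - A) / 2 * -(q / r ^ 2)) / q ^ 2 -
      2 * x * (((F' / r * (1 / (2 * r)) + ((q / r) ^ 2 * A' + q / r * (x / r) * P - A) / 2 *
        (x / (2 * r ^ 2 * q))) * q ^ 2 - F * 1) / (q ^ 2) ^ 2) = 2 * x * (F / q ^ 2 / q ^ 2) := by
  field_simp
  linear_combination (q * (A' * q ^ 2 + P * q * x - A * r ^ 2)) * h

/-- `scd Φ` is even -/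
theorem scd_even {Φ : ℝ → ℝ} (hev : ∀ x, Φ (-x) = Φ x) (x : ℝ) : scd Φ (-x) = scd Φ x := by
  unfold scd
  rw [J4P.deriv_odd hev]
  ring

theorem d1_bd {Φ : ℝ → ℝ} {L : ℝ} (h : Cls Φ L) (x : ℝ) : |deriv Φ x| ≤ L * |x| := by
  have s1 := J4P.deriv_smooth h.sm
  have z1 : deriv Φ 0 = 0 := by
    have := J4P.deriv_odd h.ev 0
    rw [neg_zero] at this
    linarith
  have b1 := Convex.norm_image_sub_le_of_norm_deriv_le (f := deriv Φ) (C := L)
    (s := Set.univ) (fun z _ => (s1.differentiable (by simp)) z) (fun z _ => h.bd z) convex_univ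
    (x := 0) (y := x) (Set.mem_univ _) (Set.mem_univ _)
  rwa [z1, sub_zero, sub_zero, Real.norm_eq_abs, Real.norm_eq_abs] at b1

theorem d1_scd {Φ : ℝ → ℝ} {L : ℝ} (h : Cls Φ L) (x : ℝ) : |deriv (scd Φ) x| ≤ 2 * L * |x| := by
  have s1 := J4P.deriv_smooth h.sm
  have h1 : HasDerivAt (scd Φ) (1 * deriv Φ x + x * deriv (deriv Φ) x) x :=
    (hasDerivAt_id x).mul (J4P.hd s1 x)
  rw [h1.deriv, one_mul]
  have h2 := abs_add_le (deriv Φ x) (x * deriv (deriv Φ) x)
  rw [abs_mul] at h2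
  have h3 := mul_le_mul_of_nonneg_left (h.bd x) (abs_nonneg x)
  linarith [d1_bd h x]

end J5

open J5 in
/-- J5 -/
theorem j5 : J2 → J3 → Pool.Agent.Q73.PW.J4 → J4' → Pool.Agent.Q73.PW.J5 := by
  intro hJ2 hJ3 hJ4 hJ4' Φ L h
  obtain ⟨K, hK0, hK⟩ := hJ4
  obtain ⟨C', hC0, hC'⟩ := hJ4' Φ L h
  have hL : 0 ≤ L := (abs_nonneg _).trans (h.bd 0)
  have hsc := J4.scd_cont h.sm
  obtain ⟨-, -, -, jF, jM, jI, jN⟩ := hJ3 Φ h.sm h.ev
  -- the bounds
  have B1 : ∀ x s, 0 < s → |Φ x - mn Φ (R x s)| ≤ K * L * R x s ^ 2 := by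
    intro x s hs
    have h1 := (hK Φ L (R x s) h.sm h.ev (R_pos hs) fun x _ => d1_bd h x).1 (T x s)
    rwa [RcosT hs] at h1
  have B2 : ∀ x s, 0 < s → |fA Φ (R x s) (T x s)| ≤ K * L * R x s ^ 2 * (√s / R x s) ∧
      |be Φ (R x s) (T x s)| ≤ K * L * R x s ^ 2 * (√s / R x s) ^ 3 ∧
      |fB Φ (R x s) (T x s)| ≤ K * L * R x s ^ 2 * (√s / R x s) ^ 4 := by
    intro x s hs
    have h1 := (hK Φ L (R x s) h.sm h.ev (R_pos hs) fun x _ => d1_bd h x).2 (T x s) (T_nonneg x s) (T_le x s)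
    rwa [sinT hs] at h1
  have B3 : ∀ x s, 0 < s → |fA (scd Φ) (R x s) (T x s)| ≤ K * (2 * L) * R x s ^ 2 * (√s / R x s) ∧
      |fB (scd Φ) (R x s) (T x s)| ≤ K * (2 * L) * R x s ^ 2 * (√s / R x s) ^ 4 := by
    intro x s hs
    have h1 := (hK (scd Φ) (2 * L) (R x s) hsc (scd_even h.ev) (R_pos hs) fun x _ => d1_scd h x).2 (T x s)
      (T_nonneg x s) (T_le x s)
    rw [sinT hs] at h1
    exact ⟨h1.1, h1.2.2⟩
  have B4 : ∀ x s, 0 < s → |fB Φ (R x s) (T x s)| ≤ C' * R x s ^ 4 * (√s / R x s) ^ 4 := by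
    intro x s hs
    have h1 := hC' (R x s) (T x s) (R_pos hs) (T_nonneg x s) (T_le x s)
    rwa [sinT hs] at h1
  have hKL : 0 ≤ K * L := mul_nonneg hK0 hL
  -- the structure
  have main : ∀ k : ℝ, (∀ x s, 0 < s → 0 ≤ ds (bb Φ) x s + k * (bb Φ x s / s)) →
      (∀ x s, 0 < s → 0 ≤ bb Φ x s) → Fld Φ (al Φ) (bb Φ) k (4 * (K * L) + C') := by
    intro k hk3 hk4
    refine ⟨by linarith, sm_al Φ (hJ2 Φ h.sm).2.1, sm_bb Φ (hJ2 Φ h.sm).2.2.2.1, ?_, ?_, hk3, hk4, ?_, ?_, ?_, ?_,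
      ?_, ?_, ?_⟩
    · intro x s hs
      have hR := R_pos (x := x) hs
      have hq : 0 < √s := Real.sqrt_pos.2 hs
      have hq2 : √s ^ 2 = s := Real.sq_sqrt hs.le
      rw [der_al_x hJ2 h.sm hs, der_al_s hJ2 h.sm hs, al_eq]
      have h1 := alg1 (fA Φ (R x s) (T x s)) (fA (scd Φ) (R x s) (T x s)) (Φ x - mn Φ (R x s)) (R x s) (√s) x
        hR.ne' hq.ne' (by rw [hq2]; exact R_sq hs)
      have h2 : mn Φ √(x ^ 2 + s) = mn Φ (R x s) := rfl
      rw [h2]
      rw [hq2] at h1 ⊢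
      exact h1
    · intro x s hs
      have hR := R_pos (x := x) hs
      have hq : 0 < √s := Real.sqrt_pos.2 hs
      have hq2 : √s ^ 2 = s := Real.sq_sqrt hs.le
      rw [der_al_s hJ2 h.sm hs, der_bb_x hJ2 h.sm hs, der_bb_s hJ2 h.sm hs, bb_eq, be_eq Φ hs]
      have h1 := alg2 (fA Φ (R x s) (T x s)) (fA (scd Φ) (R x s) (T x s)) (Φ x - mn Φ (R x s))
        (fB Φ (R x s) (T x s)) (fB (scd Φ) (R x s) (T x s)) (R x s) (√s) x
        hR.ne' hq.ne' (by rw [hq2]; exact R_sq hs)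
      rw [hq2] at h1 ⊢
      exact h1
    · intro x s hs
      have hR := R_pos (x := x) hs
      have hq : 0 < √s := Real.sqrt_pos.2 hs
      rw [al_eq, abs_div, abs_of_pos hq, div_le_iff₀ hq]
      refine (B2 x s hs).1.trans ?_
      have h1 : K * L * R x s ^ 2 * (√s / R x s) = K * L * (R x s * √s) := by
        field_simp
      rw [h1]
      have h2 : 0 < R x s * √s := mul_pos hR hq
      show _ ≤ (4 * (K * L) + C') * R x s * √s
      nlinarith [mul_nonneg hKL h2.le, mul_nonneg hC0 h2.le]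
    · intro x s hs
      have hR := R_pos (x := x) hs
      have hq : 0 < √s := Real.sqrt_pos.2 hs
      have h1 : dx (al Φ) x s = (fA (scd Φ) (R x s) (T x s) * x - (Φ x - mn Φ (R x s)) * √s) / (R x s ^ 2 * √s) := by
        rw [der_al_x hJ2 h.sm hs]
        field_simp
        ring
      have h2 : 0 < R x s ^ 2 * √s := by positivity
      rw [h1, abs_div, abs_of_pos h2, div_le_iff₀ h2]
      have h3 : |fA (scd Φ) (R x s) (T x s) * x| ≤ 2 * (K * L) * (R x s ^ 2 * √s) := by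
        rw [abs_mul]
        calc _ ≤ K * (2 * L) * R x s ^ 2 * (√s / R x s) * R x s :=
              mul_le_mul (B3 x s hs).1 (x_lt hs).le (abs_nonneg _) (le_trans (abs_nonneg _) (B3 x s hs).1)
          _ = _ := by field_simp
      have h4 : |(Φ x - mn Φ (R x s)) * √s| ≤ (K * L) * (R x s ^ 2 * √s) := by
        rw [abs_mul, abs_of_pos hq]
        calc _ ≤ K * L * R x s ^ 2 * √s := mul_le_mul_of_nonneg_right (B1 x s hs) hq.le
          _ = _ := by ring
      have h5 := abs_sub (fA (scd Φ) (R x s) (T x s) * x) ((Φ x - mn Φ (R x s)) * √s)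
      nlinarith [mul_nonneg hKL h2.le, mul_nonneg hC0 h2.le]
    · intro x s hs
      have hR := R_pos (x := x) hs
      have hq : 0 < √s := Real.sqrt_pos.2 hs
      have hq2 : √s ^ 2 = s := Real.sq_sqrt hs.le
      have h1 : ds (al Φ) x s * s = be Φ (R x s) (T x s) / (2 * √s) := by
        rw [der_al_s hJ2 h.sm hs, be_eq Φ hs]
        have h0 : ∀ A A' P r q t : ℝ, r ≠ 0 → q ≠ 0 → q ^ 2 = t →
            ((A' / r * (1 / (2 * r)) + P * (x / (2 * r ^ 2 * q))) * q - A * (1 / (2 * q))) / q ^ 2 * t =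
            ((q / r) ^ 2 * A' + q / r * (x / r) * P - A) / (2 * q) := by
          intro A A' P r q t hr hq ht
          rw [← ht]
          field_simp
        exact h0 _ _ _ _ _ _ hR.ne' hq.ne' hq2
      have h2 : |ds (al Φ) x s| * s = |be Φ (R x s) (T x s)| / (2 * √s) := by
        rw [← abs_of_pos (show 0 < 2 * √s by positivity), ← abs_div, ← h1, abs_mul, abs_of_pos hs]
      rw [h2, div_le_iff₀ (by positivity)]
      refine (B2 x s hs).2.1.trans ?_
      have h3 : K * L * R x s ^ 2 * (√s / R x s) ^ 3 = K * L * (√s * (√s ^ 2 / R x s)) := by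
        field_simp
      have h4 : √s ^ 2 / R x s ≤ R x s := by
        rw [div_le_iff₀ hR]
        have := q_le (x := x) (s := s)
        nlinarith
      rw [h3]
      show _ ≤ (4 * (K * L) + C') * R x s * (2 * √s)
      have h5 : K * L * (√s * (√s ^ 2 / R x s)) ≤ K * L * (√s * R x s) :=
        mul_le_mul_of_nonneg_left (mul_le_mul_of_nonneg_left h4 hq.le) hKL
      have h6 : 0 < √s * R x s := mul_pos hq hR
      nlinarith [mul_nonneg hKL h6.le, mul_nonneg hC0 h6.le]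
    · intro x s hs
      have hR := R_pos (x := x) hs
      have hq : 0 < √s := Real.sqrt_pos.2 hs
      have hq2 : √s ^ 2 = s := Real.sq_sqrt hs.le
      rw [bb_eq, div_le_iff₀ hs]
      refine (le_abs_self _).trans ((B2 x s hs).2.2.trans ?_)
      have h3 : K * L * R x s ^ 2 * (√s / R x s) ^ 4 = K * L * (√s ^ 2 * (√s ^ 2 / R x s ^ 2)) := by
        field_simp
      have h4 : √s ^ 2 / R x s ^ 2 ≤ 1 := by
        rw [div_le_one (by positivity)]
        exact pow_le_pow_left₀ hq.le q_le 2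
      rw [h3, hq2]
      rw [hq2] at h4
      have h5 : K * L * (s * (s / R x s ^ 2)) ≤ K * L * (s * 1) :=
        mul_le_mul_of_nonneg_left (mul_le_mul_of_nonneg_left h4 hs.le) hKL
      nlinarith [mul_nonneg hKL hs.le, mul_nonneg hC0 hs.le]
    · intro x s hs
      have hR := R_pos (x := x) hs
      have hq : 0 < √s := Real.sqrt_pos.2 hs
      have hq2 : √s ^ 2 = s := Real.sq_sqrt hs.le
      rw [bb_eq, div_div, div_le_iff₀ (mul_pos hs hs)]
      refine (le_abs_self _).trans ((B4 x s hs).trans ?_)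
      have h3 : C' * R x s ^ 4 * (√s / R x s) ^ 4 = C' * (√s ^ 2 * √s ^ 2) := by
        field_simp
      rw [h3, hq2]
      nlinarith [mul_nonneg hKL (mul_pos hs hs).le]
    · intro x s hs
      have hR := R_pos (x := x) hs
      have hq : 0 < √s := Real.sqrt_pos.2 hs
      have hq2 : √s ^ 2 = s := Real.sq_sqrt hs.le
      have hqR := q_le (x := x) (s := s)
      have h1 : ds (bb Φ) x s * s = fB (scd Φ) (R x s) (T x s) / (2 * R x s ^ 2) +
          be Φ (R x s) (T x s) * x / (4 * R x s ^ 2 * √s) - fB Φ (R x s) (T x s) / s := by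
        rw [der_bb_s hJ2 h.sm hs]
        field_simp
        ring
      have h2 : |ds (bb Φ) x s| * s = |ds (bb Φ) x s * s| := by rw [abs_mul, abs_of_pos hs]
      rw [h2, h1]
      have e0 : (√s / R x s) ^ 4 ≤ 1 := pow_le_one₀ (by positivity) ((div_le_one hR).2 hqR)
      have e1 : |fB (scd Φ) (R x s) (T x s) / (2 * R x s ^ 2)| ≤ K * L := by
        rw [abs_div, abs_of_pos (show 0 < 2 * R x s ^ 2 by positivity), div_le_iff₀ (by positivity)]
        refine (B3 x s hs).2.trans ?_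
        calc K * (2 * L) * R x s ^ 2 * (√s / R x s) ^ 4 ≤ K * (2 * L) * R x s ^ 2 * 1 :=
              mul_le_mul_of_nonneg_left e0 (by positivity)
          _ = _ := by ring
      have e2 : |be Φ (R x s) (T x s) * x / (4 * R x s ^ 2 * √s)| ≤ K * L := by
        rw [abs_div, abs_of_pos (show 0 < 4 * R x s ^ 2 * √s by positivity), div_le_iff₀ (by positivity), abs_mul]
        have h3 : |be Φ (R x s) (T x s)| * |x| ≤ K * L * R x s ^ 2 * (√s / R x s) ^ 3 * R x s :=
          mul_le_mul (B2 x s hs).2.1 (x_lt hs).le (abs_nonneg _) (le_trans (abs_nonneg _) (B2 x s hs).2.1)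
        have h4 : K * L * R x s ^ 2 * (√s / R x s) ^ 3 * R x s = K * L * (√s * √s ^ 2) := by
          field_simp
        rw [h4] at h3
        have h5 : √s ^ 2 ≤ R x s ^ 2 := pow_le_pow_left₀ hq.le hqR 2
        have h6 : K * L * (√s * √s ^ 2) ≤ K * L * (√s * R x s ^ 2) :=
          mul_le_mul_of_nonneg_left (mul_le_mul_of_nonneg_left h5 hq.le) hKL
        have h7 : 0 ≤ K * L * (√s * R x s ^ 2) := by positivity
        nlinarith
      have e3 : |fB Φ (R x s) (T x s) / s| ≤ K * L := by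
        rw [abs_div, abs_of_pos hs, div_le_iff₀ hs]
        refine (B2 x s hs).2.2.trans ?_
        have h3 : K * L * R x s ^ 2 * (√s / R x s) ^ 4 = K * L * (√s ^ 2 * (√s ^ 2 / R x s ^ 2)) := by
          field_simp
        have h4 : √s ^ 2 / R x s ^ 2 ≤ 1 := by
          rw [div_le_one (by positivity)]
          exact pow_le_pow_left₀ hq.le q_le 2
        rw [h3, hq2]
        rw [hq2] at h4
        calc K * L * (s * (s / R x s ^ 2)) ≤ K * L * (s * 1) :=
              mul_le_mul_of_nonneg_left (mul_le_mul_of_nonneg_left h4 hs.le) hKL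
          _ = _ := by ring
      have e4 := abs_sub (fB (scd Φ) (R x s) (T x s) / (2 * R x s ^ 2) +
        be Φ (R x s) (T x s) * x / (4 * R x s ^ 2 * √s)) (fB Φ (R x s) (T x s) / s)
      have e5 := abs_add_le (fB (scd Φ) (R x s) (T x s) / (2 * R x s ^ 2))
        (be Φ (R x s) (T x s) * x / (4 * R x s ^ 2 * √s))
      linarith
    · intro x s hs
      have hR := R_pos (x := x) hs
      have hq : 0 < √s := Real.sqrt_pos.2 hs
      have hq2 : √s ^ 2 = s := Real.sq_sqrt hs.le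
      have hqR := q_le (x := x) (s := s)
      have h1 : dx (bb Φ) x s * R x s = fB (scd Φ) (R x s) (T x s) * x / (R x s * s) -
          be Φ (R x s) (T x s) * √s / (2 * R x s * s) := by
        rw [der_bb_x hJ2 h.sm hs]
        field_simp
        ring
      have h2 : |dx (bb Φ) x s| * R x s = |dx (bb Φ) x s * R x s| := by rw [abs_mul, abs_of_pos hR]
      show |dx (bb Φ) x s| * R x s ≤ _
      rw [h2, h1]
      have h5 : √s ^ 2 ≤ R x s ^ 2 := pow_le_pow_left₀ hq.le hqR 2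
      rw [hq2] at h5
      have e1 : |fB (scd Φ) (R x s) (T x s) * x / (R x s * s)| ≤ 2 * (K * L) := by
        rw [abs_div, abs_of_pos (show 0 < R x s * s by positivity), div_le_iff₀ (by positivity), abs_mul]
        have h3 : |fB (scd Φ) (R x s) (T x s)| * |x| ≤ K * (2 * L) * R x s ^ 2 * (√s / R x s) ^ 4 * R x s :=
          mul_le_mul (B3 x s hs).2 (x_lt hs).le (abs_nonneg _) (le_trans (abs_nonneg _) (B3 x s hs).2)
        have h4 : K * (2 * L) * R x s ^ 2 * (√s / R x s) ^ 4 * R x s =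
            2 * (K * L) * (√s ^ 2 * (√s ^ 2 / R x s)) := by
          field_simp
        rw [h4, hq2] at h3
        have h6 : s / R x s ≤ R x s := by
          rw [div_le_iff₀ hR]
          nlinarith
        have h7 : 2 * (K * L) * (s * (s / R x s)) ≤ 2 * (K * L) * (s * R x s) :=
          mul_le_mul_of_nonneg_left (mul_le_mul_of_nonneg_left h6 hs.le) (by linarith)
        nlinarith
      have e2 : |be Φ (R x s) (T x s) * √s / (2 * R x s * s)| ≤ K * L := by
        rw [abs_div, abs_of_pos (show 0 < 2 * R x s * s by positivity), div_le_iff₀ (by positivity), abs_mul,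
          abs_of_pos hq]
        have h3 : |be Φ (R x s) (T x s)| * √s ≤ K * L * R x s ^ 2 * (√s / R x s) ^ 3 * √s :=
          mul_le_mul_of_nonneg_right (B2 x s hs).2.1 hq.le
        have h4 : K * L * R x s ^ 2 * (√s / R x s) ^ 3 * √s = K * L * (√s ^ 2 * (√s ^ 2 / R x s)) := by
          field_simp
        rw [h4, hq2] at h3
        have h6 : s / R x s ≤ R x s := by
          rw [div_le_iff₀ hR]
          nlinarith
        have h7 : K * L * (s * (s / R x s)) ≤ K * L * (s * R x s) :=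
          mul_le_mul_of_nonneg_left (mul_le_mul_of_nonneg_left h6 hs.le) hKL
        have h8 : 0 ≤ K * L * (s * R x s) := by positivity
        nlinarith
      have e4 := abs_sub (fB (scd Φ) (R x s) (T x s) * x / (R x s * s))
        (be Φ (R x s) (T x s) * √s / (2 * R x s * s))
      linarith
  have pos : M0 Φ → ∀ x s, 0 < s → 0 ≤ bb Φ x s := fun hM x s hs =>
    div_nonneg (jF hM (R x s) (T x s) (R_pos hs) (T_nonneg x s) (T_le x s)) hs.le
  refine ⟨fun hM0 hM1 => ⟨_, main 1 ?_ (pos hM0)⟩, fun hM2 => ⟨_, main (1 / 2) ?_ (pos (jI hM2).1)⟩⟩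
  · intro x s hs
    have hR := R_pos (x := x) hs
    have hq : 0 < √s := Real.sqrt_pos.2 hs
    have hq2 : √s ^ 2 = s := Real.sq_sqrt hs.le
    have h1 := jM hM0 hM1 (R x s) (T x s) hR (T_nonneg x s) (T_le x s)
    rw [sinT hs, cosT hs] at h1
    have h2 : ds (bb Φ) x s + 1 * (bb Φ x s / s) = (√s / R x s * fB (scd Φ) (R x s) (T x s) +
        x / R x s * be Φ (R x s) (T x s) / 2) / (2 * R x s * √s * s) := by
      rw [der_bb_s hJ2 h.sm hs, bb_eq]
      have h0 : ∀ F F' Bt r q t : ℝ, r ≠ 0 → q ≠ 0 → t ≠ 0 → q ^ 2 = t →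
          ((F' / r * (1 / (2 * r)) + Bt / 2 * (x / (2 * r ^ 2 * q))) * t - F * 1) / t ^ 2 + 1 * (F / t / t) =
          (q / r * F' + x / r * Bt / 2) / (2 * r * q * t) := by
        intro F F' Bt r q t hr hq ht htq
        field_simp
        ring
      exact h0 _ _ _ _ _ _ hR.ne' hq.ne' hs.ne' hq2
    rw [h2]
    exact div_nonneg h1 (by positivity)
  · intro x s hs
    have hR := R_pos (x := x) hs
    have hq : 0 < √s := Real.sqrt_pos.2 hs
    have hq2 : √s ^ 2 = s := Real.sq_sqrt hs.le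
    have h1 := jN hM2 (R x s) (T x s) hR (T_nonneg x s) (T_le x s)
    rw [sinT hs, cosT hs] at h1
    have h2 : ds (bb Φ) x s + 1 / 2 * (bb Φ x s / s) = ((√s / R x s) ^ 2 * fB (scd Φ) (R x s) (T x s) +
        √s / R x s * (x / R x s) * be Φ (R x s) (T x s) / 2 - fB Φ (R x s) (T x s)) / (2 * s ^ 2) := by
      rw [der_bb_s hJ2 h.sm hs, bb_eq]
      have h0 : ∀ F F' Bt r q t : ℝ, r ≠ 0 → q ≠ 0 → t ≠ 0 → q ^ 2 = t →
          ((F' / r * (1 / (2 * r)) + Bt / 2 * (x / (2 * r ^ 2 * q))) * t - F * 1) / t ^ 2 + 1 / 2 * (F / t / t) =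
          ((q / r) ^ 2 * F' + q / r * (x / r) * Bt / 2 - F) / (2 * t ^ 2) := by
        intro F F' Bt r q t hr hq ht htq
        rw [← htq]
        field_simp
        ring
      exact h0 _ _ _ _ _ _ hR.ne' hq.ne' hs.ne' hq2
    rw [h2]
    exact div_nonneg h1 (by positivity)

end

end Pool.Agent.Q73.PW
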