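import Pool.Agent.Q73.PW.Stm2

/-!
# Project PW: the inequality in isothermal coordinates, algebra
-/

set_option autoImplicit false
set_option linter.unusedVariables false
open MeasureTheory Filter Topology Real
open scoped ContDiff ENNReal

namespace Pool.Agent.Q73.PW

noncomputable section

open Pool.Agent.Results.MP_a52643_an.AbsoluteContinuity (lapl LocL2 Test)

namespace J9

/-! ### algebra -/

/-- the identity for `E` -/
theorem algE (x g1 g2 q H11 H12 H22 e2 s a ax as b bx bs k φ : ℝ)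
    (hH : H11 + H22 = -x) (hs : s = q * (g1 ^ 2 + g2 ^ 2) + e2) (hb : b = k * s)
    (r1 : (ax - 2 * x * as) * s - a * x = -φ) (r2 : as + bx - 2 * x * bs = 2 * x * k) :
    ax * (q * (g1 ^ 2 + g2 ^ 2)) +
      2 * as * (q * ((H11 * g1 + H12 * g2) * g1 + (H12 * g1 + H22 * g2) * g2)) - a * x +
      2 * bx * (x * (q * (g1 ^ 2 + g2 ^ 2)) +
        q * ((H11 * g1 + H12 * g2) * g1 + (H12 * g1 + H22 * g2) * g2)) +
      4 * bs * (x * (q * ((H11 * g1 + H12 * g2) * g1 + (H12 * g1 + H22 * g2) * g2)) +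
        q * ((H11 * g1 + H12 * g2) ^ 2 + (H12 * g1 + H22 * g2) ^ 2)) +
      2 * b * (H11 ^ 2 + 2 * H12 ^ 2 + H22 ^ 2 - x ^ 2) =
    -φ + 4 * (bs + k) * (x ^ 2 * s +
        2 * x * (q * ((H11 * g1 + H12 * g2) * g1 + (H12 * g1 + H22 * g2) * g2)) +
        q * ((H11 * g1 + H12 * g2) ^ 2 + (H12 * g1 + H22 * g2) ^ 2)) +
      2 * e2 * k * (H11 ^ 2 + 2 * H12 ^ 2 + H22 ^ 2 - x ^ 2) - e2 * (ax + 2 * x * bx) := by
  have h1 : H22 = -x - H11 := by linarith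
  have h2 : e2 = s - q * (g1 ^ 2 + g2 ^ 2) := by linarith
  subst h1 h2 hb
  linear_combination r1 + 2 * (x * s +
    q * ((H11 * g1 + H12 * g2) * g1 + (H12 * g1 + (-x - H11) * g2) * g2)) * r2

/-- the identity for the divergence -/
theorem algD (h x u1 u2 u11 u12 u22 t1 t2 q ρ r1 r2 c c1 c2 a ax as b bx bs : ℝ)
    (hq : q * ρ = 1) (hL : h ^ 2 * (u11 + u22) = -(ρ * x))
    (hT1 : h ^ 2 * t1 = -(r1 * x + ρ * u1)) (hT2 : h ^ 2 * t2 = -(r2 * x + ρ * u2))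
    (v111 v112 v221 v222 : ℝ) (ht1 : v111 + v221 = t1) (ht2 : v112 + v222 = t2)
    (s1 s2 D1 D2 : ℝ)
    (hs1 : s1 = h ^ 2 * (2 * u11 * u1 + 2 * u12 * u2) * q - h ^ 2 * (u1 ^ 2 + u2 ^ 2) * (q ^ 2 * r1))
    (hs2 : s2 = h ^ 2 * (2 * u12 * u1 + 2 * u22 * u2) * q - h ^ 2 * (u1 ^ 2 + u2 ^ 2) * (q ^ 2 * r2))
    (hD1 : D1 = h * (c1 * (a * u1 + 2 * b * (x * u1 + h ^ 2 * q * (u11 * u1 + u12 * u2))) +
      c * ((ax * u1 + as * s1) * u1 + a * u11 +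
        2 * (bx * u1 + bs * s1) * (x * u1 + h ^ 2 * q * (u11 * u1 + u12 * u2)) +
        2 * b * (u1 ^ 2 + x * u11 + h ^ 2 * q * (v111 * u1 + u11 ^ 2 + v112 * u2 + u12 ^ 2) -
          h ^ 2 * (q ^ 2 * r1) * (u11 * u1 + u12 * u2)))))
    (hD2 : D2 = h * (c2 * (a * u2 + 2 * b * (x * u2 + h ^ 2 * q * (u12 * u1 + u22 * u2))) +
      c * ((ax * u2 + as * s2) * u2 + a * u22 +
        2 * (bx * u2 + bs * s2) * (x * u2 + h ^ 2 * q * (u12 * u1 + u22 * u2)) +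
        2 * b * (u2 ^ 2 + x * u22 + h ^ 2 * q * (v221 * u1 + u12 ^ 2 + v222 * u2 + u22 ^ 2) -
          h ^ 2 * (q ^ 2 * r2) * (u12 * u1 + u22 * u2)))))
    (g1 g2 H11 H12 H22 n1 n2 m1 m2 σ : ℝ) (hg1 : g1 = h * u1) (hg2 : g2 = h * u2)
    (hH11 : H11 = q * (h ^ 2 * u11)) (hH12 : H12 = q * (h ^ 2 * u12)) (hH22 : H22 = q * (h ^ 2 * u22))
    (hn1 : n1 = H11 * g1 + H12 * g2) (hn2 : n2 = H12 * g1 + H22 * g2)
    (hm1 : m1 = x * g1 + n1) (hm2 : m2 = x * g2 + n2) (hσ : σ = q * (g1 ^ 2 + g2 ^ 2)) :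
    h * (D1 + D2) = c * ρ * (ax * σ + 2 * as * (q * (n1 * g1 + n2 * g2)) - a * x +
        2 * bx * (x * σ + q * (n1 * g1 + n2 * g2)) +
        4 * bs * (x * (q * (n1 * g1 + n2 * g2)) + q * (n1 ^ 2 + n2 ^ 2)) +
        2 * b * (H11 ^ 2 + 2 * H12 ^ 2 + H22 ^ 2 - x ^ 2)) +
      h * (c1 * (a * g1 + 2 * b * m1) + c2 * (a * g2 + 2 * b * m2) -
        c * q * (as * σ * (r1 * g1 + r2 * g2) + 2 * (bs * σ + b) * (r1 * m1 + r2 * m2))) := by
  have e1 : v221 = t1 - v111 := by linarith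
  have e2' : v222 = t2 - v112 := by linarith
  subst e1 e2' hs1 hs2 hD1 hD2 hm1 hm2 hn1 hn2 hσ hg1 hg2 hH11 hH12 hH22
  linear_combination (-(c * ax * h ^ 2 * (u1 ^ 2 + u2 ^ 2)) -
    2 * c * as * h ^ 4 * q * (u11 * u1 ^ 2 + 2 * u12 * u1 * u2 + u22 * u2 ^ 2) -
    2 * c * bx * h ^ 2 * (x * (u1 ^ 2 + u2 ^ 2) +
      h ^ 2 * q * (u11 * u1 ^ 2 + 2 * u12 * u1 * u2 + u22 * u2 ^ 2)) -
    4 * c * bs * h ^ 4 * q * (x * (u11 * u1 ^ 2 + 2 * u12 * u1 * u2 + u22 * u2 ^ 2) +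
      h ^ 2 * q * ((u11 * u1 + u12 * u2) ^ 2 + (u12 * u1 + u22 * u2) ^ 2)) -
    2 * b * c * (h ^ 2 * (u1 ^ 2 + u2 ^ 2) + h ^ 4 * q * (u11 ^ 2 + 2 * u12 ^ 2 + u22 ^ 2))) * hq +
    (c * a + 2 * b * c * x) * hL + 2 * b * c * h ^ 2 * q * u1 * hT1 +
    2 * b * c * h ^ 2 * q * u2 * hT2

/-- the bound of the error -/
theorem bndR (x g1 g2 A11 A12 A22 q c c1 c2 r1 r2 a as b bs s e2 S B C W n1 n2 m1 m2 σ : ℝ)
    (hB : 1 ≤ B) (hC : 0 ≤ C) (hc0 : 0 ≤ c) (hc : c ≤ B) (hq0 : 0 ≤ q) (hqB : q ≤ B)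
    (hc1 : |c1| ≤ B) (hc2 : |c2| ≤ B) (hr1 : |r1| ≤ B) (hr2 : |r2| ≤ B)
    (he0 : 0 ≤ e2) (he1 : e2 ≤ 1) (hs : s = σ + e2) (hσ : σ = q * (g1 ^ 2 + g2 ^ 2))
    (hS : 0 ≤ S) (hS2 : S ^ 2 = x ^ 2 + s)
    (ha : |a| ≤ C * S) (has : |as| * s ≤ C * S) (hb0 : 0 ≤ b) (hb : b ≤ C) (hbs : |bs| * s ≤ C)
    (hn1 : n1 = q * A11 * g1 + q * A12 * g2) (hn2 : n2 = q * A12 * g1 + q * A22 * g2)
    (hm1 : m1 = x * g1 + n1) (hm2 : m2 = x * g2 + n2)
    (hW : W = 1 + x ^ 2 + (g1 ^ 2 + g2 ^ 2) + (A11 ^ 2 + A12 ^ 2 + A12 ^ 2 + A22 ^ 2)) :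
    |c1 * (a * g1 + 2 * b * m1) + c2 * (a * g2 + 2 * b * m2) -
        c * q * (as * σ * (r1 * g1 + r2 * g2) + 2 * (bs * σ + b) * (r1 * m1 + r2 * m2))| ≤
      16 * C * B ^ 4 * W := by
  have hσ0 : 0 ≤ σ := by rw [hσ]; positivity
  have hσs : σ ≤ s := by rw [hs]; linarith
  have hW1 : 1 ≤ W := by
    rw [hW]
    nlinarith [sq_nonneg x, sq_nonneg g1, sq_nonneg g2, sq_nonneg A11,
      sq_nonneg A12, sq_nonneg A22]
  have hg12 : σ ≤ B * (g1 ^ 2 + g2 ^ 2) := by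
    rw [hσ]; exact mul_le_mul_of_nonneg_right hqB (by positivity)
  have hSW : S ^ 2 ≤ B * W := by
    rw [hS2, hs, hW]
    nlinarith [sq_nonneg x, sq_nonneg g1, sq_nonneg g2, sq_nonneg A11,
      sq_nonneg A12, sq_nonneg A22]
  have hSg : ∀ g : ℝ, g ^ 2 ≤ W → S * |g| ≤ B * W := by
    intro g hg
    have h1 : 2 * (S * |g|) ≤ S ^ 2 + g ^ 2 := by
      have := sq_nonneg (S - |g|)
      rw [← sq_abs g]
      nlinarith
    nlinarith
  have hgW1 : g1 ^ 2 ≤ W := by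
    rw [hW]
    nlinarith [sq_nonneg x, sq_nonneg g2, sq_nonneg A11,
      sq_nonneg A12, sq_nonneg A22]
  have hgW2 : g2 ^ 2 ≤ W := by
    rw [hW]
    nlinarith [sq_nonneg x, sq_nonneg g1, sq_nonneg A11,
      sq_nonneg A12, sq_nonneg A22]
  have hprod : ∀ y z : ℝ, |y * z| ≤ (y ^ 2 + z ^ 2) / 2 := by
    intro y z
    rw [abs_mul, ← sq_abs y, ← sq_abs z]
    nlinarith [sq_nonneg (|y| - |z|)]
  have hqp : ∀ y z : ℝ, |q * y * z| ≤ B * ((y ^ 2 + z ^ 2) / 2) := by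
    intro y z
    rw [mul_assoc, abs_mul, abs_of_nonneg hq0]
    exact mul_le_mul hqB (hprod y z) (abs_nonneg _) (by linarith)
  have hm1' : |m1| ≤ B * W := by
    rw [hm1, hn1]
    have h1 := hprod x g1
    have h2 := hqp A11 g1
    have h3 := hqp A12 g2
    have h4 := abs_add_three (x * g1) (q * A11 * g1) (q * A12 * g2)
    rw [← add_assoc]
    have h5 : (x ^ 2 + g1 ^ 2) / 2 ≤ B * ((x ^ 2 + g1 ^ 2) / 2) := by
      nlinarith [sq_nonneg x, sq_nonneg g1]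
    have h6 : B * ((x ^ 2 + g1 ^ 2) / 2) + B * ((A11 ^ 2 + g1 ^ 2) / 2) +
        B * ((A12 ^ 2 + g2 ^ 2) / 2) ≤ B * W := by
      rw [← mul_add, ← mul_add, hW]
      refine mul_le_mul_of_nonneg_left ?_ (by linarith)
      nlinarith [sq_nonneg x, sq_nonneg g1, sq_nonneg g2, sq_nonneg A11,
        sq_nonneg A12, sq_nonneg A22]
    linarith
  have hm2' : |m2| ≤ B * W := by
    rw [hm2, hn2]
    have h1 := hprod x g2
    have h2 := hqp A12 g1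
    have h3 := hqp A22 g2
    have h4 := abs_add_three (x * g2) (q * A12 * g1) (q * A22 * g2)
    rw [← add_assoc]
    have h5 : (x ^ 2 + g2 ^ 2) / 2 ≤ B * ((x ^ 2 + g2 ^ 2) / 2) := by
      nlinarith [sq_nonneg x, sq_nonneg g2]
    have h6 : B * ((x ^ 2 + g2 ^ 2) / 2) + B * ((A12 ^ 2 + g1 ^ 2) / 2) +
        B * ((A22 ^ 2 + g2 ^ 2) / 2) ≤ B * W := by
      rw [← mul_add, ← mul_add, hW]
      refine mul_le_mul_of_nonneg_left ?_ (by linarith)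
      nlinarith [sq_nonneg x, sq_nonneg g1, sq_nonneg g2, sq_nonneg A11,
        sq_nonneg A12, sq_nonneg A22]
    linarith
  have hBW : 0 ≤ B * W := by positivity
  have hag : ∀ g : ℝ, g ^ 2 ≤ W → |a * g| ≤ C * (B * W) := by
    intro g hg
    rw [abs_mul]
    calc |a| * |g| ≤ C * S * |g| := mul_le_mul_of_nonneg_right ha (abs_nonneg _)
      _ = C * (S * |g|) := by ring
      _ ≤ C * (B * W) := mul_le_mul_of_nonneg_left (hSg g hg) hC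
  have hbm : ∀ m : ℝ, |m| ≤ B * W → |2 * b * m| ≤ 2 * (C * (B * W)) := by
    intro m hm
    rw [abs_mul, abs_mul, abs_of_nonneg hb0, abs_of_pos (by norm_num : (0 : ℝ) < 2), mul_assoc]
    exact mul_le_mul_of_nonneg_left (mul_le_mul hb hm (abs_nonneg _) hC) (by norm_num)
  have hT : ∀ cc g m : ℝ, |cc| ≤ B → g ^ 2 ≤ W → |m| ≤ B * W →
      |cc * (a * g + 2 * b * m)| ≤ B * (3 * (C * (B * W))) := by
    intro cc g m hcc hg hm
    rw [abs_mul]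
    refine mul_le_mul hcc ?_ (abs_nonneg _) (by linarith)
    have := abs_add_le (a * g) (2 * b * m)
    have := hag g hg
    have := hbm m hm
    linarith
  have hasg : ∀ g : ℝ, g ^ 2 ≤ W → |as * σ * g| ≤ C * (B * W) := by
    intro g hg
    rw [abs_mul, abs_mul, abs_of_nonneg hσ0]
    calc |as| * σ * |g| ≤ |as| * s * |g| :=
          mul_le_mul_of_nonneg_right (mul_le_mul_of_nonneg_left hσs (abs_nonneg _)) (abs_nonneg _)
      _ ≤ C * S * |g| := mul_le_mul_of_nonneg_right has (abs_nonneg _)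
      _ = C * (S * |g|) := by ring
      _ ≤ C * (B * W) := mul_le_mul_of_nonneg_left (hSg g hg) hC
  have hbb : |bs * σ + b| ≤ 2 * C := by
    have h1 := abs_add_le (bs * σ) b
    rw [abs_mul, abs_of_nonneg hσ0, abs_of_nonneg hb0] at h1
    have h2 : |bs| * σ ≤ |bs| * s := mul_le_mul_of_nonneg_left hσs (abs_nonneg _)
    linarith
  have hrg : ∀ r g : ℝ, |r| ≤ B → g ^ 2 ≤ W → |as * σ * (r * g)| ≤ B * (C * (B * W)) := by
    intro r g hr hg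
    rw [show as * σ * (r * g) = r * (as * σ * g) by ring, abs_mul]
    exact mul_le_mul hr (hasg g hg) (abs_nonneg _) (by linarith)
  have hrm : ∀ r m : ℝ, |r| ≤ B → |m| ≤ B * W →
      |2 * (bs * σ + b) * (r * m)| ≤ 2 * (2 * C) * (B * (B * W)) := by
    intro r m hr hm
    rw [abs_mul, abs_mul, abs_of_pos (by norm_num : (0 : ℝ) < 2), abs_mul r m]
    exact mul_le_mul (mul_le_mul_of_nonneg_left hbb (by norm_num))
      (mul_le_mul hr hm (abs_nonneg _) (by linarith)) (by positivity) (by positivity)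
  have hin : |as * σ * (r1 * g1 + r2 * g2) + 2 * (bs * σ + b) * (r1 * m1 + r2 * m2)| ≤
      10 * (C * (B * (B * W))) := by
    have e : as * σ * (r1 * g1 + r2 * g2) + 2 * (bs * σ + b) * (r1 * m1 + r2 * m2) =
        (as * σ * (r1 * g1) + as * σ * (r2 * g2)) +
        (2 * (bs * σ + b) * (r1 * m1) + 2 * (bs * σ + b) * (r2 * m2)) := by ring
    rw [e]
    have h0 := abs_add_le (as * σ * (r1 * g1) + as * σ * (r2 * g2))
      (2 * (bs * σ + b) * (r1 * m1) + 2 * (bs * σ + b) * (r2 * m2))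
    have h1 := abs_add_le (as * σ * (r1 * g1)) (as * σ * (r2 * g2))
    have h2 := abs_add_le (2 * (bs * σ + b) * (r1 * m1)) (2 * (bs * σ + b) * (r2 * m2))
    have h3 := hrg r1 g1 hr1 hgW1
    have h4 := hrg r2 g2 hr2 hgW2
    have h5 := hrm r1 m1 hr1 hm1'
    have h6 := hrm r2 m2 hr2 hm2'
    nlinarith
  have hcq : |c * q| ≤ B * B := by
    rw [abs_mul, abs_of_nonneg hc0, abs_of_nonneg hq0]
    exact mul_le_mul hc hqB hq0 (by linarith)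
  have hin2 : |c * q * (as * σ * (r1 * g1 + r2 * g2) + 2 * (bs * σ + b) * (r1 * m1 + r2 * m2))| ≤
      B * B * (10 * (C * (B * (B * W)))) := by
    rw [abs_mul]
    exact mul_le_mul hcq hin (abs_nonneg _) (by positivity)
  have t1 := hT c1 g1 m1 hc1 hgW1 hm1'
  have t2 := hT c2 g2 m2 hc2 hgW2 hm2'
  have h0 := abs_sub (c1 * (a * g1 + 2 * b * m1) + c2 * (a * g2 + 2 * b * m2))
    (c * q * (as * σ * (r1 * g1 + r2 * g2) + 2 * (bs * σ + b) * (r1 * m1 + r2 * m2)))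
  have h1 := abs_add_le (c1 * (a * g1 + 2 * b * m1)) (c2 * (a * g2 + 2 * b * m2))
  have hB2 : 1 ≤ B ^ 2 := one_le_pow₀ hB
  have hfin : 6 * (C * (B * (B * W))) ≤ 6 * (C * (B ^ 4 * W)) := by
    have : B * (B * W) ≤ B ^ 4 * W := by
      have h7 : B ^ 2 ≤ B ^ 2 * B ^ 2 := le_mul_of_one_le_right (by positivity) hB2
      have h8 : B ^ 2 * W ≤ B ^ 2 * B ^ 2 * W := mul_le_mul_of_nonneg_right h7 (by linarith)
      nlinarith
    nlinarith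
  nlinarith

/-- the bound of the term with `ε²` -/
theorem bndE (x g1 g2 A11 A12 A22 q c ρ k ax bx e2 S B C W : ℝ)
    (hB : 1 ≤ B) (hC : 0 ≤ C) (hc0 : 0 ≤ c) (hc : c ≤ B) (hq0 : 0 ≤ q) (hqB : q ≤ B)
    (hρ0 : 0 ≤ ρ) (hρ : ρ ≤ B) (he0 : 0 ≤ e2) (hk0 : 0 ≤ k) (hk : k ≤ C) (hax : |ax| ≤ C)
    (hS : 0 ≤ S) (hxS : |x| ≤ S) (hbx : |bx| * S ≤ C)
    (hW : W = 1 + x ^ 2 + (g1 ^ 2 + g2 ^ 2) + (A11 ^ 2 + A12 ^ 2 + A12 ^ 2 + A22 ^ 2)) :
    -(16 * C * B ^ 4 * e2 * W) ≤ c * ρ * (2 * e2 * k * ((q * A11) ^ 2 + 2 * (q * A12) ^ 2 +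
      (q * A22) ^ 2 - x ^ 2) - e2 * (ax + 2 * x * bx)) := by
  have hcρ : c * ρ ≤ B * B := mul_le_mul hc hρ hρ0 (by linarith)
  have hcρ0 : 0 ≤ c * ρ := mul_nonneg hc0 hρ0
  have hxb : |x * bx| ≤ C := by
    rw [abs_mul, mul_comm]
    exact (mul_le_mul_of_nonneg_left hxS (abs_nonneg _)).trans hbx
  have h1 : ax + 2 * x * bx ≤ 3 * C := by
    have h2 := (abs_le.1 hax).2
    have h3 := (abs_le.1 hxb).2
    linarith
  have h4 : -(2 * C * x ^ 2) ≤ 2 * k * ((q * A11) ^ 2 + 2 * (q * A12) ^ 2 +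
      (q * A22) ^ 2 - x ^ 2) := by
    have h5 : k * x ^ 2 ≤ C * x ^ 2 := mul_le_mul_of_nonneg_right hk (sq_nonneg _)
    have h6 : 0 ≤ k * ((q * A11) ^ 2 + 2 * (q * A12) ^ 2 + (q * A22) ^ 2) := by positivity
    nlinarith
  have hxW : x ^ 2 ≤ W := by
    rw [hW]
    nlinarith [sq_nonneg g1, sq_nonneg g2, sq_nonneg A11,
      sq_nonneg A12, sq_nonneg A22]
  have hW1 : 1 ≤ W := by
    rw [hW]
    nlinarith [sq_nonneg x, sq_nonneg g1, sq_nonneg g2, sq_nonneg A11,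
      sq_nonneg A12, sq_nonneg A22]
  have h7 : -(5 * C * W) ≤ 2 * k * ((q * A11) ^ 2 + 2 * (q * A12) ^ 2 +
      (q * A22) ^ 2 - x ^ 2) - (ax + 2 * x * bx) := by
    have h8 : C * x ^ 2 ≤ C * W := mul_le_mul_of_nonneg_left hxW hC
    have h9 : C * 1 ≤ C * W := mul_le_mul_of_nonneg_left hW1 hC
    linarith
  have h10 : c * ρ * (2 * e2 * k * ((q * A11) ^ 2 + 2 * (q * A12) ^ 2 +
      (q * A22) ^ 2 - x ^ 2) - e2 * (ax + 2 * x * bx)) = (c * ρ * e2) * (2 * k * ((q * A11) ^ 2 +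
      2 * (q * A12) ^ 2 + (q * A22) ^ 2 - x ^ 2) - (ax + 2 * x * bx)) := by ring
  rw [h10]
  have h11 : 0 ≤ c * ρ * e2 := mul_nonneg hcρ0 he0
  have h12 := mul_le_mul_of_nonneg_left h7 h11
  have h13 : c * ρ * e2 * (5 * C * W) ≤ B * B * e2 * (5 * C * W) :=
    mul_le_mul_of_nonneg_right (mul_le_mul_of_nonneg_right hcρ he0) (by positivity)
  have hB2 : 1 ≤ B ^ 2 := one_le_pow₀ hB
  have h14 : B * B * e2 * (5 * C * W) ≤ 16 * C * B ^ 4 * e2 * W := by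
    have h15 : B ^ 2 ≤ B ^ 2 * B ^ 2 := le_mul_of_one_le_right (by positivity) hB2
    have h16 : 0 ≤ e2 * C * W := by positivity
    have h17 : 0 ≤ B ^ 2 * (e2 * C * W) := by positivity
    nlinarith [mul_le_mul_of_nonneg_right h15 h16]
  linarith

end J9

end

end Pool.Agent.Q73.PW
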