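import Pool.Agent.Q73.PW.Defs
import Pool.Agent.Results.MP_a52643_an.SharpNodalLength
import Pool.Agent.Results.MP_a52643_an.AbsoluteContinuity

/-!
# Project PW: statements for surfaces and for the special functions
-/

set_option autoImplicit false
open MeasureTheory Filter Topology Real
open scoped ContDiff ENNReal

namespace Pool.Agent.Q73.PW

noncomputable section

open Pool.Agent.Results.MP_a52643_an.AbsoluteContinuity (lapl LocL2 Test)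

/-- the mean of `|cos t|^q` -/
def kap (q : ℝ) : ℝ := mn (fun x => |x| ^ q) 1

/-- first derivatives -/
def U1 (u : ℂ → ℝ) (z : ℂ) : ℝ := fderiv ℝ u z 1
def U2 (u : ℂ → ℝ) (z : ℂ) : ℝ := fderiv ℝ u z Complex.I

/-- the local energy of the jet -/
def En (h : ℝ) (u : ℂ → ℝ) (z : ℂ) : ℝ :=
  1 + u z ^ 2 + h ^ 2 * (U1 u z ^ 2 + U2 u z ^ 2) +
    h ^ 4 * (U1 (U1 u) z ^ 2 + U1 (U2 u) z ^ 2 + U2 (U1 u) z ^ 2 + U2 (U2 u) z ^ 2)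

/-- J9: the inequality in isothermal coordinates with explicit errors.

Proof. Let `x = u (z)`, `v = h ∇u / √ρ`, `H = h² D²u / ρ` (trace `-x` by the equation), `s = |v|² + ε²`,
`Π = 2 (x v + H v)`, all coefficients `a`, `b` and derivatives at `(x, s)`. Let
`X = χ (a h∇u + b √ρ Π)`, a `C¹` vector field with compact support in `Ω`, `√ρ Π = 2 (u h∇u + h² D²u (h∇u) / ρ)`;
`∫ div X = 0`. Since `h ∇u = √ρ v`, `h ∇s = √ρ (2 H v) - h |v|² ∇ρ / ρ`,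
`h div (√ρ Π) = 2 ρ (|H|² - x²) - 2 h (u v·∇ρ + Hv·∇ρ) / √ρ` (third derivatives enter through
`h² ∇ (h² Δu) = - h² ∇ (ρ u)` only), one gets `h div X = χ ρ E + h R` with
`E = a_x |v|² + 2 a_s v·Hv - a x + b_x v·Π + 2 b_s Hv·Π + 2 b (|H|² - x²)` and
`|R| ≤ K (x² + s + |H|²)` on `supp χ` by the bounds `b1`-`b7` (note `|v|² ≤ s`, `|b_x| s ≤ C √(x²+s)`).
Algebra: put `T = v·Hv`, `R2 = |Hv|²`. In dimension two `|v|² |H|² = 2 R2 + 2 x T + x² |v|²` (Cayley-Hamilton and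
`tr H = -x`). With `r1`, `r2`:
`E = -(Φ (x) - mn Φ √(x² + s)) + 4 (b_s + b/s) (x² s + 2 x T + R2) + ε² (2 (b/s) (|H|² - x²) - a_x - 2 x b_x)`,
and `x² s + 2 x T + R2 ≥ |x v + H v|² ≥ 0`; by `r3` (`k = 1`), `b2`, `b5`, `b7`
`E ≥ -(Φ (x) - mn Φ √(x² + s)) - K ε² (1 + x² + |H|²)`. Integrate: `0 = ∫ h div X`. -/
def J9 : Prop := ∀ (Ω : Set ℂ) (ρ χ Φ : _) (a b : ℝ → ℝ → ℝ) (C : ℝ), IsOpen Ω →
  ContDiffOn ℝ ∞ ρ Ω → (∀ z ∈ Ω, 0 < ρ z) → Test Ω χ → ContDiff ℝ ∞ Φ → Fld Φ a b 1 C →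
  ∃ K : ℝ, ∀ (h ε : ℝ) (u : ℂ → ℝ), 0 < h → h ≤ 1 → 0 < ε → ε ≤ 1 → ContDiffOn ℝ ∞ u Ω →
    (∀ z ∈ Ω, h ^ 2 * lapl u z = -(ρ z * u z)) →
    ∫ z, χ z * ρ z * (mn Φ √(u z ^ 2 + h ^ 2 * (U1 u z ^ 2 + U2 u z ^ 2) / ρ z + ε ^ 2) - Φ (u z)) ≤
      K * (h + ε ^ 2) * ∫ z in tsupport χ, En h u z

/-- the function `u² + |∇u|² / (λ ρ)` -/
def Pf (lam : ℝ) (ρ u : ℂ → ℝ) (z : ℂ) : ℝ := u z ^ 2 + (U1 u z ^ 2 + U2 u z ^ 2) / (lam * ρ z)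

/-- the hypotheses on the eigenfunctions in a chart -/
structure Seq (Ω : Set ℂ) (ρ : ℂ → ℝ) (lam : ℕ → ℝ) (u : ℕ → ℂ → ℝ) : Prop where
  hΩ : IsOpen Ω
  hρ : ContDiffOn ℝ ∞ ρ Ω
  hρ0 : ∀ z ∈ Ω, 0 < ρ z
  hlam : Tendsto lam atTop atTop
  hu : ∀ n, ContDiffOn ℝ ∞ (u n) Ω
  he : ∀ n, ∀ z ∈ Ω, lapl (u n) z + lam n * (ρ z * u n z) = 0
  hL : LocL2 Ω u

/-- J8: the jets are bounded in mean square.

Proof. As in `Pool.Agent.Q80.LW.mass_bound` (Pool/Agent/Q80/LW/D.lean): `mk_sol` gives `MK2 Ω h 4` for the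
complexified sequence shifted by `N0`, `h = 1/√(lam (n + N0))`; then `mk_rd`, `lb_re` of
`Pool.Agent.TH421.AC` (En.lean) bound the integrals over `K` of the squares of `u`, `h U1 u`, `h U2 u`,
`h² U1 (U1 u)`, ... -/
def J8 : Prop := ∀ Ω ρ lam u, Seq Ω ρ lam u → ∀ K : Set ℂ, IsCompact K → K ⊆ Ω →
  ∃ C : ℝ, ∀ᶠ n in atTop, 0 < lam n ∧ ∫ z in K, En (1 / √(lam n)) (u n) z ≤ C

/-- J10: the inequality for sequences.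

Proof. From J5, J8, J9, A2: use J9 with `h = 1/√(lam n)`, `ε² = h`, and
`|mn Φ √(P + h) - mn Φ √P| ≤ L h / 2`. -/
def J10 : Prop := ∀ Ω ρ lam u, Seq Ω ρ lam u → ∀ χ, Test Ω χ → ∀ (Φ : ℝ → ℝ) (L : ℝ), Cls Φ L →
  M0 Φ → M1 Φ → ∃ C : ℝ, ∀ᶠ n in atTop,
    ∫ z, χ z * ρ z * mn Φ √(Pf (lam n) ρ (u n) z) ≤ (∫ z, χ z * ρ z * Φ (u n z)) + C / √(lam n)

/-- J11: the energy identity.

Proof. J10 for `Φ (x) = x²` and `Φ (x) = -x²` (`mn Φ r = ± r²/2`), or directly `∫ div (χ u ∇u) = 0`. -/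
def J11 : Prop := ∀ Ω ρ lam u, Seq Ω ρ lam u → ∀ χ, Test Ω χ → ∃ C : ℝ, ∀ᶠ n in atTop,
  |(∫ z, χ z * ρ z * Pf (lam n) ρ (u n) z) - 2 * ∫ z, χ z * ρ z * u n z ^ 2| ≤ C / √(lam n)

/-- P1: the functions for `0 < q < 2`.

Proof. `Φ'/x = -q (x²+δ)^{q/2-1}`, `Φ'' = -q (x²+δ)^{q/2-2} ((q-1) x² + δ)`, the sum is
`-q (x²+δ)^{q/2-2} (q x² + 2 δ)`, whose derivative in `s = x²` is
`q (2-q) (s+δ)^{q/2-3} (q s/2 + 2 δ) ≥ 0`; `Φ''' = q (2-q) x (x²+δ)^{q/2-3} ((q-1) x² + 3 δ)`. -/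
def P1 : Prop := ∀ q δ : ℝ, 0 < q → q < 2 → 0 < δ → (∃ L, Cls (fun x => -(x ^ 2 + δ) ^ (q / 2)) L) ∧
  M0 (fun x => -(x ^ 2 + δ) ^ (q / 2)) ∧ M1 (fun x => -(x ^ 2 + δ) ^ (q / 2)) ∧
  (1 ≤ q → M2 (fun x => -(x ^ 2 + δ) ^ (q / 2)))

/-- P2: the functions for `q > 2`.

Proof. `w_k (x) = q (q-1) smoothTransition (k x² - 1) (x² / (1 + x²/k))^{(q-2)/2}` is smooth, even, bounded, nonneg,
nondecreasing for `x ≥ 0`, at most `q (q-1) |x|^{q-2}` and converges to it; `Φ_k (x) = ∫_0^x (x - t) w_k (t) dt`,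
`0 ≤ Φ_k ≤ |x|^q`. On `[0, R]` the functions `x^q - Φ_k (x)` are nonneg, nondecreasing and tend to `0` at `R`
(dominated convergence), so uniformly on `[0, R]`; then
`kap q r^q - mn Φ_k r = mn (|x|^q - Φ_k) r ≤ η` for large `k`. (Any other construction will do.) -/
def P2 : Prop := ∀ q R η : ℝ, 2 < q → 0 < R → 0 < η → ∃ (Φ : ℝ → ℝ) (L : ℝ), Cls Φ L ∧ M2 Φ ∧
  (∀ x, 0 ≤ Φ x) ∧ (∀ x, Φ x ≤ |x| ^ q) ∧ ∀ r, 0 ≤ r → r ≤ R → kap q * r ^ q - η ≤ mn Φ r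

/-- P3: the logarithm -/
def P3 : Prop := ∀ δ : ℝ, 0 < δ → (∃ L, Cls (fun x => -Real.log (x ^ 2 + δ)) L) ∧
  M0 (fun x => -Real.log (x ^ 2 + δ)) ∧ M1 (fun x => -Real.log (x ^ 2 + δ))

/-- A1: means of powers, `0 < q < 2` -/
def A1 : Prop := (∀ q r : ℝ, 0 < q → 0 ≤ r → mn (fun x => |x| ^ q) r = kap q * r ^ q) ∧
  (∀ q, 0 < q → 0 < kap q) ∧
  (∀ q δ r : ℝ, 0 < q → q < 2 → 0 < δ → 0 ≤ r →
    mn (fun x => (x ^ 2 + δ) ^ (q / 2)) r ≤ kap q * r ^ q + δ ^ (q / 2)) ∧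
  (kap 1 = 2 / π) ∧ (kap 2 = 1 / 2) ∧
  (∀ r : ℝ, 0 < r → mn (fun x => Real.log |x|) r = Real.log (r / 2)) ∧
  (Tendsto (fun q => kap q ^ (1 / q)) (𝓝[>] 0) (𝓝 (1 / 2)))

/-- A2: convexity and the Lipschitz bound of the mean as a function of `p = r²`.

Proof. `|Φ (x) - Φ (y)| ≤ L |x² - y²| / 2` since `|Φ' (t)| ≤ L |t|`. Convexity: for `p > 0` the derivative of
`Φ (√p cos t)` in `p` is `(cos² t / 2) Φ' (x)/x`, `x = √p |cos t|`, nondecreasing in `p` by `M0`. -/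
def A2 : Prop := ∀ (Φ : ℝ → ℝ) (L : ℝ), Cls Φ L →
  (∀ p p', 0 ≤ p → p ≤ p' → |mn Φ √p' - mn Φ √p| ≤ L / 2 * (p' - p)) ∧
  (∀ p, 0 ≤ p → |mn Φ √p - Φ 0| ≤ L / 2 * p) ∧
  (M0 Φ → ConvexOn ℝ (Set.Ici 0) (fun p => mn Φ √p)) ∧
  (M0 Φ → ConvexOn ℝ (Set.Ici 0) (fun p => Φ √p))

/-- J13: the norms in a chart, `M` the mass of `χ dvol`.

Proof. From J10, J11, P1, P2, A1, A2 (and J8 for the boundedness of `∫ χ ρ P`). `q < 2`: choose `δ` with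
`δ^{q/2} M ≤ η/4`; `∫ χρ|u|^q ≤ ∫ χρ (u²+δ)^{q/2} ≤ ∫ χρ mn ((x²+δ)^{q/2}) √P + C h
≤ kap q ∫ χρ P^{q/2} + η/4 + C h`, Hölder `∫ χρ P^{q/2} ≤ M^{1-q/2} (∫ χρ P)^{q/2}`, and `∫ χρ P = 2 ∫ χρ u² + O (h)`,
`(a + b)^{q/2} ≤ a^{q/2} + b^{q/2}`. General `Φ`: Jensen for the convex function `p ↦ mn Φ √p` and its
Lipschitz bound. `q > 2`: `Φ` from P2 with `R² = 2 sup S / M`, multiplied by `M^{q/2-1}`. The case `M = 0` is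
trivial (`χ ρ = 0` almost everywhere, so all integrals vanish). -/
def J13 : Prop := ∀ Ω ρ lam u, Seq Ω ρ lam u → ∀ χ, Test Ω χ → ∀ η : ℝ, 0 < η →
  (∀ q : ℝ, 0 < q → q < 2 → ∀ᶠ n in atTop, ∫ z, χ z * ρ z * |u n z| ^ q ≤
    kap q * (∫ z, χ z * ρ z) ^ (1 - q / 2) * (2 * ∫ z, χ z * ρ z * u n z ^ 2) ^ (q / 2) + η) ∧
  (∀ q : ℝ, 2 < q → ∀ᶠ n in atTop,
    kap q * (2 * ∫ z, χ z * ρ z * u n z ^ 2) ^ (q / 2) ≤
      (∫ z, χ z * ρ z) ^ (q / 2 - 1) * (∫ z, χ z * ρ z * |u n z| ^ q) + η) ∧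
  ∀ (Φ : ℝ → ℝ) (L : ℝ), Cls Φ L → M0 Φ → M1 Φ → ∀ᶠ n in atTop,
    (∫ z, χ z * ρ z) * mn Φ √((2 * ∫ z, χ z * ρ z * u n z ^ 2) / ∫ z, χ z * ρ z) ≤
      (∫ z, χ z * ρ z * Φ (u n z)) + η

open Pool.Agent.Results.MP_a52643_an.SharpNodalLength (IsothermalAtlas IsEigenfunction)

universe w v

/-- J14: Riemannian surfaces, `0 < q < 2`.

Proof. Countably many charts cover `D` (Lindelöf). Cut `D` into Borel sets `E_j ⊆ φ_j (U_j)`, choose finitely many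
compact `K_j ⊆ E_j` with `area (D \ ⋃ K_j)` small, disjoint open `V_j ⊇ K_j` inside `D ∩ φ_j (U_j)`, test functions
`χ_j` with `1_{φ_j⁻¹ K_j} ≤ χ_j ≤ 1` supported in `φ_j⁻¹ (V_j)` (open in `ℂ`). J13 for the charts
`Ω = φ_j⁻¹ (V_j)` (the sequence is locally bounded in `L²` by the hypothesis, `ρ` is bounded below on compact
sets); the rest `∫_{D \ ⋃ K_j} |f|^q ≤ area (D \ ⋃ K_j)^{1-q/2} B^{q/2}` (Hölder); sum by Hölder for sums: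
`∑ M_j^{1-q/2} S_j^{q/2} ≤ (∑ M_j)^{1-q/2} (∑ S_j)^{q/2}`. Compare
Pool/Agent/Q73/NL (the proof of SharpNodalLength) for the handling of the atlas. -/
def J14 : Prop := ∀ (M : Type w) (ι : Type v) [TopologicalSpace M] [T2Space M]
  [SecondCountableTopology M] [MeasurableSpace M] [BorelSpace M] (U : ι → Set ℂ) (φ : ι → ℂ → M)
  (ρ : ι → ℂ → ℝ) (area len : Measure M), IsothermalAtlas U φ ρ area len →
  (∀ i, ContDiffOn ℝ ∞ (ρ i) (U i)) →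
  ∀ (lam : ℕ → ℝ) (f : ℕ → M → ℝ) (D : Set M) (B : ℝ), Tendsto lam atTop atTop →
    (∀ n, IsEigenfunction U φ ρ (lam n) (f n)) → IsOpen D → area D ≠ ⊤ →
    (∀ n, ∫⁻ x in D, ENNReal.ofReal (f n x ^ 2) ∂area ≤ ENNReal.ofReal B) →
    ∀ q : ℝ, 0 < q → q < 2 → ∀ η : ℝ, 0 < η → ∀ᶠ n in atTop,
      ∫ x in D, |f n x| ^ q ∂area ≤
        kap q * (area D).toReal ^ (1 - q / 2) * (2 * ∫ x in D, f n x ^ 2 ∂area) ^ (q / 2) + η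

end

end Pool.Agent.Q73.PW
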