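import Pool.Agent.Q73.SM.E
import Pool.Agent.Q73.PW.Stm2

/-!
# Project PW: stationary waves, the divergence inequality
-/

set_option autoImplicit false
open MeasureTheory Filter Topology
open scoped ContDiff ENNReal

namespace Pool.Agent.Q73.PW

open Pool.Agent.Y139.SW Pool.Agent.Q73.SM

noncomputable section

namespace St

variable {d : ℕ}

/-- composition of a function of `(x, s)`, `s > 0`, with `(f, g2 f + e)` -/
def cp (k : ℝ → ℝ → ℝ) (e : ℝ) (f : E d → ℝ) (y : E d) : ℝ := k (f y) (g2 f y + e)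

lemma pos {e : ℝ} (he : 0 < e) (f : E d → ℝ) (y : E d) : 0 < g2 f y + e := by
  have := g2_nn f y; linarith

lemma open_s : IsOpen {p : ℝ × ℝ | 0 < p.2} := isOpen_lt continuous_const continuous_snd

lemma cp_sm {k : ℝ → ℝ → ℝ} (hk : ContDiffOn ℝ ∞ (fun p : ℝ × ℝ => k p.1 p.2) {p | 0 < p.2})
    {e : ℝ} (he : 0 < e) {f : E d → ℝ} (hf : ContDiff ℝ ∞ f) : ContDiff ℝ ∞ (cp k e f) := by
  have h1 : ContDiff ℝ ∞ (fun y => (f y, g2 f y + e)) := hf.prodMk ((g2_sm hf).add contDiff_const)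
  rw [contDiff_iff_contDiffAt]
  intro y
  have h2 : ContDiffAt ℝ ∞ (fun p : ℝ × ℝ => k p.1 p.2) (f y, g2 f y + e) :=
    hk.contDiffAt (open_s.mem_nhds (pos he f y))
  exact h2.comp y h1.contDiffAt

lemma part {k : ℝ → ℝ → ℝ} (hk : ContDiffOn ℝ ∞ (fun p : ℝ × ℝ => k p.1 p.2) {p | 0 < p.2})
    {x s : ℝ} (hs : 0 < s) : HasFDerivAt (fun p : ℝ × ℝ => k p.1 p.2)
      (dx k x s • ContinuousLinearMap.fst ℝ ℝ ℝ + ds k x s • ContinuousLinearMap.snd ℝ ℝ ℝ) (x, s) := by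
  have h2 : DifferentiableAt ℝ (fun p : ℝ × ℝ => k p.1 p.2) (x, s) :=
    (hk.contDiffAt (open_s.mem_nhds hs)).differentiableAt (by simp)
  obtain ⟨A, hA⟩ : ∃ A, A = fderiv ℝ (fun p : ℝ × ℝ => k p.1 p.2) (x, s) := ⟨_, rfl⟩
  have h3 : HasFDerivAt (fun p : ℝ × ℝ => k p.1 p.2) A (x, s) := by rw [hA]; exact h2.hasFDerivAt
  have e1 : HasDerivAt (fun t => k t s) (A (1, 0)) x := by
    have := h3.comp_hasDerivAt x ((hasDerivAt_id x).prodMk (hasDerivAt_const x s))
    exact this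
  have e2 : HasDerivAt (fun t => k x t) (A (0, 1)) s := by
    have := h3.comp_hasDerivAt s ((hasDerivAt_const s x).prodMk (hasDerivAt_id s))
    exact this
  have e3 : A = dx k x s • ContinuousLinearMap.fst ℝ ℝ ℝ + ds k x s • ContinuousLinearMap.snd ℝ ℝ ℝ := by
    ext
    · simp [dx, e1.deriv]
    · simp [ds, e2.deriv]
  rw [← e3]; exact h3

lemma D_cp {k : ℝ → ℝ → ℝ} (hk : ContDiffOn ℝ ∞ (fun p : ℝ × ℝ => k p.1 p.2) {p | 0 < p.2})
    {e : ℝ} (he : 0 < e) {f : E d → ℝ} (hf : ContDiff ℝ ∞ f) (i : Fin d) (y : E d) :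
    D i (cp k e f) y = dx k (f y) (g2 f y + e) * D i f y + ds k (f y) (g2 f y + e) * (2 * w i f y) := by
  have h1 := part hk (x := f y) (pos he f y)
  have h2 : HasFDerivAt (fun y => (f y, g2 f y + e)) ((fderiv ℝ f y).prod (fderiv ℝ (g2 f) y)) y :=
    (sdiff hf y).hasFDerivAt.prodMk ((sdiff (g2_sm hf) y).hasFDerivAt.add_const e)
  have h3 := h1.comp y h2
  have h4 : D i (cp k e f) y = ((dx k (f y) (g2 f y + e) • ContinuousLinearMap.fst ℝ ℝ ℝ +
      ds k (f y) (g2 f y + e) • ContinuousLinearMap.snd ℝ ℝ ℝ).comp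
        ((fderiv ℝ f y).prod (fderiv ℝ (g2 f) y))) (EuclideanSpace.single i 1) := by
    show fderiv ℝ (cp k e f) y (EuclideanSpace.single i 1) = _
    have : fderiv ℝ (cp k e f) y = _ := h3.fderiv
    rw [this]
  rw [h4, ← D_g2 hf]
  simp [D]

/-- the vector field -/
def V (a b : ℝ → ℝ → ℝ) (e : ℝ) (i : Fin d) (f : E d → ℝ) (y : E d) : ℝ :=
  cp a e f y * D i f y + cp b e f y * (2 * (w i f y + f y * D i f y))

lemma sum_Dw {f : E d → ℝ} (h : ContDiff ℝ ∞ f) (hf : ∀ y, Lap f y = -f y) (y : E d) :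
    ∑ i, D i (w i f) y = HS f y - g2 f y := by
  simp only [D_w h, Finset.sum_add_distrib]
  rw [HS, sub_eq_add_neg]
  congr 1
  rw [Finset.sum_comm, g2, ← Finset.sum_neg_distrib]
  refine Finset.sum_congr rfl fun j _ => ?_
  rw [← Finset.mul_sum]
  have : ∑ i, D i (D i (D j f)) y = -D j f y := by
    have h1 := Lap_D h j y
    have h2 : Lap f = fun y => -f y := funext hf
    rw [h2] at h1
    have h3 : D j (fun y => -f y) y = -D j f y := by
      unfold D; rw [fderiv_fun_neg]; rfl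
    rw [h3] at h1
    exact h1
  rw [this]; ring

/-- the divergence of `V` as a function of the jet -/
def dv (a b : ℝ → ℝ → ℝ) (e x y2 T R2 h : ℝ) : ℝ :=
  dx a x (y2 + e) * y2 + 2 * ds a x (y2 + e) * T - a x (y2 + e) * x +
    dx b x (y2 + e) * (2 * (x * y2 + T)) + 2 * ds b x (y2 + e) * (2 * (x * T + R2)) +
    2 * b x (y2 + e) * (h - x ^ 2)

lemma D_V {a b : ℝ → ℝ → ℝ} (ha : ContDiffOn ℝ ∞ (fun p : ℝ × ℝ => a p.1 p.2) {p | 0 < p.2})
    (hb : ContDiffOn ℝ ∞ (fun p : ℝ × ℝ => b p.1 p.2) {p | 0 < p.2})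
    {e : ℝ} (he : 0 < e) {f : E d → ℝ} (hf : ContDiff ℝ ∞ f) (i : Fin d) (y : E d) :
    D i (V a b e i f) y =
      dx a (f y) (g2 f y + e) * D i f y ^ 2 + 2 * ds a (f y) (g2 f y + e) * (D i f y * w i f y) +
      a (f y) (g2 f y + e) * D i (D i f) y +
      dx b (f y) (g2 f y + e) * (2 * (D i f y * w i f y + f y * D i f y ^ 2)) +
      2 * ds b (f y) (g2 f y + e) * (2 * (w i f y ^ 2 + f y * (D i f y * w i f y))) +
      2 * b (f y) (g2 f y + e) * (D i (w i f) y + D i f y ^ 2 + f y * D i (D i f) y) := by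
  have sa := cp_sm ha he hf
  have sb := cp_sm hb he hf
  have s2 : ContDiff ℝ ∞ (fun y => f y * D i f y) := hf.mul (D_sm hf i)
  have s3 : ContDiff ℝ ∞ (fun y => w i f y + f y * D i f y) := (w_sm hf i).add s2
  have s4 : ContDiff ℝ ∞ (fun y => 2 * (w i f y + f y * D i f y)) := contDiff_const.mul s3
  have e1 : D i (V a b e i f) y = D i (fun y => cp a e f y * D i f y) y +
      D i (fun y => cp b e f y * (2 * (w i f y + f y * D i f y))) y :=
    D_add (sa.mul (D_sm hf i)) (sb.mul s4) i y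
  have e2 : D i (fun y => cp a e f y * D i f y) y = D i (cp a e f) y * D i f y +
      cp a e f y * D i (D i f) y := D_mul sa (D_sm hf i) i y
  have e3 : D i (fun y => cp b e f y * (2 * (w i f y + f y * D i f y))) y =
      D i (cp b e f) y * (2 * (w i f y + f y * D i f y)) +
      cp b e f y * D i (fun y => 2 * (w i f y + f y * D i f y)) y := D_mul sb s4 i y
  have e4 : D i (fun y => 2 * (w i f y + f y * D i f y)) y =
      2 * D i (fun y => w i f y + f y * D i f y) y := by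
    have := D_mul (contDiff_const (c := (2 : ℝ))) s3 i y
    rw [this]
    have z : D i (fun _ : E d => (2 : ℝ)) y = 0 := by
      unfold D; simp
    rw [z]; ring
  have e5 : D i (fun z => w i f z + f z * D i f z) y = D i (w i f) y +
      D i (fun z => f z * D i f z) y := D_add (w_sm hf i) s2 i y
  have e6 : D i (fun z => f z * D i f z) y = D i f y * D i f y + f y * D i (D i f) y :=
    D_mul hf (D_sm hf i) i y
  rw [e1, e2, e3, e4, e5, e6, D_cp ha he hf, D_cp hb he hf]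
  unfold cp
  ring

lemma div_V {a b : ℝ → ℝ → ℝ} (ha : ContDiffOn ℝ ∞ (fun p : ℝ × ℝ => a p.1 p.2) {p | 0 < p.2})
    (hb : ContDiffOn ℝ ∞ (fun p : ℝ × ℝ => b p.1 p.2) {p | 0 < p.2})
    {e : ℝ} (he : 0 < e) {f : E d → ℝ} (h : ContDiff ℝ ∞ f) (hf : ∀ y, Lap f y = -f y) (y : E d) :
    ∑ i, D i (V a b e i f) y = dv a b e (f y) (g2 f y) (Q f y) (R f y) (HS f y) := by
  have e1 : ∑ i, D i (D i f) y = -f y := hf y
  have e2 := sum_Dw h hf y
  simp only [D_V ha hb he h, Finset.sum_add_distrib, ← Finset.mul_sum, e1, e2]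
  unfold dv Q g2 R
  ring

/-- the algebra -/
lemma alg {Φ : ℝ → ℝ} {a b : ℝ → ℝ → ℝ} {k C : ℝ} (F : Fld Φ a b k C) {e x y2 T R2 h : ℝ} (he : 0 < e)
    (hy : 0 ≤ y2) (hR : 0 ≤ R2) (hh : 0 ≤ h) (hT : T ^ 2 ≤ y2 * R2)
    (hk : (k = 1 ∧ y2 * h = 2 * R2 + 2 * x * T + x ^ 2 * y2) ∨ (k = 1 / 2 ∧ R2 ≤ y2 * h)) :
    -(Φ x - mn Φ √(x ^ 2 + (y2 + e))) - 5 * C * e * (1 + x ^ 2 + h) ≤ dv a b e x y2 T R2 h := by
  obtain ⟨s, hs⟩ : ∃ s, s = y2 + e := ⟨_, rfl⟩
  have sp : 0 < s := by rw [hs]; linarith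
  have r1 := F.r1 x s sp
  have r2 := F.r2 x s sp
  have r3 := F.r3 x s sp
  have r4 := F.r4 x s sp
  have b2 := abs_le.1 (F.b2 x s sp)
  have b5 := F.b5 x s sp
  have b7 := F.b7 x s sp
  have C0 := F.C0
  have hxb : |x * dx b x s| ≤ C := by
    rw [abs_mul, mul_comm]
    refine le_trans (mul_le_mul_of_nonneg_left ?_ (abs_nonneg _)) b7
    rw [← Real.sqrt_sq_eq_abs]
    exact Real.sqrt_le_sqrt (by linarith)
  have hxb := abs_le.1 hxb
  have hG : 0 ≤ b x s / s := div_nonneg r4 sp.le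
  -- the quadratic form
  have hN : 0 ≤ x ^ 2 * s + 2 * x * T + R2 := by
    have h1 : 0 ≤ x ^ 2 * y2 + 2 * x * T + R2 := by
      rcases hy.eq_or_lt with h0 | h0
      · rw [← h0] at hT ⊢
        have : T = 0 := by nlinarith
        rw [this]; linarith
      · have : 0 ≤ y2 * (x ^ 2 * y2 + 2 * x * T + R2) := by nlinarith [sq_nonneg (x * y2 + T)]
        exact nonneg_of_mul_nonneg_right this h0
    have : x ^ 2 * s = x ^ 2 * y2 + x ^ 2 * e := by rw [hs]; ring
    nlinarith [sq_nonneg x, mul_nonneg (sq_nonneg x) he.le]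
  have key : ∀ G' : ℝ, b x s = s * G' → 
      dv a b e x y2 T R2 h = -(Φ x - mn Φ √(x ^ 2 + s)) + 4 * (ds b x s) * (x ^ 2 * s + 2 * x * T + R2) +
        G' * (2 * x ^ 2 * s + 4 * x * T + 2 * s * h) + 4 * x * (b x s / s - G') * (x * s + T)
          - e * (dx a x s + 2 * x * dx b x s) := by
    intro G' hG'
    unfold dv
    rw [← hs]
    have hy2 : y2 = s - e := by rw [hs]; ring
    rw [hy2]
    linear_combination (1 : ℝ) * r1 + 2 * (x * s + T) * r2 + (2 * h - 2 * x ^ 2) * hG'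
  have hb : b x s = s * (b x s / s) := by field_simp
  have K := key _ hb
  rw [sub_self, mul_zero, zero_mul, add_zero] at K
  rw [← hs, K]
  obtain ⟨G, hGd⟩ : ∃ G, G = b x s / s := ⟨_, rfl⟩
  rw [← hGd] at hG r3 b5 ⊢
  have hx2 := sq_nonneg x
  have t1 : -(e * (dx a x s + 2 * x * dx b x s)) ≥ -(3 * C * e) := by
    nlinarith [b2.1, b2.2, hxb.1, hxb.2]
  rcases hk with ⟨hk1, hk2⟩ | ⟨hk1, hk2⟩
  · have e1 : G * (2 * x ^ 2 * s + 4 * x * T + 2 * s * h) =
        4 * G * (x ^ 2 * s + 2 * x * T + R2) + 2 * e * G * (h - x ^ 2) := by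
      have : s * h = 2 * R2 + 2 * x * T + x ^ 2 * s + e * (h - x ^ 2) := by
        have : s * h = y2 * h + e * h := by rw [hs]; ring
        rw [this, hk2, hs]; ring
      linear_combination (2 * G) * this
    have t2 : 0 ≤ 4 * (ds b x s + G) * (x ^ 2 * s + 2 * x * T + R2) := by
      rw [hk1, one_mul] at r3
      positivity
    have t3 : 2 * e * G * (h - x ^ 2) ≥ -(2 * C * e * x ^ 2) := by
      have : 0 ≤ 2 * e * G * h := by positivity
      have : 2 * e * G * x ^ 2 ≤ 2 * e * C * x ^ 2 := by gcongr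
      nlinarith
    have t4 : 0 ≤ C * e * h := by positivity
    have t5 : 0 ≤ C * e := by positivity
    have t6 : 0 ≤ C * e * x ^ 2 := by positivity
    rw [e1]
    nlinarith
  · have e1 : 2 * G * (x ^ 2 * s + 2 * x * T + R2) + 2 * e * G * h ≤
        G * (2 * x ^ 2 * s + 4 * x * T + 2 * s * h) := by
      have h1 : R2 + e * h ≤ s * h := by
        have : s * h = y2 * h + e * h := by rw [hs]; ring
        rw [this]; linarith
      nlinarith [mul_le_mul_of_nonneg_left h1 hG]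
    have t2 : 0 ≤ 4 * (ds b x s + 1 / 2 * G) * (x ^ 2 * s + 2 * x * T + R2) := by
      rw [hk1] at r3
      positivity
    have t3 : 0 ≤ 2 * e * G * h := by positivity
    have t4 : 0 ≤ C * e * h := by positivity
    have t5 : 0 ≤ C * e := by positivity
    have t6 : 0 ≤ C * e * x ^ 2 := by positivity
    nlinarith

end St

end

end Pool.Agent.Q73.PW
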