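import Pool.Agent.Q73.PW.St1

/-!
# Project PW: stationary waves, the inequality in expectation
-/

set_option autoImplicit false
open MeasureTheory Filter Topology
open scoped ContDiff ENNReal

namespace Pool.Agent.Q73.PW

open Pool.Agent.Y139.SW Pool.Agent.Q73.SM

noncomputable section

namespace St

variable {d : ℕ}

lemma abs_le_r {x s : ℝ} (hs : 0 ≤ s) : |x| ≤ √(x ^ 2 + s) := by
  rw [← Real.sqrt_sq_eq_abs]
  exact Real.sqrt_le_sqrt (by linarith)

/-- the bound for the divergence -/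
lemma dv_bd {Φ : ℝ → ℝ} {a b : ℝ → ℝ → ℝ} {k C : ℝ} (F : Fld Φ a b k C) {e x y2 T R2 h : ℝ} (he : 0 < e)
    (hy : 0 ≤ y2) (hh : 0 ≤ h) (hT : T ^ 2 ≤ y2 * R2) (hR : R2 ≤ y2 * h) (hR0 : 0 ≤ R2) :
    |dv a b e x y2 T R2 h| ≤ 20 * C * (x ^ 2 + y2 + e + h) := by
  obtain ⟨s, hs⟩ : ∃ s, s = y2 + e := ⟨_, rfl⟩
  have sp : 0 < s := by rw [hs]; linarith
  have ys : y2 ≤ s := by rw [hs]; linarith
  obtain ⟨r, hr⟩ : ∃ r, r = √(x ^ 2 + s) := ⟨_, rfl⟩
  have r2 : r ^ 2 = x ^ 2 + s := by rw [hr]; exact Real.sq_sqrt (by positivity)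
  have rp : 0 < r := by rw [hr]; positivity
  have xr : |x| ≤ r := by rw [hr]; exact abs_le_r sp.le
  obtain ⟨g, hg⟩ : ∃ g, g = √h := ⟨_, rfl⟩
  have g0 : 0 ≤ g := by rw [hg]; positivity
  have g2' : g ^ 2 = h := by rw [hg]; exact Real.sq_sqrt hh
  have b1 := F.b1 x s sp
  have b2 := F.b2 x s sp
  have b3 := F.b3 x s sp
  have b4 := F.b4 x s sp
  have r4 := F.r4 x s sp
  have b6 := F.b6 x s sp
  have b7 := F.b7 x s sp
  have C0 := F.C0
  rw [← hr] at b1 b3 b7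
  have Tb : |T| ≤ y2 * g := by
    apply abs_le_of_sq_le_sq _ (by positivity)
    calc T ^ 2 ≤ y2 * R2 := hT
      _ ≤ y2 * (y2 * h) := by gcongr
      _ = (y2 * g) ^ 2 := by rw [mul_pow, g2']; ring
  have Ts : |T| ≤ s * g := Tb.trans (by gcongr)
  have a1 : |dx a x s * y2| ≤ C * y2 := by
    rw [abs_mul, abs_of_nonneg hy]; gcongr
  have a2 : |2 * ds a x s * T| ≤ 2 * (C * r * g) := by
    rw [abs_mul, abs_mul, abs_of_pos (by norm_num : (0 : ℝ) < 2)]
    calc 2 * |ds a x s| * |T| ≤ 2 * |ds a x s| * (s * g) := by gcongr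
      _ = 2 * ((|ds a x s| * s) * g) := by ring
      _ ≤ 2 * (C * r * g) := by gcongr
  have a3 : |a x s * x| ≤ C * r * r := by
    rw [abs_mul]; gcongr
  have yr : y2 ≤ r * r := by nlinarith
  have a4 : |dx b x s * (2 * (x * y2 + T))| ≤ 2 * C * (r * |x| + r * g) := by
    have h1 : |x * y2 + T| ≤ y2 * (|x| + g) := by
      refine (abs_add_le _ _).trans ?_
      rw [abs_mul, abs_of_nonneg hy]
      nlinarith
    rw [abs_mul, abs_mul, abs_of_pos (by norm_num : (0 : ℝ) < 2)]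
    calc |dx b x s| * (2 * |x * y2 + T|) ≤ |dx b x s| * (2 * (y2 * (|x| + g))) := by gcongr
      _ ≤ |dx b x s| * (2 * ((r * r) * (|x| + g))) := by gcongr
      _ = 2 * (|dx b x s| * r) * (r * (|x| + g)) := by ring
      _ ≤ 2 * C * (r * (|x| + g)) := by gcongr
      _ = _ := by ring
  have a5 : |2 * ds b x s * (2 * (x * T + R2))| ≤ 4 * C * (|x| * g + h) := by
    have h1 : |x * T + R2| ≤ s * (|x| * g + h) := by
      refine (abs_add_le _ _).trans ?_
      rw [abs_mul, abs_of_nonneg hR0]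
      have : |x| * |T| ≤ |x| * (s * g) := by gcongr
      have : R2 ≤ s * h := hR.trans (by gcongr)
      nlinarith
    rw [abs_mul, abs_mul, abs_mul 2 (x * T + R2), abs_of_pos (by norm_num : (0 : ℝ) < 2)]
    calc 2 * |ds b x s| * (2 * |x * T + R2|) ≤ 2 * |ds b x s| * (2 * (s * (|x| * g + h))) := by gcongr
      _ = 4 * (|ds b x s| * s) * (|x| * g + h) := by ring
      _ ≤ 4 * C * (|x| * g + h) := by gcongr
  have a6 : |2 * b x s * (h - x ^ 2)| ≤ 2 * C * (h + x ^ 2) := by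
    rw [abs_mul, abs_mul, abs_of_pos (by norm_num : (0 : ℝ) < 2), abs_of_nonneg r4]
    have : |h - x ^ 2| ≤ h + x ^ 2 := by
      rw [abs_le]; constructor <;> nlinarith [sq_nonneg x]
    gcongr
  have tot : |dv a b e x y2 T R2 h| ≤ C * y2 + 2 * (C * r * g) + C * r * r +
      2 * C * (r * |x| + r * g) + 4 * C * (|x| * g + h) + 2 * C * (h + x ^ 2) := by
    unfold dv
    rw [← hs]
    refine (abs_add_le _ _).trans (add_le_add ?_ a6)
    refine (abs_add_le _ _).trans (add_le_add ?_ a5)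
    refine (abs_add_le _ _).trans (add_le_add ?_ a4)
    refine (abs_sub _ _).trans (add_le_add ?_ a3)
    exact (abs_add_le _ _).trans (add_le_add a1 a2)
  refine tot.trans ?_
  have q1 : r * g ≤ (r ^ 2 + h) / 2 := by rw [← g2']; nlinarith [sq_nonneg (r - g)]
  have q2 : r * |x| ≤ r ^ 2 := by nlinarith
  have q3 : |x| * g ≤ (x ^ 2 + h) / 2 := by
    rw [← g2', ← sq_abs x]; nlinarith [sq_nonneg (|x| - g)]
  have q4 : r ^ 2 = x ^ 2 + y2 + e := by rw [r2, hs]; ring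
  have x0 := sq_nonneg x
  have : C * y2 + 2 * (C * r * g) + C * r * r +
      2 * C * (r * |x| + r * g) + 4 * C * (|x| * g + h) + 2 * C * (h + x ^ 2) =
      C * (y2 + 2 * (r * g) + r ^ 2 + 2 * (r * |x|) + 2 * (r * g) + 4 * (|x| * g) + 4 * h + 2 * h + 2 * x ^ 2) := by
    ring
  rw [this]
  have : 20 * C * (x ^ 2 + y2 + e + h) = C * (20 * (x ^ 2 + y2 + e + h)) := by ring
  rw [this]
  apply mul_le_mul_of_nonneg_left _ C0
  nlinarith

/-- the bound for one term of the divergence -/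
lemma one_bd {Φ : ℝ → ℝ} {a b : ℝ → ℝ → ℝ} {k C : ℝ} (F : Fld Φ a b k C) {e x g h t v W H Z : ℝ} (he : 0 < e)
    (hg : 0 ≤ g) (hh : 0 ≤ h) (ht : 0 ≤ t) (hv : v ^ 2 ≤ g) (hW : W ^ 2 ≤ g * h) (hH : H ^ 2 ≤ h)
    (hZ : |Z| ≤ h + t) :
    |dx a x (g + e) * v ^ 2 + 2 * ds a x (g + e) * (v * W) + a x (g + e) * H +
      dx b x (g + e) * (2 * (v * W + x * v ^ 2)) +
      2 * ds b x (g + e) * (2 * (W ^ 2 + x * (v * W))) +
      2 * b x (g + e) * (Z + v ^ 2 + x * H)| ≤ 20 * C * (x ^ 2 + g + e + h + t) := by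
  obtain ⟨s, hs⟩ : ∃ s, s = g + e := ⟨_, rfl⟩
  have sp : 0 < s := by rw [hs]; linarith
  have ys : g ≤ s := by rw [hs]; linarith
  obtain ⟨r, hr⟩ : ∃ r, r = √(x ^ 2 + s) := ⟨_, rfl⟩
  have r2 : r ^ 2 = x ^ 2 + s := by rw [hr]; exact Real.sq_sqrt (by positivity)
  have rp : 0 < r := by rw [hr]; positivity
  have xr : |x| ≤ r := by rw [hr]; exact abs_le_r sp.le
  obtain ⟨m, hm⟩ : ∃ m, m = √h := ⟨_, rfl⟩
  have m0 : 0 ≤ m := by rw [hm]; positivity
  have m2 : m ^ 2 = h := by rw [hm]; exact Real.sq_sqrt hh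
  have b1 := F.b1 x s sp
  have b2 := F.b2 x s sp
  have b3 := F.b3 x s sp
  have b4 := F.b4 x s sp
  have r4 := F.r4 x s sp
  have b6 := F.b6 x s sp
  have b7 := F.b7 x s sp
  have C0 := F.C0
  rw [← hr] at b1 b3 b7
  have v2 : 0 ≤ v ^ 2 := sq_nonneg v
  have Tb : |v * W| ≤ g * m := by
    apply abs_le_of_sq_le_sq _ (by positivity)
    calc (v * W) ^ 2 = v ^ 2 * W ^ 2 := by ring
      _ ≤ g * (g * h) := by gcongr
      _ = (g * m) ^ 2 := by rw [mul_pow, m2]; ring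
  have Ts : |v * W| ≤ s * m := Tb.trans (by gcongr)
  have Hm : |H| ≤ m := by
    apply abs_le_of_sq_le_sq _ m0
    rw [m2]; exact hH
  have a1 : |dx a x s * v ^ 2| ≤ C * g := by
    rw [abs_mul, abs_of_nonneg v2]; gcongr
  have a2 : |2 * ds a x s * (v * W)| ≤ 2 * (C * r * m) := by
    rw [abs_mul, abs_mul, abs_of_pos (by norm_num : (0 : ℝ) < 2)]
    calc 2 * |ds a x s| * |v * W| ≤ 2 * |ds a x s| * (s * m) := by gcongr
      _ = 2 * ((|ds a x s| * s) * m) := by ring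
      _ ≤ 2 * (C * r * m) := by gcongr
  have a3 : |a x s * H| ≤ C * r * m := by
    rw [abs_mul]; gcongr
  have yr : g ≤ r * r := by nlinarith
  have a4 : |dx b x s * (2 * (v * W + x * v ^ 2))| ≤ 2 * C * (r * |x| + r * m) := by
    have h1 : |v * W + x * v ^ 2| ≤ g * (|x| + m) := by
      refine (abs_add_le _ _).trans ?_
      rw [abs_mul x, abs_of_nonneg v2]
      have : |x| * v ^ 2 ≤ |x| * g := by gcongr
      nlinarith
    rw [abs_mul, abs_mul, abs_of_pos (by norm_num : (0 : ℝ) < 2)]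
    calc |dx b x s| * (2 * |v * W + x * v ^ 2|) ≤ |dx b x s| * (2 * (g * (|x| + m))) := by gcongr
      _ ≤ |dx b x s| * (2 * ((r * r) * (|x| + m))) := by gcongr
      _ = 2 * (|dx b x s| * r) * (r * (|x| + m)) := by ring
      _ ≤ 2 * C * (r * (|x| + m)) := by gcongr
      _ = _ := by ring
  have a5 : |2 * ds b x s * (2 * (W ^ 2 + x * (v * W)))| ≤ 4 * C * (|x| * m + h) := by
    have h1 : |W ^ 2 + x * (v * W)| ≤ s * (|x| * m + h) := by
      refine (abs_add_le _ _).trans ?_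
      rw [abs_mul x, abs_of_nonneg (sq_nonneg W)]
      have : |x| * |v * W| ≤ |x| * (s * m) := by gcongr
      have : W ^ 2 ≤ s * h := hW.trans (by gcongr)
      nlinarith
    rw [abs_mul, abs_mul, abs_mul 2 (W ^ 2 + x * (v * W)), abs_of_pos (by norm_num : (0 : ℝ) < 2)]
    calc 2 * |ds b x s| * (2 * |W ^ 2 + x * (v * W)|) ≤ 2 * |ds b x s| * (2 * (s * (|x| * m + h))) := by gcongr
      _ = 4 * (|ds b x s| * s) * (|x| * m + h) := by ring
      _ ≤ 4 * C * (|x| * m + h) := by gcongr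
  have a6 : |2 * b x s * (Z + v ^ 2 + x * H)| ≤ 2 * C * (h + t + g + |x| * m) := by
    rw [abs_mul, abs_mul, abs_of_pos (by norm_num : (0 : ℝ) < 2), abs_of_nonneg r4]
    have : |Z + v ^ 2 + x * H| ≤ h + t + g + |x| * m := by
      refine (abs_add_le _ _).trans (add_le_add ((abs_add_le _ _).trans (add_le_add hZ ?_)) ?_)
      · rw [abs_of_nonneg v2]; exact hv
      · rw [abs_mul]; gcongr
    gcongr
  have tot : |dx a x s * v ^ 2 + 2 * ds a x s * (v * W) + a x s * H +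
      dx b x s * (2 * (v * W + x * v ^ 2)) +
      2 * ds b x s * (2 * (W ^ 2 + x * (v * W))) +
      2 * b x s * (Z + v ^ 2 + x * H)| ≤ C * g + 2 * (C * r * m) + C * r * m +
      2 * C * (r * |x| + r * m) + 4 * C * (|x| * m + h) + 2 * C * (h + t + g + |x| * m) := by
    refine (abs_add_le _ _).trans (add_le_add ?_ a6)
    refine (abs_add_le _ _).trans (add_le_add ?_ a5)
    refine (abs_add_le _ _).trans (add_le_add ?_ a4)
    refine (abs_add_le _ _).trans (add_le_add ?_ a3)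
    exact (abs_add_le _ _).trans (add_le_add a1 a2)
  rw [← hs]
  refine tot.trans ?_
  have q1 : r * m ≤ (r ^ 2 + h) / 2 := by rw [← m2]; nlinarith [sq_nonneg (r - m)]
  have q2 : r * |x| ≤ r ^ 2 := by nlinarith
  have q3 : |x| * m ≤ (x ^ 2 + h) / 2 := by
    rw [← m2, ← sq_abs x]; nlinarith [sq_nonneg (|x| - m)]
  have q4 : r ^ 2 = x ^ 2 + g + e := by rw [r2, hs]; ring
  have x0 := sq_nonneg x
  have : C * g + 2 * (C * r * m) + C * r * m +
      2 * C * (r * |x| + r * m) + 4 * C * (|x| * m + h) + 2 * C * (h + t + g + |x| * m) =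
      C * (g + 5 * (r * m) + 2 * (r * |x|) + 6 * (|x| * m) + 6 * h + 2 * g + 2 * t) := by
    ring
  rw [this]
  have : 20 * C * (x ^ 2 + g + e + h + t) = C * (20 * (x ^ 2 + g + e + h + t)) := by ring
  rw [this]
  apply mul_le_mul_of_nonneg_left _ C0
  nlinarith

lemma V_bd {Φ : ℝ → ℝ} {a b : ℝ → ℝ → ℝ} {k C : ℝ} (F : Fld Φ a b k C) {e : ℝ} (he : 0 < e)
    (i : Fin d) (f : E d → ℝ) (y : E d) :
    |V a b e i f y| ≤ 6 * C * (f y ^ 2 + g2 f y + e + HS f y) := by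
  have hy := g2_nn f y
  have hh := HS_nn f y
  have C0 := F.C0
  have sp := pos he f y
  obtain ⟨r, hr⟩ : ∃ r, r = √(f y ^ 2 + (g2 f y + e)) := ⟨_, rfl⟩
  have r2 : r ^ 2 = f y ^ 2 + g2 f y + e := by rw [hr, Real.sq_sqrt (by positivity)]; ring
  have r0 : 0 ≤ r := by rw [hr]; positivity
  have xr : |f y| ≤ r := by rw [hr]; exact abs_le_r sp.le
  have vr : |D i f y| ≤ r := by
    apply abs_le_of_sq_le_sq _ r0
    rw [r2]; nlinarith [v_le f y i, sq_nonneg (f y)]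
  have b1 := F.b1 (f y) _ sp
  rw [← hr] at b1
  have b4 := F.b4 (f y) _ sp
  have r4 := F.r4 (f y) _ sp
  have W : |w i f y| ≤ (g2 f y + HS f y) / 2 := by
    apply abs_le_of_sq_le_sq _ (by positivity)
    nlinarith [w_le f y i, sq_nonneg (g2 f y - HS f y)]
  have h1 : |cp a e f y * D i f y| ≤ C * r * r := by
    rw [abs_mul]; exact mul_le_mul b1 vr (abs_nonneg _) (by positivity)
  have h2 : |cp b e f y * (2 * (w i f y + f y * D i f y))| ≤ C * (2 * ((g2 f y + HS f y) / 2 + r * r)) := by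
    rw [abs_mul]
    refine mul_le_mul ?_ ?_ (abs_nonneg _) C0
    · show |b _ _| ≤ C
      rw [abs_of_nonneg r4]; exact b4
    · rw [abs_mul, abs_of_pos (by norm_num : (0 : ℝ) < 2)]
      have : |w i f y + f y * D i f y| ≤ (g2 f y + HS f y) / 2 + r * r := by
        refine (abs_add_le _ _).trans (add_le_add W ?_)
        rw [abs_mul]; gcongr
      gcongr
  have h3 : |V a b e i f y| ≤ C * r * r + C * (2 * ((g2 f y + HS f y) / 2 + r * r)) :=
    (abs_add_le _ _).trans (add_le_add h1 h2)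
  refine h3.trans ?_
  have : C * r * r + C * (2 * ((g2 f y + HS f y) / 2 + r * r)) = C * (3 * r ^ 2 + g2 f y + HS f y) := by ring
  rw [this, r2]
  have x0 := sq_nonneg (f y)
  have : 6 * C * (f y ^ 2 + g2 f y + e + HS f y) = C * (6 * (f y ^ 2 + g2 f y + e + HS f y)) := by ring
  rw [this]
  apply mul_le_mul_of_nonneg_left _ C0
  nlinarith

/-- dimension two -/
lemma two {f : E 2 → ℝ} (h : ContDiff ℝ ∞ f) (hf : ∀ y, Lap f y = -f y) (y : E 2) :
    g2 f y * HS f y = 2 * R f y + 2 * f y * Q f y + f y ^ 2 * g2 f y := by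
  have e1 : D 0 (D 0 f) y + D 1 (D 1 f) y = -f y := by
    have := hf y
    unfold Lap at this
    rwa [Fin.sum_univ_two] at this
  have e2 : D 1 (D 0 f) y = D 0 (D 1 f) y := D_comm h 1 0 y
  have e3 : f y = -(D 0 (D 0 f) y + D 1 (D 1 f) y) := by linarith
  unfold g2 HS R Q
  simp only [Fin.sum_univ_two, w]
  rw [e2, e3]
  ring

section exp

variable {S : Type*} [MeasurableSpace S] {P : Measure S} {τ : E d → S → S}

lemma cp_sf {k : ℝ → ℝ → ℝ} (hk : ContDiffOn ℝ ∞ (fun p : ℝ × ℝ => k p.1 p.2) {p | 0 < p.2})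
    {e : ℝ} (he : 0 < e) {G : S → E d → ℝ} (h : SF τ G) : SF τ (fun s => cp k e (G s)) := by
  refine ⟨fun y => ?_, fun s => cp_sm hk he (h.smooth s), fun x s y => ?_⟩
  · have m1 : Measurable fun s => (G s y, g2 (G s) y + e) :=
      (h.meas y).prodMk (((g2_sf h).meas y).add_const e)
    have m2 : Measurable fun p : {p : ℝ × ℝ | 0 < p.2} => k p.1.1 p.1.2 :=
      (continuousOn_iff_continuous_restrict.1 hk.continuousOn).measurable
    exact m2.comp (m1.subtype_mk (h := fun s => pos he (G s) y))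
  · show k (G (τ x s) y) (g2 (G (τ x s)) y + e) = k (G s (y + x)) (g2 (G s) (y + x) + e)
    rw [h.cov, (g2_sf h).cov]

lemma V_sf {a b : ℝ → ℝ → ℝ} (ha : ContDiffOn ℝ ∞ (fun p : ℝ × ℝ => a p.1 p.2) {p | 0 < p.2})
    (hb : ContDiffOn ℝ ∞ (fun p : ℝ × ℝ => b p.1 p.2) {p | 0 < p.2})
    {e : ℝ} (he : 0 < e) {G : S → E d → ℝ} (h : SF τ G) (i : Fin d) :
    SF τ (fun s => V a b e i (G s)) := by
  have c : SF τ (fun (_ : S) (_ : E d) => (2 : ℝ)) :=
    ⟨fun _ => measurable_const, fun _ => contDiff_const, fun _ _ _ => rfl⟩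
  exact SF.add ((cp_sf ha he h).mul (h.der i))
    ((cp_sf hb he h).mul (c.mul (SF.add (w_sf h i) (h.mul (h.der i)))))

lemma Phi_bd {Φ : ℝ → ℝ} {L : ℝ} (hΦ : Cls Φ L) (x : ℝ) : |Φ x - Φ 0| ≤ L * x ^ 2 := by
  have L0 : 0 ≤ L := (abs_nonneg _).trans (hΦ.bd 0)
  have d1 : Differentiable ℝ Φ := hΦ.sm.differentiable (by simp)
  have s2 : ContDiff ℝ ∞ (deriv Φ) := (contDiff_infty_iff_deriv.1 hΦ.sm).2
  have d2 : Differentiable ℝ (deriv Φ) := s2.differentiable (by simp)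
  have z : deriv Φ 0 = 0 := by
    have h1 : deriv (fun x => Φ (-x)) 0 = -deriv Φ (-0) := deriv_comp_neg Φ 0
    have h2 : (fun x => Φ (-x)) = Φ := funext hΦ.ev
    rw [h2, neg_zero] at h1
    linarith
  have h1 : ∀ t, |deriv Φ t| ≤ L * |t| := by
    intro t
    have := (convex_univ (𝕜 := ℝ) (E := ℝ)).norm_image_sub_le_of_norm_deriv_le (f := deriv Φ) (C := L)
      (fun x _ => d2 x) (fun x _ => hΦ.bd x) (Set.mem_univ 0) (Set.mem_univ t)
    rw [z, sub_zero, sub_zero] at this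
    exact this
  have h2 := (convex_Icc (-|x|) |x|).norm_image_sub_le_of_norm_deriv_le (f := Φ) (C := L * |x|)
    (fun t _ => d1 t) (fun t ht => (h1 t).trans (by
      have : |t| ≤ |x| := abs_le.2 ht
      gcongr)) (x := 0) (y := x) ⟨by simp, by positivity⟩ ⟨neg_abs_le x, le_abs_self x⟩
  rw [sub_zero] at h2
  calc |Φ x - Φ 0| ≤ L * |x| * |x| := h2
    _ = L * x ^ 2 := by rw [mul_assoc, abs_mul_abs_self]; ring

theorem MM_integrable [IsProbabilityMeasure P] (hτ : ∀ x, MeasurePreserving (τ x) P P)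
    {G : S → E d → ℝ} (W : Wave P τ G) : Integrable (fun s => MM (G s) 0) P := by
  have := MM_int' hτ W 1 (by simpa using W.l2)
  simpa using this

lemma le_MM (f : E d → ℝ) (y : E d) : f y ^ 2 + g2 f y + HS f y ≤ MM f y := by
  have := TT_nn f y
  unfold MM; linarith

/-- **The inequality for stationary waves.** -/
theorem main [IsProbabilityMeasure P] (a2 : A2) (hτ : ∀ x, MeasurePreserving (τ x) P P)
    {G : S → E d → ℝ} (W : Wave P τ G) {Φ : ℝ → ℝ} {L : ℝ} (hΦ : Cls Φ L) {a b : ℝ → ℝ → ℝ} {k C : ℝ}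
    (F : Fld Φ a b k C)
    (hk : (k = 1 ∧ ∀ s, g2 (G s) 0 * HS (G s) 0 = 2 * R (G s) 0 + 2 * G s 0 * Q (G s) 0 +
      G s 0 ^ 2 * g2 (G s) 0) ∨ k = 1 / 2) :
    Integrable (fun s => Φ (G s 0)) P ∧ Integrable (fun s => mn Φ √(G s 0 ^ 2 + g2 (G s) 0)) P ∧
      ∫ s, mn Φ √(G s 0 ^ 2 + g2 (G s) 0) ∂P ≤ ∫ s, Φ (G s 0) ∂P := by
  obtain ⟨A1, A2', -, -⟩ := a2 Φ L hΦ
  have L0 : 0 ≤ L := (abs_nonneg _).trans (hΦ.bd 0)
  have IM := MM_integrable hτ W
  have C0 := F.C0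
  have m0 : Measurable fun s => G s 0 := W.sf.meas 0
  have mg : Measurable fun s => g2 (G s) 0 := (g2_sf W.sf).meas 0
  have cmn : Continuous (mn Φ) := by
    unfold mn
    refine Continuous.div_const ?_ _
    exact intervalIntegral.continuous_parametric_intervalIntegral_of_continuous'
      (f := fun r t => Φ (r * Real.cos t)) (hΦ.sm.continuous.comp (by fun_prop)) 0 Real.pi
  have iΦ : Integrable (fun s => Φ (G s 0)) P := by
    refine Integrable.mono' (g := fun s => |Φ 0| + L * G s 0 ^ 2)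
      ((integrable_const _).add (W.l2.const_mul L))
      (hΦ.sm.continuous.measurable.comp m0).aestronglyMeasurable (ae_of_all _ fun s => ?_)
    have := Phi_bd hΦ (G s 0)
    rw [Real.norm_eq_abs]
    calc |Φ (G s 0)| = |Φ 0 + (Φ (G s 0) - Φ 0)| := by ring_nf
      _ ≤ |Φ 0| + |Φ (G s 0) - Φ 0| := abs_add_le _ _
      _ ≤ _ := by gcongr
  have imn : Integrable (fun s => mn Φ √(G s 0 ^ 2 + g2 (G s) 0)) P := by
    refine Integrable.mono' (g := fun s => |Φ 0| + L / 2 * (G s 0 ^ 2 + g2 (G s) 0))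
      ((integrable_const _).add ((energy' hτ W).1.const_mul (L / 2)))
      (cmn.measurable.comp (((m0.pow_const 2).add mg).sqrt)).aestronglyMeasurable
      (ae_of_all _ fun s => ?_)
    have := A2' (G s 0 ^ 2 + g2 (G s) 0) (p_nn (G s) 0)
    rw [Real.norm_eq_abs]
    calc |mn Φ √(G s 0 ^ 2 + g2 (G s) 0)| = |Φ 0 + (mn Φ √(G s 0 ^ 2 + g2 (G s) 0) - Φ 0)| := by ring_nf
      _ ≤ |Φ 0| + |mn Φ √(G s 0 ^ 2 + g2 (G s) 0) - Φ 0| := abs_add_le _ _
      _ ≤ _ := by gcongr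
  refine ⟨iΦ, imn, ?_⟩
  -- the estimate with `e`
  have key : ∀ e : ℝ, 0 < e → ∫ s, mn Φ √(G s 0 ^ 2 + g2 (G s) 0) ∂P ≤
      (∫ s, Φ (G s 0) ∂P) + e * (5 * C * (1 + ∫ s, MM (G s) 0 ∂P) + L / 2) := by
    intro e he
    have i0 : ∀ i, Integrable (fun s => V a b e i (G s) 0) P := fun i => by
      refine Integrable.mono' ((IM.add (integrable_const e)).const_mul (6 * C))
        ((V_sf F.sa F.sb he W.sf i).meas 0).aestronglyMeasurable (ae_of_all _ fun s => ?_)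
      refine (V_bd F he i (G s) 0).trans ?_
      show 6 * C * (G s 0 ^ 2 + g2 (G s) 0 + e + HS (G s) 0) ≤ 6 * C * (MM (G s) 0 + e)
      have := le_MM (G s) 0
      gcongr ?_ * ?_
      linarith
    have hd : ∀ s, ∑ i, D i (V a b e i (G s)) 0 =
        dv a b e (G s 0) (g2 (G s) 0) (Q (G s) 0) (R (G s) 0) (HS (G s) 0) := fun s =>
      div_V F.sa F.sb he (W.sf.smooth s) (W.eq s) 0
    have i1 : ∀ i, Integrable (fun s => D i (V a b e i (G s)) 0) P := by
      intro i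
      refine Integrable.mono' ((IM.add (integrable_const e)).const_mul (40 * C))
        (((V_sf F.sa F.sb he W.sf i).der i).meas 0).aestronglyMeasurable (ae_of_all _ fun s => ?_)
      rw [Real.norm_eq_abs, D_V F.sa F.sb he (W.sf.smooth s)]
      have hZ : |D i (w i (G s)) 0| ≤ HS (G s) 0 + MM (G s) 0 := by
        rw [D_w (W.sf.smooth s), Finset.sum_add_distrib]
        refine (abs_add_le _ _).trans (add_le_add ?_ (t_le (G s) 0 i))
        rw [abs_of_nonneg (Finset.sum_nonneg fun j _ => sq_nonneg _)]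
        exact row_le (G s) 0 i
      refine (one_bd F he (g2_nn _ _) (HS_nn _ _) (zero_le_one.trans (MM_one _ _)) (v_le _ _ _) (w_le _ _ _)
        (h_le _ _ _ _) hZ).trans ?_
      show _ ≤ 40 * C * (MM (G s) 0 + e)
      have : G s 0 ^ 2 + g2 (G s) 0 + e + HS (G s) 0 + MM (G s) 0 ≤ 2 * (MM (G s) 0 + e) := by
        have := le_MM (G s) 0; linarith
      calc 20 * C * (G s 0 ^ 2 + g2 (G s) 0 + e + HS (G s) 0 + MM (G s) 0) ≤
            20 * C * (2 * (MM (G s) 0 + e)) := by gcongr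
        _ = _ := by ring
    have z : ∫ s, dv a b e (G s 0) (g2 (G s) 0) (Q (G s) 0) (R (G s) 0) (HS (G s) 0) ∂P = 0 := by
      simp only [← hd]
      rw [integral_finsetSum _ fun i _ => i1 i]
      exact Finset.sum_eq_zero fun i _ => div0 hτ (V_sf F.sa F.sb he W.sf i) i (i0 i) (i1 i)
    have iz : Integrable (fun s => dv a b e (G s 0) (g2 (G s) 0) (Q (G s) 0) (R (G s) 0)
        (HS (G s) 0)) P := by
      simp only [← hd]
      exact integrable_finsetSum _ fun i _ => i1 i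
    have pt : ∀ s, mn Φ √(G s 0 ^ 2 + g2 (G s) 0) - Φ (G s 0) - e * (5 * C * (1 + MM (G s) 0) + L / 2) ≤
        dv a b e (G s 0) (g2 (G s) 0) (Q (G s) 0) (R (G s) 0) (HS (G s) 0) := by
      intro s
      have h1 := alg F (x := G s 0) (y2 := g2 (G s) 0) (T := Q (G s) 0) (R2 := R (G s) 0)
        (h := HS (G s) 0) he (g2_nn _ _) (R_nn _ _) (HS_nn _ _) (Q_le _ _) (by
          rcases hk with ⟨h1, h2⟩ | h1
          · exact Or.inl ⟨h1, h2 s⟩
          · exact Or.inr ⟨h1, R_le _ _⟩)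
      refine le_trans ?_ h1
      have h2 := abs_le.1 (A1 (G s 0 ^ 2 + g2 (G s) 0) (G s 0 ^ 2 + (g2 (G s) 0 + e)) (p_nn (G s) 0)
        (by linarith))
      have h3 : G s 0 ^ 2 + HS (G s) 0 ≤ MM (G s) 0 := by
        have := le_MM (G s) 0; have := g2_nn (G s) 0; linarith
      have h4 : 5 * C * e * (1 + G s 0 ^ 2 + HS (G s) 0) ≤ e * (5 * C * (1 + MM (G s) 0)) := by
        have : 5 * C * e * (1 + G s 0 ^ 2 + HS (G s) 0) = e * (5 * C * (1 + (G s 0 ^ 2 + HS (G s) 0))) := by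
          ring
        rw [this]; gcongr
      have h5 : L / 2 * (G s 0 ^ 2 + (g2 (G s) 0 + e) - (G s 0 ^ 2 + g2 (G s) 0)) = L / 2 * e := by ring
      rw [h5] at h2
      linarith [h2.1]
    have iE : Integrable (fun s => e * (5 * C * (1 + MM (G s) 0) + L / 2)) P :=
      ((((integrable_const 1).add IM).const_mul (5 * C)).add (integrable_const _)).const_mul e
    have h6 : ∫ s, (mn Φ √(G s 0 ^ 2 + g2 (G s) 0) - Φ (G s 0) - e * (5 * C * (1 + MM (G s) 0) + L / 2)) ∂P ≤ 0 := by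
      rw [← z]
      exact integral_mono ((imn.sub iΦ).sub iE) iz pt
    have h6' : ∫ s, (mn Φ √(G s 0 ^ 2 + g2 (G s) 0) - Φ (G s 0) - e * (5 * C * (1 + MM (G s) 0) + L / 2)) ∂P =
        (∫ s, mn Φ √(G s 0 ^ 2 + g2 (G s) 0) ∂P) - (∫ s, Φ (G s 0) ∂P) -
          ∫ s, e * (5 * C * (1 + MM (G s) 0) + L / 2) ∂P := by
      rw [← integral_sub imn iΦ]
      exact integral_sub (imn.sub iΦ) iE
    rw [h6'] at h6
    have h7 : ∫ s, e * (5 * C * (1 + MM (G s) 0) + L / 2) ∂P =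
        e * (5 * C * (1 + ∫ s, MM (G s) 0 ∂P) + L / 2) := by
      have e1 : ∀ s, e * (5 * C * (1 + MM (G s) 0) + L / 2) =
          e * (5 * C + L / 2) + e * (5 * C) * MM (G s) 0 := fun s => by ring
      have e2 : ∫ s, e * (5 * C * (1 + MM (G s) 0) + L / 2) ∂P =
          ∫ s, (e * (5 * C + L / 2) + e * (5 * C) * MM (G s) 0) ∂P :=
        integral_congr_ae (ae_of_all _ e1)
      have e3 : ∫ s, (e * (5 * C + L / 2) + e * (5 * C) * MM (G s) 0) ∂P =
          (∫ s, e * (5 * C + L / 2) ∂P) + ∫ s, e * (5 * C) * MM (G s) 0 ∂P :=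
        integral_add (integrable_const _) (IM.const_mul _)
      have e4 : ∫ s, e * (5 * C) * MM (G s) 0 ∂P = e * (5 * C) * ∫ s, MM (G s) 0 ∂P :=
        integral_const_mul _ _
      have e5 : ∫ s, e * (5 * C + L / 2) ∂P = e * (5 * C + L / 2) := by
        rw [integral_const, probReal_univ, one_smul]
      rw [e2, e3, e4, e5]
      ring
    linarith
  obtain ⟨K, hK⟩ : ∃ K, K = 5 * C * (1 + ∫ s, MM (G s) 0 ∂P) + L / 2 := ⟨_, rfl⟩
  rw [← hK] at key
  refine le_of_forall_pos_le_add fun δ hδ => ?_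
  have h8 := key (δ / (|K| + 1)) (by positivity)
  have h9 : δ / (|K| + 1) * K ≤ δ := by
    rw [div_mul_eq_mul_div, div_le_iff₀ (by positivity)]
    have := le_abs_self K
    nlinarith
  linarith

end exp

end St

end

end Pool.Agent.Q73.PW
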