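import Pool.Agent.Q73.PW.St2

/-!
# Project PW: stationary waves, general fields, powers
-/

set_option autoImplicit false
open MeasureTheory Filter Topology
open scoped ContDiff ENNReal

namespace Pool.Agent.Q73.PW

open Pool.Agent.Y139.SW Pool.Agent.Q73.SM

noncomputable section

namespace St

variable {d : ℕ} {S : Type*} [MeasurableSpace S] {P : Measure S}

/-- the hypotheses on a stationary field -/
structure SW (P : Measure S) (F : S → E d → ℝ) : Prop where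
  pr : IsProbabilityMeasure P
  mF : ∀ y, Measurable fun s => F s y
  sF : ∀ s, ContDiff ℝ ∞ (F s)
  eF : ∀ s y, Lap (F s) y + F s y = 0
  st : ∀ x : E d, P.map (fun s y => F s (y + x)) = P.map (fun s y => F s y)
  l2 : Integrable (fun s => F s 0 ^ 2) P

/-- what is true for `Φ` -/
def Concl (P : Measure S) (F : S → E d → ℝ) (Φ : ℝ → ℝ) : Prop :=
  Integrable (fun s => Φ (F s 0)) P ∧ Integrable (fun s => mn Φ √(F s 0 ^ 2 + g2 (F s) 0)) P ∧
    mn Φ √(2 * ∫ s, F s 0 ^ 2 ∂P) ≤ ∫ s, mn Φ √(F s 0 ^ 2 + g2 (F s) 0) ∂P ∧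
    ∫ s, mn Φ √(F s 0 ^ 2 + g2 (F s) 0) ∂P ≤ ∫ s, Φ (F s 0) ∂P

lemma mn_cont {Φ : ℝ → ℝ} (h : Continuous Φ) : Continuous (mn Φ) := by
  unfold mn
  refine Continuous.div_const ?_ _
  exact intervalIntegral.continuous_parametric_intervalIntegral_of_continuous'
    (f := fun r t => Φ (r * Real.cos t)) (h.comp (by fun_prop)) 0 Real.pi

/-- transfer -/
theorem tr {F : S → E d → ℝ} (h : SW P F) {Φ : ℝ → ℝ} {L : ℝ} (hΦ : Cls Φ L) (a2 : A2) (hM : M0 Φ)
    (H : ∀ (S' : Type) [MeasurableSpace S'] (P' : Measure S') (τ : E d → S' → S')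
      (G : S' → E d → ℝ), IsProbabilityMeasure P' → (∀ x, MeasurePreserving (τ x) P' P') →
      Wave P' τ G → Integrable (fun s => Φ (G s 0)) P' ∧
        Integrable (fun s => mn Φ √(G s 0 ^ 2 + g2 (G s) 0)) P' ∧
        ∫ s, mn Φ √(G s 0 ^ 2 + g2 (G s) 0) ∂P' ≤ ∫ s, Φ (G s 0) ∂P') : Concl P F Φ := by
  have := h.pr
  obtain ⟨Ψ, v1, mΨ, hQ, hτ, W⟩ := canon h.mF h.sF h.eF h.st h.l2
  obtain ⟨i1, i2, i3⟩ := H _ _ _ _ hQ hτ W
  have m0 : Measurable fun f : Sp d => f.1 0 := W.m0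
  have mg : Measurable fun f : Sp d => g2 f.1 0 := (g2_sf W.sf).meas 0
  have cΦ := hΦ.sm.continuous
  have mA : Measurable fun f : Sp d => Φ (f.1 0) := cΦ.measurable.comp m0
  have mB : Measurable fun f : Sp d => mn Φ √(f.1 0 ^ 2 + g2 f.1 0) :=
    (mn_cont cΦ).measurable.comp ((m0.pow_const 2).add mg).sqrt
  have j1 : Integrable (fun s => Φ (F s 0)) P := by
    refine ((integrable_map_measure mA.aestronglyMeasurable mΨ.aemeasurable).1 i1).congr
      (ae_of_all _ fun s => ?_)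
    show Φ ((Ψ s).1 0) = _
    rw [v1]
  have j2 : Integrable (fun s => mn Φ √(F s 0 ^ 2 + g2 (F s) 0)) P := by
    refine ((integrable_map_measure mB.aestronglyMeasurable mΨ.aemeasurable).1 i2).congr
      (ae_of_all _ fun s => ?_)
    show mn Φ √((Ψ s).1 0 ^ 2 + g2 (Ψ s).1 0) = _
    rw [v1]
  have j3 : ∫ s, mn Φ √(F s 0 ^ 2 + g2 (F s) 0) ∂P ≤ ∫ s, Φ (F s 0) ∂P := by
    rw [integral_map mΨ.aemeasurable mA.aestronglyMeasurable,
      integral_map mΨ.aemeasurable mB.aestronglyMeasurable] at i3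
    simpa only [v1] using i3
  refine ⟨j1, j2, ?_, j3⟩
  obtain ⟨e1, e2⟩ := energy' hτ W
  have mE : Measurable fun f : Sp d => f.1 0 ^ 2 + g2 f.1 0 := (m0.pow_const 2).add mg
  have k1 : Integrable (fun s => F s 0 ^ 2 + g2 (F s) 0) P := by
    refine ((integrable_map_measure mE.aestronglyMeasurable mΨ.aemeasurable).1 e1).congr
      (ae_of_all _ fun s => ?_)
    show (Ψ s).1 0 ^ 2 + g2 (Ψ s).1 0 = _
    rw [v1]
  have k2 : ∫ s, (F s 0 ^ 2 + g2 (F s) 0) ∂P = 2 * ∫ s, F s 0 ^ 2 ∂P := by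
    rw [integral_map mΨ.aemeasurable mE.aestronglyMeasurable,
      integral_map mΨ.aemeasurable (m0.pow_const 2).aestronglyMeasurable] at e2
    simpa only [v1] using e2
  obtain ⟨-, -, cv, -⟩ := a2 Φ L hΦ
  rw [← k2]
  have cmn : Continuous fun p : ℝ => mn Φ √p := (mn_cont cΦ).comp Real.continuous_sqrt
  exact (cv hM).map_integral_le (f := fun s => F s 0 ^ 2 + g2 (F s) 0) cmn.continuousOn isClosed_Ici
    (ae_of_all _ fun s => p_nn (F s) 0) k1 j2

theorem gen (j5 : J5) (j3 : J3) (a2 : A2) {F : S → E d → ℝ} (h : SW P F) {Φ : ℝ → ℝ} {L : ℝ}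
    (hΦ : Cls Φ L) (hM : M2 Φ) : Concl P F Φ := by
  obtain ⟨m0, m1⟩ := (j3 Φ hΦ.sm hΦ.ev).2.2.2.2.2.1 hM
  obtain ⟨C, hF⟩ := (j5 Φ L hΦ).2 hM
  refine tr h hΦ a2 m0 fun S' _ P' τ G hP hτ W => ?_
  exact main a2 hτ W hΦ hF (Or.inr rfl)

theorem gen2 (j5 : J5) (a2 : A2) {F : S → E 2 → ℝ} (h : SW P F) {Φ : ℝ → ℝ} {L : ℝ}
    (hΦ : Cls Φ L) (m0 : M0 Φ) (m1 : M1 Φ) : Concl P F Φ := by
  obtain ⟨C, hF⟩ := (j5 Φ L hΦ).1 m0 m1
  refine tr h hΦ a2 m0 fun S' _ P' τ G hP hτ W => ?_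
  exact main a2 hτ W hΦ hF (Or.inl ⟨rfl, fun s => two (W.sf.smooth s) (W.eq s) 0⟩)

/-- measurability and integrability of the energy -/
theorem en {F : S → E d → ℝ} (h : SW P F) : Measurable (fun s => F s 0) ∧
    Measurable (fun s => g2 (F s) 0) ∧ Integrable (fun s => F s 0 ^ 2 + g2 (F s) 0) P ∧
    ∫ s, (F s 0 ^ 2 + g2 (F s) 0) ∂P = 2 * ∫ s, F s 0 ^ 2 ∂P := by
  have := h.pr
  obtain ⟨Ψ, v1, mΨ, hQ, hτ, W⟩ := canon h.mF h.sF h.eF h.st h.l2
  have m0 : Measurable fun f : Sp d => f.1 0 := W.m0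
  have mg : Measurable fun f : Sp d => g2 f.1 0 := (g2_sf W.sf).meas 0
  obtain ⟨e1, e2⟩ := energy' hτ W
  have mE : Measurable fun f : Sp d => f.1 0 ^ 2 + g2 f.1 0 := (m0.pow_const 2).add mg
  refine ⟨h.mF 0, ?_, ?_, ?_⟩
  · have h1 := mg.comp mΨ
    have h2 : (fun s => g2 (F s) 0) = (fun f : Sp d => g2 f.1 0) ∘ Ψ := by
      funext s
      show _ = g2 (Ψ s).1 0
      rw [v1]
    rw [h2]
    exact h1
  · refine ((integrable_map_measure mE.aestronglyMeasurable mΨ.aemeasurable).1 e1).congr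
      (ae_of_all _ fun s => ?_)
    show (Ψ s).1 0 ^ 2 + g2 (Ψ s).1 0 = _
    rw [v1]
  · rw [integral_map mΨ.aemeasurable mE.aestronglyMeasurable,
      integral_map mΨ.aemeasurable (m0.pow_const 2).aestronglyMeasurable] at e2
    simpa only [v1] using e2

/-- abstract step, `0 < q < 2` -/
theorem pow_low (a1 : A1) {F : S → E d → ℝ} (h : SW P F) {q : ℝ} (q0 : 0 < q) (q2 : q < 2)
    (H : ∀ δ : ℝ, 0 < δ → Concl P F (fun x => -(x ^ 2 + δ) ^ (q / 2))) :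
    Integrable (fun s => |F s 0| ^ q) P ∧ Integrable (fun s => (F s 0 ^ 2 + g2 (F s) 0) ^ (q / 2)) P ∧
    ∫ s, |F s 0| ^ q ∂P ≤ kap q * ∫ s, (F s 0 ^ 2 + g2 (F s) 0) ^ (q / 2) ∂P ∧
    ∫ s, (F s 0 ^ 2 + g2 (F s) 0) ^ (q / 2) ∂P ≤ (2 * ∫ s, F s 0 ^ 2 ∂P) ^ (q / 2) := by
  have := h.pr
  obtain ⟨m0, mg, iE, eE⟩ := en h
  have nnP : ∀ s, 0 ≤ F s 0 ^ 2 + g2 (F s) 0 := fun s => p_nn (F s) 0
  have low : ∀ x : ℝ, 0 ≤ x → x ^ (q / 2) ≤ 1 + x := by
    intro x hx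
    rcases le_total x 1 with h1 | h1
    · have := Real.rpow_le_one hx h1 (by positivity : 0 ≤ q / 2); linarith
    · have : x ^ (q / 2) ≤ x ^ (1 : ℝ) := Real.rpow_le_rpow_of_exponent_le h1 (by linarith)
      rw [Real.rpow_one] at this; linarith
  have absq : ∀ x : ℝ, |x| ^ q = (x ^ 2) ^ (q / 2) := by
    intro x
    rw [← sq_abs, ← Real.rpow_natCast, ← Real.rpow_mul (abs_nonneg x)]
    congr 1; push_cast; ring
  have iq : Integrable (fun s => |F s 0| ^ q) P := by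
    refine Integrable.mono' (g := fun s => 1 + F s 0 ^ 2) ((integrable_const _).add h.l2)
      ((m0.abs).pow_const q).aestronglyMeasurable (ae_of_all _ fun s => ?_)
    rw [Real.norm_eq_abs, abs_of_nonneg (by positivity), absq]
    exact low _ (sq_nonneg _)
  have iP : Integrable (fun s => (F s 0 ^ 2 + g2 (F s) 0) ^ (q / 2)) P := by
    refine Integrable.mono' (g := fun s => 1 + (F s 0 ^ 2 + g2 (F s) 0)) ((integrable_const _).add iE)
      (((m0.pow_const 2).add mg).pow_const _).aestronglyMeasurable (ae_of_all _ fun s => ?_)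
    rw [Real.norm_eq_abs, abs_of_nonneg (Real.rpow_nonneg (nnP s) _)]
    exact low _ (nnP s)
  refine ⟨iq, iP, ?_, ?_⟩
  · have key : ∀ δ : ℝ, 0 < δ → ∫ s, |F s 0| ^ q ∂P ≤
        kap q * (∫ s, (F s 0 ^ 2 + g2 (F s) 0) ^ (q / 2) ∂P) + δ ^ (q / 2) := by
      intro δ hδ
      obtain ⟨c1, c2, -, c4⟩ := H δ hδ
      have n1 : ∀ r, mn (fun x : ℝ => -(x ^ 2 + δ) ^ (q / 2)) r = -mn (fun x : ℝ => (x ^ 2 + δ) ^ (q / 2)) r := by
        intro r
        unfold mn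
        rw [intervalIntegral.integral_neg, neg_div]
      have d1 : ∫ s, (F s 0 ^ 2 + δ) ^ (q / 2) ∂P ≤
          ∫ s, mn (fun x : ℝ => (x ^ 2 + δ) ^ (q / 2)) √(F s 0 ^ 2 + g2 (F s) 0) ∂P := by
        simp only [n1] at c4
        rw [integral_neg, integral_neg] at c4
        linarith
      have i3 : Integrable (fun s => (F s 0 ^ 2 + δ) ^ (q / 2)) P := by
        simpa using c1.neg
      have i4 : Integrable (fun s => mn (fun x : ℝ => (x ^ 2 + δ) ^ (q / 2)) √(F s 0 ^ 2 + g2 (F s) 0)) P := by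
        simp only [n1] at c2
        simpa using c2.neg
      have d2 : ∫ s, |F s 0| ^ q ∂P ≤ ∫ s, (F s 0 ^ 2 + δ) ^ (q / 2) ∂P := by
        refine integral_mono iq i3 fun s => ?_
        show |F s 0| ^ q ≤ (F s 0 ^ 2 + δ) ^ (q / 2)
        rw [absq]
        exact Real.rpow_le_rpow (sq_nonneg _) (by linarith) (by positivity)
      have d3 : ∫ s, mn (fun x : ℝ => (x ^ 2 + δ) ^ (q / 2)) √(F s 0 ^ 2 + g2 (F s) 0) ∂P ≤
          ∫ s, (kap q * (F s 0 ^ 2 + g2 (F s) 0) ^ (q / 2) + δ ^ (q / 2)) ∂P := by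
        refine integral_mono i4 ((iP.const_mul _).add (integrable_const _)) fun s => ?_
        have := a1.2.2.1 q δ √(F s 0 ^ 2 + g2 (F s) 0) q0 q2 hδ (Real.sqrt_nonneg _)
        have e : √(F s 0 ^ 2 + g2 (F s) 0) ^ q = (F s 0 ^ 2 + g2 (F s) 0) ^ (q / 2) := by
          rw [Real.sqrt_eq_rpow, ← Real.rpow_mul (nnP s)]
          congr 1; ring
        rw [e] at this
        exact this
      rw [integral_add (iP.const_mul _) (integrable_const _), integral_const_mul, integral_const,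
        probReal_univ, one_smul] at d3
      linarith
    have ht : Tendsto (fun δ : ℝ => kap q * (∫ s, (F s 0 ^ 2 + g2 (F s) 0) ^ (q / 2) ∂P) + δ ^ (q / 2))
        (𝓝[>] 0) (𝓝 (kap q * (∫ s, (F s 0 ^ 2 + g2 (F s) 0) ^ (q / 2) ∂P) + 0)) := by
      refine tendsto_const_nhds.add ?_
      have h1 : Tendsto (fun δ : ℝ => δ ^ (q / 2)) (𝓝 0) (𝓝 (0 ^ (q / 2))) :=
        (Real.continuousAt_rpow_const 0 (q / 2) (Or.inr (by positivity))).tendsto
      rw [Real.zero_rpow (by positivity)] at h1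
      exact h1.mono_left nhdsWithin_le_nhds
    rw [add_zero] at ht
    exact ge_of_tendsto ht (eventually_mem_nhdsWithin.mono fun δ hδ => key δ hδ)
  · rw [← eE]
    exact (Real.concaveOn_rpow (by positivity : (0 : ℝ) ≤ q / 2) (by linarith)).le_map_integral
      (f := fun s => F s 0 ^ 2 + g2 (F s) 0)
      (Real.continuous_rpow_const (by positivity)).continuousOn isClosed_Ici (ae_of_all _ nnP) iE iP

/-- abstract step, `q > 2` -/
theorem pow_high (a1 : A1) (p2 : P2) {F : S → E d → ℝ} (h : SW P F) {q : ℝ} (hq : 2 < q)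
    (H : ∀ (Φ : ℝ → ℝ) (L : ℝ), Cls Φ L → M2 Φ → Concl P F Φ) :
    ENNReal.ofReal (kap q * (2 * ∫ s, F s 0 ^ 2 ∂P) ^ (q / 2)) ≤
      ENNReal.ofReal (kap q) * ∫⁻ s, ENNReal.ofReal ((F s 0 ^ 2 + g2 (F s) 0) ^ (q / 2)) ∂P ∧
    ENNReal.ofReal (kap q) * ∫⁻ s, ENNReal.ofReal ((F s 0 ^ 2 + g2 (F s) 0) ^ (q / 2)) ∂P ≤
      ∫⁻ s, ENNReal.ofReal (|F s 0| ^ q) ∂P := by
  have := h.pr
  obtain ⟨m0, mg, iE, eE⟩ := en h
  have nnP : ∀ s, 0 ≤ F s 0 ^ 2 + g2 (F s) 0 := fun s => p_nn (F s) 0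
  have k0 := a1.2.1 q (by linarith)
  have mP : Measurable fun s => (F s 0 ^ 2 + g2 (F s) 0) ^ (q / 2) := ((m0.pow_const 2).add mg).pow_const _
  constructor
  · rw [ENNReal.ofReal_mul k0.le]
    gcongr
    by_cases hfin : ∫⁻ s, ENNReal.ofReal ((F s 0 ^ 2 + g2 (F s) 0) ^ (q / 2)) ∂P = ⊤
    · rw [hfin]; exact le_top
    · have iP : Integrable (fun s => (F s 0 ^ 2 + g2 (F s) 0) ^ (q / 2)) P := by
        refine ⟨mP.aestronglyMeasurable, ?_⟩
        rw [hasFiniteIntegral_iff_ofReal (ae_of_all _ fun s => Real.rpow_nonneg (nnP s) _)]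
        exact lt_top_iff_ne_top.2 hfin
      rw [← ofReal_integral_eq_lintegral_ofReal iP (ae_of_all _ fun s => Real.rpow_nonneg (nnP s) _)]
      apply ENNReal.ofReal_le_ofReal
      rw [← eE]
      exact (convexOn_rpow (by linarith : (1 : ℝ) ≤ q / 2)).map_integral_le
        (f := fun s => F s 0 ^ 2 + g2 (F s) 0)
        (Real.continuous_rpow_const (by linarith)).continuousOn isClosed_Ici (ae_of_all _ nnP) iE iP
  · have hch : ∀ n : ℕ, ∃ (Φ : ℝ → ℝ) (L : ℝ), Cls Φ L ∧ M2 Φ ∧ (∀ x, 0 ≤ Φ x) ∧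
        (∀ x, Φ x ≤ |x| ^ q) ∧ ∀ r : ℝ, 0 ≤ r → r ≤ n + 1 → kap q * r ^ q - 1 / (n + 1) ≤ mn Φ r := fun n =>
      p2 q (n + 1) (1 / (n + 1)) hq (by positivity) (by positivity)
    choose Φ L c1 c2 c3 c4 c5 using hch
    have mm : ∀ n, Measurable fun s => ENNReal.ofReal (mn (Φ n) √(F s 0 ^ 2 + g2 (F s) 0)) := fun n =>
      ((mn_cont (c1 n).sm.continuous).measurable.comp ((m0.pow_const 2).add mg).sqrt).ennreal_ofReal
    have pt : ∀ s, ENNReal.ofReal (kap q) * ENNReal.ofReal ((F s 0 ^ 2 + g2 (F s) 0) ^ (q / 2)) ≤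
        liminf (fun n => ENNReal.ofReal (mn (Φ n) √(F s 0 ^ 2 + g2 (F s) 0))) atTop := by
      intro s
      rw [← ENNReal.ofReal_mul k0.le]
      obtain ⟨r, hr⟩ : ∃ r, r = √(F s 0 ^ 2 + g2 (F s) 0) := ⟨_, rfl⟩
      have r0 : 0 ≤ r := by rw [hr]; positivity
      have e : (F s 0 ^ 2 + g2 (F s) 0) ^ (q / 2) = r ^ q := by
        rw [hr, Real.sqrt_eq_rpow, ← Real.rpow_mul (nnP s)]
        congr 1; ring
      rw [e, ← hr]
      have t1 : Tendsto (fun n : ℕ => ENNReal.ofReal (kap q * r ^ q - 1 / ((n : ℝ) + 1))) atTop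
          (𝓝 (ENNReal.ofReal (kap q * r ^ q - 0))) :=
        (ENNReal.continuous_ofReal.tendsto _).comp
          (tendsto_const_nhds.sub tendsto_one_div_add_atTop_nhds_zero_nat)
      rw [sub_zero] at t1
      rw [← t1.liminf_eq]
      refine liminf_le_liminf ?_
      obtain ⟨N, hN⟩ := exists_nat_ge r
      filter_upwards [eventually_ge_atTop N] with n hn
      apply ENNReal.ofReal_le_ofReal
      refine c5 n r r0 ?_
      have : (N : ℝ) ≤ n := by exact_mod_cast hn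
      linarith
    calc ENNReal.ofReal (kap q) * ∫⁻ s, ENNReal.ofReal ((F s 0 ^ 2 + g2 (F s) 0) ^ (q / 2)) ∂P =
          ∫⁻ s, ENNReal.ofReal (kap q) * ENNReal.ofReal ((F s 0 ^ 2 + g2 (F s) 0) ^ (q / 2)) ∂P :=
          (lintegral_const_mul _ mP.ennreal_ofReal).symm
      _ ≤ ∫⁻ s, liminf (fun n => ENNReal.ofReal (mn (Φ n) √(F s 0 ^ 2 + g2 (F s) 0))) atTop ∂P :=
          lintegral_mono pt
      _ ≤ liminf (fun n => ∫⁻ s, ENNReal.ofReal (mn (Φ n) √(F s 0 ^ 2 + g2 (F s) 0)) ∂P) atTop :=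
          lintegral_liminf_le mm
      _ ≤ ∫⁻ s, ENNReal.ofReal (|F s 0| ^ q) ∂P := by
          refine (liminf_le_liminf (Eventually.of_forall fun n => ?_)).trans
            (liminf_const (∫⁻ s, ENNReal.ofReal (|F s 0| ^ q) ∂P)).le
          obtain ⟨d1, d2, -, d4⟩ := H (Φ n) (L n) (c1 n) (c2 n)
          have nn : ∀ r, 0 ≤ mn (Φ n) r := by
            intro r
            unfold mn
            refine div_nonneg ?_ Real.pi_pos.le
            exact intervalIntegral.integral_nonneg Real.pi_pos.le fun t _ => c3 n _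
          calc ∫⁻ s, ENNReal.ofReal (mn (Φ n) √(F s 0 ^ 2 + g2 (F s) 0)) ∂P =
                ENNReal.ofReal (∫ s, mn (Φ n) √(F s 0 ^ 2 + g2 (F s) 0) ∂P) :=
                (ofReal_integral_eq_lintegral_ofReal d2 (ae_of_all _ fun s => nn _)).symm
            _ ≤ ENNReal.ofReal (∫ s, Φ n (F s 0) ∂P) := ENNReal.ofReal_le_ofReal d4
            _ = ∫⁻ s, ENNReal.ofReal (Φ n (F s 0)) ∂P :=
                ofReal_integral_eq_lintegral_ofReal d1 (ae_of_all _ fun s => c3 n _)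
            _ ≤ ∫⁻ s, ENNReal.ofReal (|F s 0| ^ q) ∂P :=
                lintegral_mono fun s => ENNReal.ofReal_le_ofReal (c4 n _)

end St

end

end Pool.Agent.Q73.PW
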