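import Pool.Agent.Q73.PW.Stm2

/-!
# Project PW: statements for surfaces, all functions `Φ`
-/

set_option autoImplicit false
open MeasureTheory Filter Topology Real
open scoped ContDiff ENNReal

namespace Pool.Agent.Q73.PW

noncomputable section

open Pool.Agent.Results.MP_a52643_an.AbsoluteContinuity (lapl LocL2 Test)
open Pool.Agent.Results.MP_a52643_an.SharpNodalLength (IsothermalAtlas IsEigenfunction)

universe w v

/-- J15: cutting an open subset of a surface into test functions supported in charts.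

Proof. Countably many of the sets `D ∩ φ_j (U_j)` cover `D` (Lindelöf). Cut `D` into disjoint Borel sets
`E_j ⊆ φ_j (U_j)`, choose finitely many compact `K_j ⊆ E_j` with `area (D \ ⋃ K_j) ≤ ε` (inner regularity in the chart),
disjoint open `W_j ⊇ K_j` inside `D ∩ φ_j (U_j)`, `V_j = U_j ∩ φ_j⁻¹ (W_j)`, test functions `χ_j` with
`1 ≤ χ_j` on `φ_j⁻¹ (K_j)`, `χ_j ≤ 1`, and `w_j = χ_j ∘ φ_j⁻¹` on `φ_j (V_j)`, `0` elsewhere. -/
def J15 : Prop := ∀ (M : Type w) (ι : Type v) [TopologicalSpace M] [T2Space M]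
  [SecondCountableTopology M] [MeasurableSpace M] [BorelSpace M] (U : ι → Set ℂ) (φ : ι → ℂ → M)
  (ρ : ι → ℂ → ℝ) (area len : Measure M), IsothermalAtlas U φ ρ area len →
  ∀ D : Set M, IsOpen D → area D ≠ ⊤ → ∀ ε : ℝ, 0 < ε →
    ∃ (m : ℕ) (i : Fin m → ι) (V : Fin m → Set ℂ) (χ : Fin m → ℂ → ℝ) (w : Fin m → M → ℝ),
      (∀ j, IsOpen (V j) ∧ V j ⊆ U (i j) ∧ φ (i j) '' V j ⊆ D ∧ Test (V j) (χ j)) ∧
      (∀ j, Measurable (w j)) ∧ (∀ j x, 0 ≤ w j x) ∧ (∀ x, ∑ j, w j x ≤ 1) ∧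
      ∫ x in D, (1 - ∑ j, w j x) ∂area ≤ ε ∧
      ∀ j (g : M → ℝ), Measurable g →
        ∫ x in D, w j x * g x ∂area = ∫ z, χ j z * ρ (i j) z * g (φ (i j) z)

/-- J16: the sequence in a chart.

Proof. `∫_K (f ∘ φ)² ≤ (min_K ρ)⁻¹ ∫_K ρ (f ∘ φ)² = (min_K ρ)⁻¹ ∫_{φ (K)} f² d area ≤ (min_K ρ)⁻¹ B`. The function
`f n` is continuous, as it is continuous in the charts. -/
def J16 : Prop := ∀ (M : Type w) (ι : Type v) [TopologicalSpace M] [T2Space M]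
  [SecondCountableTopology M] [MeasurableSpace M] [BorelSpace M] (U : ι → Set ℂ) (φ : ι → ℂ → M)
  (ρ : ι → ℂ → ℝ) (area len : Measure M), IsothermalAtlas U φ ρ area len →
  (∀ i, ContDiffOn ℝ ∞ (ρ i) (U i)) →
  ∀ (lam : ℕ → ℝ) (f : ℕ → M → ℝ) (D : Set M) (B : ℝ), Tendsto lam atTop atTop →
    (∀ n, IsEigenfunction U φ ρ (lam n) (f n)) → IsOpen D →
    (∀ n, ∫⁻ x in D, ENNReal.ofReal (f n x ^ 2) ∂area ≤ ENNReal.ofReal B) →
    (∀ n, Measurable (f n)) ∧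
    ∀ (i : ι) (V : Set ℂ), IsOpen V → V ⊆ U i → φ i '' V ⊆ D →
      Seq V (ρ i) lam (fun n z => f n (φ i z))

end

end Pool.Agent.Q73.PW
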